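import Pool.Agent.helper5.NBSSpecial

/-! From a special configuration to very general points. -/

set_option autoImplicit false

open MvPolynomial

namespace Pool.Agent.helper5.NBS

/-- coordinates on the space of `r`-tuples of points -/
abbrev PtRing (r : ℕ) := MvPolynomial (Fin r × Fin 2) ℂ

/-- translation by the generic `i`-th point -/
noncomputable def transG {r : ℕ} (i : Fin r) : R2 →+* MvPolynomial (Fin 2) (PtRing r) :=
  eval₂Hom ((C : PtRing r →+* MvPolynomial (Fin 2) (PtRing r)).comp (C : ℂ →+* PtRing r))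
    (fun j => X j + C (X (i, j)))

/-- evaluation at an `r`-tuple -/
noncomputable def evP {r : ℕ} (p : Fin r → Fin 2 → ℂ) : PtRing r →+* ℂ :=
  eval (fun ij : Fin r × Fin 2 => p ij.1 ij.2)

lemma evP_coeff {r : ℕ} (p : Fin r → Fin 2 → ℂ) (i : Fin r) (n : Fin 2 →₀ ℕ) (F : R2) :
    evP p (coeff n (transG i F)) = coeff n (trans (p i) F) := by
  rw [← coeff_map]
  congr 1
  have : (MvPolynomial.map (evP p)).comp (transG i) = (trans (p i) : R2 →+* R2) := by
    apply MvPolynomial.ringHom_ext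
    · intro c
      simp [transG, trans_C, evP]
    · intro j
      simp [transG, trans_X, evP]
  exact congrArg (fun f : R2 →+* R2 => f F) this

/-- the matrix of conditions -/
noncomputable def condMat {r : ℕ} (D : Finset (Fin 2 →₀ ℕ)) (m : Fin r → ℕ) :
    Matrix (Σ i : Fin r, {n : Fin 2 →₀ ℕ // n.degree < m i}) D (PtRing r) :=
  fun x k => coeff x.2.1 (transG x.1 (monomial k.1 1))

/-- the polynomial with given coefficients -/
noncomputable def polyOf (D : Finset (Fin 2 →₀ ℕ)) (c : D → ℂ) : R2 := ∑ k, monomial k.1 (c k)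

lemma coeff_polyOf (D : Finset (Fin 2 →₀ ℕ)) (c : D → ℂ) (k : D) :
    coeff k.1 (polyOf D c) = c k := by
  classical
  rw [polyOf, coeff_sum]
  simp only [coeff_monomial]
  rw [Finset.sum_eq_single k]
  · simp
  · intro l _ hl
    rw [if_neg]
    intro h
    exact hl (Subtype.ext h)
  · intro h
    exact absurd (Finset.mem_univ k) h

lemma support_polyOf (D : Finset (Fin 2 →₀ ℕ)) (c : D → ℂ) : (polyOf D c).support ⊆ D := by
  classical
  intro n hn
  rw [polyOf] at hn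
  have := MvPolynomial.support_sum hn
  rw [Finset.mem_biUnion] at this
  obtain ⟨k, _, hk⟩ := this
  have := support_monomial_subset hk
  rw [Finset.mem_singleton] at this
  rw [this]
  exact k.2

lemma polyOf_support (F : R2) : polyOf F.support (fun k => coeff k.1 F) = F := by
  conv_rhs => rw [F.as_sum]
  rw [polyOf, ← Finset.sum_coe_sort F.support (fun k => monomial k (coeff k F))]

lemma condMat_mulVec {r : ℕ} (D : Finset (Fin 2 →₀ ℕ)) (m : Fin r → ℕ) (p : Fin r → Fin 2 → ℂ)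
    (c : D → ℂ) (x : Σ i : Fin r, {n : Fin 2 →₀ ℕ // n.degree < m i}) :
    (((condMat D m).map (evP p)).mulVec c) x = coeff x.2.1 (trans (p x.1) (polyOf D c)) := by
  rw [Matrix.mulVec, dotProduct, polyOf, map_sum, coeff_sum]
  apply Finset.sum_congr rfl
  intro k _
  rw [Matrix.map_apply, condMat, evP_coeff]
  have : (monomial k.1 (c k) : R2) = C (c k) * monomial k.1 1 := by
    rw [C_mul_monomial, mul_one]
  rw [this, map_mul, trans_C, coeff_C_mul, mul_comm]

lemma mulVec_eq_zero_iff {r : ℕ} (D : Finset (Fin 2 →₀ ℕ)) (m : Fin r → ℕ)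
    (p : Fin r → Fin 2 → ℂ) (c : D → ℂ) :
    ((condMat D m).map (evP p)).mulVec c = 0 ↔ ∀ i, polyOf D c ∈ ptIdeal (p i) ^ m i := by
  constructor
  · intro h i
    rw [mem_ptIdeal_pow]
    intro n hn
    have := congrFun h ⟨i, ⟨n, hn⟩⟩
    rwa [condMat_mulVec] at this
  · intro h
    funext x
    rw [condMat_mulVec]
    exact (mem_ptIdeal_pow.mp (h x.1)) _ x.2.2

lemma exists_minor {r : ℕ} (D : Finset (Fin 2 →₀ ℕ)) (m : Fin r → ℕ) (p₀ : Fin r → Fin 2 → ℂ)
    (h : ∀ F : R2, F.support ⊆ D → (∀ i, F ∈ ptIdeal (p₀ i) ^ m i) → F = 0) :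
    ∃ Φ : PtRing r, Φ ≠ 0 ∧ ∀ p : Fin r → Fin 2 → ℂ, evP p Φ ≠ 0 →
      ∀ F : R2, F.support = D → (∀ i, F ∈ ptIdeal (p i) ^ m i) → F = 0 := by
  classical
  have hfin : ∀ i, Finite {n : Fin 2 →₀ ℕ // n.degree < m i} := fun i => finite_exps (m i)
  have : ∀ i, Fintype {n : Fin 2 →₀ ℕ // n.degree < m i} := fun i => Fintype.ofFinite _
  set M0 := (condMat D m).map (evP p₀) with hM0
  have hker : LinearMap.ker (Matrix.toLin' M0) = ⊥ := by
    rw [LinearMap.ker_eq_bot']
    intro c hc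
    rw [Matrix.toLin'_apply, mulVec_eq_zero_iff] at hc
    have h0 := h _ (support_polyOf D c) hc
    funext k
    rw [← coeff_polyOf D c k, h0]
    simp
  obtain ⟨g, hg⟩ := LinearMap.exists_leftInverse_of_injective _ hker
  set N := LinearMap.toMatrix' g with hN
  have hNM : N * M0 = 1 := by
    have h1 : LinearMap.toMatrix' (g ∘ₗ Matrix.toLin' M0) = N * LinearMap.toMatrix' (Matrix.toLin' M0) :=
      LinearMap.toMatrix'_comp _ _
    rw [hg, LinearMap.toMatrix'_id, LinearMap.toMatrix'_toLin'] at h1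
    exact h1.symm
  refine ⟨((N.map (C : ℂ →+* PtRing r)) * condMat D m).det, ?_, ?_⟩
  · intro h0
    have h1 := congrArg (evP p₀) h0
    rw [RingHom.map_det, map_zero, RingHom.mapMatrix_apply, Matrix.map_mul] at h1
    have h2 : (N.map (C : ℂ →+* PtRing r)).map (evP p₀) = N := by
      ext i j
      simp [evP]
    rw [h2, ← hM0, hNM, Matrix.det_one] at h1
    exact one_ne_zero h1
  · intro p hp F hFD hF
    rw [RingHom.map_det, RingHom.mapMatrix_apply, Matrix.map_mul] at hp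
    have h2 : (N.map (C : ℂ →+* PtRing r)).map (evP p) = N := by
      ext i j
      simp [evP]
    rw [h2] at hp
    subst hFD
    have h3 : ((condMat F.support m).map (evP p)).mulVec (fun k => coeff k.1 F) = 0 := by
      rw [mulVec_eq_zero_iff, polyOf_support]
      exact hF
    have h4 : (N * (condMat F.support m).map (evP p)).mulVec (fun k => coeff k.1 F) = 0 := by
      rw [← Matrix.mulVec_mulVec, h3, Matrix.mulVec_zero]
    have h5 := Matrix.eq_zero_of_mulVec_eq_zero hp h4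
    rw [← polyOf_support F, h5]
    simp [polyOf]

lemma ldeg_mono {e α γ : ℕ} {F G : R2} (h : G.support ⊆ F.support) :
    ldeg e α γ G ≤ ldeg e α γ F := by
  rw [ldeg, ldeg]
  apply Nat.add_le_add
  · exact Nat.mul_le_mul_left _ (Finset.sup_mono h)
  · apply Nat.mul_le_mul_left
    rw [ydeg, ydeg, degreeOf_eq_sup, degreeOf_eq_sup]
    exact Finset.sup_mono h

theorem very_general (e α γ r q s : ℕ) (p₀ : Fin r → Fin 2 → ℂ)
    (h : ∀ F : R2, F ≠ 0 → ∀ m : Fin r → ℕ,
      (∀ i, F ∈ ptIdeal (p₀ i) ^ m i) → s * ∑ i, m i ≤ q * ldeg e α γ F) :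
    ∃ S : Set (PtRing r), S.Countable ∧ (∀ Φ ∈ S, Φ ≠ 0) ∧
      ∀ p : Fin r → Fin 2 → ℂ, (∀ Φ ∈ S, evP p Φ ≠ 0) →
        ∀ F : R2, F ≠ 0 → ∀ m : Fin r → ℕ,
          (∀ i, F ∈ ptIdeal (p i) ^ m i) → s * ∑ i, m i ≤ q * ldeg e α γ F := by
  classical
  have key : ∀ x : Finset (Fin 2 →₀ ℕ) × (Fin r → ℕ), ∃ Φ : PtRing r, Φ ≠ 0 ∧
      ((∀ F : R2, F.support ⊆ x.1 → (∀ i, F ∈ ptIdeal (p₀ i) ^ x.2 i) → F = 0) →
        ∀ p : Fin r → Fin 2 → ℂ, evP p Φ ≠ 0 →
          ∀ F : R2, F.support = x.1 → (∀ i, F ∈ ptIdeal (p i) ^ x.2 i) → F = 0) := by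
    intro x
    by_cases hx : (∀ F : R2, F.support ⊆ x.1 → (∀ i, F ∈ ptIdeal (p₀ i) ^ x.2 i) → F = 0)
    · obtain ⟨Φ, h1, h2⟩ := exists_minor x.1 x.2 p₀ hx
      exact ⟨Φ, h1, fun _ => h2⟩
    · exact ⟨1, one_ne_zero, fun h => absurd h hx⟩
  choose Φ hΦ0 hΦ using key
  refine ⟨Set.range Φ, Set.countable_range Φ, ?_, ?_⟩
  · rintro _ ⟨x, rfl⟩
    exact hΦ0 x
  · intro p hp F hF m hm
    by_contra hcon
    push Not at hcon
    apply hF
    refine hΦ (F.support, m) ?_ p (hp _ ⟨_, rfl⟩) F rfl hm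
    intro G hG hGm
    by_contra hG0
    have h1 := h G hG0 m hGm
    have h2 : ldeg e α γ G ≤ ldeg e α γ F := ldeg_mono hG
    have h3 : q * ldeg e α γ G ≤ q * ldeg e α γ F := Nat.mul_le_mul_left _ h2
    omega

end Pool.Agent.helper5.NBS
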