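import Mathlib

/-!
Baer's theorem (Baer-Suzuki) in the form: if `D` is a conjugation invariant subset of a finite
group such that any two elements of `D` generate a `p`-group, then `D` generates a `p`-group.
Proof following Alperin and Lyons.
-/

set_option autoImplicit false

namespace Pool.Agent.helper5.AL

open Subgroup
open scoped Pointwise

variable {G : Type*} [Group G] [Finite G]

lemma exists_normalizing {p : ℕ} [Fact p.Prime] (D : Set G)
    (hD : ∀ g : G, ∀ d ∈ D, g * d * g⁻¹ ∈ D)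
    (P : Subgroup G) (hP : IsPGroup p P) (Λ : Set G) (hΛ : Λ ⊆ D ∩ P) (hne : Λ ≠ D ∩ P)
    (hW : D ∩ (closure Λ : Set G) = Λ) :
    ∃ x ∈ D, x ∈ P ∧ x ∉ Λ ∧ x ∈ normalizer (closure Λ : Set G) := by
  classical
  set 𝒦 : Set (Subgroup G) := {K | closure Λ ≤ K ∧ K ≤ P ∧ D ∩ (K : Set G) = Λ} with h𝒦
  have hfin : 𝒦.Finite := Set.toFinite _
  have hnon : 𝒦.Nonempty := by
    refine ⟨closure Λ, le_refl _, ?_, hW⟩
    rw [closure_le]
    exact fun z hz => (hΛ hz).2
  obtain ⟨K, hK⟩ := hfin.exists_maximal hnon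
  have hKmem : closure Λ ≤ K ∧ K ≤ P ∧ D ∩ (K : Set G) = Λ := hK.1
  obtain ⟨hK1, hK2, hK3⟩ := hKmem
  have hKne : K ≠ P := by
    rintro rfl
    exact hne hK3.symm
  have hlt : K.subgroupOf P < ⊤ := by
    rw [lt_top_iff_ne_top]
    intro h
    rw [Subgroup.subgroupOf_eq_top] at h
    exact hKne (le_antisymm hK2 h)
  have : Group.IsNilpotent P := hP.isNilpotent
  have hnc := Group.normalizerCondition_of_isNilpotent (G := P) (K.subgroupOf P) hlt
  obtain ⟨x, hx1, hx2⟩ := SetLike.exists_of_lt hnc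
  have hxn : (x : G) ∈ normalizer (K : Set G) := by
    have := Subgroup.subgroupOf_normalizer_eq (H := K) (N := P) hK2
    rw [← this] at hx1
    exact hx1
  set K' := normalizer (K : Set G) ⊓ P with hK'
  have hKK' : K ≤ K' := le_inf Subgroup.le_normalizer hK2
  have hnot : D ∩ (K' : Set G) ≠ Λ := by
    intro h
    have hmem : K' ∈ 𝒦 := ⟨hK1.trans hKK', inf_le_right, h⟩
    have hle := hK.2 hmem hKK'
    apply hx2
    exact hle ⟨hxn, x.2⟩
  have hsub : Λ ⊆ D ∩ (K' : Set G) := by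
    intro z hz
    rw [← hK3] at hz
    exact ⟨hz.1, hKK' hz.2⟩
  obtain ⟨y, hy, hyΛ⟩ : ∃ y, y ∈ D ∩ (K' : Set G) ∧ y ∉ Λ := by
    by_contra hcon
    push Not at hcon
    exact hnot (Set.Subset.antisymm (fun z hz => hcon z hz) hsub)
  refine ⟨y, hy.1, hy.2.2, hyΛ, ?_⟩
  apply Subgroup.normalizer_le_normalizer_closure
  have hyn : y ∈ normalizer (K : Set G) := hy.2.1
  rw [Subgroup.mem_set_normalizer_iff] at hyn ⊢
  intro h
  rw [← hK3]
  constructor
  · rintro ⟨h1, h2⟩
    exact ⟨hD y h h1, (hyn h).1 h2⟩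
  · rintro ⟨h1, h2⟩
    refine ⟨?_, (hyn h).2 h2⟩
    have := hD y⁻¹ _ h1
    have e : y⁻¹ * (y * h * y⁻¹) * y⁻¹⁻¹ = h := by group
    rwa [e] at this

theorem baer_suzuki {p : ℕ} [Fact p.Prime] (D : Set G)
    (hD : ∀ g : G, ∀ d ∈ D, g * d * g⁻¹ ∈ D)
    (h2 : ∀ a ∈ D, ∀ b ∈ D, IsPGroup p (closure ({a, b} : Set G))) :
    IsPGroup p (closure D) := by
  classical
  by_contra hnot
  set f : Sylow p G → Set G := fun P => D ∩ (P : Set G) with hf
  have hex : ∃ P R : Sylow p G, f P ≠ f R := by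
    by_contra hcon
    push Not at hcon
    apply hnot
    obtain ⟨P0⟩ : Nonempty (Sylow p G) := inferInstance
    refine P0.isPGroup'.to_le ?_
    rw [closure_le]
    intro d hd
    obtain ⟨Q, hQ⟩ := (h2 d hd d hd).exists_le_sylow
    have h3 : d ∈ f Q := ⟨hd, hQ (subset_closure (by simp))⟩
    rw [hcon Q P0] at h3
    exact h3.2
  have hcard : ∀ P R : Sylow p G, (f P).ncard = (f R).ncard := by
    intro P R
    obtain ⟨g, hg⟩ := MulAction.exists_smul_eq G P R
    have himg : f R = (fun z => g * z * g⁻¹) '' f P := by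
      ext z
      rw [← hg]
      constructor
      · rintro ⟨hz1, hz2⟩
        refine ⟨g⁻¹ * z * g, ⟨?_, ?_⟩, by group⟩
        · have := hD g⁻¹ z hz1
          simpa using this
        · have hz3 : z ∈ MulAut.conj g • (P : Subgroup G) := hz2
          rw [Subgroup.mem_pointwise_smul_iff_inv_smul_mem] at hz3
          have hz4 : g⁻¹ * z * g ∈ (P : Subgroup G) := by
            simpa [MulAut.conj_inv_apply] using hz3
          exact hz4
      · rintro ⟨w, ⟨hw1, hw2⟩, rfl⟩
        refine ⟨hD g w hw1, ?_⟩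
        show g * w * g⁻¹ ∈ MulAut.conj g • (P : Subgroup G)
        rw [Subgroup.mem_pointwise_smul_iff_inv_smul_mem]
        have e : (MulAut.conj g)⁻¹ • (g * w * g⁻¹) = w := by
          simp [MulAut.smul_def]
          group
        rw [e]
        exact hw2
    rw [himg]
    refine (Set.ncard_image_of_injective _ ?_).symm
    intro a b hab
    simpa using hab
  -- choose a maximal pair
  set 𝒮 : Set (Sylow p G × Sylow p G) := {pr | f pr.1 ≠ f pr.2} with h𝒮
  have h𝒮fin : 𝒮.Finite := Set.toFinite _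
  have h𝒮ne : 𝒮.Nonempty := by
    obtain ⟨P, R, h⟩ := hex
    exact ⟨(P, R), h⟩
  obtain ⟨⟨P, R⟩, hPR, hmax⟩ :=
    Set.exists_max_image 𝒮 (fun pr => (f pr.1 ∩ f pr.2).ncard) h𝒮fin h𝒮ne
  have hPR' : f P ≠ f R := hPR
  have hmax' : ∀ P' R' : Sylow p G, f P' ≠ f R' →
      (f P' ∩ f R').ncard ≤ (f P ∩ f R).ncard := fun P' R' h => hmax (P', R') h
  set Λ := f P ∩ f R with hΛdef
  have hΛP : Λ ≠ f P := by
    intro h
    apply hPR'
    apply Set.eq_of_subset_of_ncard_le
    · rw [← h]; exact Set.inter_subset_right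
    · rw [hcard P R]
    · exact Set.toFinite _
  have hΛR : Λ ≠ f R := by
    intro h
    apply hPR'
    symm
    apply Set.eq_of_subset_of_ncard_le
    · rw [← h]; exact Set.inter_subset_left
    · rw [hcard P R]
    · exact Set.toFinite _
  have hWP : closure Λ ≤ (P : Subgroup G) := by
    rw [closure_le]; exact fun z hz => hz.1.2
  have hWR : closure Λ ≤ (R : Subgroup G) := by
    rw [closure_le]; exact fun z hz => hz.2.2
  have hW : D ∩ (closure Λ : Set G) = Λ := by
    apply Set.Subset.antisymm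
    · rintro z ⟨hz1, hz2⟩
      exact ⟨⟨hz1, hWP hz2⟩, ⟨hz1, hWR hz2⟩⟩
    · intro z hz
      exact ⟨hz.1.1, subset_closure hz⟩
  obtain ⟨x, hxD, hxP, hxΛ, hxn⟩ := exists_normalizing D hD (P : Subgroup G) P.isPGroup' Λ
    Set.inter_subset_left hΛP hW
  obtain ⟨y, hyD, hyR, hyΛ, hyn⟩ := exists_normalizing D hD (R : Subgroup G) R.isPGroup' Λ
    Set.inter_subset_right hΛR hW
  have hC := h2 x hxD y hyD
  have hWp : IsPGroup p (closure Λ) := P.isPGroup'.to_le hWP
  have hCn : closure ({x, y} : Set G) ≤ normalizer (closure Λ : Set G) := by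
    rw [closure_le]
    rintro z (rfl | rfl)
    · exact hxn
    · exact hyn
  have hsup := hC.to_sup_of_normal_right' hWp hCn
  obtain ⟨S, hS⟩ := hsup.exists_le_sylow
  have hxS : x ∈ f S := ⟨hxD, hS (Subgroup.mem_sup_left (subset_closure (by simp)))⟩
  have hyS : y ∈ f S := ⟨hyD, hS (Subgroup.mem_sup_left (subset_closure (by simp)))⟩
  have hΛS : Λ ⊆ f S := fun z hz => ⟨hz.1.1, hS (Subgroup.mem_sup_right (subset_closure hz))⟩
  have e1 : f S = f P := by
    by_contra hne
    have h3 := hmax' S P hne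
    have h4 : insert x Λ ⊆ f S ∩ f P := by
      intro z hz
      rcases hz with rfl | hz
      · exact ⟨hxS, ⟨hxD, hxP⟩⟩
      · exact ⟨hΛS hz, hz.1⟩
    have h5 := Set.ncard_le_ncard h4 (Set.toFinite _)
    rw [Set.ncard_insert_of_notMem hxΛ (Set.toFinite _)] at h5
    omega
  have e2 : f S = f R := by
    by_contra hne
    have h3 := hmax' S R hne
    have h4 : insert y Λ ⊆ f S ∩ f R := by
      intro z hz
      rcases hz with rfl | hz
      · exact ⟨hyS, ⟨hyD, hyR⟩⟩
      · exact ⟨hΛS hz, hz.2⟩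
    have h5 := Set.ncard_le_ncard h4 (Set.toFinite _)
    rw [Set.ncard_insert_of_notMem hyΛ (Set.toFinite _)] at h5
    omega
  exact hPR' (e1 ▸ e2)


omit [Finite G] in
lemma isPGroup_two_closure_pair {a b : G} (ha : a * a = 1) (hb : b * b = 1)
    {n : ℕ} (hn : (a * b) ^ (2 ^ n) = 1) : IsPGroup 2 (closure ({a, b} : Set G)) := by
  have hai : a⁻¹ = a := by rw [inv_eq_iff_mul_eq_one]; exact ha
  have hbi : b⁻¹ = b := by rw [inv_eq_iff_mul_eq_one]; exact hb
  set r := a * b with hr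
  have har : a * r * a = r⁻¹ := by
    rw [hr, mul_inv_rev, hai, hbi]
    calc a * (a * b) * a = (a * a) * b * a := by group
      _ = b * a := by rw [ha, one_mul]
  have harz : ∀ i : ℤ, a * r ^ i * a = r ^ (-i) := by
    intro i
    have h1 : a * r ^ i * a⁻¹ = (a * r * a⁻¹) ^ i := (conj_zpow).symm
    rw [hai, har] at h1
    rw [h1, inv_zpow, zpow_neg]
  have key : ∀ g ∈ closure ({a, b} : Set G), ∃ i : ℤ, g = r ^ i ∨ g = r ^ i * a := by
    intro g hg
    induction hg using closure_induction with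
    | mem x hx =>
      rcases hx with rfl | hx
      · exact ⟨0, Or.inr (by simp)⟩
      · rw [Set.mem_singleton_iff] at hx
        subst hx
        refine ⟨-1, Or.inr ?_⟩
        have := harz 1
        rw [zpow_one] at this
        rw [← this]
        calc x = (a * a) * x * (a * a) := by rw [ha]; group
          _ = a * (a * x) * a * a := by group
    | one => exact ⟨0, Or.inl (by simp)⟩
    | mul x y _ _ hx hy =>
      obtain ⟨i, hi⟩ := hx
      obtain ⟨j, hj⟩ := hy
      have hmove : ∀ j : ℤ, a * r ^ j = r ^ (-j) * a := by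
        intro j
        rw [← harz j, mul_assoc (a * r ^ j), ha, mul_one]
      rcases hi with rfl | rfl <;> rcases hj with rfl | rfl
      · exact ⟨i + j, Or.inl (by rw [zpow_add])⟩
      · exact ⟨i + j, Or.inr (by rw [zpow_add, mul_assoc])⟩
      · refine ⟨i - j, Or.inr ?_⟩
        rw [mul_assoc, hmove, ← mul_assoc, ← zpow_add, sub_eq_add_neg]
      · refine ⟨i - j, Or.inl ?_⟩
        rw [mul_assoc (r ^ i) a, ← mul_assoc a, hmove, mul_assoc (r ^ (-j)), ha, mul_one,
          ← zpow_add, sub_eq_add_neg]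
    | inv x _ hx =>
      obtain ⟨i, hi⟩ := hx
      rcases hi with rfl | rfl
      · exact ⟨-i, Or.inl (by rw [zpow_neg])⟩
      · refine ⟨i, Or.inr ?_⟩
        rw [mul_inv_rev, hai, ← zpow_neg]
        have := harz (-i)
        rw [neg_neg] at this
        rw [← this, mul_assoc (a * r ^ (-i)), ha, mul_one]
  rintro ⟨g, hg⟩
  obtain ⟨i, hi⟩ := key g hg
  rcases hi with h | h
  · refine ⟨n, ?_⟩
    apply Subtype.ext
    show g ^ 2 ^ n = 1
    rw [h, ← zpow_natCast, ← zpow_mul, mul_comm, zpow_mul, zpow_natCast, hn, one_zpow]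
  · refine ⟨1, ?_⟩
    apply Subtype.ext
    show g ^ 2 ^ 1 = 1
    rw [h, pow_one, pow_two, mul_assoc, ← mul_assoc a, harz, ← zpow_add]
    simp

end Pool.Agent.helper5.AL
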