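import Mathlib

/-!
A totally symmetric, self-distributive ternary operation with bijective translations
`E a b : c ↦ T a b c`, satisfying `T a a c = c`. We prove the Pasch property and deduce that
the set has 2-power size.
-/

set_option autoImplicit false

namespace Pool.Agent.helper5.AL

/-- Totally symmetric distributive ternary structure. -/
structure TS (Q : Type*) where
  E : Q → Q → Equiv.Perm Q
  s1 : ∀ a b, E a b = E b a
  s2 : ∀ a b c, E a b c = E a c b
  s3 : ∀ a c, E a a c = c
  s4 : ∀ a b c d, E a b * E c d = E (E a b c) (E a b d) * E a b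

namespace TS

variable {Q : Type*} (S : TS Q)

def T (a b c : Q) : Q := S.E a b c

lemma T12 (a b c : Q) : S.T a b c = S.T b a c := by unfold T; rw [S.s1]
lemma T23 (a b c : Q) : S.T a b c = S.T a c b := S.s2 a b c
lemma T13 (a b c : Q) : S.T a b c = S.T c b a := by
  rw [S.T12, S.T23, S.T12]
lemma Trot (a b c : Q) : S.T a b c = S.T b c a := by
  rw [S.T12, S.T23]
lemma Trot' (a b c : Q) : S.T a b c = S.T c a b := by
  rw [S.T23, S.T12]

lemma T_aac (a c : Q) : S.T a a c = c := S.s3 a c
lemma T_aca (a c : Q) : S.T a c a = c := by rw [S.T23, S.T_aac]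
lemma T_caa (a c : Q) : S.T c a a = c := by rw [S.Trot, S.T_aac]

lemma T_inj {a b c d : Q} (h : S.T a b c = S.T a b d) : c = d := (S.E a b).injective h

/-- automorphism of the ternary operation -/
def TAut (φ : Equiv.Perm Q) : Prop := ∀ a b c, φ (S.T a b c) = S.T (φ a) (φ b) (φ c)

lemma TAut_E (a b : Q) : S.TAut (S.E a b) := by
  intro c d x
  have := congrArg (fun f : Equiv.Perm Q => f x) (S.s4 a b c d)
  simpa [T] using this

variable {S}

lemma TAut.mul {φ ψ : Equiv.Perm Q} (h : S.TAut φ) (h' : S.TAut ψ) : S.TAut (φ * ψ) := by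
  intro a b c
  simp only [Equiv.Perm.mul_apply]
  rw [h', h]

lemma TAut.inv {φ : Equiv.Perm Q} (h : S.TAut φ) : S.TAut φ⁻¹ := by
  intro a b c
  rw [Equiv.Perm.inv_eq_iff_eq, h]
  have hp : ∀ x, φ (φ⁻¹ x) = x := fun x => Equiv.apply_symm_apply φ x
  rw [hp, hp, hp]

variable (S)

lemma conj_E (a b c d : Q) :
    S.E a b * S.E c d * (S.E a b)⁻¹ = S.E (S.T a b c) (S.T a b d) := by
  rw [S.s4]; unfold T; group

/-- The involution attached to a triple `a b c` with `T a b c = d`. -/
lemma omega (a b c d : Q) (h : S.T a b c = d) :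
    ∃ p : Equiv.Perm Q, S.TAut p ∧ p * p = 1 ∧ S.E a d = p * S.E b c ∧
      S.E b d = p * S.E a c ∧ S.E c d = p * S.E a b := by
  set p := S.E a b with hp
  set q := S.E b c with hq
  set r := S.E a c with hr
  have e1 : p * r * p⁻¹ = S.E b d := by
    rw [hp, hr, conj_E, S.T_aca, h]
  have e2 : q * r * q⁻¹ = S.E b d := by
    rw [hq, hr, conj_E]
    rw [show S.T b c a = d by rw [← h, S.Trot a b c], show S.T b c c = b from S.T_caa c b, S.s1]
  have e3 : r * p * r⁻¹ = S.E c d := by
    rw [hr, hp, conj_E, S.T_aca, show S.T a c b = d by rw [← h, S.T23 a b c]]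
  have e4 : q * p * q⁻¹ = S.E c d := by
    rw [hq, hp, conj_E, show S.T b c a = d by rw [← h, S.Trot a b c], S.T_aca, S.s1]
  have e5 : p * q * p⁻¹ = S.E a d := by
    rw [hp, hq, conj_E, show S.T a b b = a from S.T_caa b a, h]
  have e6 : r * q * r⁻¹ = S.E a d := by
    rw [hr, hq, conj_E, show S.T a c b = d by rw [← h, S.T23 a b c],
      show S.T a c c = a from S.T_caa c a, S.s1]
  set α := S.E a d * q⁻¹ with hα
  set β := S.E b d * r⁻¹ with hβ
  set γ := S.E c d * p⁻¹ with hγ
  have f1 : γ = α⁻¹ := by rw [hγ, hα, ← e4, ← e5]; group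
  have f2 : β = α⁻¹ := by rw [hβ, hα, ← e2, ← e6]; group
  have f3 : γ = β⁻¹ := by rw [hγ, hβ, ← e3, ← e1]; group
  have f4 : α = α⁻¹ := by
    have : α⁻¹ = α := by
      calc α⁻¹ = γ := f1.symm
        _ = β⁻¹ := f3
        _ = (α⁻¹)⁻¹ := by rw [f2]
        _ = α := inv_inv α
    exact this.symm
  have f5 : β = α := by rw [f2]; exact f4.symm
  have f6 : γ = α := by rw [f1]; exact f4.symm
  refine ⟨α, ?_, ?_, ?_, ?_, ?_⟩
  · exact (S.TAut_E a d).mul (S.TAut_E b c).inv
  · nth_rewrite 1 [f4]; group
  · rw [hα]; group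
  · rw [← f5, hβ]; group
  · rw [← f6, hγ]; group

/-- **Pasch property.** -/
theorem pasch (b x y z w v u : Q) (h1 : S.T x y z = b) (h2 : S.T x w v = b)
    (h3 : S.T y w u = b) : S.T z v u = b := by
  obtain ⟨p2, p2a, p2i, p2x, p2w, p2v⟩ := S.omega x w v b h2
  obtain ⟨p3, p3a, p3i, p3y, p3w, p3u⟩ := S.omega y w u b h3
  have i2 : ∀ m, p2 (p2 m) = m := fun m => by
    have := congrArg (fun f : Equiv.Perm Q => f m) p2i; simpa using this
  have i3 : ∀ m, p3 (p3 m) = m := fun m => by
    have := congrArg (fun f : Equiv.Perm Q => f m) p3i; simpa using this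
  have x2 : ∀ m, S.T x b m = p2 (S.T w v m) := fun m => by
    have := congrArg (fun f : Equiv.Perm Q => f m) p2x; exact this
  have w2 : ∀ m, S.T w b m = p2 (S.T x v m) := fun m => by
    have := congrArg (fun f : Equiv.Perm Q => f m) p2w; exact this
  have v2 : ∀ m, S.T v b m = p2 (S.T x w m) := fun m => by
    have := congrArg (fun f : Equiv.Perm Q => f m) p2v; exact this
  have y3 : ∀ m, S.T y b m = p3 (S.T w u m) := fun m => by
    have := congrArg (fun f : Equiv.Perm Q => f m) p3y; exact this
  have w3 : ∀ m, S.T w b m = p3 (S.T y u m) := fun m => by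
    have := congrArg (fun f : Equiv.Perm Q => f m) p3w; exact this
  have u3 : ∀ m, S.T u b m = p3 (S.T y w m) := fun m => by
    have := congrArg (fun f : Equiv.Perm Q => f m) p3u; exact this
  -- values of p2
  have a18 : p2 (S.T x w b) = v := by rw [← v2 b, S.T_caa]
  have a19 : p2 (S.T x w u) = S.T v b u := (v2 u).symm
  have a20 : p2 (S.T w b u) = S.T x v u := by rw [w2 u, i2]
  have a21 : p2 (S.T x b u) = S.T w v u := by rw [x2 u, i2]
  have a17 : p2 b = b := by
    have := x2 x
    rw [S.T_aca, ← S.Trot x w v, h2] at this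
    exact this.symm
  -- values of p3
  have a23 : p3 (S.T y w x) = S.T u b x := (u3 x).symm
  have a24 : p3 y = S.T w u b := by
    have := y3 b
    rw [S.T_caa] at this
    rw [this, i3]
  have a25 : p3 (S.T y u x) = S.T w b x := (w3 x).symm
  have a26 : p3 (S.T y b x) = S.T w u x := by rw [y3 x, i3]
  have a22 : p3 b = b := by
    have := y3 y
    rw [S.T_aca, ← S.Trot y w u, h3] at this
    exact this.symm
  -- distributivity facts
  have b7 : S.T x (S.T x y w) (S.T x y u) = S.T x y b := by
    have := S.TAut_E x y y w u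
    have h4 : S.E x y (S.T y w u) = S.T x y b := by rw [h3]; rfl
    rw [h4] at this
    rw [this]
    show _ = S.T (S.T x y y) (S.T x y w) (S.T x y u)
    rw [S.T_caa]
  have b28 : S.T (p3 x) (S.T w u b) b = S.T w u x := by
    have := p3a x y b
    rw [a24, a22] at this
    rw [← this, S.Trot x y b, a26]
  have b29 : S.T (p3 x) (S.T u b x) (S.T w b x) = S.T w u x := by
    have := p3a x (S.T x y w) (S.T x y u)
    rw [b7, S.Trot x y w, a23, S.Trot x y u, a25] at this
    rw [← this, S.Trot x y b, a26]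
  have b16 : S.T (S.T v u y) (S.T v u w) v = S.T v u b := by
    have := S.TAut_E v u y w u
    have h4 : S.E v u (S.T y w u) = S.T v u b := by rw [h3]; rfl
    rw [h4] at this
    rw [this]
    show _ = S.T (S.T v u y) (S.T v u w) (S.T v u u)
    rw [S.T_caa]
  have b30 : p2 (p3 x) = S.T v u y := by
    have := p2a (p3 x) (S.T u b x) (S.T w b x)
    rw [b29] at this
    have c1 : p2 (S.T w u x) = S.T v u b := by
      rw [← S.Trot x w u, a19, S.T23]
    have c2 : p2 (S.T u b x) = S.T v u w := by
      rw [← S.Trot x u b, S.T23, a21, ← S.Trot w v u]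
    have c3 : p2 (S.T w b x) = v := by
      rw [← S.Trot x w b, a18]
    rw [c1, c2, c3, ← b16] at this
    have h5 := this.symm
    rw [S.Trot (p2 (p3 x)), S.Trot (S.T v u y)] at h5
    exact S.T_inj h5
  have b31 : S.T (S.T v u y) (S.T v u x) b = S.T v u b := by
    have := p2a (p3 x) (S.T w u b) b
    rw [b28, b30, a17, S.T23 w u b, a20] at this
    rw [← S.Trot x w u, a19] at this
    rw [← S.Trot x v u, ← this, S.T23]
  have b32 : S.T v u z = b := by
    have := S.TAut_E v u x y z
    have h4 : S.E v u (S.T x y z) = S.T v u b := by rw [h1]; rfl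
    rw [h4] at this
    have h5 : S.T (S.T v u x) (S.T v u y) (S.T v u z) = S.T (S.T v u x) (S.T v u y) b := by
      rw [S.T12 (S.T v u x) (S.T v u y) b, b31, this]; rfl
    exact S.T_inj h5
  rw [S.Trot]; exact b32

/-- The Steiner product relative to the base point `b`. -/
def st (b x y : Q) : Q := (S.E x y)⁻¹ b

lemma T_st (b x y : Q) : S.T x y (S.st b x y) = b := Equiv.apply_symm_apply (S.E x y) b

lemma st_eq {b x y z : Q} (h : S.T x y z = b) : S.st b x y = z := by
  have := S.T_st b x y
  rw [← h] at this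
  subst h
  exact S.T_inj this

lemma st_comm (b x y : Q) : S.st b x y = S.st b y x := by
  unfold st; rw [S.s1]

lemma st_b (b x : Q) : S.st b x b = x := S.st_eq (S.T_aca x b)

lemma st_self (b x : Q) : S.st b x x = b := S.st_eq (S.T_aac x b)

lemma st_st (b x y : Q) : S.st b x (S.st b x y) = y := by
  apply S.st_eq
  rw [S.T23]; exact S.T_st b x y

lemma st_pasch (b x y w : Q) : S.st b (S.st b x y) (S.st b x w) = S.st b y w := by
  apply S.st_eq
  exact S.pasch b x y _ w _ _ (S.T_st b x y) (S.T_st b x w) (S.T_st b y w)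

lemma st_assoc (b x y w : Q) : S.st b (S.st b x y) w = S.st b x (S.st b y w) := by
  have h := S.st_pasch b y x (S.st b y w)
  rw [S.st_st] at h
  rw [S.st_comm b x y]
  exact h

theorem card_two_pow (S : TS Q) [Finite Q] [Nonempty Q] : ∃ n : ℕ, Nat.card Q = 2 ^ n := by
  classical
  obtain ⟨b⟩ := ‹Nonempty Q›
  let _inst : Group Q :=
    { mul := S.st b
      one := b
      inv := id
      mul_assoc := fun x y z => S.st_assoc b x y z
      one_mul := fun x => by
        show S.st b b x = x
        rw [S.st_comm, S.st_b]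
      mul_one := fun x => S.st_b b x
      inv_mul_cancel := fun x => S.st_self b x }
  have hp : IsPGroup 2 Q := by
    intro g
    refine ⟨1, ?_⟩
    rw [pow_one, pow_two]
    exact S.st_self b g
  exact IsPGroup.iff_card.mp hp

end TS

end Pool.Agent.helper5.AL
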