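import Pool.Agent.helper5.ALBasic
import Pool.Agent.helper5.ALPasch

/-!
Commutative automorphic loops of exponent two: the ternary operation
`T a b c = a * ((a \ b) * (a \ c))` and the resulting order statement.
-/

set_option autoImplicit false

namespace Pool.Agent.helper5.AL

namespace ALoop

variable {Q : Type*} (S : ALoop Q)

noncomputable def EE (a b : Q) : Equiv.Perm Q := S.L a * S.L ((S.L a)⁻¹ b) * (S.L a)⁻¹

lemma EE_mem_G (a b : Q) : S.EE a b ∈ S.G :=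
  S.G.mul_mem (S.G.mul_mem (S.L_mem_G _) (S.L_mem_G _)) (S.G.inv_mem (S.L_mem_G _))

variable {S}

lemma isAut_of_mem_B (hc : ∀ x y, S.op x y = S.op y x) {φ : Equiv.Perm Q} (h : φ ∈ S.B) :
    S.IsAut φ := by
  rcases h with h | h
  · exact h
  · intro x y
    rw [h x y, hc]

lemma EE_conj (hc : ∀ x y, S.op x y = S.op y x) {g : Equiv.Perm Q} (hg : g ∈ S.G) (a b : Q) :
    g * S.EE a b = S.EE (g a) (g b) * g := by
  set φ := (S.L (g a))⁻¹ * g * S.L a with hφ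
  have hφG : φ ∈ S.G :=
    S.G.mul_mem (S.G.mul_mem (S.G.inv_mem (S.L_mem_G _)) hg) (S.L_mem_G _)
  have hφe : φ S.e = S.e := by
    rw [hφ, Equiv.Perm.mul_apply, Equiv.Perm.mul_apply, L_apply, S.op_one,
      Equiv.Perm.inv_eq_iff_eq, L_apply, S.op_one]
  have hφA : S.IsAut φ := isAut_of_mem_B hc (S.mem_B_of_fix hφG hφe)
  have h1 : g * S.L a = S.L (g a) * φ := by rw [hφ]; group
  have h2 : φ ((S.L a)⁻¹ b) = (S.L (g a))⁻¹ (g b) := by
    rw [hφ, Equiv.Perm.mul_apply, Equiv.Perm.mul_apply, pinv1]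
  have h3 := hφA.conj_L ((S.L a)⁻¹ b)
  rw [h2] at h3
  unfold EE
  calc g * (S.L a * S.L ((S.L a)⁻¹ b) * (S.L a)⁻¹)
      = (g * S.L a) * S.L ((S.L a)⁻¹ b) * (S.L a)⁻¹ := by group
    _ = S.L (g a) * (φ * S.L ((S.L a)⁻¹ b)) * (S.L a)⁻¹ := by rw [h1]; group
    _ = S.L (g a) * (S.L ((S.L (g a))⁻¹ (g b)) * φ) * (S.L a)⁻¹ := by rw [h3]
    _ = S.L (g a) * S.L ((S.L (g a))⁻¹ (g b)) * (S.L (g a))⁻¹ * (S.L (g a) * φ) * (S.L a)⁻¹ := by
        group
    _ = S.L (g a) * S.L ((S.L (g a))⁻¹ (g b)) * (S.L (g a))⁻¹ * (g * S.L a) * (S.L a)⁻¹ := by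
        rw [h1]
    _ = S.L (g a) * S.L ((S.L (g a))⁻¹ (g b)) * (S.L (g a))⁻¹ * g := by group

lemma EE_apply (a b c : Q) :
    S.EE a b c = S.op a (S.op ((S.L a)⁻¹ b) ((S.L a)⁻¹ c)) := rfl

lemma EE_aa (a : Q) : S.EE a a = 1 := by
  unfold EE
  have : (S.L a)⁻¹ a = S.e := by
    rw [Equiv.Perm.inv_eq_iff_eq, L_apply, S.op_one]
  rw [this, S.L_e]; group

lemma EE_symm (hc : ∀ x y, S.op x y = S.op y x) (h2 : ∀ x, S.op x x = S.e) (a b : Q) :
    S.EE a b = S.EE b a := by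
  have h := EE_conj hc (S.EE_mem_G a b) a b
  have h3 : S.EE a b a = b := by
    have : (S.L a)⁻¹ a = S.e := by
      rw [Equiv.Perm.inv_eq_iff_eq, L_apply, S.op_one]
    rw [EE_apply, this, S.op_one, L_inv_apply_self]
  have h4 : S.EE a b b = a := by
    rw [EE_apply, h2, S.op_one]
  rw [h3, h4] at h
  exact mul_right_cancel h

/-- the ternary structure -/
noncomputable def toTS (hc : ∀ x y, S.op x y = S.op y x) (h2 : ∀ x, S.op x x = S.e) : TS Q where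
  E := S.EE
  s1 := EE_symm hc h2
  s2 := fun a b c => by rw [EE_apply, EE_apply, hc ((S.L a)⁻¹ b)]
  s3 := fun a c => by rw [EE_aa]; rfl
  s4 := fun a b c d => EE_conj hc (S.EE_mem_G a b) c d

theorem card_of_comm_exp_two [Finite Q] (hc : ∀ x y, S.op x y = S.op y x)
    (h2 : ∀ x, S.op x x = S.e) : ∃ n : ℕ, Nat.card Q = 2 ^ n := by
  haveI : Nonempty Q := ⟨S.e⟩
  exact (toTS hc h2).card_two_pow

end ALoop

end Pool.Agent.helper5.AL
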