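import Pool.Agent.helper5.ALBasic
import Pool.Agent.helper5.ALPasch
import Pool.Agent.helper5.ALExp2
import Pool.Agent.helper5.ALBaer

/-!
A finite automorphic loop has 2-power order iff all its elements have 2-power order.
-/

set_option autoImplicit false

namespace Pool.Agent.helper5.AL

namespace ALoop

variable {Q : Type*} (S : ALoop Q)

lemma smul_G (g : S.G) (x : Q) : g • x = (g : Equiv.Perm Q) x := rfl

instance : MulAction.IsPretransitive S.G Q := by
  constructor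
  intro x y
  refine ⟨⟨S.L y, S.L_mem_G y⟩ * ⟨S.L x, S.L_mem_G x⟩⁻¹, ?_⟩
  show (S.L y * (S.L x)⁻¹) x = y
  rw [Equiv.Perm.mul_apply]
  have : (S.L x)⁻¹ x = S.e := by
    rw [Equiv.Perm.inv_eq_iff_eq, L_apply, S.op_one]
  rw [this, L_apply, S.op_one]

/-- `J` as an element of `G` -/
noncomputable def JG : S.G := ⟨S.J, S.J_mem_G⟩

lemma JG_mul : S.JG * S.JG = 1 := by
  apply Subtype.ext
  exact S.J_mul_J

/-- **First half**: in an automorphic loop of order `2 ^ k` every element has 2-power order. -/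
theorem elem_of_card [Finite Q] {k : ℕ} (hk : Nat.card Q = 2 ^ k) (x : Q) :
    ∃ m : ℕ, (S.R x ^ (2 ^ m)) S.e = S.e := by
  classical
  have hcl : IsPGroup 2 (Subgroup.closure ({S.JG, S.JG} : Set S.G)) := by
    apply isPGroup_two_closure_pair S.JG_mul S.JG_mul (n := 0)
    rw [S.JG_mul, one_pow]
  obtain ⟨P, hP⟩ := hcl.exists_le_sylow
  have hJP : S.JG ∈ P := hP (Subgroup.subset_closure (by simp))
  set H := MulAction.stabilizer S.G S.e with hH
  have hHi : H.index = 2 ^ k := by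
    rw [hH, MulAction.index_stabilizer_of_transitive, hk]
  -- the index of the stabilizer in P
  have hPi : H.relIndex (P : Subgroup S.G) = (MulAction.orbit P S.e).ncard := by
    have key : H.subgroupOf (P : Subgroup S.G) = MulAction.stabilizer P S.e := by
      ext; rfl
    rw [Subgroup.relIndex, key, MulAction.index_stabilizer]
  have h1 : H.relIndex (P : Subgroup S.G) * (P : Subgroup S.G).index
      = (H ⊓ (P : Subgroup S.G)).index := by
    rw [← Subgroup.inf_relIndex_right, Subgroup.relIndex_mul_index inf_le_right]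
  have h2 : H.index ∣ H.relIndex (P : Subgroup S.G) * (P : Subgroup S.G).index := by
    rw [h1]; exact Subgroup.index_dvd_of_le inf_le_left
  have h3 : ¬ 2 ∣ (P : Subgroup S.G).index := P.not_dvd_index
  have h4 : Nat.Coprime (2 ^ k) (P : Subgroup S.G).index := by
    apply Nat.Coprime.pow_left
    exact (Nat.Prime.coprime_iff_not_dvd Nat.prime_two).2 h3
  have h5 : 2 ^ k ∣ H.relIndex (P : Subgroup S.G) := by
    rw [hHi] at h2
    exact h4.dvd_of_dvd_mul_right h2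
  have h6 : (MulAction.orbit P S.e) = Set.univ := by
    apply Set.eq_of_subset_of_ncard_le (Set.subset_univ _)
    · rw [Set.ncard_univ, hk, ← hPi]
      apply Nat.le_of_dvd _ h5
      apply Nat.pos_of_ne_zero
      intro h0
      rw [hPi, Set.ncard_eq_zero (Set.toFinite _)] at h0
      have : S.e ∈ MulAction.orbit P S.e := MulAction.mem_orbit_self _
      rw [h0] at this
      exact this
  have hx : x ∈ MulAction.orbit P S.e := by rw [h6]; trivial
  obtain ⟨s, hs⟩ := hx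
  have hs' : ((s : S.G) : Equiv.Perm Q) S.e = x := hs
  -- the conjugate of J by s
  have hconj := S.conj_J (g := ((s : S.G) : Equiv.Perm Q)) (s : S.G).2
  rw [hs'] at hconj
  have hPx : (⟨S.P x, S.P_mem_G x⟩ : S.G) ∈ P := by
    have e1 : (⟨S.P x, S.P_mem_G x⟩ : S.G) = (s : S.G) * S.JG * (s : S.G)⁻¹ * S.JG := by
      apply Subtype.ext
      show S.P x = ((s : S.G) : Equiv.Perm Q) * S.J * ((s : S.G) : Equiv.Perm Q)⁻¹ * S.J
      rw [hconj]; rfl
    rw [e1]
    exact P.mul_mem (P.mul_mem (P.mul_mem s.2 hJP) (P.inv_mem s.2)) hJP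
  obtain ⟨m, hm⟩ := P.isPGroup' ⟨_, hPx⟩
  have hm' : S.P x ^ 2 ^ m = 1 := by
    have := congrArg (fun z : P => ((z : S.G) : Equiv.Perm Q)) hm
    exact this
  refine ⟨m + 1, ?_⟩
  have := S.R_pow_of_P_pow hm'
  rw [pow_succ, mul_comm]
  exact this

/-- conjugates of `J` -/
def DJ : Set S.G := {d | ∃ g : S.G, d = g * S.JG * g⁻¹}

/-- The subgroup generated by the conjugates of `J`. -/
def N : Subgroup S.G := Subgroup.closure S.DJ

lemma DJ_conj (g : S.G) (d : S.G) (hd : d ∈ S.DJ) : g * d * g⁻¹ ∈ S.DJ := by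
  obtain ⟨h, rfl⟩ := hd
  exact ⟨g * h, by group⟩

lemma N_conj (g : S.G) (n : S.G) (hn : n ∈ S.N) : g * n * g⁻¹ ∈ S.N := by
  unfold N at hn ⊢
  induction hn using Subgroup.closure_induction with
  | mem x hx => exact Subgroup.subset_closure (S.DJ_conj g x hx)
  | one => simp
  | mul x y _ _ hx hy =>
    have : g * (x * y) * g⁻¹ = (g * x * g⁻¹) * (g * y * g⁻¹) := by group
    rw [this]; exact Subgroup.mul_mem _ hx hy
  | inv x _ hx =>
    have : g * x⁻¹ * g⁻¹ = (g * x * g⁻¹)⁻¹ := by group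
    rw [this]; exact Subgroup.inv_mem _ hx

lemma JG_mem_N : S.JG ∈ S.N := Subgroup.subset_closure ⟨1, by group⟩

lemma N_isPGroup [Finite Q] (h : ∀ x, ∃ k : ℕ, (S.R x ^ (2 ^ k)) S.e = S.e) :
    IsPGroup 2 S.N := by
  apply baer_suzuki S.DJ (fun g d hd => S.DJ_conj g d hd)
  rintro a ⟨g, rfl⟩ b ⟨g', rfl⟩
  -- the product of J with a conjugate
  have key : ∀ k : S.G, ∃ n : ℕ, (k * S.JG * k⁻¹ * S.JG) ^ (2 ^ n) = 1 := by
    intro k
    obtain ⟨n, hn⟩ := h ((k : Equiv.Perm Q) S.e)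
    have h1 := S.P_pow_of_R_pow hn
    have h2 := S.conj_J (g := (k : Equiv.Perm Q)) k.2
    refine ⟨n + 1, ?_⟩
    apply Subtype.ext
    show ((k : Equiv.Perm Q) * S.J * (k : Equiv.Perm Q)⁻¹ * S.J) ^ (2 ^ (n + 1)) = 1
    rw [h2, pow_succ, mul_comm (2 ^ n) 2]
    exact h1
  obtain ⟨n, hn⟩ := key (g⁻¹ * g')
  apply isPGroup_two_closure_pair (n := n)
  · calc g * S.JG * g⁻¹ * (g * S.JG * g⁻¹) = g * (S.JG * S.JG) * g⁻¹ := by group
      _ = 1 := by rw [S.JG_mul]; group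
  · calc g' * S.JG * g'⁻¹ * (g' * S.JG * g'⁻¹) = g' * (S.JG * S.JG) * g'⁻¹ := by group
      _ = 1 := by rw [S.JG_mul]; group
  · set k := g⁻¹ * g' with hk
    have hJJ : S.JG⁻¹ = S.JG := by rw [inv_eq_iff_mul_eq_one]; exact S.JG_mul
    have e1 : g * S.JG * g⁻¹ * (g' * S.JG * g'⁻¹)
        = (g * S.JG) * (k * S.JG * k⁻¹ * S.JG) * (g * S.JG)⁻¹ := by
      rw [hk]
      calc g * S.JG * g⁻¹ * (g' * S.JG * g'⁻¹)
          = (g * S.JG) * (g⁻¹ * g' * S.JG * (g⁻¹ * g')⁻¹ * (S.JG * S.JG⁻¹)) * g⁻¹ := by group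
        _ = (g * S.JG) * (g⁻¹ * g' * S.JG * (g⁻¹ * g')⁻¹ * S.JG) * (g * S.JG)⁻¹ := by group
    rw [e1, conj_pow, hn]; group

/-- the orbit relation of `N` -/
def rel : Setoid Q := MulAction.orbitRel S.N Q

lemma rel_iff {x y : Q} : S.rel x y ↔ ∃ n : S.G, n ∈ S.N ∧ (n : Equiv.Perm Q) y = x := by
  constructor
  · rintro ⟨n, hn⟩
    exact ⟨n, n.2, hn⟩
  · rintro ⟨n, hn, h⟩
    exact ⟨⟨n, hn⟩, h⟩

lemma rel_left (z : Q) {x y : Q} (h : S.rel x y) : S.rel (S.op z x) (S.op z y) := by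
  rw [rel_iff] at h ⊢
  obtain ⟨n, hn, rfl⟩ := h
  refine ⟨⟨S.L z, S.L_mem_G z⟩ * n * ⟨S.L z, S.L_mem_G z⟩⁻¹, S.N_conj _ n hn, ?_⟩
  show (S.L z * (n : Equiv.Perm Q) * (S.L z)⁻¹) (S.L z y) = S.L z ((n : Equiv.Perm Q) y)
  rw [Equiv.Perm.mul_apply, pinv2, Equiv.Perm.mul_apply]

lemma rel_right (z : Q) {x y : Q} (h : S.rel x y) : S.rel (S.op x z) (S.op y z) := by
  rw [rel_iff] at h ⊢
  obtain ⟨n, hn, rfl⟩ := h
  refine ⟨⟨S.R z, S.R_mem_G z⟩ * n * ⟨S.R z, S.R_mem_G z⟩⁻¹, S.N_conj _ n hn, ?_⟩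
  show (S.R z * (n : Equiv.Perm Q) * (S.R z)⁻¹) (S.R z y) = S.R z ((n : Equiv.Perm Q) y)
  rw [Equiv.Perm.mul_apply, pinv2, Equiv.Perm.mul_apply]

lemma rel_op {x x' y y' : Q} (h : S.rel x x') (h' : S.rel y y') :
    S.rel (S.op x y) (S.op x' y') :=
  S.rel.trans (S.rel_right y h) (S.rel_left x' h')

lemma rel_J (x : Q) : S.rel (S.j x) x := by
  rw [rel_iff]
  exact ⟨S.JG, S.JG_mem_N, rfl⟩

/-- class map -/
def cls (x : Q) : Quotient S.rel := Quotient.mk S.rel x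

def qop : Quotient S.rel → Quotient S.rel → Quotient S.rel :=
  Quotient.map₂ S.op (fun _ _ h _ _ h' => S.rel_op h h')

lemma qop_cls (x y : Q) : S.qop (S.cls x) (S.cls y) = S.cls (S.op x y) := rfl

lemma cls_surj (q : Quotient S.rel) : ∃ x, S.cls x = q := Quotient.exists_rep q

lemma cls_eq {x y : Q} : S.cls x = S.cls y ↔ S.rel x y := Quotient.eq

lemma qop_left_bij [Finite Q] (q : Quotient S.rel) :
    Function.Bijective (fun y => S.qop q y) := by
  obtain ⟨x, rfl⟩ := S.cls_surj q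
  have : Finite (Quotient S.rel) := Quotient.finite _
  apply Function.Surjective.bijective_of_finite
  intro z
  obtain ⟨y, rfl⟩ := S.cls_surj z
  refine ⟨S.cls ((S.L x)⁻¹ y), ?_⟩
  show S.qop (S.cls x) (S.cls ((S.L x)⁻¹ y)) = S.cls y
  rw [qop_cls, L_inv_apply_self]

lemma qop_right_bij [Finite Q] (q : Quotient S.rel) :
    Function.Bijective (fun y => S.qop y q) := by
  obtain ⟨x, rfl⟩ := S.cls_surj q
  have : Finite (Quotient S.rel) := Quotient.finite _
  apply Function.Surjective.bijective_of_finite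
  intro z
  obtain ⟨y, rfl⟩ := S.cls_surj z
  refine ⟨S.cls ((S.R x)⁻¹ y), ?_⟩
  show S.qop (S.cls ((S.R x)⁻¹ y)) (S.cls x) = S.cls y
  rw [qop_cls, R_inv_apply_self]

/-- The quotient loop by the orbits of `N`. -/
noncomputable def quo [Finite Q] : ALoop (Quotient S.rel) where
  op := S.qop
  e := S.cls S.e
  one_op := by
    intro q
    obtain ⟨x, rfl⟩ := S.cls_surj q
    rw [qop_cls, S.one_op]
  op_one := by
    intro q
    obtain ⟨x, rfl⟩ := S.cls_surj q
    rw [qop_cls, S.op_one]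
  bl := S.qop_left_bij
  br := S.qop_right_bij
  h1 := by
    intro x y z₁ z₂ w₁ w₂ h h'
    obtain ⟨x, rfl⟩ := S.cls_surj x
    obtain ⟨y, rfl⟩ := S.cls_surj y
    obtain ⟨z₁, rfl⟩ := S.cls_surj z₁
    obtain ⟨z₂, rfl⟩ := S.cls_surj z₂
    have e1 : w₁ = S.cls ((S.L (S.op y x))⁻¹ (S.op y (S.op x z₁))) := by
      apply (S.qop_left_bij (S.qop (S.cls y) (S.cls x))).1
      show S.qop _ _ = S.qop _ _
      rw [h]
      simp only [qop_cls, L_inv_apply_self]
    have e2 : w₂ = S.cls ((S.L (S.op y x))⁻¹ (S.op y (S.op x z₂))) := by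
      apply (S.qop_left_bij (S.qop (S.cls y) (S.cls x))).1
      show S.qop _ _ = S.qop _ _
      rw [h']
      simp only [qop_cls, L_inv_apply_self]
    rw [e1, e2]
    simp only [qop_cls]
    congr 1
    exact S.h1 x y z₁ z₂ _ _ (S.L_inv_apply_self _ _) (S.L_inv_apply_self _ _)
  h3 := by
    intro x z₁ z₂ w₁ w₂ h h'
    obtain ⟨x, rfl⟩ := S.cls_surj x
    obtain ⟨z₁, rfl⟩ := S.cls_surj z₁
    obtain ⟨z₂, rfl⟩ := S.cls_surj z₂
    have e1 : w₁ = S.cls ((S.R x)⁻¹ (S.op x z₁)) := by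
      apply (S.qop_right_bij (S.cls x)).1
      show S.qop _ _ = S.qop _ _
      rw [h]
      simp only [qop_cls, R_inv_apply_self]
    have e2 : w₂ = S.cls ((S.R x)⁻¹ (S.op x z₂)) := by
      apply (S.qop_right_bij (S.cls x)).1
      show S.qop _ _ = S.qop _ _
      rw [h']
      simp only [qop_cls, R_inv_apply_self]
    rw [e1, e2]
    simp only [qop_cls]
    congr 1
    exact S.h3 x z₁ z₂ _ _ (S.R_inv_apply_self _ _) (S.R_inv_apply_self _ _)

lemma quo_comm [Finite Q] (x y : Quotient S.rel) : S.quo.op x y = S.quo.op y x := by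
  obtain ⟨x, rfl⟩ := S.cls_surj x
  obtain ⟨y, rfl⟩ := S.cls_surj y
  show S.qop (S.cls x) (S.cls y) = S.qop (S.cls y) (S.cls x)
  have hx : S.cls (S.j x) = S.cls x := S.cls_eq.2 (S.rel_J x)
  have hy : S.cls (S.j y) = S.cls y := S.cls_eq.2 (S.rel_J y)
  have hxy : S.cls (S.j (S.op x y)) = S.cls (S.op x y) := S.cls_eq.2 (S.rel_J _)
  rw [S.aaip, ← qop_cls, ← qop_cls, hx, hy] at hxy
  exact hxy.symm

lemma quo_exp [Finite Q] (x : Quotient S.rel) : S.quo.op x x = S.quo.e := by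
  obtain ⟨x, rfl⟩ := S.cls_surj x
  show S.qop (S.cls x) (S.cls x) = S.cls S.e
  have hx : S.cls (S.j x) = S.cls x := S.cls_eq.2 (S.rel_J x)
  nth_rewrite 2 [← hx]
  rw [qop_cls, S.op_j]

lemma fiber_eq (a : Q) : {x | S.cls x = S.cls a} = S.L a '' (MulAction.orbit S.N S.e) := by
  ext x
  constructor
  · intro h
    have h' : S.rel x a := S.cls_eq.1 h
    rw [rel_iff] at h'
    obtain ⟨n, hn, hna⟩ := h'
    have hc := S.N_conj (⟨S.L a, S.L_mem_G a⟩⁻¹) n hn
    refine ⟨((S.L a)⁻¹ * (n : Equiv.Perm Q) * (S.L a)) S.e, ⟨⟨_, hc⟩, ?_⟩, ?_⟩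
    · show ((S.L a)⁻¹ * (n : Equiv.Perm Q) * (S.L a)⁻¹⁻¹) S.e = _
      rw [inv_inv]
    · rw [Equiv.Perm.mul_apply, Equiv.Perm.mul_apply, pinv1, L_apply, S.op_one, hna]
  · rintro ⟨y, ⟨n, hn⟩, rfl⟩
    apply S.cls_eq.2
    have h1 : S.rel y S.e := ⟨n, hn⟩
    have h2 := S.rel_left a h1
    rw [S.op_one] at h2
    exact h2

/-- **Second half**: if all elements have 2-power order then so has the loop. -/
theorem card_of_elem [Finite Q] (h : ∀ x, ∃ k : ℕ, (S.R x ^ (2 ^ k)) S.e = S.e) :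
    ∃ n : ℕ, Nat.card Q = 2 ^ n := by
  classical
  have hN := S.N_isPGroup h
  obtain ⟨m, hm⟩ := hN.card_orbit (α := Q) S.e
  have hq : ∃ n : ℕ, Nat.card (Quotient S.rel) = 2 ^ n := by
    have : Finite (Quotient S.rel) := Quotient.finite _
    exact card_of_comm_exp_two (S := S.quo) S.quo_comm S.quo_exp
  obtain ⟨n, hn⟩ := hq
  refine ⟨n + m, ?_⟩
  have : Finite (Quotient S.rel) := Quotient.finite _
  have : Fintype (Quotient S.rel) := Fintype.ofFinite _
  have h1 : Nat.card Q = ∑ q : Quotient S.rel, Nat.card {x // S.cls x = q} := by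
    rw [← Nat.card_congr (Equiv.sigmaFiberEquiv S.cls), Nat.card_sigma]
  have h2 : ∀ q : Quotient S.rel, Nat.card {x // S.cls x = q} = 2 ^ m := by
    intro q
    obtain ⟨a, rfl⟩ := S.cls_surj q
    have h3 : Nat.card {x // S.cls x = S.cls a} = {x | S.cls x = S.cls a}.ncard := rfl
    rw [h3, S.fiber_eq a, Set.ncard_image_of_injective _ (S.L a).injective, ← hm]
    rfl
  rw [h1, Finset.sum_congr rfl (fun q _ => h2 q), Finset.sum_const, Finset.card_univ,
    ← Nat.card_eq_fintype_card, hn, smul_eq_mul, pow_add]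

end ALoop

end Pool.Agent.helper5.AL
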