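import Pool.Agent.helper5.NBSGeneral

/-! Multiplicities, Seshadri constants, and the value at very general points. -/

set_option autoImplicit false

open MvPolynomial

namespace Pool.Agent.helper5.NBS

/-- multiplicity at `p` -/
noncomputable def mult (p : Fin 2 → ℂ) (F : R2) : ℕ := sSup {m : ℕ | F ∈ ptIdeal p ^ m}

lemma mem_pow_iff_le_order {p : Fin 2 → ℂ} {F : R2} {m : ℕ} :
    F ∈ ptIdeal p ^ m ↔ (m : ℕ∞) ≤ (trans p F : MvPowerSeries (Fin 2) ℂ).order := by
  rw [mem_ptIdeal_pow]
  constructor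
  · intro hF
    apply MvPowerSeries.nat_le_order
    intro d hd
    rw [MvPolynomial.coeff_coe]
    exact hF d hd
  · intro hF n hn
    rw [← MvPolynomial.coeff_coe]
    apply MvPowerSeries.coeff_of_lt_order
    exact lt_of_lt_of_le (by exact_mod_cast hn) hF

lemma order_eq_mult {p : Fin 2 → ℂ} {F : R2} (hF : F ≠ 0) :
    (trans p F : MvPowerSeries (Fin 2) ℂ).order = mult p F := by
  have hne : (trans p F : MvPowerSeries (Fin 2) ℂ) ≠ 0 := by
    intro h
    apply hF
    have h1 : trans p F = 0 := by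
      rw [← MvPolynomial.coe_zero] at h
      exact MvPolynomial.coe_injective _ _ h
    exact (map_eq_zero_iff (trans p) (trans p).injective).mp h1
  have hfin : ((trans p F : MvPowerSeries (Fin 2) ℂ).order.toNat : ℕ∞) =
      (trans p F : MvPowerSeries (Fin 2) ℂ).order := by
    rw [← MvPowerSeries.ne_zero_iff_order_finite]
    exact hne
  have hset : {m : ℕ | F ∈ ptIdeal p ^ m} =
      Set.Iic (trans p F : MvPowerSeries (Fin 2) ℂ).order.toNat := by
    ext m
    rw [Set.mem_ofPred_eq, mem_pow_iff_le_order, ← hfin, Set.mem_Iic]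
    simp
  rw [mult, hset, csSup_Iic, hfin]

lemma mem_pow_iff_le_mult {p : Fin 2 → ℂ} {F : R2} (hF : F ≠ 0) {m : ℕ} :
    F ∈ ptIdeal p ^ m ↔ m ≤ mult p F := by
  rw [mem_pow_iff_le_order, order_eq_mult hF]
  exact_mod_cast Iff.rfl

lemma mult_mul {p : Fin 2 → ℂ} {F G : R2} (hF : F ≠ 0) (hG : G ≠ 0) :
    mult p (F * G) = mult p F + mult p G := by
  have h : ((mult p (F * G) : ℕ) : ℕ∞) = (mult p F : ℕ∞) + mult p G := by
    rw [← order_eq_mult (mul_ne_zero hF hG), ← order_eq_mult hF, ← order_eq_mult hG, map_mul,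
      MvPolynomial.coe_mul, MvPowerSeries.order_mul]
  exact_mod_cast h

lemma mult_one (p : Fin 2 → ℂ) : mult p 1 = 0 := by
  have h := mult_mul (p := p) (one_ne_zero : (1 : R2) ≠ 0) (one_ne_zero : (1 : R2) ≠ 0)
  rw [mul_one] at h
  omega

lemma mult_unit (p : Fin 2 → ℂ) {u : R2} (hu : IsUnit u) : mult p u = 0 := by
  obtain ⟨v, hv⟩ := hu.exists_right_inv
  have hv0 : v ≠ 0 := by
    rintro rfl
    rw [mul_zero] at hv
    exact zero_ne_one hv
  have h := mult_mul (p := p) hu.ne_zero hv0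
  rw [hv, mult_one] at h
  omega

/-- the sum of the multiplicities -/
noncomputable def smult {r : ℕ} (p : Fin r → Fin 2 → ℂ) (F : R2) : ℕ := ∑ i, mult (p i) F

lemma smult_mul {r : ℕ} (p : Fin r → Fin 2 → ℂ) {F G : R2} (hF : F ≠ 0) (hG : G ≠ 0) :
    smult p (F * G) = smult p F + smult p G := by
  rw [smult, smult, smult, ← Finset.sum_add_distrib]
  exact Finset.sum_congr rfl (fun i _ => mult_mul hF hG)

/-- if every irreducible curve satisfies the inequality, so does every curve -/
lemma all_of_irreducible (e α γ : ℕ) {r : ℕ} (p : Fin r → Fin 2 → ℂ) (τ : ℝ) 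
    (h : ∀ F : R2, Irreducible F → 0 < smult p F → τ * smult p F ≤ ldeg e α γ F) (F : R2) :
    F ≠ 0 → τ * smult p F ≤ ldeg e α γ F := by
  induction F using WfDvdMonoid.induction_on_irreducible with
  | zero => intro h0; exact absurd rfl h0
  | unit u hu =>
    intro _
    have h0 : smult p u = 0 := by
      rw [smult]
      exact Finset.sum_eq_zero (fun i _ => mult_unit (p i) hu)
    rw [h0]
    simp
  | mul a i ha hi ih =>
    intro _
    have h1 := ih ha
    rw [smult_mul p hi.ne_zero ha, ldeg_mul e α γ hi.ne_zero ha]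
    push_cast
    have h2 : τ * smult p i ≤ ldeg e α γ i := by
      rcases Nat.eq_zero_or_pos (smult p i) with h0 | h0
      · rw [h0]
        simp
      · exact h i hi h0
    linarith [mul_add τ (smult p i : ℝ) (smult p a : ℝ)]

/-- existence of curves with large multiplicities -/
lemma exists_curve (e a b : ℕ) (hab : e * a ≤ b) {r : ℕ} (p : Fin r → Fin 2 → ℂ) (m : ℕ)
    (h : r * (m * (m + 1)) < 2 * cnt e a b) :
    ∃ F : R2, F ≠ 0 ∧ F ∈ V e a b ∧ ∀ i, F ∈ ptIdeal (p i) ^ m := by
  classical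
  have hfin := finite_exps m
  have hft := Fintype.ofFinite {n : Fin 2 →₀ ℕ // n.degree < m}
  have hV := finite_V e a b hab
  let f : V e a b →ₗ[ℂ] (Fin r → ({n : Fin 2 →₀ ℕ // n.degree < m} → ℂ)) :=
    (LinearMap.pi fun i => tay (p i) m) ∘ₗ (V e a b).subtype
  have hlt : Module.finrank ℂ (Fin r → ({n : Fin 2 →₀ ℕ // n.degree < m} → ℂ)) <
      Module.finrank ℂ (V e a b) := by
    rw [finrank_V e a b hab, Module.finrank_pi_fintype]
    simp only [Module.finrank_fintype_fun_eq_card, Finset.sum_const, Finset.card_univ,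
      Fintype.card_fin, smul_eq_mul]
    have h1 := card_exps m
    rw [Nat.card_eq_fintype_card] at h1
    have h2 : 2 * Fintype.card {n : Fin 2 →₀ ℕ // n.degree < m} = m * (m + 1) := by
      exact_mod_cast h1
    have h3 : 2 * (r * Fintype.card {n : Fin 2 →₀ ℕ // n.degree < m}) < 2 * cnt e a b := by
      calc 2 * (r * Fintype.card {n : Fin 2 →₀ ℕ // n.degree < m}) =
          r * (2 * Fintype.card {n : Fin 2 →₀ ℕ // n.degree < m}) := by ring
        _ = r * (m * (m + 1)) := by rw [h2]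
        _ < _ := h
    omega
  have hker := LinearMap.ker_ne_bot_of_finrank_lt (f := f) hlt
  obtain ⟨x, hx, hx0⟩ := (Submodule.ne_bot_iff _).mp hker
  refine ⟨x.1, fun h0 => hx0 (Subtype.ext h0), x.2, fun i => ?_⟩
  have h1 : f x = 0 := LinearMap.mem_ker.mp hx
  have h2 : tay (p i) m x.1 = 0 := congrFun h1 i
  have h3 : x.1 ∈ LinearMap.ker (tay (p i) m) := LinearMap.mem_ker.mpr h2
  rw [ker_tay] at h3
  exact h3

/-- upper bound for the Seshadri constant -/
lemma upper (e α γ : ℕ) (hα : 0 < α) {r : ℕ} (hr : 0 < r) (p : Fin r → Fin 2 → ℂ)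
    {q s : ℕ} (hq : 0 < q) (hs : 0 < s) (hsq : q ^ 2 * (α * (2 * γ + e * α)) = s ^ 2 * r)
    (τ : ℝ) (hτ : 0 ≤ τ) (h : ∀ F : R2, F ≠ 0 → τ * smult p F ≤ ldeg e α γ F) :
    τ * q ≤ s := by
  -- a curve of class `q t L` with multiplicities at least `t s - 1`
  have key : ∀ t : ℕ, τ * (r * (t * s - 1)) ≤ q * t * (α * (2 * γ + e * α)) := by
    intro t
    have hr' : (0 : ℝ) < r := by exact_mod_cast hr
    rcases Nat.eq_zero_or_pos (t * s) with h0 | hpos
    · have h0' : (t : ℝ) * s = 0 := by exact_mod_cast h0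
      rw [h0']
      have : (0 : ℝ) ≤ q * t * (α * (2 * γ + e * α)) := by positivity
      nlinarith [mul_nonneg hτ hr'.le]
    obtain ⟨m, hm⟩ : ∃ m, t * s = m + 1 := ⟨t * s - 1, by omega⟩
    have hab : e * (q * t * α) ≤ q * t * (γ + e * α) := by
      have : q * t * (γ + e * α) = q * t * γ + e * (q * t * α) := by ring
      omega
    obtain ⟨F, hF0, hFV, hFm⟩ := exists_curve e (q * t * α) (q * t * (γ + e * α)) hab p m (by
      have h1 := two_cnt e (q * t * α) (q * t * (γ + e * α)) hab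
      have h2 : ((r * (m * (m + 1)) : ℕ) : ℤ) < 2 * (cnt e (q * t * α) (q * t * (γ + e * α)) : ℤ) := by
        rw [h1]
        push_cast
        have h3 : ((q : ℤ) ^ 2 * (α * (2 * γ + e * α))) = s ^ 2 * r := by exact_mod_cast hsq
        have h4 : (t : ℤ) * s = m + 1 := by exact_mod_cast hm
        have h5 : (r : ℤ) * (m * (m + 1)) ≤ r * (m + 1) ^ 2 := by
          apply mul_le_mul_of_nonneg_left _ (by positivity)
          nlinarith
        have h6 : (r : ℤ) * (m + 1) ^ 2 = (q * t) ^ 2 * (α * (2 * γ + e * α)) := by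
          rw [← h4]
          linear_combination -(t : ℤ) ^ 2 * h3
        have h7 : ((q : ℤ) * t * α + 1) * (2 * (q * t * (γ + e * α) + 1) - e * (q * t * α)) =
            (q * t) ^ 2 * (α * (2 * γ + e * α)) + 2 * (q * t * α) + q * t * (2 * γ + e * α) + 2 := by
          ring
        rw [h7]
        have h8 : (0 : ℤ) ≤ 2 * (q * t * α) + q * t * (2 * γ + e * α) := by positivity
        linarith
      exact_mod_cast h2)
    rw [mem_V] at hFV
    have h1 := h F hF0
    have h2 : r * m ≤ smult p F := by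
      rw [smult]
      calc r * m = ∑ _i : Fin r, m := by simp
        _ ≤ _ := Finset.sum_le_sum (fun i _ => (mem_pow_iff_le_mult hF0).mp (hFm i))
    have h3 : ldeg e α γ F ≤ q * t * (α * (2 * γ + e * α)) := by
      rw [ldeg]
      calc α * wdeg e F + γ * ydeg F ≤ α * (q * t * (γ + e * α)) + γ * (q * t * α) :=
            Nat.add_le_add (Nat.mul_le_mul_left _ hFV.2) (Nat.mul_le_mul_left _ hFV.1)
        _ = _ := by ring
    have h4 : ((r * m : ℕ) : ℝ) ≤ smult p F := by exact_mod_cast h2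
    have h5 : ((ldeg e α γ F : ℕ) : ℝ) ≤ q * t * (α * (2 * γ + e * α)) := by exact_mod_cast h3
    have h6 : (t : ℝ) * s - 1 = m := by
      have : (t : ℝ) * s = m + 1 := by exact_mod_cast hm
      linarith
    rw [h6]
    have h7 : τ * ((r * m : ℕ) : ℝ) ≤ τ * smult p F := mul_le_mul_of_nonneg_left h4 hτ
    push_cast at h7
    linarith
  -- let `t → ∞`
  by_contra hcon
  push Not at hcon
  have hr' : (0 : ℝ) < r := by exact_mod_cast hr
  have hq' : (0 : ℝ) < q := by exact_mod_cast hq
  have hs' : (0 : ℝ) < s := by exact_mod_cast hs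
  have hsq' : (q : ℝ) ^ 2 * (α * (2 * γ + e * α)) = s ^ 2 * r := by exact_mod_cast hsq
  have hδ : 0 < τ * q - s := by linarith
  obtain ⟨t, ht⟩ := exists_nat_gt (τ * q / ((τ * q - s) * s))
  have h1 := key t
  have h2 : τ * q < t * ((τ * q - s) * s) := by
    rw [div_lt_iff₀ (mul_pos hδ hs')] at ht
    exact ht
  have h3 : q * (τ * (r * (t * s - 1))) ≤ q * (q * t * (α * (2 * γ + e * α))) :=
    mul_le_mul_of_nonneg_left h1 hq'.le
  have h4 : (q : ℝ) * (q * t * (α * (2 * γ + e * α))) = t * (s ^ 2 * r) := by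
    rw [← hsq']; ring
  rw [h4] at h3
  have h5 : (r : ℝ) * (τ * q * (t * s - 1) - t * s ^ 2) ≤ 0 := by
    have : (q : ℝ) * (τ * (r * (t * s - 1))) = r * (τ * q * (t * s - 1)) := by ring
    rw [this] at h3
    nlinarith
  have h6 : τ * q * (t * s - 1) - t * s ^ 2 ≤ 0 := by
    by_contra h7
    push Not at h7
    have := mul_pos hr' h7
    linarith
  nlinarith

end Pool.Agent.helper5.NBS
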