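import Pool.Agent.helper5.HB_PAIR

/-! Module B5a of MP_435341_pr (plan of helper23): the oscillation of the angle averaged over the
angular noise. -/

open MeasureTheory ProbabilityTheory Set Filter Topology
open scoped ENNReal NNReal

namespace Pool.Agent.helper5.HB

open Pool.Agent.helper23.HB

/-- a shifted Brownian motion -/
theorem BMp.shift {Ω : Type} [MeasurableSpace Ω] {P : Measure Ω} {X : Ω → ℝ → ℝ} (h : BMp P X)
    {a : ℝ} (ha : 0 ≤ a) : BMp P (fun ω t => X ω (a + t) - X ω a) where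
  cont := fun ω => ((h.cont ω).comp (continuous_const.add continuous_id)).sub continuous_const
  meas := fun t => (h.meas _).sub (h.meas _)
  bm := by
    have h1 := h.bm.shift a.toNNReal
    have h2 : (fun (t : ℝ≥0) ω => X ω (((a.toNNReal + t : ℝ≥0)) : ℝ) - X ω ((a.toNNReal : ℝ≥0) : ℝ))
        = fun (t : ℝ≥0) ω => X ω (a + (t : ℝ)) - X ω a := by
      funext t ω
      rw [NNReal.coe_add, Real.coe_toNNReal a ha]
    rw [h2] at h1
    exact h1

/-- scaled oscillation of a line -/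
noncomputable def Sc (u : Lab) (y : ((Lab → ℝ) × ℝ × ℝ)) (W : Lab → Pth) : ℝ :=
  ⨆ r : Icc (0 : ℝ) 1, |line y.1 W u (y.2.1 + r * y.2.2) - line y.1 W u y.2.1|

theorem measurable_Sc (u : Lab) : Measurable (Function.uncurry (Sc u)) := by
  have hl : ∀ f : ((Lab → ℝ) × ℝ × ℝ) × (Lab → Pth) → ℝ, Measurable f →
      Measurable (fun z : ((Lab → ℝ) × ℝ × ℝ) × (Lab → Pth) => line z.1.1 z.2 u (f z)) := by
    intro f hf
    have h2 : Measurable (fun z : ((Lab → ℝ) × ℝ × ℝ) × (Lab → Pth) =>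
        (((z.1.1, z.2), f z) : ((Lab → ℝ) × (Lab → Pth)) × ℝ)) :=
      ((measurable_fst.comp measurable_fst).prodMk measurable_snd).prodMk hf
    exact (measurable_line u).comp h2
  have ha : Measurable (fun z : ((Lab → ℝ) × ℝ × ℝ) × (Lab → Pth) => z.1.2.1) :=
    measurable_fst.comp (measurable_snd.comp measurable_fst)
  have hd : Measurable (fun z : ((Lab → ℝ) × ℝ × ℝ) × (Lab → Pth) => z.1.2.2) :=
    measurable_snd.comp (measurable_snd.comp measurable_fst)
  have h := measurable_iSup_Icc (α := ((Lab → ℝ) × ℝ × ℝ) × (Lab → Pth)) 0 1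
    (g := fun z r => |line z.1.1 z.2 u (z.1.2.1 + r * z.1.2.2) - line z.1.1 z.2 u z.1.2.1|)
    (fun z => (((line_continuous _ _ u).comp (continuous_const.add
      (continuous_id.mul continuous_const))).sub continuous_const).abs)
    (fun r => ((hl _ (ha.add (hd.const_mul r))).sub (hl _ ha)).abs)
  exact h

theorem sc_inner (hLINE : St_LINE) (hGAU : St_GAU) {s : ℝ} (hs : 0 < s) (hs1 : s ≤ 1)
    {Ω : Type} [MeasurableSpace Ω] (P : Measure Ω) [IsProbabilityMeasure P]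
    (W : Ω → Lab → Pth) (hW : Noise P W) (σ : Lab → ℝ) (hσ : ∀ u, 0 < σ u) (u : Lab)
    {a d : ℝ} (ha : 0 ≤ a) (hd : 0 < d) :
    ∫⁻ ω, ENNReal.ofReal (min 2 (Sc u (σ, a, d) (W ω))) ^ s ∂P
      ≤ 2 * ENNReal.ofReal (min 1 d) ^ (s / 2) := by
  rcases le_or_gt d 1 with h1 | h1
  · have hB := BMp.shift (hLINE Ω P W hW σ hσ u) ha
    have hG := (hGAU Ω P _ hB d hd).2.2.2 s hs hs1
    have hle : ∀ ω, Sc u (σ, a, d) (W ω) ≤
        (blk d (fun t => line σ (W ω) u (a + t) - line σ (W ω) u a) 0).2 := by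
      intro ω
      have : Nonempty (Icc (0 : ℝ) 1) := ⟨⟨0, by simp⟩⟩
      apply ciSup_le
      intro r
      have h2 := abs_sub_le_blk (hB.cont ω) d 0 (r := (r : ℝ) * d)
        (mul_nonneg r.2.1 hd.le) (by nlinarith [r.2.2])
      simpa using h2
    calc ∫⁻ ω, ENNReal.ofReal (min 2 (Sc u (σ, a, d) (W ω))) ^ s ∂P
        ≤ ∫⁻ ω, ENNReal.ofReal ((blk d (fun t => line σ (W ω) u (a + t) -
            line σ (W ω) u a) 0).2) ^ s ∂P := by
          refine lintegral_mono fun ω => ?_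
          exact ENNReal.rpow_le_rpow (ENNReal.ofReal_le_ofReal ((min_le_right _ _).trans (hle ω)))
            hs.le
      _ ≤ ENNReal.ofReal (2 * d ^ (s / 2)) := hG
      _ = 2 * ENNReal.ofReal (min 1 d) ^ (s / 2) := by
          rw [min_eq_right h1, ENNReal.ofReal_mul (by norm_num), ENNReal.ofReal_rpow_of_pos hd]
          simp
  · rw [min_eq_left h1.le, ENNReal.ofReal_one, ENNReal.one_rpow, mul_one]
    calc ∫⁻ ω, ENNReal.ofReal (min 2 (Sc u (σ, a, d) (W ω))) ^ s ∂P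
        ≤ ∫⁻ _ω, (2 : ℝ≥0∞) ∂P := by
          refine lintegral_mono fun ω => ?_
          calc ENNReal.ofReal (min 2 (Sc u (σ, a, d) (W ω))) ^ s
              ≤ (2 : ℝ≥0∞) ^ s := by
                refine ENNReal.rpow_le_rpow ?_ hs.le
                calc ENNReal.ofReal (min 2 (Sc u (σ, a, d) (W ω))) ≤ ENNReal.ofReal 2 :=
                      ENNReal.ofReal_le_ofReal (min_le_left _ _)
                  _ = 2 := by simp
            _ ≤ (2 : ℝ≥0∞) ^ (1 : ℝ) := ENNReal.rpow_le_rpow_of_exponent_le (by norm_num) hs1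
            _ = 2 := ENNReal.rpow_one _
      _ = 2 := by simp

theorem mB5a (hCK : St_CK) (hCLK : St_CLK) (hMSYS : St_MSYS) (hLINE : St_LINE)
    (hGAU : St_GAU) : St_B5a := by
  intro s hs hs1
  refine ⟨2, by simp, ?_⟩
  intro Ω _ P _ β lam S u m g hg
  obtain ⟨mR1, mR2, mR3, -, -, -⟩ := hMSYS Ω P β lam S
  have hRad : ∀ ω, RadOK lam (S.T ω) (S.B ω) (S.R ω) := fun ω =>
    ⟨S.life.pos ω, S.rad ω, S.old ω⟩
  set σ : Ω → Lab → ℝ := fun ω => sig (S.T ω) (S.R ω) with hσdef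
  have hσpos : ∀ ω u, 0 < σ ω u := fun ω => (hCLK lam _ _ _ (hRad ω)).1
  have hck : ∀ ω, (∀ a b : ℝ, 0 ≤ a → a ≤ b → clk (S.R ω u) a ≤ clk (S.R ω u) b) ∧
      (∀ a b : ℝ, 0 ≤ a → a < b → clk (S.R ω u) a < clk (S.R ω u) b) := fun ω =>
    ⟨(hCK _ (S.rad ω u).cont (S.rad ω u).pos).1, (hCK _ (S.rad ω u).cont (S.rad ω u).pos).2.1⟩
  have hm0 : (0 : ℝ) ≤ m := Nat.cast_nonneg m
  set a : Ω → ℝ := fun ω => clk (S.R ω u) m with ha
  set d : Ω → ℝ := fun ω => clk (S.R ω u) (m + 1) - clk (S.R ω u) m with hd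
  have ha0 : ∀ ω, 0 ≤ a ω := by
    intro ω
    have h1 := (hck ω).1 0 m le_rfl hm0
    have h2 : clk (S.R ω u) 0 = 0 := by simp [clk]
    rw [h2] at h1
    exact h1
  have hd0 : ∀ ω, 0 < d ω := fun ω => by
    have := (hck ω).2 m (m + 1) hm0 (by linarith)
    simp only [hd]
    linarith
  have hconst : ∀ c : ℝ, Measurable[S.mR] (fun _ : Ω => c) := fun c => measurable_const
  have ham : Measurable[S.mR] a := mR2 u (fun _ => (m : ℝ)) (hconst _) (fun _ => hm0)
  have hbm : Measurable[S.mR] (fun ω => clk (S.R ω u) (m + 1)) :=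
    mR2 u (fun _ => (m : ℝ) + 1) (hconst _) (fun _ => by linarith)
  have hdm : Measurable[S.mR] d := hbm.sub ham
  set Y : Ω → ℝ≥0∞ × ((Lab → ℝ) × ℝ × ℝ) := fun ω => (g ω, σ ω, a ω, d ω) with hY
  have hYm : Measurable[S.mR] Y := hg.prodMk (mR3.prodMk (ham.prodMk hdm))
  have hYm' : Measurable Y := hYm.mono S.mR_le le_rfl
  have hWm : Measurable S.W := measurable_pi_lambda _ fun u => S.noiseW.meas u
  have hYW : IndepFun Y S.W P := indep_of_indep_of_le_left S.indepW hYm.comap_le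
  -- the measurable functional
  have hScm := measurable_Sc u
  have hFm : Measurable (fun z : (ℝ≥0∞ × ((Lab → ℝ) × ℝ × ℝ)) × (Lab → Pth) =>
      z.1.1 * ENNReal.ofReal (min 2 (Function.uncurry (Sc u) (z.1.2, z.2))) ^ s) := by
    have h1 : Measurable (fun z : (ℝ≥0∞ × ((Lab → ℝ) × ℝ × ℝ)) × (Lab → Pth) => (z.1.2, z.2)) :=
      (measurable_snd.comp measurable_fst).prodMk measurable_snd
    have h2 := hScm.comp h1
    exact (measurable_fst.comp measurable_fst).mul
      (((measurable_const.min h2).ennreal_ofReal).pow_const s)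
  -- pathwise bound
  have hosc : ∀ ω, S.osc ω u m ≤ min 2 (Sc u (σ ω, a ω, d ω) (S.W ω)) := by
    intro ω
    unfold Sys.osc
    refine min_le_min le_rfl ?_
    have : Nonempty (Icc (0 : ℝ) 1) := ⟨⟨0, by simp⟩⟩
    apply ciSup_le
    intro r
    have hr := r.2
    have h1 : a ω ≤ clk (S.R ω u) (m + r) := (hck ω).1 _ _ hm0 (by linarith [hr.1])
    have h2 : clk (S.R ω u) (m + r) ≤ clk (S.R ω u) (m + 1) :=
      (hck ω).1 _ _ (by linarith [hr.1]) (by linarith [hr.2])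
    set r' : ℝ := (clk (S.R ω u) (m + r) - a ω) / d ω with hr'
    have hr'0 : 0 ≤ r' := div_nonneg (by linarith) (hd0 ω).le
    have hr'1 : r' ≤ 1 := by
      rw [hr', div_le_one (hd0 ω)]
      simp only [hd, ha]
      linarith
    have h3 : a ω + r' * d ω = clk (S.R ω u) (m + r) := by
      rw [hr', div_mul_cancel₀ _ (hd0 ω).ne']
      ring
    have h4 : S.Th ω u (m + r) - S.Th ω u m
        = line (σ ω) (S.W ω) u (a ω + r' * d ω) - line (σ ω) (S.W ω) u (a ω) := by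
      rw [h3]
      unfold Sys.Th ang
      ring
    rw [h4]
    have hc : Continuous (fun r : Icc (0 : ℝ) 1 => |line (σ ω) (S.W ω) u (a ω + r * d ω) -
        line (σ ω) (S.W ω) u (a ω)|) :=
      (((line_continuous _ _ u).comp (continuous_const.add
        (continuous_subtype_val.mul continuous_const))).sub continuous_const).abs
    exact le_ciSup (f := fun r : Icc (0 : ℝ) 1 => |line (σ ω) (S.W ω) u (a ω + r * d ω) -
      line (σ ω) (S.W ω) u (a ω)|) (isCompact_range hc).bddAbove ⟨r', hr'0, hr'1⟩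
  calc ∫⁻ ω, g ω * ENNReal.ofReal (S.osc ω u m) ^ s ∂P
      ≤ ∫⁻ ω, (fun z : (ℝ≥0∞ × ((Lab → ℝ) × ℝ × ℝ)) × (Lab → Pth) =>
          z.1.1 * ENNReal.ofReal (min 2 (Function.uncurry (Sc u) (z.1.2, z.2))) ^ s)
          (Y ω, S.W ω) ∂P := by
        refine lintegral_mono fun ω => ?_
        simp only [hY, Function.uncurry]
        gcongr
        exact hosc ω
    _ = ∫⁻ ω, ∫⁻ ω', (fun z : (ℝ≥0∞ × ((Lab → ℝ) × ℝ × ℝ)) × (Lab → Pth) =>
          z.1.1 * ENNReal.ofReal (min 2 (Function.uncurry (Sc u) (z.1.2, z.2))) ^ s)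
          (Y ω, S.W ω') ∂P ∂P := lintegral_indep hYm' hWm hYW hFm
    _ ≤ ∫⁻ ω, 2 * (g ω * ENNReal.ofReal (min 1 (clk (S.R ω u) (m + 1) - clk (S.R ω u) m)) ^
          (s / 2)) ∂P := by
        refine lintegral_mono fun ω => ?_
        simp only [hY, Function.uncurry]
        have hmm : Measurable (fun ω' => ENNReal.ofReal (min 2 (Sc u (σ ω, a ω, d ω)
            (S.W ω'))) ^ s) :=
          ((measurable_const.min (hScm.of_uncurry_left.comp hWm)).ennreal_ofReal).pow_const s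
        rw [lintegral_const_mul (g ω) hmm]
        have h1 := sc_inner hLINE hGAU hs hs1 P S.W S.noiseW (σ ω) (hσpos ω) u (ha0 ω) (hd0 ω)
        calc g ω * ∫⁻ ω', ENNReal.ofReal (min 2 (Sc u (σ ω, a ω, d ω) (S.W ω'))) ^ s ∂P
            ≤ g ω * (2 * ENNReal.ofReal (min 1 (d ω)) ^ (s / 2)) := by gcongr
          _ = _ := by simp only [hd]; ring
    _ = _ := lintegral_const_mul' _ _ (by simp)

end Pool.Agent.helper5.HB
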