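import Pool.Agent.helper23.HB.Stmts

/-! Module OSC of MP_435341_pr (plan of helper23): the oscillation of the angle in terms of the
noise only. -/

open MeasureTheory ProbabilityTheory Set Filter Topology
open scoped ENNReal NNReal

namespace Pool.Agent.helper5.HB

open Pool.Agent.helper23.HB

theorem mOSC (hB5a : St_B5a) (hRAD : St_RAD) (hCK : St_CK) (hM21 : St_M21) : St_OSC := by
  intro s hs hs1
  obtain ⟨C, hC, hB⟩ := hB5a s hs hs1
  refine ⟨C * ENNReal.ofReal (8 ^ (s / 2)), ENNReal.mul_ne_top hC ENNReal.ofReal_ne_top, ?_⟩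
  intro Ω _ P _ β lam hlam S u m gT G hgT hG
  have hTm : Measurable S.T := measurable_pi_lambda _ S.life.meas
  have hTm' : Measurable[S.mR] S.T := @measurable_pi_lambda _ _ _ S.mR _ _ S.measT
  have hBm' : Measurable[S.mR] S.B := @measurable_pi_lambda _ _ _ S.mR _ _ S.measB
  have hblk := measurable_blk_line 1 u
  have hg : Measurable[S.mR] (fun ω => gT (S.T ω) * G (blk 1 (line (S.T ω) (S.B ω) u))) := by
    have h1 : Measurable[S.mR] (fun ω => (S.T ω, S.B ω)) := hTm'.prodMk hBm'
    have h2 : Measurable (fun x : (Lab → ℝ) × (Lab → Pth) => gT x.1 * G (blk 1 (line x.1 x.2 u))) :=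
      (hgT.comp measurable_fst).mul (hG.comp hblk)
    exact h2.comp h1
  set c := lam + 1 / 2 with hc
  have hc0 : 0 < c := by simp only [hc]; linarith
  have hFm : Measurable (fun x : ℕ → ℝ × ℝ => G x *
      ENNReal.ofReal (Real.exp (-s * (Yk c x m - (x m).2)))) := by
    refine hG.mul ?_
    exact (Real.measurable_exp.comp (((measurable_Yk c m).sub
      (measurable_snd.comp (measurable_pi_apply m))).const_mul (-s))).ennreal_ofReal
  have hM := hM21 Ω P S.T S.B S.life.meas S.life.pos S.noiseB S.indepTB u 1 one_pos gT _ hgT hFm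
  calc ∫⁻ ω, gT (S.T ω) * G (blk 1 (line (S.T ω) (S.B ω) u)) * ENNReal.ofReal (S.osc ω u m) ^ s ∂P
      ≤ C * ∫⁻ ω, gT (S.T ω) * G (blk 1 (line (S.T ω) (S.B ω) u)) *
          ENNReal.ofReal (min 1 (clk (S.R ω u) (m + 1) - clk (S.R ω u) m)) ^ (s / 2) ∂P :=
        hB Ω P β lam S u m _ hg
    _ ≤ C * ∫⁻ ω, ENNReal.ofReal (8 ^ (s / 2)) * (gT (S.T ω) *
          (G (blk 1 (line (S.T ω) (S.B ω) u)) * ENNReal.ofReal (Real.exp (-s *
            (Yk c (blk 1 (line (S.T ω) (S.B ω) u)) m -
              (blk 1 (line (S.T ω) (S.B ω) u) m).2))))) ∂P := by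
        refine mul_le_mul' le_rfl (lintegral_mono fun ω => ?_)
        set X := line (S.T ω) (S.B ω) u with hX
        set z := Yk c (blk 1 X) m - (blk 1 X m).2 with hz
        have h1 := (hRAD lam X (S.R ω u) hc0 (line_continuous _ _ u) (S.rad ω u) m).2
        have h2 := (hCK (S.R ω u) (S.rad ω u).cont (S.rad ω u).pos).2.2.2.1 m z
          (Nat.cast_nonneg m) (by
            intro y hy
            have h3 := h1 (y - m) (by linarith [hy.1]) (by linarith [hy.2])
            rw [add_sub_cancel] at h3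
            exact h3)
        have h4 : ENNReal.ofReal (min 1 (clk (S.R ω u) (m + 1) - clk (S.R ω u) m)) ^ (s / 2)
            ≤ ENNReal.ofReal (8 ^ (s / 2)) * ENNReal.ofReal (Real.exp (-s * z)) := by
          calc ENNReal.ofReal (min 1 (clk (S.R ω u) (m + 1) - clk (S.R ω u) m)) ^ (s / 2)
              ≤ ENNReal.ofReal (8 * Real.exp (-2 * z)) ^ (s / 2) :=
                ENNReal.rpow_le_rpow (ENNReal.ofReal_le_ofReal h2) (by positivity)
            _ = ENNReal.ofReal ((8 * Real.exp (-2 * z)) ^ (s / 2)) :=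
                ENNReal.ofReal_rpow_of_pos (by positivity)
            _ = ENNReal.ofReal (8 ^ (s / 2)) * ENNReal.ofReal (Real.exp (-s * z)) := by
                rw [Real.mul_rpow (by norm_num) (Real.exp_pos _).le,
                  ENNReal.ofReal_mul (by positivity), ← Real.exp_mul]
                congr 3
                ring
        calc gT (S.T ω) * G (blk 1 X) *
              ENNReal.ofReal (min 1 (clk (S.R ω u) (m + 1) - clk (S.R ω u) m)) ^ (s / 2)
            ≤ gT (S.T ω) * G (blk 1 X) * (ENNReal.ofReal (8 ^ (s / 2)) *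
              ENNReal.ofReal (Real.exp (-s * z))) := by gcongr
          _ = _ := by ring
    _ = C * (ENNReal.ofReal (8 ^ (s / 2)) * ((∫⁻ ω, gT (S.T ω) ∂P) *
          ∫⁻ ω, G (blk 1 (S.B ω [])) * ENNReal.ofReal (Real.exp
            (-s * (Yk c (blk 1 (S.B ω [])) m - (blk 1 (S.B ω []) m).2))) ∂P)) := by
        rw [lintegral_const_mul' _ _ ENNReal.ofReal_ne_top]
        congr 2
    _ = _ := by ring

end Pool.Agent.helper5.HB
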