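import Pool.Agent.helper23.HB.Stmts

/-! Module PAIR of MP_435341_pr (plan of helper23): the energy of a pair averaged over the
angular noise. -/

open MeasureTheory ProbabilityTheory Set Filter Topology
open scoped ENNReal NNReal

namespace Pool.Agent.helper5.HB

open Pool.Agent.helper23.HB

/-- Fubini for independent variables -/
theorem lintegral_indep {Ω : Type} [MeasurableSpace Ω] {P : Measure Ω} [IsProbabilityMeasure P]
    {α β : Type*} [MeasurableSpace α] [MeasurableSpace β] {Y : Ω → α} {Z : Ω → β}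
    (hY : Measurable Y) (hZ : Measurable Z) (h : IndepFun Y Z P) {F : α × β → ℝ≥0∞}
    (hF : Measurable F) :
    ∫⁻ ω, F (Y ω, Z ω) ∂P = ∫⁻ ω, ∫⁻ ω', F (Y ω, Z ω') ∂P ∂P := by
  have h1 := (indepFun_iff_map_prod_eq_prod_map_map hY.aemeasurable hZ.aemeasurable).1 h
  have h2 : ∫⁻ ω, F (Y ω, Z ω) ∂P = ∫⁻ x, F x ∂(P.map (fun ω => (Y ω, Z ω))) := by
    rw [lintegral_map hF (hY.prodMk hZ)]
  have : IsProbabilityMeasure (P.map Z) := Measure.isProbabilityMeasure_map hZ.aemeasurable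
  rw [h2, h1, lintegral_prod _ hF.aemeasurable, lintegral_map ?_ hY]
  · refine lintegral_congr fun ω => ?_
    exact lintegral_map (f := fun y => F (Y ω, y)) (hF.comp measurable_prodMk_left) hZ
  · exact hF.lintegral_prod_right'

theorem measurable_cis : Measurable cis := by
  unfold cis
  fun_prop

theorem norm_cis_sub (a b : ℝ) : ‖cis a - cis b‖ₑ = ‖cis (a - b) - 1‖ₑ := by
  have h1 : cis a - cis b = cis b * (cis (a - b) - 1) := by
    unfold cis
    rw [mul_sub, mul_one, ← Complex.exp_add]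
    congr 2
    push_cast
    ring
  have h2 : ‖cis b‖ₑ = 1 := by
    unfold cis
    rw [← ofReal_norm, Complex.norm_exp_ofReal_mul_I]
    simp
  rw [h1, enorm_mul, h2, one_mul]

/-- the integrand -/
noncomputable def PhiP (s : ℝ) (w : Lab) (x : Bool) (p q : Lab) (y : (Lab → ℝ) × ℝ × ℝ)
    (W : Lab → Pth) : ℝ≥0∞ :=
  ‖cis (line (sh (x :: w) y.1) (sh (x :: w) W) p y.2.1 -
    line (sh ((!x) :: w) y.1) (sh ((!x) :: w) W) q y.2.2) - 1‖ₑ ^ (-s)

theorem measurable_PhiP (s : ℝ) (w : Lab) (x : Bool) (p q : Lab) :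
    Measurable (fun z : ((Lab → ℝ) × ℝ × ℝ) × (Lab → Pth) => PhiP s w x p q z.1 z.2) := by
  unfold PhiP
  have h1 : ∀ (v r : Lab) (f : ((Lab → ℝ) × ℝ × ℝ) × (Lab → Pth) → ℝ), Measurable f →
      Measurable (fun z : ((Lab → ℝ) × ℝ × ℝ) × (Lab → Pth) =>
        line (sh v z.1.1) (sh v z.2) r (f z)) := by
    intro v r f hf
    have h2 : Measurable (fun z : ((Lab → ℝ) × ℝ × ℝ) × (Lab → Pth) =>
        (((sh v z.1.1, sh v z.2), f z) : ((Lab → ℝ) × (Lab → Pth)) × ℝ)) :=
      (((measurable_sh v).comp (measurable_fst.comp measurable_fst)).prodMk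
        ((measurable_sh v).comp measurable_snd)).prodMk hf
    exact (measurable_line r).comp h2
  have h3 := (h1 (x :: w) p (fun z => z.1.2.1)
    (measurable_fst.comp (measurable_snd.comp measurable_fst))).sub
    (h1 ((!x) :: w) q (fun z => z.1.2.2)
    (measurable_snd.comp (measurable_snd.comp measurable_fst)))
  exact (((measurable_cis.comp h3).sub_const 1).enorm).pow_const (-s)

theorem measurable_PhiP_right (s : ℝ) (w : Lab) (x : Bool) (p q : Lab) (y : (Lab → ℝ) × ℝ × ℝ)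
    {Ω : Type} [MeasurableSpace Ω] {W : Ω → Lab → Pth} (hW : Measurable W) :
    Measurable (fun ω => PhiP s w x p q y (W ω)) := by
  have h2 : Measurable (Function.uncurry (PhiP s w x p q)) := measurable_PhiP s w x p q
  exact h2.of_uncurry_left.comp hW

/-- the integrand with the weight -/
noncomputable def FP (s : ℝ) (w : Lab) (x : Bool) (p q : Lab)
    (y : (ℝ≥0∞ × ((Lab → ℝ) × ℝ × ℝ)) × (Lab → Pth)) : ℝ≥0∞ :=
  y.1.1 * PhiP s w x p q y.1.2 y.2

theorem measurable_FP (s : ℝ) (w : Lab) (x : Bool) (p q : Lab) : Measurable (FP s w x p q) := by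
  unfold FP
  have h1 : Measurable (fun y : (ℝ≥0∞ × ((Lab → ℝ) × ℝ × ℝ)) × (Lab → Pth) => (y.1.2, y.2)) :=
    (measurable_snd.comp measurable_fst).prodMk measurable_snd
  have h2 := (measurable_PhiP s w x p q).comp h1
  have h3 : Measurable (fun y : (ℝ≥0∞ × ((Lab → ℝ) × ℝ × ℝ)) × (Lab → Pth) => y.1.1) :=
    measurable_fst.comp measurable_fst
  exact h3.mul h2

theorem Noise.sh {Ω : Type} [MeasurableSpace Ω] {P : Measure Ω} {B : Ω → Lab → Pth}
    (h : Noise P B) (u : Lab) : Noise P (fun ω => sh u (B ω)) where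
  meas := fun p => h.meas (p ++ u)
  bm := fun p => h.bm (p ++ u)
  indep := by
    have : Function.Injective (fun p : Lab => p ++ u) := fun p q hpq => List.append_cancel_right hpq
    exact h.indep.precomp this

/-- the average over the angular noise for fixed radial data -/
theorem pair_inner (hLINE : St_LINE) (hIND : St_IND) {s : ℝ} {C : ℝ≥0∞}
    (hs : 0 < s)
    (hC : ∀ (x : ℝ) (v : ℝ≥0), v ≠ 0 →
      ∫⁻ y, ‖cis (x + y) - 1‖ₑ ^ (-s) ∂(gaussianReal 0 v) ≤
        C * ENNReal.ofReal (min 1 (v : ℝ)) ^ (-(s / 2)))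
    {Ω : Type} [MeasurableSpace Ω] (P : Measure Ω) [IsProbabilityMeasure P]
    (W : Ω → Lab → Pth) (hW : Noise P W) (σ : Lab → ℝ) (hσ : ∀ u, 0 < σ u) (w : Lab) (x : Bool)
    (p q : Lab) (a a' : ℝ) (ha : 0 ≤ a) :
    ∫⁻ ω, PhiP s w x p q (σ, a, a') (W ω) ∂P
      ≤ (C + 1) * ENNReal.ofReal (min 1 a) ^ (-(s / 2)) := by
  rcases ha.eq_or_lt with h0 | h0
  · subst h0
    rw [min_eq_right zero_le_one, ENNReal.ofReal_zero, ENNReal.zero_rpow_of_neg (by linarith),
      ENNReal.mul_top (by simp)]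
    exact le_top
  -- the two groups of labels
  set A : Bool → Set Lab := fun b => {l | (b :: w) <:+ l} with hA
  have hdisj : Pairwise (fun i j => Disjoint (A i) (A j)) := by
    intro i j hij
    rw [Set.disjoint_left]
    intro l hl hl'
    have h1 : (i :: w) <:+ (j :: w) := List.suffix_of_suffix_length_le hl hl' (by simp)
    have h2 := h1.eq_of_length (by simp)
    exact hij (List.cons.inj h2).1
  have hind := hIND Ω P Pth W hW.meas hW.indep Bool A hdisj
  have hind2 := hind.indepFun (show x ≠ !x by cases x <;> simp)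
  -- the two functionals
  have hmem : ∀ (b : Bool) (r : Lab), r ++ b :: w ∈ A b := fun b r => ⟨r, rfl⟩
  set ψ : (b : Bool) → Lab → ℝ → (A b → Pth) → ℝ := fun b r c f =>
    line (sh (b :: w) σ) (fun r' => f ⟨r' ++ b :: w, hmem b r'⟩) r c with hψ
  have hψm : ∀ b r c, Measurable (ψ b r c) := by
    intro b r c
    have h2 : Measurable (fun f : A b → Pth =>
        (((sh (b :: w) σ, fun r' => f ⟨r' ++ b :: w, hmem b r'⟩), c) :
          ((Lab → ℝ) × (Lab → Pth)) × ℝ)) :=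
      (measurable_const.prodMk (measurable_pi_lambda _ fun r' => measurable_pi_apply _)).prodMk
        measurable_const
    exact (measurable_line r).comp h2
  set G₁ : Ω → ℝ := fun ω => line (sh (x :: w) σ) (sh (x :: w) (W ω)) p a with hG₁
  set G₂ : Ω → ℝ := fun ω => line (sh ((!x) :: w) σ) (sh ((!x) :: w) (W ω)) q a' with hG₂
  have hG₁e : G₁ = ψ x p a ∘ fun ω (u : A x) => W ω u := rfl
  have hG₂e : G₂ = ψ (!x) q a' ∘ fun ω (u : A (!x)) => W ω u := rfl
  have hWm : ∀ b, Measurable (fun ω (u : A b) => W ω u) := fun b =>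
    measurable_pi_lambda _ fun u => hW.meas u
  have hG₁m : Measurable G₁ := by rw [hG₁e]; exact (hψm _ _ _).comp (hWm x)
  have hG₂m : Measurable G₂ := by rw [hG₂e]; exact (hψm _ _ _).comp (hWm (!x))
  have hI : IndepFun G₂ G₁ P := by
    have h1 : IndepFun G₁ G₂ P := by
      rw [hG₁e, hG₂e]
      exact hind2.comp (hψm _ _ _) (hψm _ _ _)
    exact h1.symm
  -- the law of `G₁`
  have hBM := (hLINE Ω P (fun ω => sh (x :: w) (W ω)) (Noise.sh hW _) (sh (x :: w) σ)
    (sh_pos hσ _) p).bm.hasLaw_eval a.toNNReal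
  have hlaw : P.map G₁ = gaussianReal 0 a.toNNReal := by
    have h1 := hBM.map_eq
    rw [Real.coe_toNNReal a h0.le] at h1
    exact h1
  have hv : a.toNNReal ≠ 0 := by
    rw [Ne, Real.toNNReal_eq_zero]
    linarith
  -- Fubini
  have hF : Measurable (fun z : ℝ × ℝ => ‖cis (-z.1 + z.2) - 1‖ₑ ^ (-s)) :=
    (((measurable_cis.comp (measurable_fst.neg.add measurable_snd)).sub_const 1).enorm).pow_const
      (-s)
  have h2 : ∫⁻ ω, PhiP s w x p q (σ, a, a') (W ω) ∂P
      = ∫⁻ ω, (fun z : ℝ × ℝ => ‖cis (-z.1 + z.2) - 1‖ₑ ^ (-s)) (G₂ ω, G₁ ω) ∂P := by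
    refine lintegral_congr fun ω => ?_
    unfold PhiP
    simp only [hG₁, hG₂]
    rw [neg_add_eq_sub]
  rw [h2, lintegral_indep hG₂m hG₁m hI hF]
  have h3 : ∀ ω, ∫⁻ ω', (fun z : ℝ × ℝ => ‖cis (-z.1 + z.2) - 1‖ₑ ^ (-s)) (G₂ ω, G₁ ω') ∂P
      ≤ C * ENNReal.ofReal (min 1 a) ^ (-(s / 2)) := by
    intro ω
    have h4 := hC (-G₂ ω) a.toNNReal hv
    rw [← hlaw, lintegral_map ?_ hG₁m, Real.coe_toNNReal a h0.le] at h4
    · exact h4
    · exact (((measurable_cis.comp (measurable_const.add measurable_id)).sub_const 1).enorm).pow_const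
        (-s)
  calc _ ≤ ∫⁻ _ω, C * ENNReal.ofReal (min 1 a) ^ (-(s / 2)) ∂P := lintegral_mono h3
    _ = C * ENNReal.ofReal (min 1 a) ^ (-(s / 2)) := by simp
    _ ≤ _ := by gcongr; exact le_self_add

theorem mPAIR (hCK : St_CK) (hCLK : St_CLK) (hMSYS : St_MSYS) (hLINE : St_LINE) (hACON : St_ACON)
    (hIND : St_IND) : St_PAIR := by
  intro s hs hs1
  obtain ⟨C, hCt, hC⟩ := hACON s hs hs1
  refine ⟨C + 1, by simp [hCt], ?_⟩
  intro Ω _ P _ β lam S z t g ht ht0 hg hgt
  obtain ⟨w, x, p, q⟩ := z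
  obtain ⟨mR1, mR2, mR3, -, -, -⟩ := hMSYS Ω P β lam S
  have hRad : ∀ ω, RadOK lam (S.T ω) (S.B ω) (S.R ω) := fun ω =>
    ⟨S.life.pos ω, S.rad ω, S.old ω⟩
  -- radial data
  set σ : Ω → Lab → ℝ := fun ω => sig (S.T ω) (S.R ω) with hσdef
  have hσpos : ∀ ω u, 0 < σ ω u := fun ω => (hCLK lam _ _ _ (hRad ω)).1
  have hσdeath : ∀ ω u, death (σ ω) u = clk (S.R ω u) (death (S.T ω) u) := fun ω =>
    (hCLK lam _ _ _ (hRad ω)).2.2.1
  have hclkold : ∀ ω (p u : Lab) (t : ℝ), 0 ≤ t → t ≤ death (S.T ω) u →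
      clk (S.R ω (p ++ u)) t = clk (S.R ω u) t := fun ω => (hCLK lam _ _ _ (hRad ω)).2.2.2.1
  set a : Ω → ℝ := fun ω => clk (S.R ω (qu (w, x, p, q))) (t ω) - death (σ ω) w with hadef
  set a' : Ω → ℝ := fun ω => clk (S.R ω (qv (w, x, p, q))) (t ω) - death (σ ω) w with ha'def
  have hdeathm : Measurable[S.mR] (fun ω => death (σ ω) w) := (measurable_death w).comp mR3
  have ham : Measurable[S.mR] a := (mR2 _ t ht ht0).sub hdeathm
  have ha'm : Measurable[S.mR] a' := (mR2 _ t ht ht0).sub hdeathm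
  set Y : Ω → ℝ≥0∞ × ((Lab → ℝ) × ℝ × ℝ) := fun ω => (g ω, σ ω, a ω, a' ω) with hY
  have hYm : Measurable[S.mR] Y := hg.prodMk (mR3.prodMk (ham.prodMk ha'm))
  have hYm' : Measurable Y := hYm.mono S.mR_le le_rfl
  have hWm : Measurable S.W := measurable_pi_lambda _ fun u => S.noiseW.meas u
  have hYW : IndepFun Y S.W P := by
    have h1 := S.indepW
    exact indep_of_indep_of_le_left h1 hYm.comap_le
  -- the integrand
  have hFm := measurable_FP s w x p q
  -- pathwise identity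
  have hdt : ∀ ω, g ω ≠ 0 → 0 ≤ death (S.T ω) w := fun ω _ => (death_pos (S.life.pos ω) w).le
  have hage : ∀ ω, g ω ≠ 0 → ∀ r : Lab, ∀ b : Bool,
      death (σ ω) w ≤ clk (S.R ω (r ++ b :: w)) (t ω) := by
    intro ω hgω r b
    have h1 : clk (S.R ω ((r ++ [b]) ++ w)) (death (S.T ω) w) = clk (S.R ω w) (death (S.T ω) w) :=
      hclkold ω (r ++ [b]) w _ (hdt ω hgω) le_rfl
    rw [List.append_assoc, List.singleton_append] at h1
    rw [hσdeath, ← h1]
    exact (hCK (S.R ω (r ++ b :: w)) (S.rad ω _).cont (S.rad ω _).pos).1 _ _ (hdt ω hgω)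
      (hgt ω hgω)
  have hpath : ∀ ω, g ω * ‖S.D ω (qu (w, x, p, q)) (t ω) - S.D ω (qv (w, x, p, q)) (t ω)‖ₑ ^ (-s)
      = FP s w x p q (Y ω, S.W ω) := by
    intro ω
    by_cases hgω : g ω = 0
    · simp [FP, hY, hgω]
    have h1 := hage ω hgω p x
    have h2 := hage ω hgω q (!x)
    have hline : ∀ (r : Lab) (b : Bool) (c : ℝ), 0 ≤ c →
        line (σ ω) (S.W ω) (r ++ b :: w) (death (σ ω) w + c)
          = line (σ ω) (S.W ω) w (death (σ ω) w) +
            line (sh (b :: w) (σ ω)) (sh (b :: w) (S.W ω)) r c := by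
      intro r b c hc
      have h3 := line_shift (hσpos ω) (S.W ω) r (b :: w) hc
      rw [birth_cons] at h3
      rw [h3, line_old _ _ _ _ le_rfl]
    have h4 : S.Th ω (qu (w, x, p, q)) (t ω) - S.Th ω (qv (w, x, p, q)) (t ω)
        = line (sh (x :: w) (σ ω)) (sh (x :: w) (S.W ω)) p (a ω) -
          line (sh ((!x) :: w) (σ ω)) (sh ((!x) :: w) (S.W ω)) q (a' ω) := by
      have h5 := hline p x (a ω) (by simp only [hadef, qu]; linarith)
      have h6 := hline q (!x) (a' ω) (by simp only [ha'def, qv]; linarith)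
      have h7 : death (σ ω) w + a ω = clk (S.R ω (qu (w, x, p, q))) (t ω) := by
        simp only [hadef]; ring
      have h8 : death (σ ω) w + a' ω = clk (S.R ω (qv (w, x, p, q))) (t ω) := by
        simp only [ha'def]; ring
      rw [h7] at h5
      rw [h8] at h6
      have h9 : S.Th ω (qu (w, x, p, q)) (t ω) = S.θ0 ω + line (σ ω) (S.W ω) (p ++ x :: w)
        (clk (S.R ω (qu (w, x, p, q))) (t ω)) := rfl
      have h10 : S.Th ω (qv (w, x, p, q)) (t ω) = S.θ0 ω + line (σ ω) (S.W ω) (q ++ (!x) :: w)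
        (clk (S.R ω (qv (w, x, p, q))) (t ω)) := rfl
      rw [h9, h10, h5, h6]
      ring
    simp only [FP, hY, PhiP, Sys.D]
    rw [norm_cis_sub, h4]
  simp only [hpath]
  rw [lintegral_indep hYm' hWm hYW hFm]
  -- the bound
  rw [← lintegral_const_mul']
  · refine lintegral_mono fun ω => ?_
    simp only [FP, hY]
    by_cases hgω : g ω = 0
    · simp [hgω]
    have h1 := hage ω hgω p x
    have ha0 : 0 ≤ a ω := by simp only [hadef, qu]; linarith
    have hmm : Measurable (fun ω' => PhiP s w x p q (σ ω, a ω, a' ω) (S.W ω')) :=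
      measurable_PhiP_right s w x p q _ hWm
    rw [lintegral_const_mul (g ω) hmm]
    have h2 := pair_inner hLINE hIND hs hC P S.W S.noiseW (σ ω) (hσpos ω) w x p q (a ω) (a' ω) ha0
    have h3 : clk (S.R ω (qu (w, x, p, q))) (t ω) - clk (S.R ω (qu (w, x, p, q)))
        (death (S.T ω) w) = a ω := by
      have h4 : clk (S.R ω ((p ++ [x]) ++ w)) (death (S.T ω) w)
          = clk (S.R ω w) (death (S.T ω) w) := hclkold ω (p ++ [x]) w _ (hdt ω hgω) le_rfl
      rw [List.append_assoc, List.singleton_append] at h4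
      simp only [hadef, hσdeath, ← h4]
      rfl
    rw [h3]
    calc g ω * ∫⁻ ω', PhiP s w x p q (σ ω, a ω, a' ω) (S.W ω') ∂P
        ≤ g ω * ((C + 1) * ENNReal.ofReal (min 1 (a ω)) ^ (-(s / 2))) := by gcongr
      _ = _ := by ring
  · simp [hCt]

end Pool.Agent.helper5.HB
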