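import Pool.Agent.helper5.HB_PAIR

/-! Module PSUM of MP_435341_pr (plan of helper23): sums over pairs of good particles. -/

open MeasureTheory ProbabilityTheory Set Filter Topology
open scoped ENNReal NNReal

namespace Pool.Agent.helper5.HB

open Pool.Agent.helper23.HB

theorem measurableSet_GoodB (v : Lab) (h : ℝ) {gd : Set (ℝ × ℝ)} (hgd : MeasurableSet gd)
    (n : ℕ) : MeasurableSet {x : (Lab → ℝ) × (Lab → Pth) | GoodB h gd n (line x.1 x.2 v)} := by
  have h1 : {x : (Lab → ℝ) × (Lab → Pth) | GoodB h gd n (line x.1 x.2 v)}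
      = ⋂ k : ℕ, ⋂ (_ : k < n), {x | blk h (line x.1 x.2 v) k ∈ gd} := by
    ext x
    simp [GoodB]
  rw [h1]
  refine MeasurableSet.iInter fun k => MeasurableSet.iInter fun _ => ?_
  exact ((measurable_pi_apply k).comp (measurable_blk_line h v)) hgd

theorem ae_mem_eq (a b : ℝ) (f : ℝ → ℝ≥0∞) :
    ∫⁻ r in Ico a b, f r = ∫⁻ r in Ioc a b, f r :=
  setLIntegral_congr Ico_ae_eq_Ioc

theorem mPSUM (hB4 : St_B4) (hPRS : St_PRS) : St_PSUM := by
  intro Ω _ P _ β T B hβ hT hB hTB h gd n ψ hh hgd hψ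
  have hTm : Measurable T := measurable_pi_lambda _ hT.meas
  have hBm : Measurable B := measurable_pi_lambda _ fun u => hB.meas u
  set q := P {ω | blk h (B ω []) 0 ∈ gd} with hq
  -- measurability
  have hAl : ∀ v : Lab, Measurable (fun τ : Lab → ℝ => ind (v ∈ Alive τ (n * h))) := fun v =>
    measurable_ind (measurableSet_Alive_left v (n * h))
  have hGd : ∀ z : Quad, Measurable (fun x : (Lab → ℝ) × (Lab → Pth) =>
      ind (GoodB h gd n (line x.1 x.2 (qu z)) ∧ GoodB h gd n (line x.1 x.2 (qv z)))) := fun z =>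
    measurable_ind ((measurableSet_GoodB (qu z) h hgd n).inter (measurableSet_GoodB (qv z) h hgd n))
  set c : Quad → (Lab → ℝ) → ℝ≥0∞ := fun z τ =>
    ind (qu z ∈ Alive τ (n * h)) * ind (qv z ∈ Alive τ (n * h)) with hc
  have hcm : ∀ z, Measurable (c z) := fun z => (hAl _).mul (hAl _)
  have hGeq : ∀ (z : Quad) (τ : Lab → ℝ) (b : Lab → Pth),
      ind (qu z ∈ Gd2 h gd n τ b ∧ qv z ∈ Gd2 h gd n τ b) * ψ (death τ z.1)
        = (c z τ * ψ (death τ z.1)) *
          ind (GoodB h gd n (line τ b (qu z)) ∧ GoodB h gd n (line τ b (qv z))) := by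
    intro z τ b
    have h1 : ind (qu z ∈ Gd2 h gd n τ b ∧ qv z ∈ Gd2 h gd n τ b)
        = c z τ * ind (GoodB h gd n (line τ b (qu z)) ∧ GoodB h gd n (line τ b (qv z))) := by
      simp only [hc]
      rw [← ind_and, ← ind_and]
      congr 1
      simp only [Gd2, Set.mem_ofPred_eq, eq_iff_iff]
      tauto
    rw [h1]
    ring
  have hψd : ∀ w : Lab, Measurable (fun τ : Lab → ℝ => ψ (death τ w)) := fun w =>
    hψ.comp (measurable_death w)
  have hGm : ∀ z : Quad, Measurable (fun x : (Lab → ℝ) × (Lab → Pth) =>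
      (c z x.1 * ψ (death x.1 z.1)) *
        ind (GoodB h gd n (line x.1 x.2 (qu z)) ∧ GoodB h gd n (line x.1 x.2 (qv z)))) := fun z =>
    (((hcm z).comp measurable_fst).mul ((hψd z.1).comp measurable_fst)).mul (hGd z)
  -- the pieces of ψ
  set ψm : ℕ → ℝ → ℝ≥0∞ := fun m => (Ico ((m : ℝ) * h) (((m : ℝ) + 1) * h)).indicator ψ with hψm
  set ψi : ℝ → ℝ≥0∞ := (Ici ((n : ℝ) * h)).indicator ψ with hψi
  have hψmm : ∀ m, Measurable (ψm m) := fun m => hψ.indicator measurableSet_Ico
  have hψim : Measurable ψi := hψ.indicator measurableSet_Ici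
  -- bound of one term
  have hterm : ∀ z : Quad, ∫⁻ ω, ind (qu z ∈ Gd2 h gd n (T ω) (B ω) ∧
      qv z ∈ Gd2 h gd n (T ω) (B ω)) * ψ (death (T ω) z.1) ∂P ≤
      (∑ m ∈ Finset.range n, q ^ (m + 2 * (n - m - 1)) *
        ∫⁻ ω, ind (qu z ∈ Alive (T ω) (n * h)) * ind (qv z ∈ Alive (T ω) (n * h)) *
          ψm m (death (T ω) z.1) ∂P) +
      ∫⁻ ω, ind (qu z ∈ Alive (T ω) (n * h)) * ind (qv z ∈ Alive (T ω) (n * h)) *
          ψi (death (T ω) z.1) ∂P := by
    intro z
    have e1 : ∫⁻ ω, ind (qu z ∈ Gd2 h gd n (T ω) (B ω) ∧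
        qv z ∈ Gd2 h gd n (T ω) (B ω)) * ψ (death (T ω) z.1) ∂P
        = ∫⁻ ω, ∫⁻ ω', (c z (T ω) * ψ (death (T ω) z.1)) *
          ind (GoodB h gd n (line (T ω) (B ω') (qu z)) ∧
            GoodB h gd n (line (T ω) (B ω') (qv z))) ∂P ∂P := by
      simp only [hGeq]
      exact lintegral_indep hTm hBm hTB (hGm z)
    rw [e1]
    have hmeas1 : ∀ m, Measurable (fun ω => ind (qu z ∈ Alive (T ω) (n * h)) *
        ind (qv z ∈ Alive (T ω) (n * h)) * ψm m (death (T ω) z.1)) := fun m =>
      ((hcm z).mul ((hψmm m).comp (measurable_death z.1))).comp hTm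
    have hmeas2 : Measurable (fun ω => ind (qu z ∈ Alive (T ω) (n * h)) *
        ind (qv z ∈ Alive (T ω) (n * h)) * ψi (death (T ω) z.1)) :=
      ((hcm z).mul (hψim.comp (measurable_death z.1))).comp hTm
    have e2 : (∑ m ∈ Finset.range n, q ^ (m + 2 * (n - m - 1)) *
        ∫⁻ ω, ind (qu z ∈ Alive (T ω) (n * h)) * ind (qv z ∈ Alive (T ω) (n * h)) *
          ψm m (death (T ω) z.1) ∂P) +
        ∫⁻ ω, ind (qu z ∈ Alive (T ω) (n * h)) * ind (qv z ∈ Alive (T ω) (n * h)) *
          ψi (death (T ω) z.1) ∂P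
        = ∫⁻ ω, ((∑ m ∈ Finset.range n, q ^ (m + 2 * (n - m - 1)) *
          (ind (qu z ∈ Alive (T ω) (n * h)) * ind (qv z ∈ Alive (T ω) (n * h)) *
          ψm m (death (T ω) z.1))) +
          ind (qu z ∈ Alive (T ω) (n * h)) * ind (qv z ∈ Alive (T ω) (n * h)) *
          ψi (death (T ω) z.1)) ∂P := by
      rw [lintegral_add_right _ hmeas2, lintegral_finsetSum]
      · congr 1
        refine Finset.sum_congr rfl fun m _ => ?_
        rw [lintegral_const_mul _ (hmeas1 m)]
      · exact fun m _ => (hmeas1 m).const_mul _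
    rw [e2]
    refine lintegral_mono fun ω => ?_
    set τ := T ω with hτ
    have hτpos : ∀ u, 0 < τ u := hT.pos ω
    -- the inner integral
    have hset : MeasurableSet {ω' | GoodB h gd n (line τ (B ω') (qu z)) ∧
        GoodB h gd n (line τ (B ω') (qv z))} := by
      have hm : Measurable (fun ω' => (τ, B ω')) := measurable_const.prodMk hBm
      exact hm ((measurableSet_GoodB (qu z) h hgd n).inter (measurableSet_GoodB (qv z) h hgd n))
    have e3 : ∫⁻ ω', (c z τ * ψ (death τ z.1)) *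
          ind (GoodB h gd n (line τ (B ω') (qu z)) ∧ GoodB h gd n (line τ (B ω') (qv z))) ∂P
        = (c z τ * ψ (death τ z.1)) * P {ω' | GoodB h gd n (line τ (B ω') (qu z)) ∧
            GoodB h gd n (line τ (B ω') (qv z))} := by
      have hmi : Measurable (fun ω' => ind (GoodB h gd n (line τ (B ω') (qu z)) ∧
          GoodB h gd n (line τ (B ω') (qv z)))) := measurable_ind hset
      rw [lintegral_const_mul _ hmi]
      congr 1
      have : ∀ ω', ind (GoodB h gd n (line τ (B ω') (qu z)) ∧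
          GoodB h gd n (line τ (B ω') (qv z))) = ({ω' | GoodB h gd n (line τ (B ω') (qu z)) ∧
            GoodB h gd n (line τ (B ω') (qv z))} : Set Ω).indicator (fun _ => (1 : ℝ≥0∞)) ω' :=
        fun ω' => ind_mem {ω' | GoodB h gd n (line τ (B ω') (qu z)) ∧
          GoodB h gd n (line τ (B ω') (qv z))} ω'
      simp only [this]
      rw [lintegral_indicator_const hset, one_mul]
    rw [e3]
    by_cases hal : qu z ∈ Alive τ (n * h) ∧ qv z ∈ Alive τ (n * h)
    · have hc1 : c z τ = 1 := by simp [hc, hal.1, hal.2]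
      have hi1 : ind (qu z ∈ Alive τ (n * h)) = 1 := ind_true hal.1
      have hi2 : ind (qv z ∈ Alive τ (n * h)) = 1 := ind_true hal.2
      rw [hc1, hi1, hi2]
      simp only [one_mul]
      have hdle : death τ z.1 ≤ n * h :=
        (death_le_birth_append hτpos z.2.1 z.2.2.1 z.1).trans hal.1.1
      have hdpos : 0 < death τ z.1 := death_pos hτpos z.1
      rcases hdle.lt_or_eq with hlt | heq
      · set m := ⌊death τ z.1 / h⌋₊ with hm
        have hm1 : (m : ℝ) * h ≤ death τ z.1 := by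
          rw [← le_div_iff₀ hh]
          exact Nat.floor_le (by positivity)
        have hm2 : death τ z.1 < ((m : ℝ) + 1) * h := by
          rw [← div_lt_iff₀ hh]
          exact Nat.lt_floor_add_one _
        have hmn : m < n := by
          have : (m : ℝ) * h < n * h := lt_of_le_of_lt hm1 hlt
          exact_mod_cast lt_of_mul_lt_mul_right this hh.le
        have hP := hB4 Ω P B hB τ hτpos z h m n hh hmn hm1 hm2 gd hgd
        have hψe : ψm m (death τ z.1) = ψ (death τ z.1) := by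
          simp only [hψm]
          exact Set.indicator_of_mem (show death τ z.1 ∈ Ico _ _ from ⟨hm1, hm2⟩) ψ
        calc ψ (death τ z.1) * P {ω' | GoodB h gd n (line τ (B ω') (qu z)) ∧
              GoodB h gd n (line τ (B ω') (qv z))}
            ≤ ψ (death τ z.1) * q ^ (m + 2 * (n - m - 1)) := by gcongr; exact hP
          _ = q ^ (m + 2 * (n - m - 1)) * ψm m (death τ z.1) := by rw [hψe, mul_comm]
          _ ≤ ∑ m ∈ Finset.range n, q ^ (m + 2 * (n - m - 1)) * ψm m (death τ z.1) :=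
              Finset.single_le_sum (f := fun m => q ^ (m + 2 * (n - m - 1)) *
                ψm m (death τ z.1)) (fun _ _ => zero_le) (Finset.mem_range.2 hmn)
          _ ≤ _ := le_self_add
      · have hψe : ψi (death τ z.1) = ψ (death τ z.1) := by
          simp only [hψi]
          exact Set.indicator_of_mem (show (n : ℝ) * h ≤ death τ z.1 from heq.symm.le) ψ
        rw [hψe]
        calc ψ (death τ z.1) * P {ω' | GoodB h gd n (line τ (B ω') (qu z)) ∧
              GoodB h gd n (line τ (B ω') (qv z))}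
            ≤ ψ (death τ z.1) * 1 := by gcongr; exact prob_le_one
          _ = ψ (death τ z.1) := mul_one _
          _ ≤ _ := le_add_self
    · have hc0 : c z τ = 0 := by
        simp only [hc]
        rw [← ind_and]
        exact ind_false hal
      rw [hc0, zero_mul, zero_mul]
      exact zero_le
  -- summation
  have hAE : ∀ z : Quad, AEMeasurable (fun ω => ind (qu z ∈ Gd2 h gd n (T ω) (B ω) ∧
      qv z ∈ Gd2 h gd n (T ω) (B ω)) * ψ (death (T ω) z.1)) P := by
    intro z
    simp only [hGeq]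
    exact ((hGm z).comp (hTm.prodMk hBm)).aemeasurable
  rw [lintegral_tsum hAE]
  have hmin : min ((n : ℝ) * h) (n * h) = n * h := min_self _
  have hPm : ∀ m, ∑' z : Quad, ∫⁻ ω, ind (qu z ∈ Alive (T ω) (n * h)) *
      ind (qv z ∈ Alive (T ω) (n * h)) * ψm m (death (T ω) z.1) ∂P
      ≤ ∫⁻ r in Ioc ((m : ℝ) * h) (((m : ℝ) + 1) * h),
        ψ r * ENNReal.ofReal (2 * β * Real.exp (β * (2 * (n * h) - r))) := by
    intro m
    rw [hPRS Ω P β T hβ hT (n * h) (n * h) (ψm m) (hψmm m),
      ← ae_mem_eq ((m : ℝ) * h) (((m : ℝ) + 1) * h)]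
    calc ∫⁻ r in Ioc (0 : ℝ) (min (n * h) (n * h)), ψm m r *
          ENNReal.ofReal (2 * β * Real.exp (β * (n * h + n * h - r)))
        ≤ ∫⁻ r, ψm m r * ENNReal.ofReal (2 * β * Real.exp (β * (n * h + n * h - r))) :=
          setLIntegral_le_lintegral _ _
      _ = ∫⁻ r, (Ico ((m : ℝ) * h) (((m : ℝ) + 1) * h)).indicator (fun r => ψ r *
            ENNReal.ofReal (2 * β * Real.exp (β * (2 * (n * h) - r)))) r := by
          refine lintegral_congr fun r => ?_
          simp only [hψm]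
          by_cases hr : r ∈ Ico ((m : ℝ) * h) (((m : ℝ) + 1) * h)
          · rw [Set.indicator_of_mem hr, Set.indicator_of_mem hr, two_mul ((n : ℝ) * h)]
          · rw [Set.indicator_of_notMem hr, Set.indicator_of_notMem hr, zero_mul]
      _ = _ := lintegral_indicator measurableSet_Ico _
  have hPi : ∑' z : Quad, ∫⁻ ω, ind (qu z ∈ Alive (T ω) (n * h)) *
      ind (qv z ∈ Alive (T ω) (n * h)) * ψi (death (T ω) z.1) ∂P = 0 := by
    rw [hPRS Ω P β T hβ hT (n * h) (n * h) ψi hψim, hmin]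
    rw [setLIntegral_congr (Ioo_ae_eq_Ioc (a := (0:ℝ)) (b := n * h)).symm]
    refine setLIntegral_eq_zero measurableSet_Ioo fun r hr => ?_
    have : ψi r = 0 := by
      simp only [hψi]
      exact Set.indicator_of_notMem (fun h : (n : ℝ) * _ ≤ r => absurd hr.2 (not_lt.2 h)) ψ
    rw [this, zero_mul]
    rfl
  calc ∑' z : Quad, ∫⁻ ω, ind (qu z ∈ Gd2 h gd n (T ω) (B ω) ∧
        qv z ∈ Gd2 h gd n (T ω) (B ω)) * ψ (death (T ω) z.1) ∂P
      ≤ ∑' z : Quad, ((∑ m ∈ Finset.range n, q ^ (m + 2 * (n - m - 1)) *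
        ∫⁻ ω, ind (qu z ∈ Alive (T ω) (n * h)) * ind (qv z ∈ Alive (T ω) (n * h)) *
          ψm m (death (T ω) z.1) ∂P) +
        ∫⁻ ω, ind (qu z ∈ Alive (T ω) (n * h)) * ind (qv z ∈ Alive (T ω) (n * h)) *
          ψi (death (T ω) z.1) ∂P) := ENNReal.tsum_le_tsum hterm
    _ = (∑ m ∈ Finset.range n, q ^ (m + 2 * (n - m - 1)) * ∑' z : Quad,
        ∫⁻ ω, ind (qu z ∈ Alive (T ω) (n * h)) * ind (qv z ∈ Alive (T ω) (n * h)) *
          ψm m (death (T ω) z.1) ∂P) + 0 := by
        rw [ENNReal.tsum_add, hPi]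
        congr 1
        rw [Summable.tsum_finsetSum fun _ _ => ENNReal.summable]
        exact Finset.sum_congr rfl fun m _ => ENNReal.tsum_mul_left
    _ ≤ _ := by
        rw [add_zero]
        refine Finset.sum_le_sum fun m _ => ?_
        gcongr
        exact hPm m

end Pool.Agent.helper5.HB
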