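import Pool.Agent.helper5.NBSLocal

/-! A Bézout inequality on Hirzebruch surfaces, by dimension counting. -/

set_option autoImplicit false

open MvPolynomial

namespace Pool.Agent.helper5.NBS

lemma finite_map (e a b : ℕ) (h : e * a ≤ b) (G : R2) :
    Module.Finite ℂ ((V e a b).map (LinearMap.mulLeft ℂ G)) := by
  have := finite_V e a b h
  infer_instance

lemma mulLeft_injective {G : R2} (hG : G ≠ 0) : Function.Injective (LinearMap.mulLeft ℂ G) := by
  intro x y h
  exact mul_left_cancel₀ hG h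

lemma finrank_map {e a b : ℕ} (h : e * a ≤ b) {G : R2} (hG : G ≠ 0) :
    Module.finrank ℂ ((V e a b).map (LinearMap.mulLeft ℂ G)) = cnt e a b := by
  rw [← finrank_V e a b h]
  exact (Submodule.equivMapOfInjective _ (mulLeft_injective hG) (V e a b)).finrank_eq.symm

lemma arith_aux (a b a' b' K L e n0 n1 n2 n3 s : ℤ)
    (c0 : 2 * n0 = (K + 1) * (2 * (L + 1) - e * K))
    (c1 : 2 * n1 = (K - a + 1) * (2 * (L - b + 1) - e * (K - a)))
    (c2 : 2 * n2 = (K - a' + 1) * (2 * (L - b' + 1) - e * (K - a')))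
    (c3 : 2 * n3 = (K - a - a' + 1) * (2 * (L - b - b' + 1) - e * (K - a - a')))
    (h : s + n1 + n2 ≤ n0 + n3) : s + e * a * a' ≤ a * b' + b * a' := by
  have h1 : 2 * (n0 + n3 - n1 - n2) = 2 * (a * b' + b * a' - e * a * a') := by
    linear_combination c0 + c3 - c1 - c2
  linarith

theorem bezout (e : ℕ) {F P : R2} (hF : F ≠ 0) (hP : P ≠ 0) (hcop : IsRelPrime F P)
    {ι : Type} [Fintype ι] (p : ι → Fin 2 → ℂ) (hp : Function.Injective p) (m : ι → ℕ)
    (hFm : ∀ i, F ∈ ptIdeal (p i) ^ m i) (hPm : ∀ i, P ∈ ptIdeal (p i)) :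
    (∑ i, m i) + e * ydeg F * ydeg P ≤ ydeg F * wdeg e P + wdeg e F * ydeg P := by
  classical
  set I : ι → Ideal R2 := fun i => Ideal.span {P} ⊔ ptIdeal (p i) ^ m i with hI
  have hfinI : ∀ i, Module.Finite ℂ (R2 ⧸ I i) := fun i => (finite_and_le_finrank (hPm i) (m i)).1
  have hmI : ∀ i, m i ≤ Module.finrank ℂ (R2 ⧸ I i) := fun i =>
    (finite_and_le_finrank (hPm i) (m i)).2
  have hcopI : Pairwise (Function.onFun IsCoprime I) := by
    intro i j hij
    have h1 : IsCoprime (ptIdeal (p i) ^ m i) (ptIdeal (p j) ^ m j) :=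
      (ptIdeal_coprime (fun h => hij (hp h))).pow
    show IsCoprime (I i) (I j)
    rw [Ideal.isCoprime_iff_sup_eq] at h1 ⊢
    rw [eq_top_iff, ← h1]
    exact sup_le_sup le_sup_right le_sup_right
  let Ψ : R2 →ₗ[ℂ] (∀ i, R2 ⧸ I i) :=
    LinearMap.pi (fun i => (Ideal.Quotient.mkₐ ℂ (I i)).toLinearMap)
  have hΨ : Function.Surjective Ψ := by
    intro x
    obtain ⟨r, hr⟩ := Ideal.pi_quotient_surjective hcopI x
    exact ⟨r, funext hr⟩
  have hfr : ∑ i, m i ≤ Module.finrank ℂ (∀ i, R2 ⧸ I i) := by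
    rw [Module.finrank_pi_fintype]
    exact Finset.sum_le_sum (fun i _ => hmI i)
  -- a spanning family
  let bas := Module.finBasis ℂ (∀ i, R2 ⧸ I i)
  choose G hG using fun j => hΨ (bas j)
  set K0 := Finset.univ.sup (fun j => ydeg (G j)) with hK0
  set M0 := Finset.univ.sup (fun j => wdeg e (G j)) with hM0
  set a := ydeg F with ha
  set b := wdeg e F with hb
  set a' := ydeg P with ha'
  set b' := wdeg e P with hb'
  set K := K0 + a + a' with hK
  set L := e * K + M0 + b + b' with hL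
  have hKL : e * K ≤ L := by omega
  have hKL1 : e * (K - a) ≤ L - b := by
    have : e * (K - a) ≤ e * K := Nat.mul_le_mul_left _ (Nat.sub_le _ _)
    omega
  have hKL2 : e * (K - a') ≤ L - b' := by
    have : e * (K - a') ≤ e * K := Nat.mul_le_mul_left _ (Nat.sub_le _ _)
    omega
  have hKL3 : e * (K - a - a') ≤ L - b - b' := by
    have : e * (K - a - a') ≤ e * K := Nat.mul_le_mul_left _ (by omega)
    omega
  set S1 := (V e (K - a) (L - b)).map (LinearMap.mulLeft ℂ F) with hS1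
  set S2 := (V e (K - a') (L - b')).map (LinearMap.mulLeft ℂ P) with hS2
  set S3 := (V e (K - a - a') (L - b - b')).map (LinearMap.mulLeft ℂ (F * P)) with hS3
  have f0 := finite_V e K L hKL
  have f1 : Module.Finite ℂ S1 := finite_map e _ _ hKL1 F
  have f2 : Module.Finite ℂ S2 := finite_map e _ _ hKL2 P
  have f3 : Module.Finite ℂ S3 := finite_map e _ _ hKL3 (F * P)
  have hle1 : S1 ≤ V e K L := by
    rintro _ ⟨U, hU, rfl⟩
    rw [SetLike.mem_coe, mem_V] at hU
    rw [LinearMap.mulLeft_apply]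
    by_cases hU0 : U = 0
    · rw [hU0, mul_zero]; exact zero_mem _
    · rw [mem_V, ydeg_mul hF hU0, wdeg_mul e hF hU0]
      omega
  have hle2 : S2 ≤ V e K L := by
    rintro _ ⟨U, hU, rfl⟩
    rw [SetLike.mem_coe, mem_V] at hU
    rw [LinearMap.mulLeft_apply]
    by_cases hU0 : U = 0
    · rw [hU0, mul_zero]; exact zero_mem _
    · rw [mem_V, ydeg_mul hP hU0, wdeg_mul e hP hU0]
      omega
  have hle3 : S1 ⊓ S2 ≤ S3 := by
    rintro x ⟨⟨U, hU, rfl⟩, ⟨W, hW, hUW⟩⟩
    rw [SetLike.mem_coe, mem_V] at hU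
    rw [LinearMap.mulLeft_apply, LinearMap.mulLeft_apply] at hUW
    by_cases hU0 : U = 0
    · rw [hU0, map_zero]; exact zero_mem _
    have hdvd : P ∣ F * U := ⟨W, hUW.symm⟩
    have hPU : P ∣ U := hcop.symm.dvd_of_dvd_mul_left hdvd
    obtain ⟨Q, rfl⟩ := hPU
    have hQ0 : Q ≠ 0 := by
      rintro rfl
      exact hU0 (mul_zero _)
    refine ⟨Q, ?_, ?_⟩
    · rw [SetLike.mem_coe, mem_V]
      rw [ydeg_mul hP hQ0, wdeg_mul e hP hQ0] at hU
      omega
    · simp only [LinearMap.mulLeft_apply]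
      ring
  have hsup : S1 ⊔ S2 ≤ V e K L := sup_le hle1 hle2
  have hkerS : S1 ⊔ S2 ≤ LinearMap.ker Ψ := by
    apply sup_le
    · rintro _ ⟨U, hU, rfl⟩
      rw [LinearMap.mem_ker]
      funext i
      show Ideal.Quotient.mk (I i) (F * U) = 0
      rw [Ideal.Quotient.eq_zero_iff_mem]
      exact Ideal.mul_mem_right _ _ (Ideal.mem_sup_right (hFm i))
    · rintro _ ⟨U, hU, rfl⟩
      rw [LinearMap.mem_ker]
      funext i
      show Ideal.Quotient.mk (I i) (P * U) = 0
      rw [Ideal.Quotient.eq_zero_iff_mem]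
      exact Ideal.mul_mem_right _ _ (Ideal.mem_sup_left (Ideal.mem_span_singleton_self P))
  -- restriction of `Ψ`
  let Ψ0 : V e K L →ₗ[ℂ] (∀ i, R2 ⧸ I i) := Ψ.domRestrict (V e K L)
  have hGV : ∀ j, G j ∈ V e K L := by
    intro j
    rw [mem_V]
    have h1 : ydeg (G j) ≤ K0 := Finset.le_sup (f := fun j => ydeg (G j)) (Finset.mem_univ j)
    have h2 : wdeg e (G j) ≤ M0 := Finset.le_sup (f := fun j => wdeg e (G j)) (Finset.mem_univ j)
    omega
  have hΨ0 : LinearMap.range Ψ0 = ⊤ := by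
    rw [eq_top_iff, ← bas.span_eq, Submodule.span_le]
    rintro _ ⟨j, rfl⟩
    exact ⟨⟨G j, hGV j⟩, hG j⟩
  have h1 := LinearMap.finrank_range_add_finrank_ker Ψ0
  rw [hΨ0, finrank_top, finrank_V e K L hKL] at h1
  have h2 : Module.finrank ℂ ↥(S1 ⊔ S2) ≤ Module.finrank ℂ (LinearMap.ker Ψ0) := by
    rw [← (Submodule.comapSubtypeEquivOfLe hsup).finrank_eq]
    apply Submodule.finrank_mono
    intro x hx
    rw [Submodule.mem_comap] at hx
    exact LinearMap.mem_ker.mp (hkerS hx)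
  have h3 := Submodule.finrank_sup_add_finrank_inf_eq S1 S2
  have h4 : Module.finrank ℂ ↥(S1 ⊓ S2) ≤ cnt e (K - a - a') (L - b - b') := by
    rw [← finrank_map hKL3 (mul_ne_zero hF hP)]
    exact Submodule.finrank_mono hle3
  have h5 : Module.finrank ℂ S1 = cnt e (K - a) (L - b) := finrank_map hKL1 hF
  have h6 : Module.finrank ℂ S2 = cnt e (K - a') (L - b') := finrank_map hKL2 hP
  have h7 : (∑ i, m i) + cnt e (K - a) (L - b) + cnt e (K - a') (L - b') ≤
      cnt e K L + cnt e (K - a - a') (L - b - b') := by omega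
  have c0 := two_cnt e K L hKL
  have c1 := two_cnt e (K - a) (L - b) hKL1
  have c2 := two_cnt e (K - a') (L - b') hKL2
  have c3 := two_cnt e (K - a - a') (L - b - b') hKL3
  have k1 : ((K - a : ℕ) : ℤ) = K - a := by rw [Nat.cast_sub (by omega)]
  have k2 : ((K - a' : ℕ) : ℤ) = K - a' := by rw [Nat.cast_sub (by omega)]
  have k3 : ((K - a - a' : ℕ) : ℤ) = K - a - a' := by
    rw [Nat.cast_sub (by omega), Nat.cast_sub (by omega)]
  have l1 : ((L - b : ℕ) : ℤ) = L - b := by rw [Nat.cast_sub (by omega)]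
  have l2 : ((L - b' : ℕ) : ℤ) = L - b' := by rw [Nat.cast_sub (by omega)]
  have l3 : ((L - b - b' : ℕ) : ℤ) = L - b - b' := by
    rw [Nat.cast_sub (by omega), Nat.cast_sub (by omega)]
  rw [k1, l1] at c1
  rw [k2, l2] at c2
  rw [k3, l3] at c3
  have h8 : ((∑ i, m i : ℕ) : ℤ) + cnt e (K - a) (L - b) + cnt e (K - a') (L - b') ≤
      cnt e K L + cnt e (K - a - a') (L - b - b') := by exact_mod_cast h7
  have h9 := arith_aux _ _ _ _ _ _ _ _ _ _ _ _ c0 c1 c2 c3 h8
  exact_mod_cast h9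

end Pool.Agent.helper5.NBS
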