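import Mathlib

/-!
Automorphic loops, elementary part: the group `G` of all permutations of the form
(left translation) * (automorphism or antiautomorphism), the inversion map `J` and the
antiautomorphic inverse property.
-/

set_option autoImplicit false

namespace Pool.Agent.helper5.AL

lemma pinv1 {Q : Type*} (f : Equiv.Perm Q) (x : Q) : f (f⁻¹ x) = x := Equiv.apply_symm_apply f x
lemma pinv2 {Q : Type*} (f : Equiv.Perm Q) (x : Q) : f⁻¹ (f x) = x := Equiv.symm_apply_apply f x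

/-- A loop whose left inner mappings and middle inner mappings are automorphisms. -/
structure ALoop (Q : Type*) where
  op : Q → Q → Q
  e : Q
  one_op : ∀ x, op e x = x
  op_one : ∀ x, op x e = x
  bl : ∀ x, Function.Bijective (fun y => op x y)
  br : ∀ x, Function.Bijective (fun y => op y x)
  h1 : ∀ x y z₁ z₂ w₁ w₂ : Q,
      op (op y x) w₁ = op y (op x z₁) →
      op (op y x) w₂ = op y (op x z₂) →
      op (op y x) (op w₁ w₂) = op y (op x (op z₁ z₂))
  h3 : ∀ x z₁ z₂ w₁ w₂ : Q,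
      op w₁ x = op x z₁ →
      op w₂ x = op x z₂ →
      op (op w₁ w₂) x = op x (op z₁ z₂)

namespace ALoop

variable {Q : Type*} (S : ALoop Q)

/-- Left translation as a permutation. -/
noncomputable def L (x : Q) : Equiv.Perm Q := Equiv.ofBijective (fun y => S.op x y) (S.bl x)

/-- Right translation as a permutation. -/
noncomputable def R (x : Q) : Equiv.Perm Q := Equiv.ofBijective (fun y => S.op y x) (S.br x)

@[simp] lemma L_apply (x y : Q) : S.L x y = S.op x y := rfl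
@[simp] lemma R_apply (x y : Q) : S.R x y = S.op y x := rfl

lemma op_left_cancel {x y z : Q} (h : S.op x y = S.op x z) : y = z := (S.bl x).1 h
lemma op_right_cancel {x y z : Q} (h : S.op y x = S.op z x) : y = z := (S.br x).1 h

def IsAut (φ : Equiv.Perm Q) : Prop := ∀ x y, φ (S.op x y) = S.op (φ x) (φ y)
def IsAnti (φ : Equiv.Perm Q) : Prop := ∀ x y, φ (S.op x y) = S.op (φ y) (φ x)

variable {S}

lemma IsAut.map_e {φ : Equiv.Perm Q} (h : S.IsAut φ) : φ S.e = S.e := by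
  have h2 : S.op (φ S.e) (φ S.e) = S.op (φ S.e) S.e := by
    rw [← h, S.one_op, S.op_one]
  exact S.op_left_cancel h2

lemma IsAnti.map_e {φ : Equiv.Perm Q} (h : S.IsAnti φ) : φ S.e = S.e := by
  have h2 : S.op (φ S.e) (φ S.e) = S.op (φ S.e) S.e := by
    rw [← h, S.one_op, S.op_one]
  exact S.op_left_cancel h2

lemma IsAut.one : S.IsAut 1 := fun _ _ => rfl

lemma IsAut.mul {φ ψ : Equiv.Perm Q} (h : S.IsAut φ) (h' : S.IsAut ψ) : S.IsAut (φ * ψ) := by
  intro x y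
  simp only [Equiv.Perm.mul_apply]
  rw [h', h]

lemma IsAut.inv {φ : Equiv.Perm Q} (h : S.IsAut φ) : S.IsAut φ⁻¹ := by
  intro x y
  rw [Equiv.Perm.inv_eq_iff_eq, h, pinv1, pinv1]

lemma IsAut.conj_L {φ : Equiv.Perm Q} (h : S.IsAut φ) (x : Q) :
    φ * S.L x = S.L (φ x) * φ := by
  ext y
  simp only [Equiv.Perm.mul_apply, L_apply]
  exact h x y

lemma IsAut.conj_R {φ : Equiv.Perm Q} (h : S.IsAut φ) (x : Q) :
    φ * S.R x = S.R (φ x) * φ := by
  ext y
  simp only [Equiv.Perm.mul_apply, R_apply]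
  exact h y x

lemma IsAnti.conj_L {φ : Equiv.Perm Q} (h : S.IsAnti φ) (x : Q) :
    φ * S.L x = S.R (φ x) * φ := by
  ext y
  simp only [Equiv.Perm.mul_apply, L_apply, R_apply]
  exact h x y

lemma IsAnti.conj_R {φ : Equiv.Perm Q} (h : S.IsAnti φ) (x : Q) :
    φ * S.R x = S.L (φ x) * φ := by
  ext y
  simp only [Equiv.Perm.mul_apply, L_apply, R_apply]
  exact h y x

variable (S)

/-- The group of all automorphisms and antiautomorphisms. -/
def B : Subgroup (Equiv.Perm Q) where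
  carrier := {φ | S.IsAut φ ∨ S.IsAnti φ}
  one_mem' := Or.inl IsAut.one
  mul_mem' := by
    rintro φ ψ (h | h) (h' | h')
    · exact Or.inl (h.mul h')
    · right; intro x y; simp only [Equiv.Perm.mul_apply]; rw [h', h]
    · right; intro x y; simp only [Equiv.Perm.mul_apply]; rw [h', h]
    · left; intro x y; simp only [Equiv.Perm.mul_apply]; rw [h', h]
  inv_mem' := by
    rintro φ (h | h)
    · exact Or.inl h.inv
    · right; intro x y
      rw [Equiv.Perm.inv_eq_iff_eq, h, pinv1, pinv1]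

variable {S}

lemma mem_B_iff {φ : Equiv.Perm Q} : φ ∈ S.B ↔ S.IsAut φ ∨ S.IsAnti φ := Iff.rfl

lemma map_e_of_mem_B {φ : Equiv.Perm Q} (h : φ ∈ S.B) : φ S.e = S.e := by
  rcases h with h | h
  · exact h.map_e
  · exact h.map_e

variable (S)

lemma L_e : S.L S.e = 1 := by
  ext y; simp [S.one_op]

lemma R_e : S.R S.e = 1 := by
  ext y; simp [S.op_one]

lemma L_inv_apply_self (x y : Q) : S.op x ((S.L x)⁻¹ y) = y := pinv1 (S.L x) y

lemma L_inv_op (x y : Q) : (S.L x)⁻¹ (S.op x y) = y := pinv2 (S.L x) y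

lemma R_inv_apply_self (x y : Q) : S.op ((S.R x)⁻¹ y) x = y := pinv1 (S.R x) y

lemma innL (x y : Q) : S.IsAut ((S.L (S.op y x))⁻¹ * S.L y * S.L x) := by
  intro z₁ z₂
  apply S.op_left_cancel (x := S.op y x)
  simp only [Equiv.Perm.mul_apply, L_apply, L_inv_apply_self]
  exact (S.h1 x y z₁ z₂ _ _ (S.L_inv_apply_self _ _) (S.L_inv_apply_self _ _)).symm

lemma innT (x : Q) : S.IsAut ((S.R x)⁻¹ * S.L x) := by
  intro z₁ z₂
  apply S.op_right_cancel (x := x)
  simp only [Equiv.Perm.mul_apply, L_apply, R_inv_apply_self]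
  exact (S.h3 x z₁ z₂ _ _ (S.R_inv_apply_self _ _) (S.R_inv_apply_self _ _)).symm

/-- The middle inner mapping. -/
noncomputable def Tm (x : Q) : Equiv.Perm Q := (S.R x)⁻¹ * S.L x

lemma Tm_aut (x : Q) : S.IsAut (S.Tm x) := S.innT x

lemma R_mul_Tm (x : Q) : S.R x * S.Tm x = S.L x := by
  unfold Tm; group

lemma Tm_self (x : Q) : S.Tm x x = x := by
  apply S.op_right_cancel (x := x)
  unfold Tm
  rw [Equiv.Perm.mul_apply, L_apply, R_inv_apply_self]

/-- the right inverse of `x` -/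
noncomputable def j (x : Q) : Q := (S.L x)⁻¹ S.e

lemma op_j (x : Q) : S.op x (S.j x) = S.e := by
  unfold j; rw [L_inv_apply_self]

lemma j_op (x : Q) : S.op (S.j x) x = S.e := by
  -- T_x (j x) = j x
  have h1 : S.Tm x (S.j x) = S.j x := by
    apply S.op_left_cancel (x := x)
    rw [S.op_j]
    have := S.Tm_aut x x (S.j x)
    rw [S.op_j, (S.Tm_aut x).map_e, S.Tm_self] at this
    exact this.symm
  have h2 : S.op (S.Tm x (S.j x)) x = S.op x (S.j x) := by
    unfold Tm; rw [Equiv.Perm.mul_apply, L_apply, R_inv_apply_self]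
  rw [h1, S.op_j] at h2
  exact h2

lemma eq_j_of_op_eq {x y : Q} (h : S.op x y = S.e) : y = S.j x := by
  apply S.op_left_cancel (x := x)
  rw [h, S.op_j]

lemma eq_j_of_op_eq' {x y : Q} (h : S.op y x = S.e) : y = S.j x := by
  apply S.op_right_cancel (x := x)
  rw [h, S.j_op]

lemma j_j (x : Q) : S.j (S.j x) = x := (S.eq_j_of_op_eq (S.j_op x)).symm

/-- Inversion as a permutation. -/
noncomputable def J : Equiv.Perm Q := Function.Involutive.toPerm S.j S.j_j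

@[simp] lemma J_apply (x : Q) : S.J x = S.j x := rfl

lemma J_mul_J : S.J * S.J = 1 := by
  ext x; simp [S.j_j]

variable {S}

lemma IsAut.map_j {φ : Equiv.Perm Q} (h : S.IsAut φ) (x : Q) : φ (S.j x) = S.j (φ x) := by
  apply S.eq_j_of_op_eq
  rw [← h, S.op_j, h.map_e]

lemma IsAnti.map_j {φ : Equiv.Perm Q} (h : S.IsAnti φ) (x : Q) : φ (S.j x) = S.j (φ x) := by
  apply S.eq_j_of_op_eq
  rw [← h, S.j_op, h.map_e]

lemma J_comm_of_mem_B {φ : Equiv.Perm Q} (h : φ ∈ S.B) : φ * S.J = S.J * φ := by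
  ext x
  simp only [Equiv.Perm.mul_apply, J_apply]
  rcases h with h | h
  · exact h.map_j x
  · exact h.map_j x

variable (S)

/-- `L y * L (j y)` -/
noncomputable def ell (y : Q) : Equiv.Perm Q := S.L y * S.L (S.j y)

lemma ell_aut (y : Q) : S.IsAut (S.ell y) := by
  have := S.innL (S.j y) y
  rw [S.op_j, S.L_e] at this
  simpa [ell] using this

lemma ell_self (y : Q) : S.ell y y = y := by
  unfold ell
  simp [S.j_op, S.op_one]

lemma ell_eq' (y : Q) : S.ell y = S.L (S.j y) * S.L y := by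
  have h : S.ell y * S.L y = S.L y * S.ell y := by
    have := (S.ell_aut y).conj_L y
    rwa [S.ell_self] at this
  have h2 : S.L y * (S.L (S.j y) * S.L y) = S.L y * S.ell y := by
    rw [← h]; unfold ell; group
  exact (mul_left_cancel h2).symm

lemma flex (x y : Q) : S.op x (S.op y x) = S.op (S.op x y) x := by
  have h1 : S.Tm x * S.L x = S.L x * S.Tm x := by
    have := (S.Tm_aut x).conj_L x
    rwa [S.Tm_self] at this
  -- L x = R x * Tm x
  have h2 : S.L x * S.R x = S.R x * S.L x := by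
    have h3 : S.L x * S.R x * S.Tm x = S.R x * S.L x * S.Tm x := by
      rw [mul_assoc, S.R_mul_Tm, mul_assoc (S.R x), ← h1, ← mul_assoc, S.R_mul_Tm]
    exact mul_right_cancel h3
  have := congrArg (fun f : Equiv.Perm Q => f y) h2
  simpa using this

/-- The antiautomorphic inverse property. -/
lemma aaip (x y : Q) : S.j (S.op x y) = S.op (S.j y) (S.j x) := by
  set c := S.op x y with hc
  set lam := (S.L c)⁻¹ * S.L x * S.L y with hlam
  have hlam_aut : S.IsAut lam := S.innL y x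
  have hLc : S.L c * lam = S.L x * S.L y := by rw [hlam]; group
  set d := lam (S.j y) with hd
  have hcd : S.op c d = x := by
    have := congrArg (fun f : Equiv.Perm Q => f (S.j y)) hLc
    simp only [Equiv.Perm.mul_apply, L_apply, S.op_j, S.op_one] at this
    exact this
  set del := (S.L x)⁻¹ * S.L c * S.L d with hdel
  have hdel_aut : S.IsAut del := by
    have := S.innL d c
    rwa [hcd] at this
  have hdel2 : del = S.ell y * lam⁻¹ := by
    have h1 : S.L d = lam * S.L (S.j y) * lam⁻¹ := by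
      have := hlam_aut.conj_L (S.j y)
      rw [this, hd]; group
    rw [hdel, h1]
    have : (S.L x)⁻¹ * S.L c * (lam * S.L (S.j y) * lam⁻¹)
        = (S.L x)⁻¹ * (S.L c * lam) * S.L (S.j y) * lam⁻¹ := by group
    rw [this, hLc]; unfold ell; group
  have hfix : del c = c := by
    apply S.op_left_cancel (x := x)
    rw [hdel]
    simp only [Equiv.Perm.mul_apply, L_apply, L_inv_apply_self]
    rw [S.flex, hcd]
  have h3 : del (S.j c) = S.j c := by rw [hdel_aut.map_j, hfix]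
  have h4 : del (S.j c) = S.op (S.j y) (S.j x) := by
    rw [hdel2]
    have h5 : lam⁻¹ (S.j c) = (S.L y)⁻¹ (S.j x) := by
      rw [hlam]
      simp only [mul_inv_rev, inv_inv, Equiv.Perm.mul_apply, L_apply, S.op_j]
      rfl
    rw [Equiv.Perm.mul_apply, h5, S.ell_eq']
    simp
  rw [← h3, h4]

lemma J_anti : S.IsAnti S.J := fun x y => S.aaip x y

lemma J_mem_B : S.J ∈ S.B := Or.inr S.J_anti

/-- The group of all permutations (left translation) * (element of `B`). -/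
lemma mulAux {g h : Equiv.Perm Q} (hg : (S.L (g S.e))⁻¹ * g ∈ S.B)
    (hh : (S.L (h S.e))⁻¹ * h ∈ S.B) : (S.L ((g * h) S.e))⁻¹ * (g * h) ∈ S.B := by
  set a := g S.e with ha
  set b := h S.e with hb
  set φ := (S.L a)⁻¹ * g with hφ
  set ψ := (S.L b)⁻¹ * h with hψ
  have hgh : g * h = S.L a * φ * S.L b * ψ := by rw [hφ, hψ]; group
  have key : ∃ M : Equiv.Perm Q, φ * S.L b = M * φ ∧ M S.e = φ b ∧ (S.L (φ b))⁻¹ * M ∈ S.B := by
    rcases hg with h' | h'
    · exact ⟨S.L (φ b), h'.conj_L b, by simp [S.op_one], by simp [S.B.one_mem]⟩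
    · refine ⟨S.R (φ b), h'.conj_L b, by simp [S.one_op], ?_⟩
      have : (S.L (φ b))⁻¹ * S.R (φ b) = (S.Tm (φ b))⁻¹ := by unfold Tm; group
      rw [this]
      exact S.B.inv_mem (Or.inl (S.Tm_aut _))
  obtain ⟨M, hM, hMe, hMB⟩ := key
  have hgh2 : g * h = S.L a * M * φ * ψ := by
    rw [hgh, mul_assoc (S.L a), hM]; group
  have hφe : φ S.e = S.e := map_e_of_mem_B hg
  have hψe : ψ S.e = S.e := map_e_of_mem_B hh
  have he : (g * h) S.e = S.op a (φ b) := by
    rw [hgh2]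
    simp only [Equiv.Perm.mul_apply, hψe, hφe, hMe, L_apply]
  rw [he]
  have : (S.L (S.op a (φ b)))⁻¹ * (g * h)
      = ((S.L (S.op a (φ b)))⁻¹ * S.L a * S.L (φ b)) * ((S.L (φ b))⁻¹ * M) * φ * ψ := by
    rw [hgh2]; group
  rw [this]
  exact S.B.mul_mem (S.B.mul_mem (S.B.mul_mem (Or.inl (S.innL _ _)) hMB) hg) hh

lemma invAux_L (a : Q) : (S.L ((S.L a)⁻¹ S.e))⁻¹ * (S.L a)⁻¹ ∈ S.B := by
  have h : (S.L ((S.L a)⁻¹ S.e))⁻¹ * (S.L a)⁻¹ = (S.ell a)⁻¹ := by
    unfold ell j; group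
  rw [h]
  exact S.B.inv_mem (Or.inl (S.ell_aut a))

def G : Subgroup (Equiv.Perm Q) where
  carrier := {g | (S.L (g S.e))⁻¹ * g ∈ S.B}
  one_mem' := by
    show (S.L ((1 : Equiv.Perm Q) S.e))⁻¹ * 1 ∈ S.B
    simp only [Equiv.Perm.one_apply, L_e]
    simpa using S.B.one_mem
  mul_mem' := fun hg hh => S.mulAux hg hh
  inv_mem' := by
    intro g hg
    show (S.L (g⁻¹ S.e))⁻¹ * g⁻¹ ∈ S.B
    set a := g S.e with ha
    set φ := (S.L a)⁻¹ * g with hφ
    have hg2 : g⁻¹ = φ⁻¹ * (S.L a)⁻¹ := by rw [hφ]; group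
    rw [hg2]
    apply S.mulAux
    · have h1 : φ⁻¹ ∈ S.B := S.B.inv_mem hg
      rw [map_e_of_mem_B h1, S.L_e]
      simpa using h1
    · exact S.invAux_L a

lemma mem_G_iff {g : Equiv.Perm Q} : g ∈ S.G ↔ (S.L (g S.e))⁻¹ * g ∈ S.B := Iff.rfl

lemma L_mem_G (x : Q) : S.L x ∈ S.G := by
  show (S.L (S.L x S.e))⁻¹ * S.L x ∈ S.B
  simp [S.op_one, S.B.one_mem]

lemma B_le_G : S.B ≤ S.G := by
  intro φ h
  show (S.L (φ S.e))⁻¹ * φ ∈ S.B
  rw [map_e_of_mem_B h, S.L_e]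
  simpa using h

lemma R_mem_G (x : Q) : S.R x ∈ S.G := by
  have : S.R x = S.L x * (S.Tm x)⁻¹ := by rw [← S.R_mul_Tm]; group
  rw [this]
  exact S.G.mul_mem (S.L_mem_G x) (S.G.inv_mem (S.B_le_G (Or.inl (S.Tm_aut x))))

lemma J_mem_G : S.J ∈ S.G := S.B_le_G S.J_mem_B

lemma mem_B_of_fix {g : Equiv.Perm Q} (hg : g ∈ S.G) (he : g S.e = S.e) : g ∈ S.B := by
  rw [mem_G_iff, he, S.L_e] at hg
  simpa using hg

/-- every conjugate of `J` under `G` is `R x * J * (R x)⁻¹`. -/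
lemma conj_J {g : Equiv.Perm Q} (hg : g ∈ S.G) :
    g * S.J * g⁻¹ = S.R (g S.e) * S.J * (S.R (g S.e))⁻¹ := by
  set x := g S.e with hx
  set φ := (S.R x)⁻¹ * g with hφ
  have hφG : φ ∈ S.G := S.G.mul_mem (S.G.inv_mem (S.R_mem_G x)) hg
  have hφe : φ S.e = S.e := by
    rw [hφ, Equiv.Perm.mul_apply, ← hx, Equiv.Perm.inv_eq_iff_eq]
    simp [S.one_op]
  have hφB := S.mem_B_of_fix hφG hφe
  have hc := J_comm_of_mem_B hφB
  have hg2 : g = S.R x * φ := by rw [hφ]; group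
  rw [hg2]
  calc S.R x * φ * S.J * (S.R x * φ)⁻¹ = S.R x * (φ * S.J) * φ⁻¹ * (S.R x)⁻¹ := by group
    _ = S.R x * (S.J * φ) * φ⁻¹ * (S.R x)⁻¹ := by rw [hc]
    _ = S.R x * S.J * (S.R x)⁻¹ := by group

/-- The product of `J` with a conjugate. -/
noncomputable def P (x : Q) : Equiv.Perm Q := S.R x * S.J * (S.R x)⁻¹ * S.J

lemma J_inv : S.J⁻¹ = S.J := by
  rw [inv_eq_iff_mul_eq_one]; exact S.J_mul_J

/-- `P x = R x ^ 2 * γ` with `γ ∈ B` commuting with `R x`. -/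
lemma P_eq (x : Q) : ∃ γ ∈ S.B, γ * S.R x = S.R x * γ ∧ S.P x = S.R x ^ 2 * γ := by
  refine ⟨(S.ell x)⁻¹ * S.Tm x, ?_, ?_, ?_⟩
  · exact S.B.mul_mem (S.B.inv_mem (Or.inl (S.ell_aut x))) (Or.inl (S.Tm_aut x))
  · have h1 : S.Tm x * S.R x = S.R x * S.Tm x := by
      have := (S.Tm_aut x).conj_R x
      rwa [S.Tm_self] at this
    have h2 : S.ell x * S.R x = S.R x * S.ell x := by
      have := (S.ell_aut x).conj_R x
      rwa [S.ell_self] at this
    have h3 : (S.ell x)⁻¹ * S.R x = S.R x * (S.ell x)⁻¹ := by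
      rw [inv_mul_eq_iff_eq_mul, ← mul_assoc, h2]; group
    rw [mul_assoc, h1, ← mul_assoc, h3, mul_assoc]
  · have h2 : S.ell x * S.R x = S.R x * S.ell x := by
      have := (S.ell_aut x).conj_R x
      rwa [S.ell_self] at this
    have h3 : (S.ell x)⁻¹ * S.R x = S.R x * (S.ell x)⁻¹ := by
      rw [inv_mul_eq_iff_eq_mul, ← mul_assoc, h2]; group
    have h4 : S.J * S.R x = S.L (S.j x) * S.J := S.J_anti.conj_R x
    -- J * (R x)⁻¹ * J = (L (j x))⁻¹
    have h5 : S.J * (S.R x)⁻¹ * S.J = (S.L (S.j x))⁻¹ := by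
      have : S.J * (S.R x)⁻¹ * S.J = (S.J * S.R x * S.J⁻¹)⁻¹ := by
        rw [mul_inv_rev, mul_inv_rev, inv_inv, S.J_inv, mul_assoc]
      rw [this, h4]; group
    have h6 : (S.L (S.j x))⁻¹ = (S.ell x)⁻¹ * S.L x := by unfold ell; group
    calc S.P x = S.R x * (S.J * (S.R x)⁻¹ * S.J) := by unfold P; group
      _ = S.R x * ((S.ell x)⁻¹ * S.L x) := by rw [h5, h6]
      _ = S.R x * ((S.ell x)⁻¹ * S.R x) * S.Tm x := by rw [← S.R_mul_Tm]; group
      _ = S.R x * (S.R x * (S.ell x)⁻¹) * S.Tm x := by rw [h3]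
      _ = S.R x ^ 2 * ((S.ell x)⁻¹ * S.Tm x) := by rw [pow_two]; group

lemma P_pow (x : Q) (n : ℕ) : ∃ γ ∈ S.B, S.P x ^ n = S.R x ^ (2 * n) * γ := by
  obtain ⟨γ, hγ, hc, hP⟩ := S.P_eq x
  refine ⟨γ ^ n, S.B.pow_mem hγ n, ?_⟩
  have hc' : Commute (S.R x ^ 2) γ := by
    have : Commute (S.R x) γ := hc.symm
    exact this.pow_left 2
  rw [hP, hc'.mul_pow, ← pow_mul]

lemma P_inv (x : Q) : S.J * S.P x * S.J = (S.P x)⁻¹ := by
  unfold P
  have hJ := S.J_inv
  calc S.J * (S.R x * S.J * (S.R x)⁻¹ * S.J) * S.J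
      = S.J * S.R x * S.J * (S.R x)⁻¹ * (S.J * S.J) := by group
    _ = S.J * S.R x * S.J * (S.R x)⁻¹ := by rw [S.J_mul_J, mul_one]
    _ = (S.R x * S.J⁻¹ * (S.R x)⁻¹ * S.J⁻¹)⁻¹ := by group
    _ = (S.R x * S.J * (S.R x)⁻¹ * S.J)⁻¹ := by rw [hJ]

lemma P_mem_G (x : Q) : S.P x ∈ S.G := by
  unfold P
  exact S.G.mul_mem (S.G.mul_mem (S.G.mul_mem (S.R_mem_G x) S.J_mem_G)
    (S.G.inv_mem (S.R_mem_G x))) S.J_mem_G

/-- if `P x ^ n = 1` then `R x ^ (2 n)` fixes the identity -/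
lemma R_pow_of_P_pow {x : Q} {n : ℕ} (h : S.P x ^ n = 1) : (S.R x ^ (2 * n)) S.e = S.e := by
  obtain ⟨γ, hγ, hP⟩ := S.P_pow x n
  rw [h] at hP
  have : S.R x ^ (2 * n) = γ⁻¹ := by
    rw [eq_inv_iff_mul_eq_one]; exact hP.symm
  rw [this]
  exact map_e_of_mem_B (S.B.inv_mem hγ)

/-- if `R x ^ n` fixes the identity then `P x ^ (2 n) = 1` -/
lemma P_pow_of_R_pow {x : Q} {n : ℕ} (h : (S.R x ^ n) S.e = S.e) : S.P x ^ (2 * n) = 1 := by
  obtain ⟨γ, hγ, hP⟩ := S.P_pow x n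
  have h1 : (S.P x ^ n) S.e = S.e := by
    rw [hP, Equiv.Perm.mul_apply, map_e_of_mem_B hγ, two_mul, pow_add, Equiv.Perm.mul_apply, h, h]
  have h2 : S.P x ^ n ∈ S.B := S.mem_B_of_fix (S.G.pow_mem (S.P_mem_G x) n) h1
  have h3 := J_comm_of_mem_B h2
  have h4 : S.J * S.P x ^ n * S.J = (S.P x ^ n)⁻¹ := by
    have h5 : S.J * S.P x ^ n * S.J⁻¹ = (S.J * S.P x * S.J⁻¹) ^ n := by
      rw [conj_pow]
    rw [S.J_inv] at h5
    rw [h5, S.P_inv, inv_pow]
  have h6 : S.P x ^ n = (S.P x ^ n)⁻¹ := by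
    rw [← h4, ← h3, mul_assoc, S.J_mul_J, mul_one]
  rw [two_mul, pow_add]
  nth_rewrite 1 [h6]
  group

end ALoop

end Pool.Agent.helper5.AL
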