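import Pool.Agent.helper5.HB_PSUM

/-! Module E2M of MP_435341_pr (plan of helper23): moments of `Mn`, `Hn`, `Nn`. -/

open MeasureTheory ProbabilityTheory Set Filter Topology
open scoped ENNReal NNReal

namespace Pool.Agent.helper5.HB

open Pool.Agent.helper23.HB

/-- the square of the number of good particles -/
theorem sq_tsum_ind {τ : Lab → ℝ} (hτ : ∀ u, 0 < τ u) (t : ℝ) (S : Set Lab)
    (hS : ∀ p ∈ S, p ∈ Alive τ t) :
    (∑' p : Lab, ind (p ∈ S)) ^ 2 =
      (∑' p : Lab, ind (p ∈ S)) + ∑' z : Quad, ind (qu z ∈ S ∧ qv z ∈ S) := by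
  set f : Lab × Lab → ℝ≥0∞ := fun x => ind (x.1 ∈ S) * ind (x.2 ∈ S) with hf
  have h1 : (∑' p : Lab, ind (p ∈ S)) ^ 2 = ∑' x : Lab × Lab, f x := by
    rw [sq, ENNReal.tsum_prod']
    simp only [hf]
    simp_rw [ENNReal.tsum_mul_left]
    rw [ENNReal.tsum_mul_right]
  set e : Lab ⊕ Quad → Lab × Lab := Sum.elim (fun p => (p, p)) (fun z => (qu z, qv z)) with he
  have hne : ∀ z : Quad, qu z ≠ qv z := fun z h => not_suffix_quad z (by rw [h])
  have hinj : Function.Injective e := by
    rintro (p | z) (p' | z') h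
    · simp only [he, Sum.elim_inl, Prod.mk.injEq] at h
      rw [h.1]
    · simp only [he, Sum.elim_inl, Sum.elim_inr, Prod.mk.injEq] at h
      exact absurd (h.1.symm.trans h.2) (hne z')
    · simp only [he, Sum.elim_inl, Sum.elim_inr, Prod.mk.injEq] at h
      exact absurd (h.1.trans h.2.symm) (hne z)
    · simp only [he, Sum.elim_inr, Prod.mk.injEq] at h
      rw [quad_inj h.1 h.2]
  have hsupp : Function.support f ⊆ Set.range e := by
    rintro ⟨p, p'⟩ hp
    simp only [hf, Function.mem_support] at hp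
    have hp1 : p ∈ S := by
      by_contra hcon
      exact hp (by rw [ind_false hcon, zero_mul])
    have hp2 : p' ∈ S := by
      by_contra hcon
      exact hp (by rw [ind_false hcon, mul_zero])
    rcases suffix_or p p' with h | h | ⟨z, hz1, hz2⟩
    · have := eq_of_suffix hτ (hS p hp1) (hS p' hp2) h
      exact ⟨Sum.inl p, by simp [he, this]⟩
    · have := eq_of_suffix hτ (hS p' hp2) (hS p hp1) h
      exact ⟨Sum.inl p, by simp [he, this]⟩
    · exact ⟨Sum.inr z, by simp [he, hz1, hz2]⟩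
  rw [h1, ← hinj.tsum_eq hsupp, Summable.tsum_sum ENNReal.summable ENNReal.summable]
  congr 1
  · refine tsum_congr fun p => ?_
    simp only [hf, he, Sum.elim_inl]
    by_cases hp : p ∈ S
    · simp [hp]
    · simp [hp]
  · refine tsum_congr fun z => ?_
    simp only [hf, he, Sum.elim_inr]
    rw [ind_and]

theorem int_bound {β γ h : ℝ} (hβ : 0 < β) (hγ : 0 ≤ γ) (_hh : 0 < h) (n m : ℕ) :
    ∫⁻ r in Ioc ((m : ℝ) * h) (((m : ℝ) + 1) * h), ENNReal.ofReal (Real.exp (γ * r)) *
        ENNReal.ofReal (2 * β * Real.exp (β * (2 * (n * h) - r))) ≤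
      ENNReal.ofReal (2 * β * h * Real.exp (γ * ((m + 1) * h)) *
        Real.exp (β * (2 * (n * h) - m * h))) := by
  calc ∫⁻ r in Ioc ((m : ℝ) * h) (((m : ℝ) + 1) * h), ENNReal.ofReal (Real.exp (γ * r)) *
        ENNReal.ofReal (2 * β * Real.exp (β * (2 * (n * h) - r)))
      ≤ ∫⁻ _r in Ioc ((m : ℝ) * h) (((m : ℝ) + 1) * h),
          ENNReal.ofReal (Real.exp (γ * ((m + 1) * h)) *
            (2 * β * Real.exp (β * (2 * (n * h) - m * h)))) := by
        refine setLIntegral_mono measurable_const fun r hr => ?_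
        rw [← ENNReal.ofReal_mul (Real.exp_pos _).le]
        apply ENNReal.ofReal_le_ofReal
        have h1 : Real.exp (γ * r) ≤ Real.exp (γ * ((m + 1) * h)) :=
          Real.exp_le_exp.2 (mul_le_mul_of_nonneg_left hr.2 hγ)
        have h2 : Real.exp (β * (2 * (n * h) - r)) ≤ Real.exp (β * (2 * (n * h) - m * h)) :=
          Real.exp_le_exp.2 (mul_le_mul_of_nonneg_left (by linarith [hr.1]) hβ.le)
        gcongr
    _ = _ := by
        rw [lintegral_const, Measure.restrict_apply MeasurableSet.univ, Set.univ_inter,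
          Real.volume_Ioc, ← ENNReal.ofReal_mul (by positivity)]
        congr 1
        ring

theorem algebra1 {β γ h q κ : ℝ} (hq : 0 < q) (hκ : κ = Real.exp (β * h) * q) {n m : ℕ}
    (hmn : m < n) :
    ((κ ^ n)⁻¹) ^ 2 * (q ^ (m + 2 * (n - m - 1)) * (2 * β * h * Real.exp (γ * ((m + 1) * h)) *
        Real.exp (β * (2 * (n * h) - m * h)))) =
      2 * β * h * (q⁻¹) ^ 2 * Real.exp (γ * h) * (Real.exp (γ * h) / κ) ^ m := by
  obtain ⟨k, rfl⟩ := Nat.exists_eq_add_of_lt hmn
  have e1 : m + k + 1 - m - 1 = k := by omega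
  rw [e1]
  set E := Real.exp (β * h) with hE
  set G := Real.exp (γ * h) with hG
  have hE0 : 0 < E := Real.exp_pos _
  have e2 : Real.exp (γ * ((m + 1) * h)) = G ^ (m + 1) := by
    rw [hG, ← Real.exp_nat_mul]
    congr 1
    push_cast
    ring
  have e3 : Real.exp (β * (2 * (((m + k + 1 : ℕ) : ℝ) * h) - m * h)) = E ^ (m + 2 + 2 * k) := by
    rw [hE, ← Real.exp_nat_mul]
    congr 1
    push_cast
    ring
  have hq0 : q ≠ 0 := hq.ne'
  have hE0' : E ≠ 0 := hE0.ne'
  rw [e2, e3, hκ, div_pow, mul_pow, mul_pow]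
  field_simp
  ring

theorem mE2M (hM21 : St_M21) (hBLK : St_BLK) (hCNT : St_CNT) (hPSUM : St_PSUM) : St_E2M := by
  intro Ω _ P _ β T B hβ hT hB hTB h γ κ gd hh hγ hgd hκ hκ1 hGκ
  have hTm : Measurable T := measurable_pi_lambda _ hT.meas
  have hBm : Measurable B := measurable_pi_lambda _ fun u => hB.meas u
  set q := P {ω | blk h (B ω []) 0 ∈ gd} with hq
  have hqt : q ≠ ∞ := measure_ne_top P _
  set qR := q.toReal with hqR
  have hqR0 : 0 < qR := by
    by_contra hcon
    push Not at hcon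
    have : κ ≤ 0 := by
      rw [hκ]
      exact mul_nonpos_of_nonneg_of_nonpos (Real.exp_pos _).le hcon
    linarith
  have hqe : q = ENNReal.ofReal qR := (ENNReal.ofReal_toReal hqt).symm
  have hκ0 : 0 < κ := by linarith
  -- the number of good particles
  have hBMp : BMp P (fun ω => (B ω [] : ℝ → ℝ)) :=
    ⟨fun ω => (B ω []).continuous, fun t => (measurable_pth_apply t).comp (hB.meas []), hB.bm []⟩
  have hblkm : Measurable (fun ω => blk h (B ω [] : ℝ → ℝ)) :=
    measurable_blk h hBMp.cont hBMp.meas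
  have hgoodP : ∀ n : ℕ, ∫⁻ ω, ind (∀ k < n, blk h (B ω []) k ∈ gd) ∂P = q ^ n := by
    intro n
    obtain ⟨hind, hid, -⟩ := hBLK Ω P _ hBMp h hh
    have h1 : ∀ ω, ind (∀ k < n, blk h (B ω []) k ∈ gd)
        = ({ω | ∀ k < n, blk h (B ω []) k ∈ gd} : Set Ω).indicator (fun _ => (1 : ℝ≥0∞)) ω :=
      fun ω => ind_mem {ω | ∀ k < n, blk h (B ω []) k ∈ gd} ω
    have hms : ∀ k, MeasurableSet {ω | blk h (B ω []) k ∈ gd} := fun k =>
      ((measurable_pi_apply k).comp hblkm) hgd
    have hset : {ω | ∀ k < n, blk h (B ω []) k ∈ gd}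
        = ⋂ k ∈ Finset.range n, (fun ω => blk h (B ω []) k) ⁻¹' gd := by
      ext ω
      simp
    have hmset : MeasurableSet {ω | ∀ k < n, blk h (B ω []) k ∈ gd} := by
      rw [hset]
      exact Finset.measurableSet_biInter _ fun k _ => hms k
    simp only [h1]
    rw [lintegral_indicator_const hmset, one_mul, hset]
    rw [hind.measure_inter_preimage_eq_mul (Finset.range n) (fun _ _ => hgd)]
    have h2 : ∀ k, P ((fun ω => blk h (B ω []) k) ⁻¹' gd) = q := by
      intro k
      have hmk : Measurable (fun ω => blk h (B ω []) k) := (measurable_pi_apply k).comp hblkm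
      have hm0 : Measurable (fun ω => blk h (B ω []) 0) := (measurable_pi_apply 0).comp hblkm
      have h3 := congrArg (fun μ => μ gd) (hid k)
      rw [Measure.map_apply hmk hgd, Measure.map_apply hm0 hgd] at h3
      exact h3
    simp only [h2]
    simp
  have hGd2 : ∀ (n : ℕ) (τ : Lab → ℝ) (b : Lab → Pth) (p : Lab), ind (p ∈ Gd2 h gd n τ b)
      = ind (p ∈ Alive τ (n * h)) * ind (∀ k < n, blk h (line τ b p) k ∈ gd) := by
    intro n τ b p
    rw [← ind_and]
    rfl
  have hindm : ∀ n : ℕ, Measurable (fun x : ℕ → ℝ × ℝ => ind (∀ k < n, x k ∈ gd)) := by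
    intro n
    have hset : {x : ℕ → ℝ × ℝ | ∀ k < n, x k ∈ gd}
        = ⋂ k ∈ Finset.range n, (fun x : ℕ → ℝ × ℝ => x k) ⁻¹' gd := by
      ext x
      simp
    have hms : MeasurableSet {x : ℕ → ℝ × ℝ | ∀ k < n, x k ∈ gd} := by
      rw [hset]
      exact Finset.measurableSet_biInter _ fun k _ => (measurable_pi_apply k) hgd
    exact measurable_ind hms
  have hGd2m : ∀ (n : ℕ) (p : Lab), Measurable (fun ω => ind (p ∈ Gd2 h gd n (T ω) (B ω))) := by
    intro n p
    simp only [hGd2]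
    have h1 : Measurable (fun ω => ind (p ∈ Alive (T ω) (n * h))) :=
      (measurable_ind (measurableSet_Alive_left p (n * h))).comp hTm
    have h2 : Measurable (fun ω => blk h (line (T ω) (B ω) p)) :=
      (measurable_blk_line h p).comp (hTm.prodMk hBm)
    exact h1.mul ((hindm n).comp h2)
  have hS1 : ∀ n : ℕ, ∫⁻ ω, ∑' p : Lab, ind (p ∈ Gd2 h gd n (T ω) (B ω)) ∂P
      = ENNReal.ofReal (κ ^ n) := by
    intro n
    rw [lintegral_tsum fun p => (hGd2m n p).aemeasurable]
    have h1 : ∀ p : Lab, ∫⁻ ω, ind (p ∈ Gd2 h gd n (T ω) (B ω)) ∂P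
        = (∫⁻ ω, ind (p ∈ Alive (T ω) (n * h)) ∂P) * q ^ n := by
      intro p
      simp only [hGd2]
      have h2 := hM21 Ω P T B hT.meas hT.pos hB hTB p h hh
        (fun τ => ind (p ∈ Alive τ (n * h))) (fun x => ind (∀ k < n, x k ∈ gd))
        (measurable_ind (measurableSet_Alive_left p (n * h))) (hindm n)
      rw [h2, hgoodP n]
    simp only [h1]
    rw [ENNReal.tsum_mul_right]
    have h3 : ∑' p : Lab, ∫⁻ ω, ind (p ∈ Alive (T ω) (n * h)) ∂P
        = ENNReal.ofReal (Real.exp (β * (n * h))) := by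
      rw [← (hCNT Ω P β T hβ hT).1 (n * h) (by positivity)]
      unfold cnt
      have hm : ∀ p : Lab, Measurable (fun ω => ind (p ∈ Alive (T ω) (n * h))) := fun p =>
        (measurable_ind (measurableSet_Alive_left p (n * h))).comp hTm
      exact (lintegral_tsum fun p => (hm p).aemeasurable).symm
    rw [h3, hqe, ← ENNReal.ofReal_pow hqR0.le, ← ENNReal.ofReal_mul (Real.exp_pos _).le]
    congr 1
    rw [hκ, mul_pow, ← Real.exp_nat_mul]
    congr 2
    ring
  -- pairs
  have hpair : ∀ (n : ℕ) (g : ℝ), 0 ≤ g → Real.exp (g * h) < κ →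
      ENNReal.ofReal ((κ ^ n)⁻¹ ^ 2) * ∫⁻ ω, ∑' z : Quad,
        ind (qu z ∈ Gd2 h gd n (T ω) (B ω) ∧ qv z ∈ Gd2 h gd n (T ω) (B ω)) *
          ENNReal.ofReal (Real.exp (g * death (T ω) z.1)) ∂P ≤
      ENNReal.ofReal (2 * β * h * (qR⁻¹) ^ 2 * Real.exp (g * h) *
        (1 - Real.exp (g * h) / κ)⁻¹) := by
    intro n g hg hgκ
    have h1 := hPSUM Ω P β T B hβ hT hB hTB h gd n (fun r => ENNReal.ofReal (Real.exp (g * r))) hh
      hgd (by fun_prop)
    set ρ := Real.exp (g * h) / κ with hρ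
    have hρ0 : 0 ≤ ρ := by positivity
    have hρ1 : ρ < 1 := (div_lt_one hκ0).2 hgκ
    calc ENNReal.ofReal ((κ ^ n)⁻¹ ^ 2) * ∫⁻ ω, ∑' z : Quad,
        ind (qu z ∈ Gd2 h gd n (T ω) (B ω) ∧ qv z ∈ Gd2 h gd n (T ω) (B ω)) *
          ENNReal.ofReal (Real.exp (g * death (T ω) z.1)) ∂P
        ≤ ENNReal.ofReal ((κ ^ n)⁻¹ ^ 2) * ∑ m ∈ Finset.range n,
          ENNReal.ofReal (qR ^ (m + 2 * (n - m - 1)) * (2 * β * h *
            Real.exp (g * ((m + 1) * h)) * Real.exp (β * (2 * (n * h) - m * h)))) := by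
          gcongr
          refine h1.trans (Finset.sum_le_sum fun m _ => ?_)
          rw [ENNReal.ofReal_mul (by positivity), ENNReal.ofReal_pow hqR0.le, ← hqe]
          gcongr
          exact int_bound hβ hg hh n m
      _ = ∑ m ∈ Finset.range n, ENNReal.ofReal (2 * β * h * (qR⁻¹) ^ 2 * Real.exp (g * h) *
            ρ ^ m) := by
          rw [Finset.mul_sum]
          refine Finset.sum_congr rfl fun m hm => ?_
          rw [← ENNReal.ofReal_mul (by positivity), algebra1 hqR0 hκ (Finset.mem_range.1 hm)]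
      _ = ENNReal.ofReal (∑ m ∈ Finset.range n, 2 * β * h * (qR⁻¹) ^ 2 * Real.exp (g * h) *
            ρ ^ m) := by
          rw [ENNReal.ofReal_sum_of_nonneg fun m _ => by positivity]
      _ ≤ _ := by
          apply ENNReal.ofReal_le_ofReal
          rw [← Finset.mul_sum]
          have h2 : ∑ m ∈ Finset.range n, ρ ^ m ≤ (1 - ρ)⁻¹ := by
            rw [← tsum_geometric_of_lt_one hρ0 hρ1]
            exact (summable_geometric_of_lt_one hρ0 hρ1).sum_le_tsum _ fun m _ => by positivity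
          gcongr
  -- constants
  set C₁ : ℝ≥0∞ := ENNReal.ofReal (2 * β * h * (qR⁻¹) ^ 2 * Real.exp (0 * h) *
    (1 - Real.exp (0 * h) / κ)⁻¹) with hC₁
  set C₂ : ℝ≥0∞ := ENNReal.ofReal (2 * β * h * (qR⁻¹) ^ 2 * Real.exp (γ * h) *
    (1 - Real.exp (γ * h) / κ)⁻¹) with hC₂
  set C₃ : ℝ≥0∞ := ENNReal.ofReal (2 * β * h * Real.exp (β * h) * qR⁻¹) with hC₃
  refine ⟨1 + C₁ + C₂ + C₃, by simp [hC₁, hC₂, hC₃], fun n => ?_⟩
  have hκn : 0 < κ ^ n := by positivity
  have hs1m : Measurable (fun ω => ∑' p : Lab, ind (p ∈ Gd2 h gd n (T ω) (B ω))) :=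
    Measurable.tsum fun p => hGd2m n p
  have hκinv : ENNReal.ofReal ((κ ^ n)⁻¹) ≤ 1 := by
    rw [ENNReal.ofReal_le_one]
    exact inv_le_one_of_one_le₀ (one_le_pow₀ hκ1.le)
  refine ⟨?_, ?_, ?_, ?_⟩
  · unfold Mn
    rw [lintegral_const_mul _ hs1m, hS1 n, ← ENNReal.ofReal_mul (by positivity),
      inv_mul_cancel₀ hκn.ne', ENNReal.ofReal_one]
  · have h1 : ∀ ω, Mn κ h gd n (T ω) (B ω) ^ 2
        = ENNReal.ofReal ((κ ^ n)⁻¹ ^ 2) * (∑' p : Lab, ind (p ∈ Gd2 h gd n (T ω) (B ω)))
          + ENNReal.ofReal ((κ ^ n)⁻¹ ^ 2) * ∑' z : Quad,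
            ind (qu z ∈ Gd2 h gd n (T ω) (B ω) ∧ qv z ∈ Gd2 h gd n (T ω) (B ω)) *
              ENNReal.ofReal (Real.exp (0 * death (T ω) z.1)) := by
      intro ω
      unfold Mn
      rw [mul_pow, sq_tsum_ind (hT.pos ω) (n * h) (Gd2 h gd n (T ω) (B ω)) (fun p hp => hp.1),
        ← ENNReal.ofReal_pow (by positivity), mul_add]
      congr 2
      refine tsum_congr fun z => ?_
      simp
    simp only [h1]
    rw [lintegral_add_left (hs1m.const_mul _), lintegral_const_mul _ hs1m, hS1 n,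
      lintegral_const_mul' _ _ ENNReal.ofReal_ne_top]
    have h2 := hpair n 0 le_rfl (by simpa using hκ1)
    have h3 : ENNReal.ofReal ((κ ^ n)⁻¹ ^ 2) * ENNReal.ofReal (κ ^ n) ≤ 1 := by
      rw [← ENNReal.ofReal_mul (by positivity)]
      have : (κ ^ n)⁻¹ ^ 2 * κ ^ n = (κ ^ n)⁻¹ := by field_simp
      rw [this]
      exact hκinv
    calc _ ≤ 1 + C₁ := add_le_add h3 h2
      _ ≤ 1 + C₁ + C₂ + C₃ := by rw [add_assoc]; exact le_self_add
  · unfold Hn
    rw [lintegral_const_mul' _ _ ENNReal.ofReal_ne_top]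
    calc _ ≤ ENNReal.ofReal ((κ ^ n)⁻¹ ^ 2) * ∫⁻ ω, ∑' z : Quad,
          ind (qu z ∈ Gd2 h gd n (T ω) (B ω) ∧ qv z ∈ Gd2 h gd n (T ω) (B ω)) *
          ENNReal.ofReal (Real.exp (γ * death (T ω) z.1)) ∂P := by
          refine mul_le_mul' le_rfl (lintegral_mono fun ω => ENNReal.tsum_le_tsum fun z => ?_)
          refine mul_le_mul' (ind_mono fun h => ⟨h.1, h.2.1⟩) le_rfl
      _ ≤ C₂ := hpair n γ hγ hGκ
      _ ≤ 1 + C₁ + C₂ + C₃ := by
          calc C₂ ≤ (1 + C₁) + C₂ := le_add_self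
            _ ≤ _ := le_self_add
  · -- near-diagonal pairs
    unfold Nn
    have hmeas : Measurable (fun r : ℝ => ind (((n : ℝ) - 1) * h ≤ r)) :=
      measurable_ind (s := {r : ℝ | ((n : ℝ) - 1) * h ≤ r}) measurableSet_Ici
    have h1 := hPSUM Ω P β T B hβ hT hB hTB h gd n (fun r => ind (((n : ℝ) - 1) * h ≤ r)) hh
      hgd hmeas
    have h2 : ∫⁻ ω, ∑' z : Quad, ind (qu z ∈ Gd2 h gd n (T ω) (B ω) ∧
        qv z ∈ Gd2 h gd n (T ω) (B ω) ∧ ((n : ℝ) - 1) * h ≤ death (T ω) z.1) ∂P
        ≤ ENNReal.ofReal (κ ^ n * (2 * β * h * Real.exp (β * h) * qR⁻¹)) := by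
      calc _ = ∫⁻ ω, ∑' z : Quad, ind (qu z ∈ Gd2 h gd n (T ω) (B ω) ∧
            qv z ∈ Gd2 h gd n (T ω) (B ω)) * ind (((n : ℝ) - 1) * h ≤ death (T ω) z.1) ∂P := by
            refine lintegral_congr fun ω => tsum_congr fun z => ?_
            rw [← ind_and]
            congr 1
            simp only [eq_iff_iff]
            tauto
        _ ≤ _ := h1
        _ ≤ _ := by
            rcases Nat.eq_zero_or_pos n with hn | hn
            · subst hn
              simp
            have hsub : ∀ m ∈ Finset.range n, m ≠ n - 1 →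
                q ^ (m + 2 * (n - m - 1)) * ∫⁻ r in Ioc ((m : ℝ) * h) (((m : ℝ) + 1) * h),
                  ind (((n : ℝ) - 1) * h ≤ r) *
                    ENNReal.ofReal (2 * β * Real.exp (β * (2 * (n * h) - r))) = 0 := by
              intro m hm hmn
              have hm' : m + 2 ≤ n := by
                have := Finset.mem_range.1 hm
                omega
              have hm'' : (m : ℝ) + 2 ≤ n := by exact_mod_cast hm'
              rw [setLIntegral_congr (Ioo_ae_eq_Ioc (a := (m : ℝ) * h)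
                (b := ((m : ℝ) + 1) * h)).symm]
              rw [setLIntegral_eq_zero measurableSet_Ioo, mul_zero]
              intro r hr
              have : ¬ ((n : ℝ) - 1) * h ≤ r := by
                rw [not_le]
                refine hr.2.trans_le ?_
                gcongr
                linarith
              show ind (((n : ℝ) - 1) * h ≤ r) * _ = 0
              rw [ind_false this, zero_mul]
            rw [Finset.sum_eq_single_of_mem (n - 1) (Finset.mem_range.2 (by omega)) hsub]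
            have hn1 : ((n - 1 : ℕ) : ℝ) = (n : ℝ) - 1 := by
              rw [Nat.cast_sub hn]; simp
            have e1 : n - 1 + 2 * (n - (n - 1) - 1) = n - 1 := by omega
            rw [e1]
            calc q ^ (n - 1) * ∫⁻ r in Ioc (((n - 1 : ℕ) : ℝ) * h) ((((n - 1 : ℕ) : ℝ) + 1) * h),
                  ind (((n : ℝ) - 1) * h ≤ r) *
                    ENNReal.ofReal (2 * β * Real.exp (β * (2 * (n * h) - r)))
                ≤ q ^ (n - 1) * ∫⁻ r in Ioc (((n - 1 : ℕ) : ℝ) * h)
                  ((((n - 1 : ℕ) : ℝ) + 1) * h), ENNReal.ofReal (Real.exp (0 * r)) *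
                    ENNReal.ofReal (2 * β * Real.exp (β * (2 * (n * h) - r))) := by
                  gcongr
                  refine (ind_le_one _).trans ?_
                  simp
              _ ≤ q ^ (n - 1) * ENNReal.ofReal (2 * β * h *
                    Real.exp (0 * ((((n - 1 : ℕ) : ℝ) + 1) * h)) *
                    Real.exp (β * (2 * (n * h) - ((n - 1 : ℕ) : ℝ) * h))) := by
                  gcongr
                  exact int_bound hβ le_rfl hh n (n - 1)
              _ = _ := by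
                  rw [hqe, ← ENNReal.ofReal_pow hqR0.le, ← ENNReal.ofReal_mul (by positivity)]
                  congr 1
                  rw [zero_mul, Real.exp_zero, hκ]
                  obtain ⟨k, rfl⟩ := Nat.exists_eq_succ_of_ne_zero hn.ne'
                  have e2 : Real.exp (β * (2 * (((k + 1 : ℕ) : ℝ) * h) -
                      ((k + 1 - 1 : ℕ) : ℝ) * h)) = Real.exp (β * h) ^ (k + 2) := by
                    rw [← Real.exp_nat_mul, Nat.add_sub_cancel]
                    congr 1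
                    push_cast
                    ring
                  rw [Nat.succ_eq_add_one] at *
                  rw [e2]
                  simp only [Nat.add_sub_cancel]
                  field_simp
                  ring
    rw [lintegral_const_mul' _ _ ENNReal.ofReal_ne_top, lintegral_add_left hs1m, hS1 n]
    have hκ2 : ∀ c : ℝ, 0 ≤ c → ENNReal.ofReal ((κ ^ n)⁻¹ ^ 2) * ENNReal.ofReal (κ ^ n * c)
        = ENNReal.ofReal c * ENNReal.ofReal ((κ ^ n)⁻¹) := by
      intro c hc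
      rw [← ENNReal.ofReal_mul (by positivity), ← ENNReal.ofReal_mul hc]
      congr 1
      field_simp
    calc ENNReal.ofReal ((κ ^ n)⁻¹ ^ 2) * (ENNReal.ofReal (κ ^ n) + _)
        ≤ ENNReal.ofReal ((κ ^ n)⁻¹ ^ 2) * (ENNReal.ofReal (κ ^ n) +
          ENNReal.ofReal (κ ^ n * (2 * β * h * Real.exp (β * h) * qR⁻¹))) := by gcongr
      _ = (1 + C₃) * ENNReal.ofReal ((κ ^ n)⁻¹) := by
          rw [mul_add, hκ2 _ (by positivity)]
          have := hκ2 1 zero_le_one
          rw [mul_one, ENNReal.ofReal_one] at this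
          rw [this, ← add_mul]
      _ ≤ (1 + C₁ + C₂ + C₃) * ENNReal.ofReal ((κ ^ n)⁻¹) := by
          gcongr
          calc (1 : ℝ≥0∞) ≤ 1 + (C₁ + C₂) := le_self_add
            _ = _ := by rw [add_assoc]

end Pool.Agent.helper5.HB
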