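import Pool.Agent.helper5.HB_PAIR

/-! Module M21 of MP_435341_pr (plan of helper23): many-to-one. -/

open MeasureTheory ProbabilityTheory Set Filter Topology
open scoped ENNReal NNReal

namespace Pool.Agent.helper5.HB

open Pool.Agent.helper23.HB

theorem Noise.bmp {Ω : Type} [MeasurableSpace Ω] {P : Measure Ω} {B : Ω → Lab → Pth}
    (h : Noise P B) (u : Lab) : BMp P (fun ω => (B ω u : ℝ → ℝ)) where
  cont := fun ω => (B ω u).continuous
  meas := fun t => (measurable_pth_apply t).comp (h.meas u)
  bm := h.bm u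

theorem mM21 (hLINE : St_LINE) (hBLK : St_BLK) : St_M21 := by
  intro Ω _ P _ T B hT hTpos hB hTB v h hh gT F hgT hF
  have hTm : Measurable T := measurable_pi_lambda _ hT
  have hBm : Measurable B := measurable_pi_lambda _ fun u => hB.meas u
  have hblk : Measurable (fun x : (Lab → ℝ) × (Lab → Pth) => blk h (line x.1 x.2 v)) :=
    measurable_blk_line h v
  have hFm : Measurable (fun x : (Lab → ℝ) × (Lab → Pth) => gT x.1 * F (blk h (line x.1 x.2 v))) :=
    (hgT.comp measurable_fst).mul (hF.comp hblk)
  have h1 := lintegral_indep hTm hBm hTB hFm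
  simp only at h1
  rw [h1]
  have h2 : ∀ ω, ∫⁻ ω', gT (T ω) * F (blk h (line (T ω) (B ω') v)) ∂P
      = gT (T ω) * ∫⁻ ω', F (blk h (B ω' [])) ∂P := by
    intro ω
    have hblkτ : Measurable (fun ω' => blk h (line (T ω) (B ω') v)) :=
      hblk.comp (measurable_const.prodMk hBm : Measurable fun ω' => (T ω, B ω'))
    have hm1 : Measurable (fun ω' => F (blk h (line (T ω) (B ω') v))) := hF.comp hblkτ
    rw [lintegral_const_mul _ hm1]
    congr 1
    have hL := hLINE Ω P B hB (T ω) (hTpos ω) v
    have hN := Noise.bmp hB []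
    have h3 := (hBLK Ω P _ hL h hh).2.2 Ω P _ hN
    have hblk0 : Measurable (fun ω' => blk h (B ω' [] : ℝ → ℝ)) :=
      measurable_blk h hN.cont hN.meas
    rw [← lintegral_map (f := F) hF hblkτ, h3, lintegral_map hF hblk0]
  simp only [h2]
  have h4 : Measurable (fun ω => gT (T ω)) := hgT.comp hTm
  exact lintegral_mul_const _ h4

end Pool.Agent.helper5.HB
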