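import Pool.Agent.helper5.NBSNef

/-! The two families of curves. -/

set_option autoImplicit false

namespace Pool.Agent.helper5.NBS

section Irr

open Polynomial

lemma irr1 {R : Type} [CommRing R] [IsDomain R] {π u c : R} (hπ : Prime π) (hc : IsUnit c)
    (hu : π ∣ u) (hu2 : ¬ π ^ 2 ∣ u) {a : ℕ} (ha : 0 < a) :
    Irreducible (C c * X ^ a + C u : R[X]) := by
  have hc0 : c ≠ 0 := hc.ne_zero
  have hnd : (C c * X ^ a + C u : R[X]).natDegree = a := by
    rw [natDegree_add_C, natDegree_C_mul_X_pow a c hc0]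
  have hne : (C c * X ^ a + C u : R[X]) ≠ 0 := by
    intro h
    rw [h] at hnd
    simp at hnd
    omega
  have hdeg : (C c * X ^ a + C u : R[X]).degree = a := by
    rw [degree_eq_natDegree hne, hnd]
  have hcoef : ∀ n, (C c * X ^ a + C u : R[X]).coeff n =
      (if n = a then c else 0) + (if n = 0 then u else 0) := by
    intro n
    rw [coeff_add, coeff_C_mul, coeff_X_pow, coeff_C]
    split_ifs <;> simp
  have hlc : (C c * X ^ a + C u : R[X]).coeff a = c := by
    rw [hcoef, if_pos rfl, if_neg (by omega), add_zero]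
  have hprime : (Ideal.span {π}).IsPrime := (Ideal.span_singleton_prime hπ.ne_zero).mpr hπ
  have hcn : c ∉ Ideal.span {π} := by
    intro h
    exact hprime.ne_top (Ideal.eq_top_of_isUnit_mem _ h hc)
  apply irreducible_of_eisenstein_criterion (P := Ideal.span {π}) hprime
  · rw [leadingCoeff, hnd, hlc]
    exact hcn
  · intro n hn
    rw [hdeg] at hn
    have hn' : n < a := by exact_mod_cast hn
    rw [hcoef, if_neg (by omega), zero_add]
    split_ifs
    · exact Ideal.mem_span_singleton.mpr hu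
    · exact zero_mem _
  · rw [hdeg]
    exact_mod_cast ha
  · rw [hcoef, if_neg (by omega), if_pos rfl, zero_add, Ideal.span_singleton_pow,
      Ideal.mem_span_singleton]
    exact hu2
  · intro r hr
    have := (C_dvd_iff_dvd_coeff r _).mp hr a
    rw [hlc] at this
    exact isUnit_of_dvd_unit this hc

lemma irr2 {R : Type} [CommRing R] [IsDomain R] {π u c : R} (hπ : Prime π) (hc : IsUnit c)
    (hu : π ∣ u) (hu2 : ¬ π ^ 2 ∣ u) {a : ℕ} (ha : 0 < a) :
    Irreducible (C u * X ^ a + C c : R[X]) := by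
  have hu0 : u ≠ 0 := by
    rintro rfl
    exact hu2 (dvd_zero _)
  have hc0 : c ≠ 0 := hc.ne_zero
  have hnd : (C u * X ^ a + C c : R[X]).natDegree = a := by
    rw [natDegree_add_C, natDegree_C_mul_X_pow a u hu0]
  have hrev : (C u * X ^ a + C c : R[X]).reverse = C c * X ^ a + C u := by
    rw [reverse, hnd, reflect_add, reflect_C_mul_X_pow, reflect_C, revAt_le le_rfl, Nat.sub_self,
      pow_zero, mul_one, add_comm]
  have hirr := irr1 hπ hc hu hu2 ha
  constructor
  · intro h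
    have := natDegree_eq_zero_of_isUnit h
    omega
  · intro G H hGH
    have h0 : (C u * X ^ a + C c : R[X]).coeff 0 = c := by
      rw [coeff_add, coeff_C_mul, coeff_X_pow, coeff_C, if_neg (by omega), if_pos rfl]
      simp
    have hrev2 : G.reverse * H.reverse = C c * X ^ a + C u := by
      rw [← reverse_mul_of_domain, ← hGH, hrev]
    have key : ∀ G H : R[X], (C u * X ^ a + C c : R[X]) = G * H → IsUnit G.reverse → IsUnit G := by
      intro G H hGH hG
      have hG0 : G.coeff 0 ≠ 0 := by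
        intro h
        apply hc0
        rw [← h0, hGH, mul_coeff_zero, h, zero_mul]
      have h1 : G.natTrailingDegree = 0 := by
        rw [natTrailingDegree_eq_zero]
        exact Or.inr hG0
      have h2 := natDegree_eq_zero_of_isUnit hG
      rw [reverse_natDegree, h1, Nat.sub_zero] at h2
      rw [eq_C_of_natDegree_eq_zero h2] at hG ⊢
      rwa [reverse_C] at hG
    rcases (irreducible_iff.mp hirr).2 hrev2.symm with h | h
    · exact Or.inl (key G H hGH h)
    · exact Or.inr (key H G (by rw [hGH, mul_comm]) h)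

/-- `X^(n-1) (X-1)` -/
noncomputable def uP (n : ℕ) : ℂ[X] := X ^ (n - 1) * (X - C 1)

lemma uP_dvd (n : ℕ) : (X - C 1 : ℂ[X]) ∣ uP n := ⟨X ^ (n - 1), by rw [uP]; ring⟩

lemma uP_not_dvd (n : ℕ) : ¬ (X - C 1 : ℂ[X]) ^ 2 ∣ uP n := by
  intro h
  rw [pow_two, uP] at h
  have h1 := (mul_dvd_mul_iff_right (X_sub_C_ne_zero (1 : ℂ))).mp h
  rw [dvd_iff_isRoot, IsRoot.def, eval_pow, eval_X, one_pow] at h1
  exact one_ne_zero h1

lemma uP_ne_zero (n : ℕ) : uP n ≠ 0 := fun h => uP_not_dvd n (by rw [h]; exact dvd_zero _)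

lemma natDegree_uP {n : ℕ} (hn : 0 < n) : (uP n).natDegree = n := by
  rw [uP, natDegree_mul (pow_ne_zero _ X_ne_zero) (X_sub_C_ne_zero 1), natDegree_pow, natDegree_X,
    natDegree_X_sub_C]
  omega

end Irr

open MvPolynomial

/-- `Y^a - X^(b-1) (X - 1)` -/
noncomputable def PA (a b : ℕ) : R2 := X 1 ^ a - X 0 ^ (b - 1) * (X 0 - 1)

/-- `Y^a X^(c-1) (X - 1) - ε` -/
noncomputable def PB (a c : ℕ) (ε : ℂ) : R2 := X 1 ^ a * (X 0 ^ (c - 1) * (X 0 - 1)) - C ε

lemma irreducible_PA {a b : ℕ} (ha : 0 < a) : Irreducible (PA a b) := by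
  have h := irr1 (R := Polynomial ℂ) (Polynomial.prime_X_sub_C (1 : ℂ)) (isUnit_one)
    ((dvd_neg).mpr (uP_dvd b)) (fun h => uP_not_dvd b ((dvd_neg).mp h)) ha
  have h2 := (MulEquiv.irreducible_iff (Polynomial.Bivariate.equivMvPolynomial ℂ)).mpr h
  have h3 : Polynomial.Bivariate.equivMvPolynomial ℂ
      (Polynomial.C 1 * Polynomial.X ^ a + Polynomial.C (-uP b)) = PA a b := by
    rw [PA, uP]
    simp only [map_add, map_mul, map_pow, map_neg, map_sub, map_one,
      Polynomial.Bivariate.equivMvPolynomial_X, Polynomial.Bivariate.equivMvPolynomial_C_X]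
    ring
  rwa [h3] at h2

lemma irreducible_PB {a c : ℕ} (ha : 0 < a) {ε : ℂ} (hε : ε ≠ 0) : Irreducible (PB a c ε) := by
  have h := irr2 (R := Polynomial ℂ) (c := Polynomial.C (-ε)) (Polynomial.prime_X_sub_C (1 : ℂ))
    (Polynomial.isUnit_C.mpr (IsUnit.mk0 _ (neg_ne_zero.mpr hε))) (uP_dvd c) (uP_not_dvd c) ha
  have h2 := (MulEquiv.irreducible_iff (Polynomial.Bivariate.equivMvPolynomial ℂ)).mpr h
  have h3 : Polynomial.Bivariate.equivMvPolynomial ℂ
      (Polynomial.C (uP c) * Polynomial.X ^ a + Polynomial.C (Polynomial.C (-ε))) = PB a c ε := by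
    rw [PB, uP]
    simp only [map_add, map_mul, map_pow, map_neg, map_sub, map_one,
      Polynomial.Bivariate.equivMvPolynomial_X, Polynomial.Bivariate.equivMvPolynomial_C_X,
      Polynomial.Bivariate.equivMvPolynomial_C_C]
    ring
  rwa [h3] at h2

lemma le_ydeg {F : R2} {n : Fin 2 →₀ ℕ} (h : coeff n F ≠ 0) : n 1 ≤ ydeg F := by
  rw [ydeg, degreeOf_eq_sup]
  exact Finset.le_sup (f := fun m : Fin 2 →₀ ℕ => m 1) (mem_support_iff.mpr h)

lemma le_wdeg {e : ℕ} {F : R2} {n : Fin 2 →₀ ℕ} (h : coeff n F ≠ 0) :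
    n 0 + e * n 1 ≤ wdeg e F :=
  Finset.le_sup (f := fun m : Fin 2 →₀ ℕ => m 0 + e * m 1) (mem_support_iff.mpr h)

/-- exponent `(i, j)` -/
noncomputable def ex (i j : ℕ) : Fin 2 →₀ ℕ := Finsupp.single 0 i + Finsupp.single 1 j

@[simp] lemma ex_zero (i j : ℕ) : ex i j 0 = i := by simp [ex]
@[simp] lemma ex_one (i j : ℕ) : ex i j 1 = j := by simp [ex]

lemma ex_inj {i j k l : ℕ} : ex i j = ex k l ↔ i = k ∧ j = l := by
  constructor
  · intro h
    constructor
    · rw [← ex_zero i j, h, ex_zero]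
    · rw [← ex_one i j, h, ex_one]
  · rintro ⟨rfl, rfl⟩; rfl

lemma monomial_ex (i j : ℕ) (c : ℂ) : monomial (ex i j) c = C c * X 0 ^ i * X 1 ^ j := by
  rw [monomial_eq, Finsupp.prod_fintype _ _ (by intro i; simp), Fin.prod_univ_two, ex_zero, ex_one]
  ring

lemma monomial_ex_mem_V {e a b i j : ℕ} (c : ℂ) (hj : j ≤ a) (hi : i + e * j ≤ b) :
    monomial (ex i j) c ∈ V e a b := by
  rw [V, monomial_mem_restrictSupport]
  left
  exact ⟨by simpa using hj, by simpa using hi⟩

lemma PA_eq {a b : ℕ} (hb : 0 < b) : PA a b =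
    monomial (ex 0 a) 1 - monomial (ex b 0) 1 + monomial (ex (b - 1) 0) 1 := by
  obtain ⟨k, rfl⟩ : ∃ k, b = k + 1 := ⟨b - 1, by omega⟩
  rw [monomial_ex, monomial_ex, monomial_ex, PA]
  simp only [Nat.add_sub_cancel, C_1]
  ring

lemma PB_eq {a c : ℕ} (hc : 0 < c) (ε : ℂ) : PB a c ε =
    monomial (ex c a) 1 - monomial (ex (c - 1) a) 1 - monomial (ex 0 0) ε := by
  obtain ⟨k, rfl⟩ : ∃ k, c = k + 1 := ⟨c - 1, by omega⟩
  rw [monomial_ex, monomial_ex, monomial_ex, PB]
  simp only [Nat.add_sub_cancel, C_1]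
  ring

lemma deg_PA {e a b : ℕ} (ha : 0 < a) (hb : 0 < b) (hab : e * a ≤ b) :
    ydeg (PA a b) = a ∧ wdeg e (PA a b) = b := by
  classical
  have hmem : PA a b ∈ V e a b := by
    rw [PA_eq hb]
    apply add_mem (sub_mem _ _) _
    · exact monomial_ex_mem_V 1 le_rfl (by omega)
    · exact monomial_ex_mem_V 1 (by omega) (by omega)
    · exact monomial_ex_mem_V 1 (by omega) (by omega)
  rw [mem_V] at hmem
  have h1 : coeff (ex 0 a) (PA a b) ≠ 0 := by
    rw [PA_eq hb, coeff_add, coeff_sub, coeff_monomial, coeff_monomial, coeff_monomial,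
      if_pos rfl, if_neg (by rw [ex_inj]; omega), if_neg (by rw [ex_inj]; omega)]
    simp
  have h2 : coeff (ex b 0) (PA a b) ≠ 0 := by
    rw [PA_eq hb, coeff_add, coeff_sub, coeff_monomial, coeff_monomial, coeff_monomial,
      if_neg (by rw [ex_inj]; omega), if_pos rfl, if_neg (by rw [ex_inj]; omega)]
    simp
  have h3 := le_ydeg h1
  have h4 := le_wdeg (e := e) h2
  simp only [ex_one, ex_zero] at h3 h4
  omega

lemma deg_PB {e a c : ℕ} (hc : 0 < c) (ε : ℂ) :
    ydeg (PB a c ε) = a ∧ wdeg e (PB a c ε) = c + e * a := by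
  classical
  have hmem : PB a c ε ∈ V e a (c + e * a) := by
    rw [PB_eq hc]
    apply sub_mem (sub_mem _ _) _
    · exact monomial_ex_mem_V 1 le_rfl (by omega)
    · exact monomial_ex_mem_V 1 (by omega) (by omega)
    · exact monomial_ex_mem_V ε (by omega) (by omega)
  rw [mem_V] at hmem
  have h1 : coeff (ex c a) (PB a c ε) ≠ 0 := by
    rw [PB_eq hc, coeff_sub, coeff_sub, coeff_monomial, coeff_monomial, coeff_monomial,
      if_pos rfl, if_neg (by rw [ex_inj]; omega), if_neg (by rw [ex_inj]; omega)]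
    simp
  have h3 := le_ydeg h1
  have h4 := le_wdeg (e := e) h1
  simp only [ex_one, ex_zero] at h3 h4
  omega

end Pool.Agent.helper5.NBS
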