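import Mathlib

/-! Degrees of polynomials in two variables: `deg_Y` and the weighted degree `i + e j`. -/

set_option autoImplicit false

open MvPolynomial

namespace Pool.Agent.helper5.NBS

/-- The ring `ℂ[X, Y]`, `X = X 0`, `Y = X 1`. -/
abbrev R2 := MvPolynomial (Fin 2) ℂ

/-- The largest value of `i + e * j` over the monomials `X^i Y^j` of `F`. -/
def wdeg (e : ℕ) (F : R2) : ℕ := F.support.sup (fun n => n 0 + e * n 1)

/-- exponent substitution -/
noncomputable def phi (e : ℕ) (n : Fin 2 →₀ ℕ) : Fin 2 →₀ ℕ :=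
  Finsupp.single 0 (n 0 + e * n 1) + Finsupp.single 1 (n 1)

lemma phi_zero (e : ℕ) (n : Fin 2 →₀ ℕ) : phi e n 0 = n 0 + e * n 1 := by
  simp [phi]

lemma phi_one (e : ℕ) (n : Fin 2 →₀ ℕ) : phi e n 1 = n 1 := by
  simp [phi]

lemma phi_injective (e : ℕ) : Function.Injective (phi e) := by
  intro n m h
  have h1 : n 1 = m 1 := by rw [← phi_one e n, ← phi_one e m, h]
  have h0 : n 0 + e * n 1 = m 0 + e * m 1 := by rw [← phi_zero e n, ← phi_zero e m, h]
  rw [h1] at h0
  ext i
  fin_cases i
  · simpa using h0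
  · simpa using h1

/-- the substitution `Y ↦ X^e Y` -/
noncomputable def sube (e : ℕ) : R2 →ₐ[ℂ] R2 := aeval ![X 0, X 0 ^ e * X 1]

lemma sube_monomial (e : ℕ) (n : Fin 2 →₀ ℕ) (c : ℂ) :
    sube e (monomial n c) = monomial (phi e n) c := by
  rw [sube, aeval_monomial, Finsupp.prod_fintype _ _ (by intro i; simp)]
  rw [Fin.prod_univ_two]
  simp only [Matrix.cons_val_zero, Matrix.cons_val_one]
  rw [monomial_eq, Finsupp.prod_fintype _ _ (by intro i; simp), Fin.prod_univ_two, phi_zero, phi_one]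
  rw [MvPolynomial.algebraMap_eq]
  ring

lemma sube_eq_sum (e : ℕ) (F : R2) :
    sube e F = ∑ n ∈ F.support, monomial (phi e n) (coeff n F) := by
  conv_lhs => rw [F.as_sum]
  rw [map_sum]
  exact Finset.sum_congr rfl (fun n _ => sube_monomial e n _)

lemma coeff_phi_sube (e : ℕ) (F : R2) (n : Fin 2 →₀ ℕ) :
    coeff (phi e n) (sube e F) = coeff n F := by
  classical
  rw [sube_eq_sum, coeff_sum]
  simp only [coeff_monomial]
  have : ∀ m : Fin 2 →₀ ℕ, (phi e m = phi e n) ↔ (m = n) := fun m =>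
    ⟨fun h => phi_injective e h, fun h => by rw [h]⟩
  simp only [this]
  rw [Finset.sum_ite_eq']
  split_ifs with h
  · rfl
  · exact (notMem_support_iff.mp h).symm

lemma sube_injective (e : ℕ) : Function.Injective (sube e) := by
  intro F G h
  ext n
  rw [← coeff_phi_sube e F, ← coeff_phi_sube e G, h]

lemma degreeOf_sube (e : ℕ) (F : R2) : degreeOf 0 (sube e F) = wdeg e F := by
  classical
  rw [degreeOf_eq_sup, wdeg]
  apply le_antisymm
  · apply Finset.sup_le
    intro m hm
    have hm' : m ∈ F.support.image (phi e) := by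
      rw [sube_eq_sum] at hm
      have := MvPolynomial.support_sum hm
      rw [Finset.mem_biUnion] at this
      obtain ⟨n, hn, hmn⟩ := this
      have := support_monomial_subset hmn
      rw [Finset.mem_singleton] at this
      rw [this]
      exact Finset.mem_image_of_mem _ hn
    rw [Finset.mem_image] at hm'
    obtain ⟨n, hn, rfl⟩ := hm'
    rw [phi_zero]
    exact Finset.le_sup (f := fun n : Fin 2 →₀ ℕ => n 0 + e * n 1) hn
  · apply Finset.sup_le
    intro n hn
    have : phi e n ∈ (sube e F).support := by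
      rw [mem_support_iff, coeff_phi_sube]
      exact mem_support_iff.mp hn
    rw [← phi_zero e n]
    exact Finset.le_sup (f := fun n : Fin 2 →₀ ℕ => n 0) this

lemma wdeg_mul (e : ℕ) {F G : R2} (hF : F ≠ 0) (hG : G ≠ 0) :
    wdeg e (F * G) = wdeg e F + wdeg e G := by
  rw [← degreeOf_sube, ← degreeOf_sube, ← degreeOf_sube, map_mul]
  apply degreeOf_mul_eq
  · intro h
    exact hF (sube_injective e (by rw [h, map_zero]))
  · intro h
    exact hG (sube_injective e (by rw [h, map_zero]))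

/-- The degree in `Y`. -/
noncomputable def ydeg (F : R2) : ℕ := degreeOf 1 F

lemma ydeg_mul {F G : R2} (hF : F ≠ 0) (hG : G ≠ 0) :
    ydeg (F * G) = ydeg F + ydeg G := degreeOf_mul_eq hF hG

/-- Exponents with `j ≤ a`, `i + e j ≤ b`. -/
def expSet (e a b : ℕ) : Set (Fin 2 →₀ ℕ) := {n | n 1 ≤ a ∧ n 0 + e * n 1 ≤ b}

/-- The space of polynomials `F` with `ydeg F ≤ a` and `wdeg e F ≤ b`. -/
noncomputable def V (e a b : ℕ) : Submodule ℂ R2 := restrictSupport ℂ (expSet e a b)

lemma mem_V {e a b : ℕ} {F : R2} : F ∈ V e a b ↔ ydeg F ≤ a ∧ wdeg e F ≤ b := by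
  rw [V, mem_restrictSupport_iff, ydeg, wdeg, degreeOf_eq_sup, Finset.sup_le_iff, Finset.sup_le_iff]
  constructor
  · intro h
    exact ⟨fun n hn => (h hn).1, fun n hn => (h hn).2⟩
  · rintro ⟨h1, h2⟩ n hn
    exact ⟨h1 n hn, h2 n hn⟩

/-- number of exponents -/
def cnt (e a b : ℕ) : ℕ := ∑ j ∈ Finset.range (a + 1), (b - e * j + 1)

lemma two_cnt (e a b : ℕ) (h : e * a ≤ b) :
    2 * (cnt e a b : ℤ) = (a + 1) * (2 * (b + 1) - e * a) := by
  induction a with
  | zero => simp [cnt]
  | succ a ih =>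
    have h' : e * a ≤ b := le_trans (Nat.mul_le_mul_left _ (Nat.le_succ a)) h
    have e1 : cnt e (a + 1) b = cnt e a b + (b - e * (a + 1) + 1) := by
      rw [cnt, Finset.sum_range_succ]; rfl
    rw [e1]
    push_cast [Nat.cast_sub h]
    have := ih h'
    linear_combination this

/-- the exponents are in bijection with a sigma type -/
noncomputable def expEquiv (e a b : ℕ) (h : e * a ≤ b) :
    expSet e a b ≃ (Σ j : Fin (a + 1), Fin (b - e * j + 1)) where
  toFun n := ⟨⟨n.1 1, Nat.lt_succ_of_le n.2.1⟩, ⟨n.1 0, by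
    have := n.2.2
    simp only
    omega⟩⟩
  invFun x := ⟨Finsupp.single 0 (x.2 : ℕ) + Finsupp.single 1 (x.1 : ℕ), by
    have h1 := x.1.2
    have h2 := x.2.2
    have h3 : e * (x.1 : ℕ) ≤ e * a := Nat.mul_le_mul_left _ (Nat.le_of_lt_succ h1)
    refine ⟨?_, ?_⟩
    · simp; omega
    · simp; omega⟩
  left_inv n := by
    apply Subtype.ext
    ext i
    fin_cases i <;> simp
  right_inv x := by
    obtain ⟨⟨j, hj⟩, ⟨i, hi⟩⟩ := x
    apply Sigma.ext
    · simp
    · rw [Fin.heq_ext_iff]
      · simp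
      · simp

lemma finite_V (e a b : ℕ) (h : e * a ≤ b) : Module.Finite ℂ (V e a b) := by
  have : Finite (expSet e a b) := Finite.of_equiv _ (expEquiv e a b h).symm
  exact Module.Finite.of_basis (basisRestrictSupport ℂ (expSet e a b))

lemma finrank_V (e a b : ℕ) (h : e * a ≤ b) : Module.finrank ℂ (V e a b) = cnt e a b := by
  have : Finite (expSet e a b) := Finite.of_equiv _ (expEquiv e a b h).symm
  rw [V, Module.finrank_eq_nat_card_basis (basisRestrictSupport ℂ (expSet e a b)),
    Nat.card_congr (expEquiv e a b h), Nat.card_eq_fintype_card, Fintype.card_sigma]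
  simp only [Fintype.card_fin]
  rw [cnt, Finset.sum_range]

end Pool.Agent.helper5.NBS
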