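import Pool.Agent.helper5.NBSDeg

/-! Multiplicities at points of the plane. -/

set_option autoImplicit false

open MvPolynomial

namespace Pool.Agent.helper5.NBS

/-- The maximal ideal of the point `p`. -/
noncomputable def ptIdeal (p : Fin 2 → ℂ) : Ideal R2 := Ideal.span (Set.range fun i => X i - C (p i))

/-- translation -/
noncomputable def trans (p : Fin 2 → ℂ) : R2 ≃ₐ[ℂ] R2 :=
  AlgEquiv.ofAlgHom (aeval fun i => X i + C (p i)) (aeval fun i => X i - C (p i))
    (by ext i; simp) (by ext i; simp)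

lemma trans_X (p : Fin 2 → ℂ) (i : Fin 2) : trans p (X i) = X i + C (p i) := by
  simp [trans]

lemma trans_C (p : Fin 2 → ℂ) (r : ℂ) : trans p (C r) = C r := (trans p).commutes r

lemma trans_symm_X (p : Fin 2 → ℂ) (i : Fin 2) : (trans p).symm (X i) = X i - C (p i) := by
  simp [trans]

lemma mem_ptIdeal_pow {p : Fin 2 → ℂ} {m : ℕ} {F : R2} :
    F ∈ ptIdeal p ^ m ↔ ∀ n : Fin 2 →₀ ℕ, n.degree < m → coeff n (trans p F) = 0 := by
  rw [← mem_pow_idealOfVars_iff']
  have h1 : ptIdeal p = Ideal.map (trans p).symm.toRingEquiv (idealOfVars (Fin 2) ℂ) := by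
    rw [idealOfVars, Ideal.map_span, ptIdeal, ← Set.range_comp]
    congr 1
    ext G
    simp [trans_symm_X]
  rw [h1, ← Ideal.map_pow, Ideal.mem_map_of_equiv]
  constructor
  · rintro ⟨G, hG, hGF⟩
    have : trans p F = G := by rw [← hGF]; simp
    rw [this]; exact hG
  · intro h
    exact ⟨_, h, by simp⟩

lemma degree_eq (n : Fin 2 →₀ ℕ) : n.degree = n 0 + n 1 := by
  rw [Finsupp.degree_eq_sum, Fin.sum_univ_two]

/-- Taylor coefficients of order less than `m`. -/
noncomputable def tay (p : Fin 2 → ℂ) (m : ℕ) :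
    R2 →ₗ[ℂ] ({n : Fin 2 →₀ ℕ // n.degree < m} → ℂ) :=
  LinearMap.pi fun n => (lcoeff ℂ n.1) ∘ₗ (trans p).toLinearMap

lemma tay_apply (p : Fin 2 → ℂ) (m : ℕ) (F : R2) (n : {n : Fin 2 →₀ ℕ // n.degree < m}) :
    tay p m F n = coeff n.1 (trans p F) := rfl

lemma ker_tay (p : Fin 2 → ℂ) (m : ℕ) :
    LinearMap.ker (tay p m) = (ptIdeal p ^ m).restrictScalars ℂ := by
  ext F
  rw [LinearMap.mem_ker, Submodule.restrictScalars_mem, mem_ptIdeal_pow, funext_iff]
  simp only [tay_apply, Pi.zero_apply, Subtype.forall]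

lemma finite_exps (m : ℕ) : Finite {n : Fin 2 →₀ ℕ // n.degree < m} := by
  have : Finite (expSet 1 m m) := Finite.of_equiv _ (expEquiv 1 m m (by simp)).symm
  apply Finite.of_injective (β := expSet 1 m m)
    (fun n => ⟨n.1, by
      have := n.2
      rw [degree_eq] at this
      constructor
      · show n.1 1 ≤ m
        omega
      · show n.1 0 + 1 * n.1 1 ≤ m
        omega⟩)
  intro a b h
  exact Subtype.ext (congrArg (fun x : expSet 1 m m => x.1) h)

lemma tay_surjective (p : Fin 2 → ℂ) (m : ℕ) : Function.Surjective (tay p m) := by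
  classical
  have := finite_exps m
  have := Fintype.ofFinite {n : Fin 2 →₀ ℕ // n.degree < m}
  intro f
  refine ⟨(trans p).symm (∑ n, monomial n.1 (f n)), ?_⟩
  funext n
  rw [tay_apply, AlgEquiv.apply_symm_apply, coeff_sum]
  simp only [coeff_monomial]
  rw [Finset.sum_eq_single n]
  · simp
  · intro k _ hk
    rw [if_neg]
    intro h
    exact hk (Subtype.ext h)
  · intro h
    exact absurd (Finset.mem_univ n) h

lemma card_exps (m : ℕ) : 2 * (Nat.card {n : Fin 2 →₀ ℕ // n.degree < m} : ℤ) = m * (m + 1) := by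
  rcases Nat.eq_zero_or_pos m with rfl | hm
  · simp
  · obtain ⟨k, rfl⟩ : ∃ k, m = k + 1 := ⟨m - 1, by omega⟩
    have e1 : Nat.card {n : Fin 2 →₀ ℕ // n.degree < k + 1} = cnt 1 k k := by
      have e2 : {n : Fin 2 →₀ ℕ // n.degree < k + 1} ≃ expSet 1 k k := by
        apply Equiv.subtypeEquivRight
        intro n
        rw [degree_eq]
        show _ ↔ n 1 ≤ k ∧ n 0 + 1 * n 1 ≤ k
        omega
      rw [Nat.card_congr e2, Nat.card_congr (expEquiv 1 k k (by simp)), Nat.card_eq_fintype_card,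
        Fintype.card_sigma]
      simp only [Fintype.card_fin]
      rw [cnt, Finset.sum_range]
    rw [e1, two_cnt 1 k k (by simp)]
    push_cast
    ring

/-- `R2 ⧸ 𝔪^m` is the space of Taylor coefficients. -/
noncomputable def quotEquiv (p : Fin 2 → ℂ) (m : ℕ) :
    (R2 ⧸ ptIdeal p ^ m) ≃ₗ[ℂ] ({n : Fin 2 →₀ ℕ // n.degree < m} → ℂ) :=
  (Submodule.Quotient.restrictScalarsEquiv ℂ (ptIdeal p ^ m)).symm ≪≫ₗ
    (Submodule.quotEquivOfEq _ _ (ker_tay p m).symm) ≪≫ₗ
    (tay p m).quotKerEquivOfSurjective (tay_surjective p m)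

lemma finite_quot (p : Fin 2 → ℂ) (m : ℕ) : Module.Finite ℂ (R2 ⧸ ptIdeal p ^ m) := by
  have := finite_exps m
  exact Module.Finite.equiv (quotEquiv p m).symm

lemma finrank_quot (p : Fin 2 → ℂ) (m : ℕ) :
    2 * (Module.finrank ℂ (R2 ⧸ ptIdeal p ^ m) : ℤ) = m * (m + 1) := by
  have := finite_exps m
  have := Fintype.ofFinite {n : Fin 2 →₀ ℕ // n.degree < m}
  rw [(quotEquiv p m).finrank_eq, Module.finrank_fintype_fun_eq_card, ← Nat.card_eq_fintype_card,
    card_exps]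

lemma mem_ptIdeal_iff {p : Fin 2 → ℂ} {F : R2} : F ∈ ptIdeal p ↔ eval p F = 0 := by
  have h1 : F ∈ ptIdeal p ↔ F ∈ ptIdeal p ^ 1 := by rw [pow_one]
  have h2 : coeff 0 (trans p F) = eval p F := by
    have : (constantCoeff : R2 →+* ℂ).comp (trans p : R2 →+* R2) = eval p := by
      apply MvPolynomial.ringHom_ext
      · intro r
        simp [trans_C]
      · intro i
        simp [trans_X]
    have h3 := congrArg (fun f : R2 →+* ℂ => f F) this
    simpa [constantCoeff_eq] using h3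
  rw [h1, mem_ptIdeal_pow, ← h2]
  constructor
  · intro h
    exact h 0 (by simp)
  · intro h n hn
    have : n = 0 := by
      have h0 : n.degree = 0 := by omega
      rwa [Finsupp.degree_eq_zero_iff] at h0
    rw [this, h]

/-- the local intersection number of a curve through `p` with a curve of multiplicity `m` is at
least `m` -/
lemma finite_and_le_finrank {p : Fin 2 → ℂ} {P : R2} (hP : P ∈ ptIdeal p) (m : ℕ) :
    Module.Finite ℂ (R2 ⧸ (Ideal.span {P} ⊔ ptIdeal p ^ m)) ∧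
    m ≤ Module.finrank ℂ (R2 ⧸ (Ideal.span {P} ⊔ ptIdeal p ^ m)) := by
  have hfin := finite_quot p m
  set I : Ideal R2 := Ideal.span {P} ⊔ ptIdeal p ^ m with hI
  have hle : ptIdeal p ^ m ≤ I := le_sup_right
  let q : (R2 ⧸ ptIdeal p ^ m) →ₗ[ℂ] (R2 ⧸ I) := (Ideal.Quotient.factorₐ ℂ hle).toLinearMap
  have hq : Function.Surjective q := by
    intro x
    obtain ⟨F, rfl⟩ := Ideal.Quotient.mk_surjective x
    exact ⟨Ideal.Quotient.mk _ F, by simp [q]⟩
  have hfinI : Module.Finite ℂ (R2 ⧸ I) := Module.Finite.of_surjective q hq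
  refine ⟨hfinI, ?_⟩
  rcases Nat.eq_zero_or_pos m with rfl | hm
  · exact Nat.zero_le _
  obtain ⟨k, rfl⟩ : ∃ k, m = k + 1 := ⟨m - 1, by omega⟩
  have hfink := finite_quot p k
  -- multiplication by `P`
  let ψ : R2 →ₗ[ℂ] (R2 ⧸ ptIdeal p ^ (k + 1)) :=
    (Ideal.Quotient.mkₐ ℂ (ptIdeal p ^ (k + 1))).toLinearMap ∘ₗ LinearMap.mulLeft ℂ P
  have hψ : ∀ G ∈ ptIdeal p ^ k, ψ G = 0 := by
    intro G hG
    show Ideal.Quotient.mk _ (P * G) = 0
    rw [Ideal.Quotient.eq_zero_iff_mem, pow_succ, mul_comm P G]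
    exact Ideal.mul_mem_mul hG hP
  have hle2 : (ptIdeal p ^ k).restrictScalars ℂ ≤ LinearMap.ker ψ := fun G hG =>
    LinearMap.mem_ker.mpr (hψ G hG)
  let ψ' : (R2 ⧸ (ptIdeal p ^ k).restrictScalars ℂ) →ₗ[ℂ] (R2 ⧸ ptIdeal p ^ (k + 1)) :=
    Submodule.liftQ _ ψ hle2
  have hfink' : Module.Finite ℂ (R2 ⧸ (ptIdeal p ^ k).restrictScalars ℂ) :=
    Module.Finite.equiv (Submodule.Quotient.restrictScalarsEquiv ℂ (ptIdeal p ^ k)).symm
  have hr : Module.finrank ℂ (LinearMap.range ψ') ≤ Module.finrank ℂ (R2 ⧸ ptIdeal p ^ k) := by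
    rw [← (Submodule.Quotient.restrictScalarsEquiv ℂ (ptIdeal p ^ k)).finrank_eq]
    exact LinearMap.finrank_range_le ψ'
  have hker : LinearMap.ker q ≤ LinearMap.range ψ' := by
    intro x hx
    obtain ⟨F, rfl⟩ := Ideal.Quotient.mk_surjective x
    rw [LinearMap.mem_ker] at hx
    have hx' : F ∈ I := by
      rw [← Ideal.Quotient.eq_zero_iff_mem]
      simpa [q] using hx
    rw [hI, Submodule.mem_sup] at hx'
    obtain ⟨A, hA, B, hB, rfl⟩ := hx'
    rw [Ideal.mem_span_singleton'] at hA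
    obtain ⟨G, rfl⟩ := hA
    refine ⟨Submodule.Quotient.mk G, ?_⟩
    show ψ G = _
    show Ideal.Quotient.mk _ (P * G) = _
    rw [map_add, Ideal.Quotient.eq_zero_iff_mem.mpr hB, add_zero, mul_comm]
  have h1 := LinearMap.finrank_range_add_finrank_ker q
  have h2 : Module.finrank ℂ (LinearMap.range q) = Module.finrank ℂ (R2 ⧸ I) := by
    rw [LinearMap.range_eq_top.mpr hq, finrank_top]
  have h3 := Submodule.finrank_mono hker
  have h4 := finrank_quot p (k + 1)
  have h5 := finrank_quot p k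
  rw [h2] at h1
  push_cast at h4 h5 ⊢
  have h6 : (Module.finrank ℂ (R2 ⧸ ptIdeal p ^ (k + 1)) : ℤ) ≤
      Module.finrank ℂ (R2 ⧸ I) + Module.finrank ℂ (R2 ⧸ ptIdeal p ^ k) := by
    have : Module.finrank ℂ (R2 ⧸ ptIdeal p ^ (k + 1)) ≤
      Module.finrank ℂ (R2 ⧸ I) + Module.finrank ℂ (R2 ⧸ ptIdeal p ^ k) := by omega
    exact_mod_cast this
  have h7 : ((k : ℤ) + 1) ≤ Module.finrank ℂ (R2 ⧸ I) := by nlinarith
  exact_mod_cast h7

/-- multiplicity of a product with a smooth curve -/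
lemma mem_pow_of_mul_mem {p : Fin 2 → ℂ} {P G : R2} (hP : P ∉ ptIdeal p ^ 2) {m : ℕ}
    (h : P * G ∈ ptIdeal p ^ m) : G ∈ ptIdeal p ^ (m - 1) := by
  rw [mem_ptIdeal_pow] at hP h ⊢
  rw [map_mul] at h
  set P' := trans p P
  set G' := trans p G
  have key : ∀ (F : R2) (k : ℕ), (∀ n : Fin 2 →₀ ℕ, n.degree < k → coeff n F = 0) ↔
      (k : ℕ∞) ≤ (F : MvPowerSeries (Fin 2) ℂ).order := by
    intro F k
    constructor
    · intro hF
      apply MvPowerSeries.nat_le_order
      intro d hd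
      rw [MvPolynomial.coeff_coe]
      exact hF d hd
    · intro hF n hn
      rw [← MvPolynomial.coeff_coe]
      apply MvPowerSeries.coeff_of_lt_order
      exact lt_of_lt_of_le (by exact_mod_cast hn) hF
  rw [key] at hP h ⊢
  rw [MvPolynomial.coe_mul, MvPowerSeries.order_mul] at h
  push Not at hP
  generalize (P' : MvPowerSeries (Fin 2) ℂ).order = x at hP h
  generalize (G' : MvPowerSeries (Fin 2) ℂ).order = y at h ⊢
  induction y using ENat.recTopCoe with
  | top => exact le_top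
  | coe y =>
    induction x using ENat.recTopCoe with
    | top => exact absurd hP (by simp)
    | coe x =>
      norm_cast at hP h ⊢
      omega

lemma pderiv_mem {p : Fin 2 → ℂ} {F : R2} (h : F ∈ ptIdeal p ^ 2) (i : Fin 2) :
    eval p (pderiv i F) = 0 := by
  rw [← mem_ptIdeal_iff]
  rw [pow_two] at h
  refine Submodule.mul_induction_on h ?_ ?_
  · intro f hf g hg
    rw [pderiv_mul]
    exact Ideal.add_mem _ (Ideal.mul_mem_left _ _ hg) (Ideal.mul_mem_right _ _ hf)
  · intro f g hf hg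
    rw [map_add]
    exact Ideal.add_mem _ hf hg

lemma ptIdeal_coprime {p p' : Fin 2 → ℂ} (h : p ≠ p') : IsCoprime (ptIdeal p) (ptIdeal p') := by
  obtain ⟨i, hi⟩ := Function.ne_iff.mp h
  rw [Ideal.isCoprime_iff_exists]
  have hi' : p' i - p i ≠ 0 := sub_ne_zero.mpr (Ne.symm hi)
  refine ⟨C (p' i - p i)⁻¹ * (X i - C (p i)), ?_, - (C (p' i - p i)⁻¹ * (X i - C (p' i))), ?_, ?_⟩
  · exact Ideal.mul_mem_left _ _ (Ideal.subset_span ⟨i, rfl⟩)
  · exact (Ideal.neg_mem_iff _).mpr (Ideal.mul_mem_left _ _ (Ideal.subset_span ⟨i, rfl⟩))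
  · have : (C (p' i - p i)⁻¹ * (X i - C (p i)) + -(C (p' i - p i)⁻¹ * (X i - C (p' i))) : R2) =
        C ((p' i - p i)⁻¹ * (p' i - p i)) := by
      rw [map_mul, map_sub]; ring
    rw [this, inv_mul_cancel₀ hi', map_one]

end Pool.Agent.helper5.NBS
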