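import Pool.Agent.helper5.NBSSesh

/-! Assembly. -/

set_option autoImplicit false

open MvPolynomial

namespace Pool.Agent.helper5.NBS

lemma exists_special' (e α γ q s r : ℕ) (hα : 0 < α) (hγ : 0 < γ) (hq : 0 < q) (hs : 0 < s)
    (hsq : q ^ 2 * (α * (2 * γ + e * α)) = s ^ 2 * r)
    (hrange : s * (γ + e * α) ≤ Nat.gcd α γ * q * γ) :
    ∃ p : Fin r → Fin 2 → ℂ, ∀ F : R2, F ≠ 0 → ∀ m : Fin r → ℕ,
      (∀ i, F ∈ ptIdeal (p i) ^ m i) → s * ∑ i, m i ≤ q * ldeg e α γ F := by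
  obtain ⟨g, hg⟩ : ∃ g, g = Nat.gcd α γ := ⟨_, rfl⟩
  have hgpos : 0 < g := by rw [hg]; exact Nat.gcd_pos_of_pos_left _ hα
  obtain ⟨α0, hα0⟩ : g ∣ α := by rw [hg]; exact Nat.gcd_dvd_left _ _
  obtain ⟨γ0, hγ0⟩ : g ∣ γ := by rw [hg]; exact Nat.gcd_dvd_right _ _
  have hα0pos : 0 < α0 := Nat.pos_of_ne_zero (by rintro rfl; omega)
  have hγ0pos : 0 < γ0 := Nat.pos_of_ne_zero (by rintro rfl; omega)
  have hcop : Nat.Coprime α0 γ0 := by
    have h1 : g * Nat.gcd α0 γ0 = g * 1 := by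
      rw [← Nat.gcd_mul_left, ← hα0, ← hγ0, mul_one, hg]
    exact Nat.eq_of_mul_eq_mul_left hgpos h1
  obtain ⟨h, hh⟩ : ∃ h, h = Nat.gcd (g * q) s := ⟨_, rfl⟩
  have hhpos : 0 < h := by rw [hh]; exact Nat.gcd_pos_of_pos_right _ hs
  obtain ⟨q0, hq0⟩ : h ∣ g * q := by rw [hh]; exact Nat.gcd_dvd_left _ _
  obtain ⟨s0, hs0⟩ : h ∣ s := by rw [hh]; exact Nat.gcd_dvd_right _ _
  have hgq : 0 < g * q := Nat.mul_pos hgpos hq
  have hq0pos : 0 < q0 := Nat.pos_of_ne_zero (by rintro rfl; omega)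
  have hs0pos : 0 < s0 := Nat.pos_of_ne_zero (by rintro rfl; omega)
  have hcop2 : Nat.Coprime q0 s0 := by
    have h1 : h * Nat.gcd q0 s0 = h * 1 := by
      rw [← Nat.gcd_mul_left, ← hq0, ← hs0, mul_one, hh]
    exact Nat.eq_of_mul_eq_mul_left hhpos h1
  have e1 : q0 ^ 2 * (α0 * (2 * γ0 + e * α0)) = s0 ^ 2 * r := by
    have h1 : h ^ 2 * (q0 ^ 2 * (α0 * (2 * γ0 + e * α0))) = h ^ 2 * (s0 ^ 2 * r) := by
      calc h ^ 2 * (q0 ^ 2 * (α0 * (2 * γ0 + e * α0))) =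
          (h * q0) ^ 2 * (α0 * (2 * γ0 + e * α0)) := by ring
        _ = (g * q) ^ 2 * (α0 * (2 * γ0 + e * α0)) := by rw [hq0]
        _ = q ^ 2 * ((g * α0) * (2 * (g * γ0) + e * (g * α0))) := by ring
        _ = q ^ 2 * (α * (2 * γ + e * α)) := by rw [← hα0, ← hγ0]
        _ = s ^ 2 * r := hsq
        _ = h ^ 2 * (s0 ^ 2 * r) := by rw [hs0]; ring
    exact Nat.eq_of_mul_eq_mul_left (by positivity) h1
  have e2 : s0 * (γ0 + e * α0) ≤ q0 * γ0 := by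
    have h1 : (g * h) * (s0 * (γ0 + e * α0)) ≤ (g * h) * (q0 * γ0) := by
      calc (g * h) * (s0 * (γ0 + e * α0)) = (h * s0) * (g * γ0 + e * (g * α0)) := by ring
        _ = s * (γ + e * α) := by rw [← hs0, ← hα0, ← hγ0]
        _ ≤ Nat.gcd α γ * q * γ := hrange
        _ = (g * q) * γ := by rw [← hg]
        _ = (h * q0) * (g * γ0) := by rw [hq0, ← hγ0]
        _ = _ := by ring
    exact Nat.le_of_mul_le_mul_left h1 (Nat.mul_pos hgpos hhpos)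
  obtain ⟨p, _, hp⟩ := exists_special e α0 γ0 q0 s0 r hα0pos hγ0pos hcop hq0pos hs0pos hcop2 e1 e2
  refine ⟨p, fun F hF m hm => ?_⟩
  have h1 := hp F hF m hm
  have h2 : ldeg e α γ F = g * ldeg e α0 γ0 F := by
    rw [ldeg, ldeg, hα0, hγ0]; ring
  calc s * ∑ i, m i = h * (s0 * ∑ i, m i) := by rw [hs0]; ring
    _ ≤ h * (q0 * ldeg e α0 γ0 F) := Nat.mul_le_mul_left _ h1
    _ = (h * q0) * ldeg e α0 γ0 F := by ring
    _ = (g * q) * ldeg e α0 γ0 F := by rw [hq0]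
    _ = q * ldeg e α γ F := by rw [h2]; ring

/-- the infimum over irreducible curves -/
noncomputable def sesh (e α γ : ℕ) {r : ℕ} (p : Fin r → Fin 2 → ℂ) : ℝ :=
  sInf {t : ℝ | ∃ F : R2, Irreducible F ∧ 0 < smult p F ∧ t = ldeg e α γ F / smult p F}

lemma sesh_eq (e α γ q s r : ℕ) (hα : 0 < α) (hr : 0 < r) (hq : 0 < q) (hs : 0 < s)
    (hsq : q ^ 2 * (α * (2 * γ + e * α)) = s ^ 2 * r) (p : Fin r → Fin 2 → ℂ)
    (h : ∀ F : R2, F ≠ 0 → ∀ m : Fin r → ℕ,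
      (∀ i, F ∈ ptIdeal (p i) ^ m i) → s * ∑ i, m i ≤ q * ldeg e α γ F) :
    sesh e α γ p = s / q := by
  have hq' : (0 : ℝ) < q := by exact_mod_cast hq
  have hs' : (0 : ℝ) < s := by exact_mod_cast hs
  have hlow : ∀ F : R2, F ≠ 0 → s * smult p F ≤ q * ldeg e α γ F := by
    intro F hF
    exact h F hF (fun i => mult (p i) F) (fun i => (mem_pow_iff_le_mult hF).mpr le_rfl)
  set A := {t : ℝ | ∃ F : R2, Irreducible F ∧ 0 < smult p F ∧ t = ldeg e α γ F / smult p F} with hA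
  have hlb : ∀ t ∈ A, (s : ℝ) / q ≤ t := by
    rintro _ ⟨F, hF, hpos, rfl⟩
    have h1 : (s : ℝ) * smult p F ≤ q * ldeg e α γ F := by exact_mod_cast hlow F hF.ne_zero
    have h2 : (0 : ℝ) < smult p F := by exact_mod_cast hpos
    rw [div_le_div_iff₀ hq' h2]
    linarith
  have hne : A.Nonempty := by
    by_contra hcon
    rw [Set.not_nonempty_iff_eq_empty] at hcon
    have h1 : ∀ F : R2, F ≠ 0 → ((s : ℝ) / q + 1) * smult p F ≤ ldeg e α γ F := by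
      intro F
      apply all_of_irreducible
      intro G hG hG0
      exfalso
      have : (ldeg e α γ G / smult p G : ℝ) ∈ A := ⟨G, hG, hG0, rfl⟩
      rw [hcon] at this
      exact this
    have h2 := upper e α γ hα hr p hq hs hsq _ (by positivity) h1
    have h3 : ((s : ℝ) / q + 1) * q = s + q := by
      field_simp
    rw [h3] at h2
    linarith
  have hbdd : BddBelow A := ⟨s / q, hlb⟩
  have h1 : (s : ℝ) / q ≤ sInf A := le_csInf hne hlb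
  have h2 : ∀ F : R2, F ≠ 0 → sInf A * smult p F ≤ ldeg e α γ F := by
    intro F
    apply all_of_irreducible
    intro G hG hG0
    have h3 : sInf A ≤ ldeg e α γ G / smult p G := csInf_le hbdd ⟨G, hG, hG0, rfl⟩
    have h4 : (0 : ℝ) < smult p G := by exact_mod_cast hG0
    rwa [le_div_iff₀ h4] at h3
  have h3 := upper e α γ hα hr p hq hs hsq _ (le_trans (by positivity) h1) h2
  rw [sesh, ← hA]
  apply le_antisymm _ h1
  rw [le_div_iff₀ hq']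
  exact h3

theorem main (e α γ q s r : ℕ) (hα : 0 < α) (hγ : 0 < γ) (hr : 0 < r) (hq : 0 < q) (hs : 0 < s)
    (hsq : q ^ 2 * (α * (2 * γ + e * α)) = s ^ 2 * r)
    (hrange : s * (γ + e * α) ≤ Nat.gcd α γ * q * γ) :
    ∃ S : Set (PtRing r), S.Countable ∧ (∀ Φ ∈ S, Φ ≠ 0) ∧
      ∀ p : Fin r → Fin 2 → ℂ, (∀ Φ ∈ S, evP p Φ ≠ 0) → sesh e α γ p = s / q := by
  obtain ⟨p₀, hp₀⟩ := exists_special' e α γ q s r hα hγ hq hs hsq hrange
  obtain ⟨S, h1, h2, h3⟩ := very_general e α γ r q s p₀ hp₀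
  exact ⟨S, h1, h2, fun p hp => sesh_eq e α γ q s r hα hr hq hs hsq p (h3 p hp)⟩

end Pool.Agent.helper5.NBS
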