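import Pool.Agent.helper5.NBSBezout

/-! The two-curve trick: a class on the segment between two curves through the points is nef. -/

set_option autoImplicit false

open MvPolynomial

namespace Pool.Agent.helper5.NBS

/-- the degree `L · F` with respect to `L = α C₀ + β f`, where `β = γ + e α`. -/
noncomputable def ldeg (e α γ : ℕ) (F : R2) : ℕ := α * wdeg e F + γ * ydeg F

lemma ldeg_mul (e α γ : ℕ) {F G : R2} (hF : F ≠ 0) (hG : G ≠ 0) :
    ldeg e α γ (F * G) = ldeg e α γ F + ldeg e α γ G := by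
  rw [ldeg, ldeg, ldeg, wdeg_mul e hF hG, ydeg_mul hF hG]
  ring

/-- arithmetic of the case where neither curve divides `F` -/
lemma nef_arith (e α γ q s r a b y w S : ℤ) (hα : 0 < α) (hs : 0 < s) (hq : 0 < q)
    (hsq : q ^ 2 * (α * (2 * γ + e * α)) = s ^ 2 * r)
    (hL : q * (α * b + γ * a) = s * r)
    (hsign : 0 ≤ (q * α - s * a) * (α * w - (γ + e * α) * y))
    (hbez : S + e * y * a ≤ y * b + w * a) : s * S ≤ q * (α * w + γ * y) := by
  have h1 : α * s * b = q * α * (2 * γ + e * α) - γ * s * a := by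
    have : q * (α * s * b) = q * (q * α * (2 * γ + e * α) - γ * s * a) := by
      linear_combination s * hL - hsq
    exact mul_left_cancel₀ hq.ne' this
  have h2 : α * s * S ≤ α * s * (y * b + w * a - e * y * a) := by
    apply mul_le_mul_of_nonneg_left (by linarith) (by positivity)
  have h3 : α * s * (y * b + w * a - e * y * a) = α * (q * (α * w + γ * y))
      - (q * α - s * a) * (α * w - (γ + e * α) * y) := by
    linear_combination y * h1
  have h4 : α * (s * S) ≤ α * (q * (α * w + γ * y)) := by nlinarith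
  exact le_of_mul_le_mul_left h4 hα

theorem nef_ineq (e α γ q s r : ℕ) (hα : 0 < α) (hs : 0 < s) (hq : 0 < q)
    (hsq : q ^ 2 * (α * (2 * γ + e * α)) = s ^ 2 * r)
    {PA PB : R2} (hA : Irreducible PA) (hB : Irreducible PB)
    (hA1 : 0 < ydeg PA) (hB1 : 0 < ydeg PB)
    (hLA : q * ldeg e α γ PA = s * r) (hLB : q * ldeg e α γ PB = s * r)
    (hleft : s * ydeg PB ≤ q * α) (hright : q * α ≤ s * ydeg PA)
    (p : Fin r → Fin 2 → ℂ) (hp : Function.Injective p)
    (hpA : ∀ i, PA ∈ ptIdeal (p i)) (hpB : ∀ i, PB ∈ ptIdeal (p i))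
    (hpA2 : ∀ i, PA ∉ ptIdeal (p i) ^ 2) (hpB2 : ∀ i, PB ∉ ptIdeal (p i) ^ 2) :
    ∀ (k : ℕ) (F : R2), F ≠ 0 → ydeg F ≤ k → ∀ m : Fin r → ℕ,
      (∀ i, F ∈ ptIdeal (p i) ^ m i) → s * ∑ i, m i ≤ q * ldeg e α γ F := by
  have step : ∀ (P : R2), Irreducible P → 0 < ydeg P → q * ldeg e α γ P = s * r →
      (∀ i, P ∉ ptIdeal (p i) ^ 2) → ∀ (k : ℕ),
      (∀ (F : R2), F ≠ 0 → ydeg F ≤ k → ∀ m : Fin r → ℕ,
      (∀ i, F ∈ ptIdeal (p i) ^ m i) → s * ∑ i, m i ≤ q * ldeg e α γ F) →
      ∀ (F : R2), F ≠ 0 → ydeg F ≤ k + 1 → P ∣ F → ∀ m : Fin r → ℕ,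
      (∀ i, F ∈ ptIdeal (p i) ^ m i) → s * ∑ i, m i ≤ q * ldeg e α γ F := by
    intro P hP hP1 hLP hP2 k ih F hF hFk hPF m hm
    obtain ⟨G, rfl⟩ := hPF
    have hP0 : P ≠ 0 := hP.ne_zero
    have hG0 : G ≠ 0 := by
      rintro rfl
      exact hF (mul_zero _)
    rw [ydeg_mul hP0 hG0] at hFk
    have h1 := ih G hG0 (by omega) (fun i => m i - 1) (fun i => mem_pow_of_mul_mem (hP2 i) (hm i))
    rw [ldeg_mul e α γ hP0 hG0, mul_add, hLP]
    have h2 : ∑ i, m i ≤ r + ∑ i, (m i - 1) := by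
      have : ∑ i, m i ≤ ∑ i : Fin r, (1 + (m i - 1)) := Finset.sum_le_sum (fun i _ => by omega)
      rw [Finset.sum_add_distrib] at this
      simpa using this
    calc s * ∑ i, m i ≤ s * (r + ∑ i, (m i - 1)) := Nat.mul_le_mul_left _ h2
      _ = s * r + s * ∑ i, (m i - 1) := by ring
      _ ≤ _ := Nat.add_le_add_left h1 _
  have base : ∀ (F : R2), F ≠ 0 → ¬ PA ∣ F → ¬ PB ∣ F → ∀ m : Fin r → ℕ,
      (∀ i, F ∈ ptIdeal (p i) ^ m i) → s * ∑ i, m i ≤ q * ldeg e α γ F := by
    intro F hF hAF hBF m hm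
    have relA : IsRelPrime F PA := (hA.isRelPrime_iff_not_dvd.mpr hAF).symm
    have relB : IsRelPrime F PB := (hB.isRelPrime_iff_not_dvd.mpr hBF).symm
    have bA := bezout e hF hA.ne_zero relA p hp m hm hpA
    have bB := bezout e hF hB.ne_zero relB p hp m hm hpB
    rw [ldeg] at hLA hLB ⊢
    generalize ydeg F = y at *
    generalize wdeg e F = w at *
    generalize ydeg PA = a1 at *
    generalize wdeg e PA = b1 at *
    generalize ydeg PB = a2 at *
    generalize wdeg e PB = b2 at *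
    generalize (∑ i, m i) = S at *
    zify at *
    rcases le_total 0 ((α : ℤ) * w - (γ + e * α) * y) with h | h
    · refine nef_arith e α γ q s r a2 b2 y w S hα hs hq hsq hLB ?_ ?_
      · exact mul_nonneg (by linarith) h
      · linarith
    · refine nef_arith e α γ q s r a1 b1 y w S hα hs hq hsq hLA ?_ ?_
      · exact mul_nonneg_of_nonpos_of_nonpos (by linarith) h
      · linarith
  intro k
  induction k with
  | zero =>
    intro F hF hFk m hm
    apply base F hF _ _ m hm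
    · rintro ⟨G, rfl⟩
      have hG0 : G ≠ 0 := by
        rintro rfl
        exact hF (mul_zero _)
      rw [ydeg_mul hA.ne_zero hG0] at hFk
      omega
    · rintro ⟨G, rfl⟩
      have hG0 : G ≠ 0 := by
        rintro rfl
        exact hF (mul_zero _)
      rw [ydeg_mul hB.ne_zero hG0] at hFk
      omega
  | succ k ih =>
    intro F hF hFk m hm
    by_cases hAF : PA ∣ F
    · exact step PA hA hA1 hLA hpA2 k ih F hF hFk hAF m hm
    · by_cases hBF : PB ∣ F
      · exact step PB hB hB1 hLB hpB2 k ih F hF hFk hBF m hm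
      · exact base F hF hAF hBF m hm

end Pool.Agent.helper5.NBS
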