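import Pool.Agent.helper5.NBSCurves

/-! Common points of the two curves. -/

set_option autoImplicit false

namespace Pool.Agent.helper5.NBS

section

open Polynomial

lemma exists_value (R : ℂ[X]) (hR : 0 < R.natDegree) :
    ∃ c : ℂ, c ≠ 0 ∧ (R - C c).roots.toFinset.card = R.natDegree := by
  classical
  let bad : Finset ℂ := insert 0 (R.derivative.roots.toFinset.image (fun t => R.eval t))
  obtain ⟨c, hc⟩ := Infinite.exists_notMem_finset bad
  have hc0 : c ≠ 0 := by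
    rintro rfl
    exact hc (Finset.mem_insert_self _ _)
  refine ⟨c, hc0, ?_⟩
  have hnd : (R - C c).natDegree = R.natDegree := natDegree_sub_C
  have hne : R - C c ≠ 0 := by
    intro h
    rw [h] at hnd
    simp at hnd
    omega
  have hdne : R.derivative ≠ 0 := by
    intro h
    have := derivative_eq_zero.mp h
    omega
  have hnodup : (R - C c).roots.Nodup := by
    rw [Multiset.nodup_iff_count_le_one]
    intro t
    rw [count_roots]
    by_contra h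
    push Not at h
    rw [one_lt_rootMultiplicity_iff_isRoot hne] at h
    obtain ⟨h1, h2⟩ := h
    apply hc
    apply Finset.mem_insert_of_mem
    rw [Finset.mem_image]
    refine ⟨t, ?_, ?_⟩
    · rw [Multiset.mem_toFinset, mem_roots hdne]
      rw [derivative_sub, derivative_C, sub_zero] at h2
      exact h2
    · rw [IsRoot.def, eval_sub, eval_C] at h1
      exact sub_eq_zero.mp h1
  rw [Multiset.toFinset_card_of_nodup hnodup, IsAlgClosed.card_roots_eq_natDegree, hnd]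

lemma exists_root {g a' b' : ℕ} (hg : 0 < g) (ha : 0 < a') (hcop : Nat.Coprime a' b')
    {U V ε : ℂ} (hU : U ≠ 0) (hV : V ≠ 0) (hε : ε ≠ 0) (h : U ^ b' * V ^ a' = ε ^ a') :
    ∃ x : ℂ, x ≠ 0 ∧ x ^ (g * a') = U ∧ x ^ (g * b') * V = ε := by
  set W := ε / V with hW
  have hW0 : W ≠ 0 := div_ne_zero hε hV
  have h1 : U ^ b' = W ^ a' := by
    rw [hW, div_pow, ← h, mul_div_assoc, div_self (pow_ne_zero _ hV), mul_one]
  have hbez : (a' : ℤ) * Nat.gcdA a' b' + b' * Nat.gcdB a' b' = 1 := by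
    rw [← Nat.gcd_eq_gcd_ab, hcop]; rfl
  set k := Nat.gcdA a' b'
  set l := Nat.gcdB a' b'
  set z := U ^ k * W ^ l with hz
  have h1' : U ^ (b' : ℤ) = W ^ (a' : ℤ) := by exact_mod_cast h1
  have hz1 : z ^ a' = U := by
    have : z ^ (a' : ℤ) = U := by
      calc z ^ (a' : ℤ) = U ^ (a' * k) * (W ^ (a' : ℤ)) ^ l := by
            rw [hz, mul_zpow, ← zpow_mul, ← zpow_mul, ← zpow_mul, mul_comm k, mul_comm l]
        _ = U ^ (a' * k) * (U ^ (b' : ℤ)) ^ l := by rw [h1']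
        _ = U ^ (a' * k + b' * l) := by rw [← zpow_mul, ← zpow_add₀ hU]
        _ = U := by rw [hbez, zpow_one]
    exact_mod_cast this
  have hz2 : z ^ b' = W := by
    have : z ^ (b' : ℤ) = W := by
      calc z ^ (b' : ℤ) = (U ^ (b' : ℤ)) ^ k * W ^ (b' * l) := by
            rw [hz, mul_zpow, ← zpow_mul, ← zpow_mul, ← zpow_mul, mul_comm k, mul_comm l]
        _ = (W ^ (a' : ℤ)) ^ k * W ^ (b' * l) := by rw [h1']
        _ = W ^ (a' * k + b' * l) := by rw [← zpow_mul, ← zpow_add₀ hW0]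
        _ = W := by rw [hbez, zpow_one]
    exact_mod_cast this
  obtain ⟨x, hx⟩ := IsAlgClosed.exists_pow_nat_eq z hg
  refine ⟨x, ?_, ?_, ?_⟩
  · rintro rfl
    rw [zero_pow hg.ne'] at hx
    rw [← hx, zero_pow ha.ne'] at hz1
    exact hU hz1.symm
  · rw [pow_mul, hx, hz1]
  · rw [pow_mul, hx, hz2, hW, div_mul_cancel₀ _ hV]

end

open MvPolynomial

lemma eval_PA (a b : ℕ) (p : Fin 2 → ℂ) :
    eval p (PA a b) = p 1 ^ a - (uP b).eval (p 0) := by
  simp [PA, uP]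

lemma eval_PB (a c : ℕ) (ε : ℂ) (p : Fin 2 → ℂ) :
    eval p (PB a c ε) = p 1 ^ a * (uP c).eval (p 0) - ε := by
  simp [PB, uP]

lemma pderiv_PA (a b : ℕ) (p : Fin 2 → ℂ) :
    eval p (pderiv 1 (PA a b)) = a * p 1 ^ (a - 1) := by
  have h0 : pderiv (1 : Fin 2) (X 0 : R2) = 0 := pderiv_X_of_ne (by decide)
  simp [PA, h0]

lemma pderiv_PB (a c : ℕ) (ε : ℂ) (p : Fin 2 → ℂ) :
    eval p (pderiv 1 (PB a c ε)) = a * p 1 ^ (a - 1) * (uP c).eval (p 0) := by
  have h0 : pderiv (1 : Fin 2) (X 0 : R2) = 0 := pderiv_X_of_ne (by decide)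
  simp [PB, uP, h0]
  ring

lemma exists_points {a1 a2 b c : ℕ} (ha1 : 0 < a1) (ha2 : 0 < a2) (hb : 0 < b) (hc : 0 < c) :
    ∃ ε : ℂ, ε ≠ 0 ∧ ∃ p : Fin (b * a2 + c * a1) → Fin 2 → ℂ, Function.Injective p ∧
      ∀ i, PA a1 b ∈ ptIdeal (p i) ∧ PB a2 c ε ∈ ptIdeal (p i) ∧
        PA a1 b ∉ ptIdeal (p i) ^ 2 ∧ PB a2 c ε ∉ ptIdeal (p i) ^ 2 := by
  classical
  set g := Nat.gcd a1 a2 with hg
  have hgpos : 0 < g := Nat.gcd_pos_of_pos_left _ ha1
  obtain ⟨a', ha'⟩ : g ∣ a1 := Nat.gcd_dvd_left _ _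
  obtain ⟨b', hb'⟩ : g ∣ a2 := Nat.gcd_dvd_right _ _
  have ha'pos : 0 < a' := Nat.pos_of_ne_zero (by rintro rfl; omega)
  have hb'pos : 0 < b' := Nat.pos_of_ne_zero (by rintro rfl; omega)
  have hcop : Nat.Coprime a' b' := by
    have h1 : g * Nat.gcd a' b' = g * 1 := by
      rw [← Nat.gcd_mul_left, ← ha', ← hb', mul_one]
    exact Nat.eq_of_mul_eq_mul_left hgpos h1
  set R := uP b ^ b' * uP c ^ a' with hR
  have hRdeg : R.natDegree = b * b' + c * a' := by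
    rw [hR, Polynomial.natDegree_mul (pow_ne_zero _ (uP_ne_zero b)) (pow_ne_zero _ (uP_ne_zero c)),
      Polynomial.natDegree_pow, Polynomial.natDegree_pow, natDegree_uP hb, natDegree_uP hc]
    ring
  have hRpos : 0 < R.natDegree := by
    rw [hRdeg]; positivity
  obtain ⟨c0, hc0, hcard⟩ := exists_value R hRpos
  obtain ⟨ε, hε⟩ := IsAlgClosed.exists_pow_nat_eq c0 ha'pos
  have hε0 : ε ≠ 0 := by
    rintro rfl
    rw [zero_pow ha'pos.ne'] at hε
    exact hc0 hε.symm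
  set S := (R - Polynomial.C c0).roots.toFinset with hS
  have hS1 : ∀ y ∈ S, (uP b).eval y ^ b' * (uP c).eval y ^ a' = c0 := by
    intro y hy
    rw [hS, Multiset.mem_toFinset] at hy
    have := Polynomial.isRoot_of_mem_roots hy
    rw [Polynomial.IsRoot.def, Polynomial.eval_sub, Polynomial.eval_C, hR, Polynomial.eval_mul,
      Polynomial.eval_pow, Polynomial.eval_pow] at this
    exact sub_eq_zero.mp this
  have hS2 : ∀ y ∈ S, (uP b).eval y ≠ 0 ∧ (uP c).eval y ≠ 0 := by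
    intro y hy
    have := hS1 y hy
    constructor
    · intro h
      rw [h, zero_pow hb'pos.ne', zero_mul] at this
      exact hc0 this.symm
    · intro h
      rw [h, zero_pow ha'pos.ne', mul_zero] at this
      exact hc0 this.symm
  have hx : ∀ y : S, ∃ x : ℂ, x ≠ 0 ∧ x ^ (g * a') = (uP b).eval y.1 ∧
      x ^ (g * b') * (uP c).eval y.1 = ε := by
    intro y
    exact exists_root hgpos ha'pos hcop (hS2 y.1 y.2).1 (hS2 y.1 y.2).2 hε0
      (by rw [hS1 y.1 y.2, hε])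
  choose x hx0 hx1 hx2 using hx
  rw [← ha'] at hx1
  rw [← hb'] at hx2
  set ζ := Complex.exp (2 * Real.pi * Complex.I / g) with hζ
  have hprim : IsPrimitiveRoot ζ g := Complex.isPrimitiveRoot_exp g hgpos.ne'
  have hζ0 : ζ ≠ 0 := Complex.exp_ne_zero _
  let f : S × Fin g → (Fin 2 → ℂ) := fun yk => ![yk.1.1, x yk.1 * ζ ^ (yk.2 : ℕ)]
  have hf : Function.Injective f := by
    rintro ⟨y, k⟩ ⟨y', k'⟩ h
    have h0 : y.1 = y'.1 := congrFun h 0
    have h0' : y = y' := Subtype.ext h0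
    subst h0'
    have h1 : x y * ζ ^ (k : ℕ) = x y * ζ ^ (k' : ℕ) := congrFun h 1
    have h2 : ζ ^ (k : ℕ) = ζ ^ (k' : ℕ) := mul_left_cancel₀ (hx0 y) h1
    have h3 : (k : ℕ) = k' := hprim.pow_inj k.2 k'.2 h2
    rw [Fin.ext h3]
  have hcardS : Fintype.card (S × Fin g) = b * a2 + c * a1 := by
    rw [Fintype.card_prod, Fintype.card_coe, Fintype.card_fin, hcard, hRdeg, ha', hb']
    ring
  let eqv := (Fintype.equivFinOfCardEq hcardS).symm
  refine ⟨ε, hε0, f ∘ eqv, hf.comp eqv.injective, ?_⟩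
  intro i
  obtain ⟨⟨y, k⟩, hyk⟩ : ∃ z, eqv i = z := ⟨_, rfl⟩
  have hfi : (f ∘ eqv) i = f (y, k) := by rw [Function.comp_apply, hyk]
  rw [hfi]
  have e0 : f (y, k) 0 = y.1 := rfl
  have e1 : f (y, k) 1 = x y * ζ ^ (k : ℕ) := rfl
  have hne1 : f (y, k) 1 ≠ 0 := by
    rw [e1]
    exact mul_ne_zero (hx0 y) (pow_ne_zero _ hζ0)
  have hz1 : (ζ ^ (k : ℕ)) ^ a1 = 1 := by
    rw [ha', ← pow_mul, ← mul_assoc, mul_comm (k : ℕ), mul_assoc, pow_mul, hprim.pow_eq_one,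
      one_pow]
  have hz2 : (ζ ^ (k : ℕ)) ^ a2 = 1 := by
    rw [hb', ← pow_mul, ← mul_assoc, mul_comm (k : ℕ), mul_assoc, pow_mul, hprim.pow_eq_one,
      one_pow]
  refine ⟨?_, ?_, ?_, ?_⟩
  · rw [mem_ptIdeal_iff, eval_PA, e0, e1, mul_pow, hz1, mul_one, hx1, sub_self]
  · rw [mem_ptIdeal_iff, eval_PB, e0, e1, mul_pow, hz2, mul_one, hx2, sub_self]
  · intro h
    have := pderiv_mem h 1
    rw [pderiv_PA] at this
    have h3 : (a1 : ℂ) ≠ 0 := by exact_mod_cast ha1.ne'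
    exact mul_ne_zero h3 (pow_ne_zero _ hne1) this
  · intro h
    have := pderiv_mem h 1
    rw [pderiv_PB, e0] at this
    have h3 : (a2 : ℂ) ≠ 0 := by exact_mod_cast ha2.ne'
    exact mul_ne_zero (mul_ne_zero h3 (pow_ne_zero _ hne1)) (hS2 y.1 y.2).2 this

end Pool.Agent.helper5.NBS
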