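import Pool.Agent.helper5.NBSPoints

/-! Existence of a special configuration of points. -/

set_option autoImplicit false

namespace Pool.Agent.helper5.NBS

lemma floor_pt (α γ T s X a0 b0 : ℤ) (h0 : α * b0 + γ * a0 = T) (hα : 0 < α) (hs : 0 < s) :
    ∃ a b : ℤ, α * b + γ * a = T ∧ s * a ≤ X ∧ X - s * α < s * a := by
  have hsα : 0 < s * α := mul_pos hs hα
  have hk1 : s * α * ((X - s * a0) / (s * α)) ≤ X - s * a0 := Int.mul_ediv_self_le hsα.ne'
  have hk2 : X - s * a0 < s * α * ((X - s * a0) / (s * α)) + s * α := Int.lt_mul_ediv_self_add hsα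
  generalize (X - s * a0) / (s * α) = k at hk1 hk2
  refine ⟨a0 + α * k, b0 - γ * k, by linear_combination h0, by linarith, by linarith⟩

lemma ceil_pt (α γ T s X a0 b0 : ℤ) (h0 : α * b0 + γ * a0 = T) (hα : 0 < α) (hs : 0 < s) :
    ∃ a b : ℤ, α * b + γ * a = T ∧ X ≤ s * a ∧ s * a < X + s * α := by
  obtain ⟨a, b, h1, h2, h3⟩ := floor_pt α γ (-T) s (-X) (-a0) (-b0) (by linear_combination -h0) hα hs
  exact ⟨-a, -b, by linear_combination -h1, by linarith, by linarith⟩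

lemma count_pts (e α γ q s d a1 b1 a2 b2 T : ℤ) (hα : 0 < α) (hs : 0 < s)
    (hβ : 0 < 2 * γ + e * α)
    (hd : α * (2 * γ + e * α) = s ^ 2 * d) (hsT : s * T = q * α * (2 * γ + e * α))
    (e1 : α * b1 + γ * a1 = T) (e2 : α * b2 + γ * a2 = T)
    (i1 : q * α ≤ s * a1) (i2 : s * a2 ≤ q * α) :
    q ^ 2 * d ≤ b1 * a2 + (b2 - e * a2) * a1 := by
  have f1 : α * s * b1 = q * α * (γ + e * α) - γ * (s * a1 - q * α) := by
    linear_combination s * e1 + hsT
  have f2 : α * s * (b2 - e * a2) = q * α * γ + (γ + e * α) * (q * α - s * a2) := by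
    linear_combination s * e2 + hsT
  have hX : 0 ≤ (s * a1 - q * α) * (q * α - s * a2) :=
    mul_nonneg (by linarith) (by linarith)
  have g : α * s ^ 2 * (b1 * a2 + (b2 - e * a2) * a1) =
      α * s ^ 2 * (q ^ 2 * d) + (2 * γ + e * α) * ((s * a1 - q * α) * (q * α - s * a2)) := by
    linear_combination (s * a2) * f1 + (s * a1) * f2 + α * q ^ 2 * hd
  have g2 : α * s ^ 2 * (q ^ 2 * d) ≤ α * s ^ 2 * (b1 * a2 + (b2 - e * a2) * a1) := by
    rw [g]
    have := mul_nonneg hβ.le hX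
    linarith
  exact le_of_mul_le_mul_left g2 (by positivity)

lemma side_ineq (e α γ q s T a b : ℤ) (hα : 0 < α) (hs : 0 < s)
    (hsT : s * T = q * α * (2 * γ + e * α))
    (e1 : α * b + γ * a = T)
    (h : (γ + e * α) * (s * a) < q * α * (2 * γ + e * α)) : e * a < b := by
  have h3 : s * ((γ + e * α) * a) < s * T := by
    rw [hsT]
    calc s * ((γ + e * α) * a) = (γ + e * α) * (s * a) := by ring
      _ < _ := h
  have h4 : (γ + e * α) * a < T := lt_of_mul_lt_mul_left h3 hs.le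
  have h5 : α * (e * a) < α * b := by
    have : α * b = T - γ * a := by linear_combination e1
    rw [this]
    have h6 : (γ + e * α) * a = γ * a + α * (e * a) := by ring
    linarith
  exact lt_of_mul_lt_mul_left h5 hα.le

lemma int_points (e α γ q s d : ℤ) (he : 0 ≤ e) (hα : 0 < α) (hγ : 0 < γ) (hcop : IsCoprime α γ)
    (hq : 0 < q) (hs : 0 < s) (hd : α * (2 * γ + e * α) = s ^ 2 * d)
    (hrange : s * (γ + e * α) ≤ q * γ) :
    ∃ a1 b1 a2 c2 : ℤ, 0 < a1 ∧ 0 < b1 ∧ 0 < a2 ∧ 0 < c2 ∧ e * a1 ≤ b1 ∧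
      α * b1 + γ * a1 = s * q * d ∧ α * (c2 + e * a2) + γ * a2 = s * q * d ∧
      s * a2 ≤ q * α ∧ q * α ≤ s * a1 ∧ q ^ 2 * d ≤ b1 * a2 + c2 * a1 := by
  obtain ⟨u, v, huv⟩ := hcop
  obtain ⟨T, hT⟩ : ∃ T, T = s * q * d := ⟨_, rfl⟩
  have hsT : s * T = q * α * (2 * γ + e * α) := by rw [hT]; linear_combination -q * hd
  have h0 : α * (u * T) + γ * (v * T) = T := by linear_combination T * huv
  have heα : 0 ≤ e * α := mul_nonneg he hα.le
  have hqα : 0 < q * α := mul_pos hq hα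
  have hsq : s ≤ q := by
    have h1 : s * γ ≤ q * γ := by
      have : 0 ≤ s * (e * α) := mul_nonneg hs.le heα
      linarith
    exact le_of_mul_le_mul_right h1 hγ
  obtain ⟨a2, b2, e2, i2, i2'⟩ := floor_pt α γ T s (q * α) _ _ h0 hα hs
  obtain ⟨a1, b1, e1, i1, i1'⟩ := ceil_pt α γ T s (q * α) _ _ h0 hα hs
  have p2 : 0 < a2 := by
    have h1 : s * α ≤ q * α := mul_le_mul_of_nonneg_right hsq hα.le
    exact pos_of_mul_pos_right (by linarith : 0 < s * a2) hs.le
  have p1 : 0 < a1 := pos_of_mul_pos_right (lt_of_lt_of_le hqα i1) hs.le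
  have hβ : 0 < γ + e * α := by linarith
  have r1 : e * a1 < b1 := by
    apply side_ineq e α γ q s T a1 b1 hα hs hsT e1
    have h1 : (γ + e * α) * (s * a1) < (γ + e * α) * (q * α + s * α) :=
      mul_lt_mul_of_pos_left i1' hβ
    have h2 : (γ + e * α) * (q * α + s * α) ≤ q * α * (2 * γ + e * α) := by
      have : α * (s * (γ + e * α)) ≤ α * (q * γ) := mul_le_mul_of_nonneg_left hrange hα.le
      linarith
    linarith
  have r2 : e * a2 < b2 := by
    apply side_ineq e α γ q s T a2 b2 hα hs hsT e2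
    have h1 : (γ + e * α) * (s * a2) ≤ (γ + e * α) * (q * α) :=
      mul_le_mul_of_nonneg_left i2 hβ.le
    have h2 : (γ + e * α) * (q * α) < q * α * (2 * γ + e * α) := by
      have : 0 < q * α * γ := mul_pos hqα hγ
      linarith
    linarith
  have hcount := count_pts e α γ q s d a1 b1 a2 b2 T hα hs (by linarith) hd hsT e1 e2 i1 i2
  have hb1 : 0 ≤ e * a1 := mul_nonneg he p1.le
  rw [hT] at e1 e2
  exact ⟨a1, b1, a2, b2 - e * a2, p1, by linarith, p2, by linarith, r1.le, e1,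
    by linear_combination e2, i2, i1, hcount⟩

theorem exists_special (e α γ q s r : ℕ) (hα : 0 < α) (hγ : 0 < γ) (hcop : Nat.Coprime α γ)
    (hq : 0 < q) (hs : 0 < s) (hqs : Nat.Coprime q s)
    (hsq : q ^ 2 * (α * (2 * γ + e * α)) = s ^ 2 * r)
    (hrange : s * (γ + e * α) ≤ q * γ) :
    ∃ p : Fin r → Fin 2 → ℂ, Function.Injective p ∧ ∀ F : R2, F ≠ 0 → ∀ m : Fin r → ℕ,
      (∀ i, F ∈ ptIdeal (p i) ^ m i) → s * ∑ i, m i ≤ q * ldeg e α γ F := by
  -- `r = q² d`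
  obtain ⟨d, hd⟩ : q ^ 2 ∣ r := by
    have h1 : q ^ 2 ∣ s ^ 2 * r := ⟨_, hsq.symm⟩
    exact (Nat.Coprime.pow 2 2 hqs).dvd_of_dvd_mul_left h1
  have hd2 : α * (2 * γ + e * α) = s ^ 2 * d := by
    have h1 : q ^ 2 * (α * (2 * γ + e * α)) = q ^ 2 * (s ^ 2 * d) := by
      rw [hsq, hd]; ring
    exact Nat.eq_of_mul_eq_mul_left (by positivity) h1
  obtain ⟨a1, b1, a2, c2, ha1, hb1, ha2, hc2, hea, hL1, hL2, hleft, hright, hN⟩ :=
    int_points e α γ q s d (by positivity) (by exact_mod_cast hα) (by exact_mod_cast hγ)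
      (by exact_mod_cast (Nat.isCoprime_iff_coprime.mpr hcop)) (by exact_mod_cast hq)
      (by exact_mod_cast hs) (by exact_mod_cast hd2) (by exact_mod_cast hrange)
  lift a1 to ℕ using ha1.le
  lift b1 to ℕ using hb1.le
  lift a2 to ℕ using ha2.le
  lift c2 to ℕ using hc2.le
  norm_cast at ha1 hb1 ha2 hc2 hea hL1 hL2 hleft hright hN
  obtain ⟨ε, hε, p, hp, hpts⟩ := exists_points ha1 ha2 hb1 hc2
  have hrN : r ≤ b1 * a2 + c2 * a1 := by rw [hd]; exact hN
  obtain ⟨dA1, dA2⟩ := deg_PA (e := e) ha1 hb1 hea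
  obtain ⟨dB1, dB2⟩ := deg_PB (e := e) (a := a2) hc2 ε
  refine ⟨fun i => p (Fin.castLE hrN i), fun i j hij => ?_, ?_⟩
  · exact Fin.castLE_injective hrN (hp hij)
  · intro F hF m hm
    refine nef_ineq e α γ q s r hα hs hq hsq (PA := PA a1 b1) (PB := PB a2 c2 ε)
      (irreducible_PA ha1) (irreducible_PB ha2 hε) (by rw [dA1]; exact ha1)
      (by rw [dB1]; exact ha2) ?_ ?_ (by rw [dB1]; exact hleft) (by rw [dA1]; exact hright)
      (fun i => p (Fin.castLE hrN i)) (fun i j hij => Fin.castLE_injective hrN (hp hij))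
      (fun i => (hpts _).1) (fun i => (hpts _).2.1) (fun i => (hpts _).2.2.1)
      (fun i => (hpts _).2.2.2) (ydeg F) F hF le_rfl m hm
    · rw [ldeg, dA1, dA2, hL1, hd]; ring
    · rw [ldeg, dB1, dB2, hL2, hd]; ring

end Pool.Agent.helper5.NBS
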