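import Pool.Agent.helper5.SplitMore

set_option autoImplicit false

/-!
The group of affine permutations of `ℚ` generated by `x ↦ x + 1` and `x ↦ 2 x`, and the
descending chain of the subgroups of translations by multiples of `2 ^ n`.
-/

namespace Pool.Agent.helper5.Split

open Monoid

/-- `x ↦ 2 x` -/
def dbl : Equiv.Perm ℚ := Equiv.mulLeft₀ (2 : ℚ) (by norm_num)

/-- the group generated by `x ↦ x + 1` and `x ↦ 2 x`; it is the Baumslag-Solitar group
`BS(1,2)` -/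
def AffGp : Subgroup (Equiv.Perm ℚ) :=
  Subgroup.closure {Equiv.addRight (1 : ℚ), dbl}

instance : Group.FG AffGp := by
  have : Finite ({Equiv.addRight (1 : ℚ), dbl} : Set (Equiv.Perm ℚ)) := by
    infer_instance
  exact Group.closure_finite_fg _

/-- the translation by `1` -/
def cc : AffGp := ⟨Equiv.addRight (1 : ℚ), Subgroup.subset_closure (by simp)⟩

/-- multiplication by `2` -/
def aa : AffGp := ⟨dbl, Subgroup.subset_closure (by simp)⟩

lemma cc_zpow_apply (k : ℤ) (x : ℚ) : ((cc ^ k : AffGp) : Equiv.Perm ℚ) x = x + k := by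
  induction k using Int.induction_on generalizing x with
  | zero => simp
  | succ n ih =>
    rw [zpow_add_one]
    have : ((cc ^ (n : ℤ) * cc : AffGp) : Equiv.Perm ℚ) x =
      ((cc ^ (n : ℤ) : AffGp) : Equiv.Perm ℚ) (x + 1) := rfl
    rw [this, ih]
    push_cast
    ring
  | pred n ih =>
    rw [zpow_sub_one]
    have : ((cc ^ (-(n : ℤ)) * cc⁻¹ : AffGp) : Equiv.Perm ℚ) x =
      ((cc ^ (-(n : ℤ)) : AffGp) : Equiv.Perm ℚ) (x - 1) := by
      have h1 : ((cc⁻¹ : AffGp) : Equiv.Perm ℚ) x = x - 1 := by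
        change (Equiv.addRight (1 : ℚ)).symm x = x - 1
        simp [sub_eq_add_neg]
      rw [← h1]
      rfl
    rw [this, ih]
    push_cast
    ring

lemma aa_pow_apply (n : ℕ) (x : ℚ) : ((aa ^ n : AffGp) : Equiv.Perm ℚ) x = 2 ^ n * x := by
  induction n generalizing x with
  | zero => simp
  | succ n ih =>
    rw [pow_succ]
    have : ((aa ^ n * aa : AffGp) : Equiv.Perm ℚ) x =
      ((aa ^ n : AffGp) : Equiv.Perm ℚ) (2 * x) := rfl
    rw [this, ih]
    ring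

lemma aa_conj (n : ℕ) (k : ℤ) : aa ^ n * cc ^ k * (aa ^ n)⁻¹ = cc ^ (2 ^ n * k) := by
  rw [mul_inv_eq_iff_eq_mul]
  apply Subtype.ext
  apply Equiv.ext
  intro x
  have h1 : ((aa ^ n * cc ^ k : AffGp) : Equiv.Perm ℚ) x =
    ((aa ^ n : AffGp) : Equiv.Perm ℚ) (((cc ^ k : AffGp) : Equiv.Perm ℚ) x) := rfl
  have h2 : ((cc ^ (2 ^ n * k) * aa ^ n : AffGp) : Equiv.Perm ℚ) x =
    ((cc ^ (2 ^ n * k) : AffGp) : Equiv.Perm ℚ) (((aa ^ n : AffGp) : Equiv.Perm ℚ) x) := rfl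
  rw [h1, h2, cc_zpow_apply, aa_pow_apply, aa_pow_apply, cc_zpow_apply]
  push_cast
  ring

lemma cc_zpow_injective : Function.Injective (fun k : ℤ => cc ^ k) := by
  intro k l h
  have h1 := cc_zpow_apply k 0
  have h2 := cc_zpow_apply l 0
  simp only at h
  rw [h, h2] at h1
  simp only [zero_add, Int.cast_inj] at h1
  exact h1.symm

/-- a cyclic group is slender -/
lemma slender_of_isCyclic {S : Type*} [Group S] [IsCyclic S] : Slender S := by
  intro T
  obtain ⟨g, hg⟩ := IsCyclic.exists_generator (α := T)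
  have : T = Subgroup.zpowers (g : S) := by
    apply le_antisymm
    · intro x hx
      obtain ⟨n, hn⟩ := hg ⟨x, hx⟩
      refine ⟨n, ?_⟩
      have := congrArg Subtype.val hn
      simpa using this
    · rw [Subgroup.zpowers_le]
      exact g.2
  rw [this]
  exact ⟨{(g : S)}, by simp [Subgroup.zpowers_eq_closure]⟩

/-- the translations in `AffGp` by multiples of `2 ^ n` -/
def Tn (n : ℕ) : Subgroup AffGp := Subgroup.zpowers (cc ^ (2 ^ n : ℤ))

lemma Tn_zero : Tn 0 = Subgroup.zpowers cc := by simp [Tn]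

lemma mem_Tn {n : ℕ} {x : AffGp} : x ∈ Tn n ↔ ∃ k : ℤ, x = cc ^ (2 ^ n * k) := by
  rw [Tn, Subgroup.mem_zpowers_iff]
  constructor
  · rintro ⟨k, rfl⟩
    exact ⟨k, (zpow_mul _ _ _).symm⟩
  · rintro ⟨k, rfl⟩
    exact ⟨k, (zpow_mul _ _ _).symm⟩

lemma Tn_lt (n : ℕ) : Tn (n + 1) < Tn n := by
  rw [SetLike.lt_iff_le_and_exists]
  refine ⟨?_, cc ^ (2 ^ n : ℤ), ?_, ?_⟩
  · intro x hx
    obtain ⟨k, rfl⟩ := mem_Tn.1 hx
    exact mem_Tn.2 ⟨2 * k, by ring_nf⟩
  · exact mem_Tn.2 ⟨1, by simp⟩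
  · intro h
    obtain ⟨k, hk⟩ := mem_Tn.1 h
    have := cc_zpow_injective hk
    rw [pow_succ, mul_assoc] at this
    have h2 : (1 : ℤ) = 2 * k := by
      have h3 : (2 ^ n : ℤ) * 1 = 2 ^ n * (2 * k) := by rw [mul_one]; exact this
      exact mul_left_cancel₀ (by positivity) h3
    omega

lemma Tn_conj (n : ℕ) : (Tn 0).map (MulAut.conj (aa ^ n)).toMonoidHom = Tn n := by
  ext x
  constructor
  · rintro ⟨y, hy, rfl⟩
    obtain ⟨k, rfl⟩ := mem_Tn.1 hy
    refine mem_Tn.2 ⟨k, ?_⟩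
    change aa ^ n * cc ^ (2 ^ 0 * k) * (aa ^ n)⁻¹ = _
    rw [pow_zero, one_mul, aa_conj]
  · intro hx
    obtain ⟨k, rfl⟩ := mem_Tn.1 hx
    refine ⟨cc ^ k, mem_Tn.2 ⟨k, by simp⟩, ?_⟩
    change aa ^ n * cc ^ k * (aa ^ n)⁻¹ = _
    rw [aa_conj]

/-- the intersection of the chain is trivial -/
lemma eq_one_of_mem_Tn {x : AffGp} (hx : ∀ n, x ∈ Tn n) : x = 1 := by
  obtain ⟨k, hk⟩ := mem_Tn.1 (hx 0)
  rw [pow_zero, one_mul] at hk
  have h1 : ∀ n : ℕ, (2 ^ n : ℤ) ∣ k := by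
    intro n
    obtain ⟨l, hl⟩ := mem_Tn.1 (hx n)
    rw [hk] at hl
    exact ⟨l, cc_zpow_injective hl⟩
  have h2 : k = 0 := by
    by_contra hne
    have h3 := Int.natAbs_dvd_natAbs.2 (h1 (k.natAbs))
    have h4 := Nat.le_of_dvd (Int.natAbs_pos.2 hne) h3
    have h5 : (2 ^ k.natAbs : ℤ).natAbs = 2 ^ k.natAbs := by
      rw [Int.natAbs_pow]
      rfl
    rw [h5] at h4
    exact absurd h4 (not_le_of_gt (Nat.lt_two_pow_self))
  rw [hk, h2, zpow_zero]

lemma Tn_ne_top (n : ℕ) : Tn n ≠ ⊤ := by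
  intro h
  have h1 : aa ∈ Tn n := by rw [h]; trivial
  obtain ⟨k, hk⟩ := mem_Tn.1 h1
  have h2 := aa_pow_apply 1 0
  rw [pow_one, hk, cc_zpow_apply] at h2
  have h3 := aa_pow_apply 1 1
  rw [pow_one, hk, cc_zpow_apply] at h3
  linarith

end Pool.Agent.helper5.Split
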