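import Pool.Agent.helper5.SplitDefs

set_option autoImplicit false

/-!
HNN extensions: if `K`, `L` are normal subgroups of `G` with trivial intersection and `L` contains
an involution, then `G` is not an HNN extension over a proper subgroup of `K`.
-/

namespace Pool.Agent.helper5.Split

open HNNExtension HNNExtension.NormalWord

section HNN

variable {H : Type*} [Group H] {A B : Subgroup H} {φ : A ≃* B}

lemma exists_reducedWord (g : HNNExtension H A B φ) :
    ∃ w : ReducedWord H A B, w.prod φ = g := by
  classical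
  obtain ⟨d⟩ := TransversalPair.nonempty H A B
  exact ⟨(NormalWord.equiv φ d g).toReducedWord, (NormalWord.equiv φ d).symm_apply_apply g⟩

lemma prod_mk (h : H) (L : List (ℤˣ × H)) (hL) :
    (ReducedWord.prod φ ⟨h, L, hL⟩ : HNNExtension H A B φ) =
      of h * (L.map (fun x => t ^ (x.1 : ℤ) * of x.2)).prod := rfl

lemma isChain_last {L : List (ℤˣ × H)} {u : ℤˣ} {h h' : H}
    (hL : (L ++ [(u, h)]).IsChain (fun a b => a.2 ∈ toSubgroup A B a.1 → a.1 = b.1)) :
    (L ++ [(u, h')]).IsChain (fun a b => a.2 ∈ toSubgroup A B a.1 → a.1 = b.1) := by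
  rw [List.isChain_append] at hL ⊢
  refine ⟨hL.1, by simp, ?_⟩
  intro a ha b hb hab
  have := hL.2.2 a ha (u, h) (by simp) hab
  simp only [List.head?_cons, Option.mem_def, Option.some.injEq] at hb
  subst hb
  exact this

/-- If `k` is not in the base and `x k = k y` with `x`, `y` in the base then `x` is conjugate in the
base to an element of one of the two associated subgroups. -/
theorem conj_mem_of_mul_eq {x y : H} {k : HNNExtension H A B φ}
    (hk : k ∉ (of : H →* HNNExtension H A B φ).range) (h : of x * k = k * of y) :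
    ∃ h : H, h⁻¹ * x * h ∈ A ∨ h⁻¹ * x * h ∈ B := by
  obtain ⟨⟨h₀, L, hL⟩, rfl⟩ := exists_reducedWord k
  rcases List.eq_nil_or_concat' L with rfl | ⟨M, ⟨u, z⟩, rfl⟩
  · exfalso
    apply hk
    exact ⟨h₀, by simp [prod_mk]⟩
  · let w₁ : ReducedWord H A B := ⟨x * h₀, M ++ [(u, z)], hL⟩
    let w₂ : ReducedWord H A B := ⟨h₀, M ++ [(u, z * y)], isChain_last hL⟩
    have hprod : w₂.prod φ = w₁.prod φ := by
      have h1 : w₁.prod φ = of x * ReducedWord.prod φ ⟨h₀, M ++ [(u, z)], hL⟩ := by
        simp [w₁, prod_mk, mul_assoc]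
      have h2 : w₂.prod φ = ReducedWord.prod φ ⟨h₀, M ++ [(u, z)], hL⟩ * of y := by
        simp [w₂, prod_mk, mul_assoc]
      rw [h1, h2, h]
    have := (ReducedWord.map_fst_eq_and_of_prod_eq φ hprod).2
    have hne : (M ++ [(u, z * y)]) ≠ [] := by simp
    obtain ⟨v, hv⟩ : ∃ v, v ∈ Option.map Prod.fst w₂.toList.head? := by
      refine ⟨((M ++ [(u, z * y)]).head hne).1, ?_⟩
      simp only [w₂, Option.mem_def]
      rw [List.head?_eq_some_head hne]
      rfl
    have h3 := this v hv
    have h4 : h₀⁻¹ * x * h₀ ∈ toSubgroup A B (-v) := by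
      have : w₂.head⁻¹ * w₁.head = h₀⁻¹ * x * h₀ := by simp [w₁, w₂, mul_assoc]
      rwa [this] at h3
    refine ⟨h₀, ?_⟩
    rcases Int.units_eq_one_or v with rfl | rfl
    · right
      simpa using h4
    · left
      simpa using h4

/-- `t` does not conjugate an element of the base outside of `A` into the base. -/
theorem t_conj_not_mem {k : H} (hk : k ∉ A) :
    (t * of k * t⁻¹ : HNNExtension H A B φ) ∉ (of : H →* HNNExtension H A B φ).range := by
  intro h
  let w : ReducedWord H A B := ⟨1, [(1, k), (-1, 1)], by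
    simp only [List.isChain_cons_cons, List.isChain_singleton, and_true]
    intro hk'
    exact absurd hk' hk⟩
  have h1 : w.prod φ = t * of k * t⁻¹ := by
    simp [w, prod_mk]
  have := ReducedWord.toList_eq_nil_of_mem_of_range φ w (by rw [h1]; exact h)
  simp [w] at this

lemma t_conj_mem {u : ℤˣ} {z : H} (hz : z ∈ toSubgroup A B u) :
    ∃ z' : H, (t ^ (u : ℤ) * of z * t ^ (-(u : ℤ)) : HNNExtension H A B φ) = of z' := by
  rcases Int.units_eq_one_or u with rfl | rfl
  · refine ⟨φ ⟨z, hz⟩, ?_⟩
    rw [equiv_eq_conj]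
    simp
  · refine ⟨φ.symm ⟨z, hz⟩, ?_⟩
    rw [equiv_symm_eq_conj]
    simp

/-- An element with trivial square is conjugate into the base. -/
theorem conj_mem_of_sq_eq_one {x : HNNExtension H A B φ} (hx : x * x = 1) :
    ∃ (g : HNNExtension H A B φ) (h : H), g⁻¹ * x * g = of h := by
  obtain ⟨w, hw⟩ := exists_reducedWord x
  induction hn : w.toList.length using Nat.strong_induction_on generalizing w x with
  | _ n ih =>
    obtain ⟨h₀, L, hL⟩ := w
    simp only at hn
    subst hw
    rcases List.eq_nil_or_concat' L with rfl | ⟨M, ⟨u, z⟩, rfl⟩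
    · exact ⟨1, h₀, by simp [prod_mk]⟩
    · have hN := isChain_last (h' := z * h₀) hL
      -- the conjugate with head `1`
      have hconj : (of h₀)⁻¹ * ReducedWord.prod φ ⟨h₀, M ++ [(u, z)], hL⟩ * of h₀ =
          ReducedWord.prod φ ⟨1, M ++ [(u, z * h₀)], hN⟩ := by
        simp [prod_mk, mul_assoc]
      have hsq : ReducedWord.prod φ ⟨1, M ++ [(u, z * h₀)], hN⟩ *
          ReducedWord.prod φ ⟨1, M ++ [(u, z * h₀)], hN⟩ = 1 := by
        rw [← hconj]
        calc (of h₀)⁻¹ * ReducedWord.prod φ ⟨h₀, M ++ [(u, z)], hL⟩ * of h₀ *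
              ((of h₀)⁻¹ * ReducedWord.prod φ ⟨h₀, M ++ [(u, z)], hL⟩ * of h₀)
            = (of h₀)⁻¹ * (ReducedWord.prod φ ⟨h₀, M ++ [(u, z)], hL⟩ *
              ReducedWord.prod φ ⟨h₀, M ++ [(u, z)], hL⟩) * of h₀ := by group
          _ = 1 := by rw [hx]; group
      rcases M with _ | ⟨⟨u₁, h₁⟩, Q⟩
      · -- one letter: the square is reduced
        exfalso
        let w' : ReducedWord H A B := ⟨1, [(u, z * h₀), (u, z * h₀)], by simp⟩
        have : w'.prod φ = 1 := by
          rw [← hsq]
          simp [w', prod_mk, mul_assoc]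
        have := ReducedWord.toList_eq_nil_of_mem_of_range φ w' (by rw [this]; exact one_mem _)
        simp [w'] at this
      · by_cases hR : z * h₀ ∈ toSubgroup A B u ∧ u ≠ u₁
        · obtain ⟨hz, hu⟩ := hR
          have hu1 : u₁ = -u := by
            rcases Int.units_eq_one_or u with rfl | rfl <;>
            rcases Int.units_eq_one_or u₁ with rfl | rfl <;> simp_all
          subst hu1
          obtain ⟨z', hz'⟩ := t_conj_mem (φ := φ) hz
          have hQ : Q.IsChain (fun a b => a.2 ∈ toSubgroup A B a.1 → a.1 = b.1) := by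
            have := List.isChain_append.1 hN
            exact (List.isChain_cons.1 this.1).2
          set s : HNNExtension H A B φ := t ^ (u : ℤ) * of (z * h₀) with hs
          have hconj2 : s * ReducedWord.prod φ ⟨1, ((-u, h₁) :: Q) ++ [(u, z * h₀)], hN⟩ * s⁻¹ =
              ReducedWord.prod φ ⟨z' * h₁, Q, hQ⟩ := by
            simp only [prod_mk, List.cons_append, List.map_cons, List.map_append, List.map_nil,
              List.prod_cons, List.prod_append, List.prod_nil, mul_one, map_one, one_mul]
            rw [← hs]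
            have h5 : (of (z' * h₁) : HNNExtension H A B φ) = s * t ^ (-(u : ℤ)) * of h₁ := by
              rw [map_mul, ← hz', hs]
            rw [h5]
            simp only [Units.val_neg]
            group
          obtain ⟨g, h, hgh⟩ := ih Q.length (by simp at hn; omega)
            (x := ReducedWord.prod φ ⟨z' * h₁, Q, hQ⟩)
            (by
              rw [← hconj2]
              calc _ = s * (ReducedWord.prod φ ⟨1, ((-u, h₁) :: Q) ++ [(u, z * h₀)], hN⟩ *
                    ReducedWord.prod φ ⟨1, ((-u, h₁) :: Q) ++ [(u, z * h₀)], hN⟩) * s⁻¹ := by group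
                _ = 1 := by rw [hsq]; group) ⟨z' * h₁, Q, hQ⟩ rfl rfl
          refine ⟨of h₀ * s⁻¹ * g, h, ?_⟩
          rw [← hgh, ← hconj2, ← hconj]
          group
        · exfalso
          have hch : (((u₁, h₁) :: Q ++ [(u, z * h₀)]) ++ ((u₁, h₁) :: Q ++ [(u, z * h₀)])).IsChain
              (fun a b => a.2 ∈ toSubgroup A B a.1 → a.1 = b.1) := by
            rw [List.isChain_append]
            refine ⟨hN, hN, ?_⟩
            intro a ha b hb hab
            have ha' : a = (u, z * h₀) := by
              rw [List.getLast?_append] at ha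
              simpa using ha.symm
            have hb' : b = (u₁, h₁) := by simpa using hb.symm
            subst ha' hb'
            by_contra hne
            exact hR ⟨hab, hne⟩
          let w' : ReducedWord H A B := ⟨1, _, hch⟩
          have : w'.prod φ = 1 := by
            rw [← hsq]
            simp [w', prod_mk, mul_assoc]
          have := ReducedWord.toList_eq_nil_of_mem_of_range φ w' (by rw [this]; exact one_mem _)
          simp [w'] at this

end HNN

/-- **Main non-splitting result for HNN extensions.** Let `K`, `L` be normal subgroups of `G` with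
trivial intersection and suppose that `L` contains an element of order two. Then `G` is not an HNN
extension over a proper subgroup of `K`. -/
theorem not_isHNN_of_lt {G : Type*} [Group G] {K L : Subgroup G} (hK : K.Normal) (hL : L.Normal)
    (hKL : Disjoint K L) {x : G} (hxL : x ∈ L) (hx1 : x ≠ 1) (hx2 : x * x = 1)
    {H C : Subgroup G} (hC : C < K) : ¬ IsHNN H C := by
  rintro ⟨hCH, D, φ, e, he⟩
  have hinv : ∀ h : H, e.symm h = of h := by
    intro h
    rw [← he h, MulEquiv.symm_apply_apply]
  have hmem : ∀ g : G, g ∈ H ↔ e.symm g ∈ (of : H →* HNNExtension H _ D φ).range := by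
    intro g
    constructor
    · intro hg
      exact ⟨⟨g, hg⟩, (hinv ⟨g, hg⟩).symm⟩
    · rintro ⟨h, hh⟩
      have : g = h := by
        rw [← he h, hh, MulEquiv.apply_symm_apply]
      rw [this]
      exact h.2
  have hφ : ∀ c : C.subgroupOf H, ((φ c : H) : G) = e t * c * (e t)⁻¹ := by
    intro c
    rw [← he (φ c), equiv_eq_conj]
    simp [he]
  have hKH : ¬ K ≤ H := by
    intro h
    obtain ⟨k, hk, hkC⟩ := SetLike.exists_of_lt hC
    have h1 : (⟨k, h hk⟩ : H) ∉ C.subgroupOf H := by
      simpa [Subgroup.mem_subgroupOf] using hkC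
    apply t_conj_not_mem (φ := φ) h1
    have h2 : e t * k * (e t)⁻¹ ∈ H := h (hK.conj_mem k hk _)
    have h3 := (hmem _).1 h2
    have h4 : e.symm (e t * k * (e t)⁻¹) = t * of (⟨k, h hk⟩ : H) * t⁻¹ := by
      rw [map_mul, map_mul, map_inv, MulEquiv.symm_apply_apply, ← hinv]
    rwa [h4] at h3
  obtain ⟨g, h, hg⟩ := conj_mem_of_sq_eq_one (x := e.symm x) (φ := φ)
    (by rw [← map_mul, hx2, map_one])
  have hy : (e g)⁻¹ * x * e g = h := by
    have := congrArg e hg
    simpa [he] using this
  have hyL : (h : G) ∈ L := by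
    rw [← hy]
    have := hL.conj_mem x hxL (e g)⁻¹
    simpa using this
  obtain ⟨k, hk, hkH⟩ := SetLike.not_le_iff_exists.1 hKH
  have hcomm : (h : G) * k = k * h :=
    (Subgroup.commute_of_normal_of_disjoint _ _ hK hL hKL k _ hk hyL).symm
  obtain ⟨a, ha⟩ := conj_mem_of_mul_eq (φ := φ) (x := h) (y := h) (k := e.symm k)
    (fun hh => hkH ((hmem k).2 hh)) (by rw [← hinv, ← map_mul, hcomm, map_mul])
  have hcK : ((a⁻¹ * h * a : H) : G) ∈ K := by
    rcases ha with ha | ha
    · exact hC.le (by simpa [Subgroup.mem_subgroupOf] using ha)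
    · have h5 := hφ (φ.symm ⟨_, ha⟩)
      rw [MulEquiv.apply_symm_apply] at h5
      simp only at h5
      rw [h5]
      apply hK.conj_mem
      exact hC.le (Subgroup.mem_subgroupOf.1 (φ.symm ⟨_, ha⟩).2)
  have hcL : ((a⁻¹ * h * a : H) : G) ∈ L := by
    have := hL.conj_mem _ hyL (a : G)⁻¹
    simpa using this
  have h1 : ((a⁻¹ * h * a : H) : G) = 1 := Subgroup.disjoint_def.1 hKL hcK hcL
  have h2 : (h : G) = 1 := by
    have : (h : G) = a * ((a⁻¹ * h * a : H) : G) * (a : G)⁻¹ := by
      push_cast
      group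
    rw [this, h1]
    group
  apply hx1
  have : x = e g * ((e g)⁻¹ * x * e g) * (e g)⁻¹ := by group
  rw [this, hy, h2]
  group

end Pool.Agent.helper5.Split
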