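import Pool.Agent.helper5.SplitAff
import Pool.Agent.helper5.SplitHNN

set_option autoImplicit false

/-!
The group `AffGp` is an HNN extension over `Tn n` for each `n` but is not an HNN extension over the
trivial group.
-/

namespace Pool.Agent.helper5.Split

open HNNExtension HNNExtension.NormalWord

/-- each element of `AffGp` is an affine map -/
lemma exists_affine (σ : AffGp) : ∃ α β : ℚ, α ≠ 0 ∧ ∀ x, (σ : Equiv.Perm ℚ) x = α * x + β := by
  obtain ⟨σ, hσ⟩ := σ
  simp only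
  induction hσ using Subgroup.closure_induction with
  | mem x hx =>
    rcases hx with rfl | rfl
    · exact ⟨1, 1, one_ne_zero, fun x => by simp⟩
    · exact ⟨2, 0, two_ne_zero, fun x => by simp [dbl]⟩
  | one => exact ⟨1, 0, one_ne_zero, fun x => by simp⟩
  | mul f g _ _ hf hg =>
    obtain ⟨a, b, ha, hf⟩ := hf
    obtain ⟨c, d, hc, hg⟩ := hg
    refine ⟨a * c, a * d + b, mul_ne_zero ha hc, fun x => ?_⟩
    rw [Equiv.Perm.mul_apply, hg, hf]
    ring
  | inv f _ hf =>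
    obtain ⟨a, b, ha, hf⟩ := hf
    refine ⟨a⁻¹, -(a⁻¹ * b), inv_ne_zero ha, fun x => ?_⟩
    rw [Equiv.Perm.inv_eq_iff_eq, hf]
    field_simp
    ring

lemma commutator_translation (σ τ : AffGp) :
    ∃ β : ℚ, ∀ x, ((σ * τ * σ⁻¹ * τ⁻¹ : AffGp) : Equiv.Perm ℚ) x = x + β := by
  obtain ⟨a, b, ha, hσ⟩ := exists_affine σ
  obtain ⟨c, d, hc, hτ⟩ := exists_affine τ
  have hσi : ∀ x, ((σ⁻¹ : AffGp) : Equiv.Perm ℚ) x = a⁻¹ * (x - b) := by
    intro x
    change ((σ : Equiv.Perm ℚ)⁻¹) x = _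
    rw [Equiv.Perm.inv_eq_iff_eq, hσ]
    field_simp
    ring
  have hτi : ∀ x, ((τ⁻¹ : AffGp) : Equiv.Perm ℚ) x = c⁻¹ * (x - d) := by
    intro x
    change ((τ : Equiv.Perm ℚ)⁻¹) x = _
    rw [Equiv.Perm.inv_eq_iff_eq, hτ]
    field_simp
    ring
  refine ⟨a * d + b - c * b - d, fun x => ?_⟩
  have : ((σ * τ * σ⁻¹ * τ⁻¹ : AffGp) : Equiv.Perm ℚ) x =
    (σ : Equiv.Perm ℚ) ((τ : Equiv.Perm ℚ) (((σ⁻¹ : AffGp) : Equiv.Perm ℚ)
      (((τ⁻¹ : AffGp) : Equiv.Perm ℚ) x))) := rfl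
  rw [this, hτi, hσi, hτ, hσ]
  field_simp
  ring

/-- `AffGp` is metabelian -/
lemma affGp_metabelian (σ τ σ' τ' : AffGp) :
    (σ * τ * σ⁻¹ * τ⁻¹) * (σ' * τ' * σ'⁻¹ * τ'⁻¹) =
      (σ' * τ' * σ'⁻¹ * τ'⁻¹) * (σ * τ * σ⁻¹ * τ⁻¹) := by
  obtain ⟨b, hb⟩ := commutator_translation σ τ
  obtain ⟨b', hb'⟩ := commutator_translation σ' τ'
  apply Subtype.ext
  apply Equiv.ext
  intro x
  change ((σ * τ * σ⁻¹ * τ⁻¹ : AffGp) : Equiv.Perm ℚ)
      (((σ' * τ' * σ'⁻¹ * τ'⁻¹ : AffGp) : Equiv.Perm ℚ) x) =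
    ((σ' * τ' * σ'⁻¹ * τ'⁻¹ : AffGp) : Equiv.Perm ℚ)
      (((σ * τ * σ⁻¹ * τ⁻¹ : AffGp) : Equiv.Perm ℚ) x)
  rw [hb, hb', hb, hb']
  ring

lemma affGp_noncomm : aa * cc ≠ cc * aa := by
  intro h
  have h1 := aa_conj 1 1
  simp only [pow_one, zpow_one, mul_one] at h1
  rw [h] at h1
  have h2 : cc ^ (1 : ℤ) = cc ^ (2 : ℤ) := by
    rw [← h1]
    group
  have := cc_zpow_injective h2
  norm_num at this

section Free

variable {H : Type*} [Group H] {A B : Subgroup H} {φ : A ≃* B}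

/-- In an HNN extension over the trivial group with nontrivial base the metabelian law fails. -/
lemma not_metabelian (hA : A = ⊥) {h : H} (hh : h ≠ 1) :
    ¬ ∀ σ τ σ' τ' : HNNExtension H A B φ, (σ * τ * σ⁻¹ * τ⁻¹) * (σ' * τ' * σ'⁻¹ * τ'⁻¹) =
      (σ' * τ' * σ'⁻¹ * τ'⁻¹) * (σ * τ * σ⁻¹ * τ⁻¹) := by
  intro hm
  have hB : ∀ b ∈ B, b = 1 := by
    intro b hb
    have h1 : ((φ.symm ⟨b, hb⟩ : A) : H) = 1 := by
      have h3 : ∀ x ∈ A, x = 1 := by
        intro x hx
        rw [hA] at hx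
        exact hx
      exact h3 _ (φ.symm ⟨b, hb⟩).2
    have h2 : φ.symm ⟨b, hb⟩ = 1 := Subtype.ext h1
    have h4 : (⟨b, hb⟩ : B) = 1 := by
      have := congrArg φ h2
      rwa [MulEquiv.apply_symm_apply, map_one] at this
    exact congrArg Subtype.val h4
  have hnot : ∀ u : ℤˣ, ∀ x : H, x ≠ 1 → x ∉ toSubgroup A B u := by
    intro u x hx hxu
    rcases Int.units_eq_one_or u with rfl | rfl
    · apply hx
      have h5 : x ∈ A := hxu
      rw [hA] at h5
      exact h5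
    · exact hx (hB x hxu)
  have hi : h⁻¹ ≠ 1 := inv_ne_one.2 hh
  let w₁ : ReducedWord H A B :=
    ⟨h, [(1, h⁻¹), (-1, h), (1, 1), (1, h⁻¹), (-1, 1), (-1, 1)], by
      simp only [List.isChain_cons_cons, List.isChain_singleton, and_true]
      exact ⟨fun h' => absurd h' (hnot _ _ hi), fun h' => absurd h' (hnot _ _ hh), fun _ => trivial,
        fun h' => absurd h' (hnot _ _ hi), fun _ => trivial⟩⟩
  let w₂ : ReducedWord H A B :=
    ⟨h, [(1, 1), (1, h⁻¹), (-1, 1), (-1, h), (1, h⁻¹), (-1, 1)], by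
      simp only [List.isChain_cons_cons, List.isChain_singleton, and_true]
      exact ⟨fun _ => trivial, fun h' => absurd h' (hnot _ _ hi), fun _ => trivial,
        fun h' => absurd h' (hnot _ _ hh), fun h' => absurd h' (hnot _ _ hi)⟩⟩
  have h1 : w₁.prod φ = w₂.prod φ := by
    have := hm (of h) t (of h) (t * t)
    calc w₁.prod φ = (of h * t * (of h)⁻¹ * t⁻¹) * (of h * (t * t) * (of h)⁻¹ * (t * t)⁻¹) := by
          simp [w₁, prod_mk, mul_assoc]
      _ = (of h * (t * t) * (of h)⁻¹ * (t * t)⁻¹) * (of h * t * (of h)⁻¹ * t⁻¹) := this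
      _ = w₂.prod φ := by
          simp [w₂, prod_mk, mul_assoc]
  have h2 := (ReducedWord.map_fst_eq_and_of_prod_eq φ h1).1
  simp [w₁, w₂] at h2

end Free

/-- `AffGp` is not an HNN extension over the trivial group. -/
theorem affGp_not_isHNN_bot (H : Subgroup AffGp) : ¬ IsHNN H ⊥ := by
  rintro ⟨-, D, φ, e, he⟩
  by_cases hH : ∃ h : H, h ≠ 1
  · obtain ⟨h, hh⟩ := hH
    refine not_metabelian (φ := φ) (by simp) hh ?_
    intro σ τ σ' τ'
    apply e.injective
    simp only [map_mul, map_inv]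
    exact affGp_metabelian _ _ _ _
  · push Not at hH
    -- the base is trivial: the group is generated by `t`
    have h1 : ∀ x : HNNExtension H _ D φ, x ∈ Subgroup.zpowers (t : HNNExtension H _ D φ) := by
      intro x
      induction x using HNNExtension.induction_on with
      | of h =>
        rw [hH h, map_one]
        exact one_mem _
      | t => exact Subgroup.mem_zpowers _
      | mul x y hx hy => exact mul_mem hx hy
      | inv x hx => exact inv_mem hx
    obtain ⟨m, hm⟩ := h1 (e.symm aa)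
    obtain ⟨n, hn⟩ := h1 (e.symm cc)
    apply affGp_noncomm
    apply e.symm.injective
    rw [map_mul, map_mul, ← hm, ← hn]
    simp only
    rw [← zpow_add, ← zpow_add, add_comm]

section Ascending

variable {H : Type*} [Group H] {A B : Subgroup H} {φ : A ≃* B}

lemma t_pow_mul_of (hA : A = ⊤) (n : ℕ) (x : H) :
    ∃ y : H, (t ^ n * of x : HNNExtension H A B φ) = of y * t ^ n := by
  induction n generalizing x with
  | zero => exact ⟨x, by simp⟩
  | succ n ih =>
    have hx : x ∈ A := by rw [hA]; trivial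
    have h1 : (t * of x : HNNExtension H A B φ) = of (φ ⟨x, hx⟩ : H) * t :=
      t_mul_of (φ := φ) ⟨x, hx⟩
    obtain ⟨y, hy⟩ := ih (φ ⟨x, hx⟩ : H)
    refine ⟨y, ?_⟩
    rw [pow_succ, mul_assoc, h1, ← mul_assoc, hy, mul_assoc]

/-- normal form in an ascending HNN extension -/
lemma ascending_normal_form (hA : A = ⊤) (g : HNNExtension H A B φ) :
    ∃ (p q : ℕ) (h : H), g = (t ^ p)⁻¹ * of h * t ^ q := by
  -- the set of these elements is closed under left multiplication by generators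
  have hof : ∀ (x : H) (g : HNNExtension H A B φ),
      (∃ (p q : ℕ) (h : H), g = (t ^ p)⁻¹ * of h * t ^ q) →
      (∃ (p q : ℕ) (h : H), of x * g = (t ^ p)⁻¹ * of h * t ^ q) := by
    rintro x g ⟨p, q, h, rfl⟩
    obtain ⟨y, hy⟩ := t_pow_mul_of (φ := φ) hA p x
    refine ⟨p, q, y * h, ?_⟩
    have h1 : (of x : HNNExtension H A B φ) * (t ^ p)⁻¹ = (t ^ p)⁻¹ * of y := by
      rw [mul_inv_eq_iff_eq_mul, mul_assoc, ← hy]
      group
    rw [← mul_assoc, ← mul_assoc, h1, map_mul]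
    group
  have ht : ∀ (g : HNNExtension H A B φ),
      (∃ (p q : ℕ) (h : H), g = (t ^ p)⁻¹ * of h * t ^ q) →
      (∃ (p q : ℕ) (h : H), t * g = (t ^ p)⁻¹ * of h * t ^ q) := by
    rintro g ⟨p, q, h, rfl⟩
    rcases p with _ | p
    · obtain ⟨y, hy⟩ := t_pow_mul_of (φ := φ) hA 1 h
      refine ⟨0, q + 1, y, ?_⟩
      rw [pow_one] at hy
      simp only [pow_zero, inv_one, one_mul]
      rw [← mul_assoc, hy, pow_succ']
      group
    · refine ⟨p, q, h, ?_⟩
      rw [pow_succ]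
      group
  have hti : ∀ (g : HNNExtension H A B φ),
      (∃ (p q : ℕ) (h : H), g = (t ^ p)⁻¹ * of h * t ^ q) →
      (∃ (p q : ℕ) (h : H), t⁻¹ * g = (t ^ p)⁻¹ * of h * t ^ q) := by
    rintro g ⟨p, q, h, rfl⟩
    refine ⟨p + 1, q, h, ?_⟩
    rw [pow_succ]
    group
  have main : ∀ g : HNNExtension H A B φ, ∀ g',
      (∃ (p q : ℕ) (h : H), g' = (t ^ p)⁻¹ * of h * t ^ q) →
      (∃ (p q : ℕ) (h : H), g * g' = (t ^ p)⁻¹ * of h * t ^ q) ∧
      (∃ (p q : ℕ) (h : H), g⁻¹ * g' = (t ^ p)⁻¹ * of h * t ^ q) := by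
    intro g
    induction g using HNNExtension.induction_on with
    | of x =>
      intro g' h
      refine ⟨hof x g' h, ?_⟩
      rw [← map_inv]
      exact hof x⁻¹ g' h
    | t => exact fun g' h => ⟨ht g' h, hti g' h⟩
    | mul x y hx hy =>
      intro g' h
      refine ⟨?_, ?_⟩
      · rw [mul_assoc]
        exact (hx _ (hy _ h).1).1
      · rw [mul_inv_rev, mul_assoc]
        exact (hy _ (hx _ h).2).2
    | inv x hx =>
      intro g' h
      refine ⟨(hx g' h).2, ?_⟩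
      rw [inv_inv]
      exact (hx g' h).1
  have := (main g 1 ⟨0, 0, 1, by simp⟩).1
  rwa [mul_one] at this

end Ascending

/-- `AffGp` is an (ascending) HNN extension of `Tn n` over `Tn n` -/
theorem affGp_isHNN (n : ℕ) : IsHNN (Tn n) (Tn n) := by
  refine ⟨le_rfl, ?_⟩
  have htop : (Tn n).subgroupOf (Tn n) = ⊤ := Subgroup.subgroupOf_self _
  have hconj : ∀ c : (Tn n).subgroupOf (Tn n), aa * ((c : Tn n) : AffGp) * aa⁻¹ ∈ Tn n := by
    rintro ⟨⟨x, hx⟩, -⟩
    obtain ⟨k, rfl⟩ := mem_Tn.1 hx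
    have h1 := aa_conj 1 (2 ^ n * k)
    rw [pow_one] at h1
    change aa * cc ^ (2 ^ n * k) * aa⁻¹ ∈ Tn n
    rw [h1]
    exact mem_Tn.2 ⟨2 * k, by ring_nf⟩
  let ψ : (Tn n).subgroupOf (Tn n) →* Tn n :=
    ((MulAut.conj aa).toMonoidHom.comp
      ((Tn n).subtype.comp ((Tn n).subgroupOf (Tn n)).subtype)).codRestrict (Tn n) hconj
  have hψ : ∀ c, ((ψ c : Tn n) : AffGp) = aa * ((c : Tn n) : AffGp) * aa⁻¹ := fun _ => rfl
  have hψinj : Function.Injective ψ := by
    intro c d hcd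
    have h1 : aa * ((c : Tn n) : AffGp) * aa⁻¹ = aa * ((d : Tn n) : AffGp) * aa⁻¹ := by
      rw [← hψ, ← hψ, hcd]
    apply Subtype.ext
    apply Subtype.ext
    simpa using h1
  let φ := MonoidHom.ofInjective hψinj
  have hφ : ∀ c, (((φ c : ψ.range) : Tn n) : AffGp) = aa * ((c : Tn n) : AffGp) * aa⁻¹ :=
    fun _ => rfl
  let Φ : HNNExtension (Tn n) _ ψ.range φ →* AffGp := HNNExtension.lift (Tn n).subtype aa (by
    intro a
    change aa * ((a : Tn n) : AffGp) = (((φ a : ψ.range) : Tn n) : AffGp) * aa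
    rw [hφ, inv_mul_cancel_right])
  have hΦof : ∀ x : Tn n, Φ (of x) = x := fun x => HNNExtension.lift_of _ _ _ _
  have hΦt : Φ t = aa := HNNExtension.lift_t _ _ _
  have hinj : Function.Injective Φ := by
    rw [injective_iff_map_eq_one]
    intro g hg
    obtain ⟨p, q, h, rfl⟩ := ascending_normal_form htop g
    rw [map_mul, map_mul, map_inv, map_pow, map_pow, hΦof, hΦt] at hg
    obtain ⟨k, hk⟩ := mem_Tn.1 h.2
    have h1 : (h : AffGp) * aa ^ q = aa ^ p := by
      have : (h : AffGp) * aa ^ q = aa ^ p * ((aa ^ p)⁻¹ * h * aa ^ q) := by group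
      rw [this, hg, mul_one]
    have h2 : ∀ x : ℚ, 2 ^ q * x + (2 ^ n * k : ℤ) = 2 ^ p * x := by
      intro x
      have h3 : (((h : AffGp) * aa ^ q : AffGp) : Equiv.Perm ℚ) x =
        ((h : AffGp) : Equiv.Perm ℚ) (((aa ^ q : AffGp) : Equiv.Perm ℚ) x) := rfl
      rw [h1, aa_pow_apply, aa_pow_apply, hk, cc_zpow_apply] at h3
      exact h3.symm
    have h4 : ((2 ^ n * k : ℤ) : ℚ) = 0 := by simpa using h2 0
    have h5 : (2 : ℚ) ^ q = 2 ^ p := by
      have := h2 1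
      rw [h4] at this
      simpa using this
    have h6 : q = p := by
      exact pow_right_injective₀ (by norm_num) (by norm_num) h5
    have h7 : h = 1 := by
      apply Subtype.ext
      rw [hk]
      have : (2 ^ n * k : ℤ) = 0 := by exact_mod_cast h4
      rw [this]
      simp
    rw [h6, h7, map_one]
    group
  have hsurj : Function.Surjective Φ := by
    rw [← MonoidHom.range_eq_top, eq_top_iff]
    have haa : aa ∈ Φ.range := ⟨t, hΦt⟩
    have hcc : cc ∈ Φ.range := by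
      have h1 : cc ^ (2 ^ n : ℤ) ∈ Φ.range := by
        refine ⟨of ⟨cc ^ (2 ^ n : ℤ), mem_Tn.2 ⟨1, by simp⟩⟩, hΦof _⟩
      have h2 : cc = (aa ^ n)⁻¹ * cc ^ (2 ^ n : ℤ) * aa ^ n := by
        have := aa_conj n 1
        rw [mul_one, zpow_one] at this
        rw [← this]
        group
      rw [h2]
      exact mul_mem (mul_mem (inv_mem (pow_mem haa n)) h1) (pow_mem haa n)
    intro σ _
    have hcl : ∀ (x : Equiv.Perm ℚ) (hx : x ∈ AffGp), (⟨x, hx⟩ : AffGp) ∈ Φ.range := by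
      intro x hx
      have hx' := hx
      rw [AffGp] at hx'
      induction hx' using Subgroup.closure_induction with
      | mem x hx0 =>
        rcases hx0 with rfl | rfl
        · exact hcc
        · exact haa
      | one => exact one_mem _
      | mul x y hx0 hy0 ihx ihy => exact mul_mem (ihx hx0) (ihy hy0)
      | inv x hx0 ihx => exact inv_mem (ihx hx0)
    exact hcl σ σ.2
  exact ⟨ψ.range, φ, MulEquiv.ofBijective Φ ⟨hinj, hsurj⟩, hΦof⟩

end Pool.Agent.helper5.Split
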