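import Pool.Agent.helper5.SplitDefs

set_option autoImplicit false

/-!
Normal forms in an amalgamated product, internally in the group `G`, and the theorem that a group
`G` with two normal subgroups `K`, `L` with trivial intersection, where `L` contains an
involution, has no nontrivial splitting as an amalgamated product over a proper subgroup of `K`.
-/

namespace Pool.Agent.helper5.Split

open Monoid Monoid.PushoutI

variable {G : Type*} [Group G] {A B C : Subgroup G}

/-- product of a list of letters -/
def prodG (L : List (Σ i, factor A B i)) : G := (L.map (fun x => (x.2 : G))).prod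

/-- reduced list of letters: no letter in `C`, letters alternate between the factors -/
def RedL (C : Subgroup G) (L : List (Σ i, factor A B i)) : Prop :=
  (∀ x ∈ L, (x.2 : G) ∉ C) ∧ L.IsChain (fun a b => a.1 ≠ b.1)

@[simp] lemma prodG_nil : prodG ([] : List (Σ i, factor A B i)) = 1 := rfl

@[simp] lemma prodG_cons (x : Σ i, factor A B i) (L : List (Σ i, factor A B i)) :
    prodG (x :: L) = x.2 * prodG L := by simp [prodG]

@[simp] lemma prodG_append (L M : List (Σ i, factor A B i)) :
    prodG (L ++ M) = prodG L * prodG M := by simp [prodG]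

lemma redL_nil : RedL C ([] : List (Σ i, factor A B i)) := by
  simp [RedL]

lemma redL_single (x : Σ i, factor A B i) (hx : (x.2 : G) ∉ C) : RedL C [x] := by
  simp [RedL, hx]

/-- the word of Mathlib given by a reduced list -/
def wordOf {L : List (Σ i, factor A B i)} (hL : RedL C L) :
    CoprodI.Word (fun i => factor A B i) where
  toList := L
  ne_one := by
    intro l hl h
    apply hL.1 l hl
    rw [h]
    simp
  chain_ne := hL.2

lemma incl_injective (h : ∀ i, C ≤ factor A B i) (i : Bool) :
    Function.Injective (incl A B C h i) := Subgroup.inclusion_injective _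

lemma mem_range_incl (h : ∀ i, C ≤ factor A B i) (i : Bool) (x : factor A B i) :
    x ∈ (incl A B C h i).range ↔ (x : G) ∈ C := by
  constructor
  · rintro ⟨c, rfl⟩
    simp [incl]
  · intro hx
    exact ⟨⟨x, hx⟩, by ext; simp [incl]⟩

lemma amalgamHom_of (h : ∀ i, C ≤ factor A B i) (i : Bool) (x : factor A B i) :
    amalgamHom A B C h (of i x) = x :=
  lift_of (φ := incl A B C h) (fun i => (factor A B i).subtype) C.subtype (fun _ => rfl) x

lemma amalgamHom_base (h : ∀ i, C ≤ factor A B i) (c : C) :
    amalgamHom A B C h (base _ c) = c :=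
  lift_base (φ := incl A B C h) (fun i => (factor A B i).subtype) C.subtype (fun _ => rfl) c

lemma amalgamHom_ofCoprodI (h : ∀ i, C ≤ factor A B i)
    (w : CoprodI.Word (fun i => factor A B i)) :
    amalgamHom A B C h (ofCoprodI w.prod) = prodG w.toList := by
  simp only [CoprodI.Word.prod, map_list_prod, List.map_map, prodG]
  congr 1

/-- Uniqueness of the pattern of a reduced list. -/
theorem redL_pattern (hA : IsAmalgam A B C) {L M : List (Σ i, factor A B i)}
    (hL : RedL C L) (hM : RedL C M) (h : prodG L = prodG M) :
    L.map Sigma.fst = M.map Sigma.fst := by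
  classical
  obtain ⟨le, bij, -, -⟩ := hA
  obtain ⟨d⟩ := NormalWord.transversal_nonempty (incl A B C le) (incl_injective le)
  have rL : Reduced (incl A B C le) (wordOf hL) := by
    intro g hg
    rw [mem_range_incl]
    exact hL.1 g hg
  have rM : Reduced (incl A B C le) (wordOf hM) := by
    intro g hg
    rw [mem_range_incl]
    exact hM.1 g hg
  obtain ⟨wL, hwL, hwL'⟩ := rL.exists_normalWord_prod_eq d
  obtain ⟨wM, hwM, hwM'⟩ := rM.exists_normalWord_prod_eq d
  have : wL.prod = wM.prod := by
    apply bij.injective
    rw [hwL, hwM, amalgamHom_ofCoprodI, amalgamHom_ofCoprodI]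
    exact h
  have := NormalWord.prod_injective this
  subst this
  rw [← show (wordOf hL).toList = L from rfl, ← show (wordOf hM).toList = M from rfl,
    ← hwL', ← hwM']

/-- Existence of reduced lists. -/
theorem exists_redL (hA : IsAmalgam A B C) (g : G) :
    g ∈ C ∨ ∃ L : List (Σ i, factor A B i), RedL C L ∧ L ≠ [] ∧ prodG L = g := by
  classical
  obtain ⟨le, bij, -, -⟩ := hA
  obtain ⟨d⟩ := NormalWord.transversal_nonempty (incl A B C le) (incl_injective le)
  obtain ⟨x, rfl⟩ := bij.surjective g
  let w := NormalWord.equiv (d := d) x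
  have hw : w.prod = x := NormalWord.equiv.symm_apply_apply x
  have hprod : amalgamHom A B C le x = (w.head : G) * prodG w.toList := by
    rw [← hw, NormalWord.prod, map_mul, amalgamHom_base, amalgamHom_ofCoprodI]
  have hred : RedL C w.toList := by
    refine ⟨?_, w.chain_ne⟩
    intro y hy hyC
    have h1 := w.ne_one y hy
    have h2 := w.normalized y.1 y.2 hy
    apply h1
    have h3 : y.2 ∈ (incl A B C le y.1).range := (mem_range_incl le _ _).2 hyC
    have h4 := (d.compl y.1).1
    have := @h4 (⟨⟨y.2, h3⟩, ⟨1, d.one_mem _⟩⟩) (⟨⟨1, one_mem _⟩, ⟨y.2, h2⟩⟩) (by simp)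
    simp only [Prod.mk.injEq, Subtype.mk.injEq] at this
    exact this.1
  rw [hprod]
  rcases hl : w.toList with _ | ⟨y, L⟩
  · left
    simp
  · right
    rw [hl] at hred
    refine ⟨⟨y.1, ⟨w.head * y.2, mul_mem (le _ w.head.2) y.2.2⟩⟩ :: L, ⟨?_, ?_⟩, by simp,
      by simp [mul_assoc]⟩
    · intro z hz
      simp only [List.mem_cons] at hz
      rcases hz with rfl | hz
      · intro hmem
        apply hred.1 y (by simp)
        exact (Subgroup.mul_mem_cancel_left C w.head.2).1 hmem
      · exact hred.1 z (by simp [hz])
    · have := hred.2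
      rw [List.isChain_cons] at this ⊢
      exact this

/-- `Pat A B C g p` : the element `g` is `c * (product of a reduced list with pattern p)` for
some `c ∈ C`. -/
def Pat (A B C : Subgroup G) (g : G) (p : List Bool) : Prop :=
  ∃ c ∈ C, ∃ L : List (Σ i, factor A B i), RedL C L ∧ c * prodG L = g ∧ L.map Sigma.fst = p

lemma pat_exists (hA : IsAmalgam A B C) (g : G) : ∃ p, Pat A B C g p := by
  rcases exists_redL hA g with h | ⟨L, hL, -, rfl⟩
  · exact ⟨[], g, h, [], redL_nil, by simp, rfl⟩
  · exact ⟨_, 1, one_mem _, L, hL, by simp, rfl⟩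

/-- absorb an element of `C` in the first letter of a reduced list -/
lemma absorb_head (hA : IsAmalgam A B C) {L : List (Σ i, factor A B i)} (hL : RedL C L)
    (hne : L ≠ []) {c : G} (hc : c ∈ C) :
    ∃ L' : List (Σ i, factor A B i),
      RedL C L' ∧ prodG L' = c * prodG L ∧ L'.map Sigma.fst = L.map Sigma.fst := by
  rcases L with _ | ⟨y, L⟩
  · exact absurd rfl hne
  · refine ⟨⟨y.1, ⟨c * y.2, mul_mem (hA.le _ hc) y.2.2⟩⟩ :: L, ⟨?_, ?_⟩,
      by simp [mul_assoc], by simp⟩
    · intro z hz
      simp only [List.mem_cons] at hz
      rcases hz with rfl | hz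
      · intro hmem
        apply hL.1 y (by simp)
        exact (Subgroup.mul_mem_cancel_left C hc).1 hmem
      · exact hL.1 z (by simp [hz])
    · have := hL.2
      rw [List.isChain_cons] at this ⊢
      exact this

lemma redL_eq_nil (hA : IsAmalgam A B C) {L : List (Σ i, factor A B i)} (hL : RedL C L)
    (h : prodG L ∈ C) : L = [] := by
  by_contra hne
  obtain ⟨L', hL', h1, h2⟩ := absorb_head hA hL hne (inv_mem h)
  have := redL_pattern hA hL' (redL_nil (A := A) (B := B) (C := C)) (by rw [h1]; simp)
  rw [h2] at this
  simp at this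
  exact hne this

lemma pat_unique (hA : IsAmalgam A B C) {g : G} {p q : List Bool} (hp : Pat A B C g p)
    (hq : Pat A B C g q) : p = q := by
  obtain ⟨c, hc, L, hL, h1, rfl⟩ := hp
  obtain ⟨d, hd, M, hM, h2, rfl⟩ := hq
  by_cases hLn : L = []
  · subst hLn
    have : prodG M ∈ C := by
      have : prodG M = d⁻¹ * c := by
        rw [← h1] at h2
        simp only [prodG_nil, mul_one] at h2
        rw [← h2]; group
      rw [this]
      exact mul_mem (inv_mem hd) hc
    rw [redL_eq_nil hA hM this]
  · by_cases hMn : M = []
    · subst hMn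
      exfalso
      apply hLn
      apply redL_eq_nil hA hL
      have : prodG L = c⁻¹ * d := by
        rw [← h2] at h1
        simp only [prodG_nil, mul_one] at h1
        rw [← h1]; group
      rw [this]
      exact mul_mem (inv_mem hc) hd
    · obtain ⟨L', hL', h3, h4⟩ := absorb_head hA hL hLn hc
      obtain ⟨M', hM', h5, h6⟩ := absorb_head hA hM hMn hd
      have := redL_pattern hA hL' hM' (by rw [h3, h5, h1, h2])
      rw [← h4, ← h6, this]

lemma pat_chain {g : G} {p : List Bool} (hp : Pat A B C g p) : p.IsChain (· ≠ ·) := by
  obtain ⟨c, hc, L, hL, h1, rfl⟩ := hp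
  rw [List.isChain_map]
  exact hL.2

lemma pat_nil {g : G} : Pat A B C g [] ↔ g ∈ C := by
  constructor
  · rintro ⟨c, hc, L, hL, rfl, h⟩
    simp only [List.map_eq_nil_iff] at h
    subst h
    simpa using hc
  · intro h
    exact ⟨g, h, [], redL_nil, by simp, rfl⟩

lemma pat_single {g : G} {i : Bool} (hg : g ∈ factor A B i)
    (hgC : g ∉ C) : Pat A B C g [i] :=
  ⟨1, one_mem _, [⟨i, ⟨g, hg⟩⟩], redL_single _ hgC, by simp, rfl⟩

lemma mem_factor_of_pat_single (hA : IsAmalgam A B C) {g : G} {i : Bool}
    (h : Pat A B C g [i]) : g ∈ factor A B i := by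
  obtain ⟨c, hc, L, hL, rfl, h⟩ := h
  obtain ⟨y, hy, rfl⟩ := List.map_eq_singleton_iff.1 h
  subst hy
  simp only [prodG_cons, prodG_nil, mul_one]
  exact mul_mem (hA.le _ hc) y.2.2

lemma mem_factor_iff (hA : IsAmalgam A B C) {g : G} {i : Bool} :
    g ∈ factor A B i ↔ Pat A B C g [] ∨ Pat A B C g [i] := by
  constructor
  · intro h
    by_cases hC : g ∈ C
    · exact Or.inl (pat_nil.2 hC)
    · exact Or.inr (pat_single h hC)
  · rintro (h | h)
    · exact hA.le _ (pat_nil.1 h)
    · exact mem_factor_of_pat_single hA h

lemma pat_mul (hA : IsAmalgam A B C) {g h : G} {p q : List Bool} (hp : Pat A B C g p)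
    (hq : Pat A B C h q) (hpq : ∀ a ∈ p.getLast?, ∀ b ∈ q.head?, a ≠ b) :
    Pat A B C (g * h) (p ++ q) := by
  obtain ⟨c, hc, L, hL, rfl, rfl⟩ := hp
  obtain ⟨d, hd, M, hM, rfl, rfl⟩ := hq
  rcases List.eq_nil_or_concat' L with rfl | ⟨L', y, rfl⟩
  · exact ⟨c * d, mul_mem hc hd, M, hM, by simp [mul_assoc], by simp⟩
  · let y' : Σ i, factor A B i := ⟨y.1, ⟨y.2 * d, mul_mem y.2.2 (hA.le _ hd)⟩⟩
    refine ⟨c, hc, L' ++ [y'] ++ M, ⟨?_, ?_⟩, by simp [mul_assoc, y'], by simp [y']⟩
    · intro z hz
      simp only [List.mem_append, List.mem_singleton] at hz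
      rcases hz with (hz | rfl) | hz
      · exact hL.1 z (by simp [hz])
      · intro hmem
        apply hL.1 y (by simp)
        exact (Subgroup.mul_mem_cancel_right C hd).1 hmem
      · exact hM.1 z hz
    · have h1 : ((L' ++ [y]).map Sigma.fst ++ M.map Sigma.fst).IsChain (· ≠ ·) := by
        rw [List.isChain_append]
        refine ⟨?_, ?_, hpq⟩
        · rw [List.isChain_map]; exact hL.2
        · rw [List.isChain_map]; exact hM.2
      have h2 : (L' ++ [y'] ++ M).map Sigma.fst
          = (L' ++ [y]).map Sigma.fst ++ M.map Sigma.fst := by simp [y']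
      have := h1
      rw [← h2, List.isChain_map] at this
      exact this

lemma pat_split {g : G} {p q : List Bool} (h : Pat A B C g (p ++ q)) :
    ∃ g₁ g₂, g = g₁ * g₂ ∧ Pat A B C g₁ p ∧ Pat A B C g₂ q := by
  obtain ⟨c, hc, L, hL, rfl, h⟩ := h
  obtain ⟨L₁, L₂, rfl, rfl, rfl⟩ := List.map_eq_append_iff.1 h
  have h1 := List.isChain_append.1 hL.2
  refine ⟨c * prodG L₁, prodG L₂, by simp [mul_assoc], ⟨c, hc, L₁, ⟨?_, h1.1⟩, rfl, rfl⟩,
    ⟨1, one_mem _, L₂, ⟨?_, h1.2.1⟩, by simp, rfl⟩⟩
  · intro x hx; exact hL.1 x (by simp [hx])
  · intro x hx; exact hL.1 x (by simp [hx])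

lemma exists_mem_factor_not_mem (hA : IsAmalgam A B C) (i : Bool) :
    ∃ b ∈ factor A B i, b ∉ C := by
  have : C < factor A B i := by
    refine lt_of_le_of_ne (hA.le i) ?_
    cases i
    · exact hA.ne_left
    · exact hA.ne_right
  obtain ⟨b, hb, hbC⟩ := SetLike.exists_of_lt this
  exact ⟨b, hb, hbC⟩

/-- A normal subgroup contained in one of the factors is contained in the edge group. -/
theorem IsAmalgam.normal_le (hA : IsAmalgam A B C) {N : Subgroup G} (hN : N.Normal) {i : Bool}
    (h : N ≤ factor A B i) : N ≤ C := by
  intro n hn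
  by_contra hC
  obtain ⟨b, hb, hbC⟩ := exists_mem_factor_not_mem hA (!i)
  have h1 : Pat A B C (b * n * b⁻¹) ([!i] ++ [i] ++ [!i]) := by
    refine pat_mul hA (pat_mul hA (pat_single hb hbC) (pat_single (h hn) hC) ?_)
      (pat_single (inv_mem hb) (by simpa using hbC)) ?_
    · cases i <;> simp
    · cases i <;> simp
  have h2 : b * n * b⁻¹ ∈ factor A B i := h (hN.conj_mem n hn b)
  rcases (mem_factor_iff hA).1 h2 with h3 | h3
  · have := pat_unique hA h1 h3
    simp at this
  · have := pat_unique hA h1 h3
    simp at this

/-- If `x` is in a factor and commutes (up to the factor) with an element outside of the factor,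
then it is conjugate into the edge group. -/
theorem IsAmalgam.conj_mem_of_mul_eq (hA : IsAmalgam A B C) {i : Bool} {x y k : G}
    (hx : x ∈ factor A B i) (hy : y ∈ factor A B i) (hk : k ∉ factor A B i)
    (h : x * k = k * y) : ∃ g, g⁻¹ * x * g ∈ C := by
  -- reduce to the case where the pattern of `k` does not start with `i`
  have main : ∀ (x y k : G) (p : List Bool), x ∈ factor A B i → y ∈ factor A B i →
      Pat A B C k p → p ≠ [] → some i ≠ p.head? → some i ≠ p.getLast? → x * k = k * y → x ∈ C := by
    intro x y k p hx hy hk hp hhead hlast h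
    by_contra hxC
    have h1 : Pat A B C (x * k) ([i] ++ p) := by
      refine pat_mul hA (pat_single hx hxC) hk ?_
      intro a ha b hb
      simp only [List.getLast?_singleton, Option.mem_def, Option.some.injEq] at ha
      subst ha
      rintro rfl
      exact hhead hb.symm
    by_cases hyC : y ∈ C
    · have h2 : Pat A B C (k * y) (p ++ []) := by
        refine pat_mul hA hk (pat_nil.2 hyC) ?_
        simp
      rw [h] at h1
      have := congrArg List.length (pat_unique hA h1 h2)
      simp at this
    · have h2 : Pat A B C (k * y) (p ++ [i]) := by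
        refine pat_mul hA hk (pat_single hy hyC) ?_
        intro a ha b hb
        simp only [List.head?_cons, Option.mem_def, Option.some.injEq] at hb
        subst hb
        rintro rfl
        exact hlast ha.symm
      rw [h] at h1
      have := pat_unique hA h1 h2
      rcases p with _ | ⟨j, p⟩
      · exact hp rfl
      · simp only [List.cons_append, List.nil_append, List.cons.injEq] at this
        apply hhead
        simp [this.1]
  have main2 : ∀ (x y k : G) (p : List Bool), x ∈ factor A B i → y ∈ factor A B i →
      Pat A B C k p → p ≠ [] → some i ≠ p.head? → x * k = k * y → x ∈ C := by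
    intro x y k p hx hy hk hp hhead h
    by_cases hlast : some i = p.getLast?
    · rcases List.eq_nil_or_concat' p with rfl | ⟨q, j, rfl⟩
      · exact absurd rfl hp
      · simp only [List.getLast?_append, List.getLast?_singleton, Option.some_or,
          Option.some.injEq] at hlast
        subst hlast
        obtain ⟨k', b, rfl, hk', hb⟩ := pat_split hk
        have hbi := mem_factor_of_pat_single hA hb
        have hq : q ≠ [] := by
          rintro rfl
          apply hhead
          simp
        refine main x (b * y * b⁻¹) k' q hx (mul_mem (mul_mem hbi hy) (inv_mem hbi)) hk' hq ?_ ?_ ?_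
        · intro hh
          apply hhead
          rw [List.head?_append_of_ne_nil _ hq]
          exact hh
        · intro hh
          have := (List.isChain_append.1 (pat_chain hk)).2.2 i hh.symm i (by simp)
          exact this rfl
        · have : x * (k' * b) * b⁻¹ = k' * b * y * b⁻¹ := by rw [h]
          simpa [mul_assoc] using this
    · exact main x y k p hx hy hk hp hhead hlast h
  obtain ⟨p, hp⟩ := pat_exists hA k
  have hpne : p ≠ [] := by
    rintro rfl
    exact hk (hA.le _ (pat_nil.1 hp))
  by_cases hhead : some i = p.head?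
  · rcases p with _ | ⟨j, p⟩
    · exact absurd rfl hpne
    · simp only [List.head?_cons, Option.some.injEq] at hhead
      subst hhead
      obtain ⟨a, k', rfl, ha, hk'⟩ := pat_split (p := [i]) (q := p) (by simpa using hp)
      have hai := mem_factor_of_pat_single hA ha
      refine ⟨a, main2 (a⁻¹ * x * a) y k' p (mul_mem (mul_mem (inv_mem hai) hx) hai) hy hk'
        ?_ ?_ ?_⟩
      · rintro rfl
        apply hk
        have := pat_nil.1 hk'
        exact mul_mem hai (hA.le _ this)
      · intro hh
        have := (List.isChain_cons.1 (pat_chain hp)).1 i hh.symm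
        exact this rfl
      · have : a⁻¹ * (x * (a * k')) = a⁻¹ * (a * k' * y) := by rw [h]
        simpa [mul_assoc] using this
  · exact ⟨1, by simpa using main2 x y k p hx hy hp hpne hhead h⟩

/-- An element whose square is trivial is conjugate into one of the factors. -/
theorem IsAmalgam.conj_mem_of_sq_eq_one (hA : IsAmalgam A B C) {x : G} (hx : x * x = 1) :
    ∃ g i, g⁻¹ * x * g ∈ factor A B i := by
  obtain ⟨p, hp⟩ := pat_exists hA x
  induction hn : p.length using Nat.strong_induction_on generalizing p x with
  | _ n ih =>
    subst hn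
    rcases p with _ | ⟨i, p⟩
    · exact ⟨1, false, by simpa using hA.le false (pat_nil.1 hp)⟩
    · rcases List.eq_nil_or_concat' p with rfl | ⟨q, j, rfl⟩
      · exact ⟨1, i, by simpa using mem_factor_of_pat_single hA hp⟩
      · by_cases hij : i = j
        · subst hij
          obtain ⟨a, y, rfl, ha, hy⟩ := pat_split (p := [i]) (q := q ++ [i]) (by simpa using hp)
          obtain ⟨m, b, rfl, hm, hb⟩ := pat_split hy
          have hai := mem_factor_of_pat_single hA ha
          have hbi := mem_factor_of_pat_single hA hb
          have hch := pat_chain hp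
          by_cases hz : b * a ∈ C
          · have h1 : Pat A B C (m * (b * a)) (q ++ []) := by
              refine pat_mul hA hm (pat_nil.2 hz) ?_
              simp
            simp only [List.append_nil] at h1
            obtain ⟨g, l, hg⟩ := ih q.length (by simp) (x := m * (b * a))
              (by
                have : m * (b * a) = a⁻¹ * (a * (m * b)) * a := by group
                rw [this]
                have h2 : a⁻¹ * (a * (m * b)) * a * (a⁻¹ * (a * (m * b)) * a)
                    = a⁻¹ * ((a * (m * b)) * (a * (m * b))) * a := by group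
                rw [h2, hx]; group) q h1 rfl
            refine ⟨a * g, l, ?_⟩
            have : (a * g)⁻¹ * (a * (m * b)) * (a * g) = g⁻¹ * (m * (b * a)) * g := by group
            rw [this]
            exact hg
          · exfalso
            have hqne : q ≠ [] := by
              rintro rfl
              simp at hch
            have hlast : ∀ c ∈ ([i] ++ q).getLast?, ∀ d ∈ ([i] : List Bool).head?, c ≠ d := by
              have h3 : ([i] ++ q ++ [i]).IsChain (· ≠ ·) := by simpa using hch
              exact (List.isChain_append.1 h3).2.2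
            have hhead : ∀ c ∈ ([i] ++ q ++ [i]).getLast?, ∀ d ∈ (q ++ [i]).head?, c ≠ d := by
              intro c hc d hd
              simp only [List.getLast?_append, List.getLast?_singleton, Option.some_or,
                Option.mem_def, Option.some.injEq] at hc
              subst hc
              exact (List.isChain_cons.1 hch).1 d hd
            have h1 : Pat A B C (a * m) ([i] ++ q) := by
              refine pat_mul hA ha hm ?_
              have h3 : ([i] ++ (q ++ [i])).IsChain (· ≠ ·) := by simpa using hch
              intro c hc d hd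
              refine (List.isChain_append.1 h3).2.2 c hc d ?_
              rw [List.head?_append_of_ne_nil _ hqne]
              exact hd
            have h2 : Pat A B C (a * m * (b * a)) ([i] ++ q ++ [i]) :=
              pat_mul hA h1 (pat_single (mul_mem hbi hai) hz) hlast
            have h3 : Pat A B C (a * m * (b * a) * (m * b)) ([i] ++ q ++ [i] ++ (q ++ [i])) :=
              pat_mul hA h2 hy hhead
            have h4 : a * m * (b * a) * (m * b) = 1 := by
              rw [← hx]; group
            rw [h4] at h3
            have := pat_unique hA h3 (pat_nil.2 (one_mem C))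
            simp at this
        · exfalso
          have h3 : Pat A B C (x * x) ((i :: (q ++ [j])) ++ (i :: (q ++ [j]))) := by
            refine pat_mul hA hp hp ?_
            intro c hc d hd
            have hc' : c = j := by
              have : (i :: (q ++ [j])).getLast? = some j := by
                rw [← List.cons_append, List.getLast?_append]
                simp
              rw [this] at hc
              simpa using hc.symm
            have hd' : d = i := by simpa using hd.symm
            rw [hc', hd']
            exact fun h => hij h.symm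
          rw [hx] at h3
          have := pat_unique hA h3 (pat_nil.2 (one_mem C))
          simp at this

/-- **Main non-splitting result for amalgams.** Let `K`, `L` be normal subgroups of `G` with
trivial intersection and suppose that `L` contains an element of order two. Then `G` is not a
nontrivial amalgamated product over a proper subgroup of `K`. -/
theorem not_isAmalgam_of_lt {K L : Subgroup G} (hK : K.Normal) (hL : L.Normal)
    (hKL : Disjoint K L) {x : G} (hxL : x ∈ L) (hx1 : x ≠ 1) (hx2 : x * x = 1)
    {A B C : Subgroup G} (hC : C < K) : ¬ IsAmalgam A B C := by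
  intro hA
  obtain ⟨g, i, hg⟩ := hA.conj_mem_of_sq_eq_one hx2
  have hKi : ¬ K ≤ factor A B i := fun h => absurd (hA.normal_le hK h) (not_le_of_gt hC)
  obtain ⟨k, hk, hki⟩ := SetLike.not_le_iff_exists.1 hKi
  have hyL : g⁻¹ * x * g ∈ L := by
    have := hL.conj_mem x hxL g⁻¹
    simpa using this
  have hcomm : g⁻¹ * x * g * k = k * (g⁻¹ * x * g) :=
    (Subgroup.commute_of_normal_of_disjoint _ _ hK hL hKL k _ hk hyL).symm
  obtain ⟨h, hh⟩ := hA.conj_mem_of_mul_eq hg hg hki hcomm
  have h1 : h⁻¹ * (g⁻¹ * x * g) * h ∈ L := by
    have := hL.conj_mem _ hyL h⁻¹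
    simpa using this
  have h2 : h⁻¹ * (g⁻¹ * x * g) * h = 1 := by
    have := Subgroup.disjoint_def.1 hKL (hC.le hh) h1
    exact this
  apply hx1
  have h3 : x = g * h * (h⁻¹ * (g⁻¹ * x * g) * h) * (g * h)⁻¹ := by group
  rw [h3, h2]
  group

end Pool.Agent.helper5.Split
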