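import Pool.Agent.helper5.SplitDefs

set_option autoImplicit false

/-!
The splittings of `K × (A₀ * Z)` as an amalgam with factor `K × A₀` over `K × D`, for each subgroup
`D` of `A₀`, and of `K × (A₀ * ℤ)` as an HNN extension over `K × D`.
-/

namespace Pool.Agent.helper5.Split

open Monoid

section Amalgam

variable (K A₀ Z : Type*) [Group K] [Group A₀] [Group Z]

/-- `K × A₀` -/
def sA : Subgroup (K × Coprod A₀ Z) :=
  (⊤ : Subgroup K).prod (Coprod.inl : A₀ →* Coprod A₀ Z).range

variable {A₀}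

/-- `K × D` -/
def sC (D : Subgroup A₀) : Subgroup (K × Coprod A₀ Z) :=
  (⊤ : Subgroup K).prod (D.map (Coprod.inl : A₀ →* Coprod A₀ Z))

/-- `K × (D * Z)` -/
def sB (D : Subgroup A₀) : Subgroup (K × Coprod A₀ Z) :=
  (⊤ : Subgroup K).prod (D.map (Coprod.inl : A₀ →* Coprod A₀ Z) ⊔
    (Coprod.inr : Z →* Coprod A₀ Z).range)

variable {K Z}

lemma sC_le (D : Subgroup A₀) (i : Bool) : sC K Z D ≤ factor (sA K A₀ Z) (sB K Z D) i := by
  cases i
  · exact Subgroup.prod_mono le_rfl (Subgroup.map_le_range _ _)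
  · exact Subgroup.prod_mono le_rfl le_sup_left

theorem isAmalgam_build [Nontrivial Z] (D : Subgroup A₀) (hD : D ≠ ⊤) :
    IsAmalgam (sA K A₀ Z) (sB K Z D) (sC K Z D) := by
  have le := sC_le (K := K) (Z := Z) D
  let P := PushoutI (incl (sA K A₀ Z) (sB K Z D) (sC K Z D) le)
  let Φ := amalgamHom (sA K A₀ Z) (sB K Z D) (sC K Z D) le
  have hΦ0 : ∀ x : factor (sA K A₀ Z) (sB K Z D) false,
      Φ (PushoutI.of (φ := incl (sA K A₀ Z) (sB K Z D) (sC K Z D) le) false x) = x :=
    fun x => PushoutI.lift_of (φ := incl _ _ _ le) (fun i => (factor _ _ i).subtype)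
      (sC K Z D).subtype (fun _ => rfl) x
  have hΦ1 : ∀ x : factor (sA K A₀ Z) (sB K Z D) true,
      Φ (PushoutI.of (φ := incl (sA K A₀ Z) (sB K Z D) (sC K Z D) le) true x) = x :=
    fun x => PushoutI.lift_of (φ := incl _ _ _ le) (fun i => (factor _ _ i).subtype)
      (sC K Z D).subtype (fun _ => rfl) x
  have hΦb : ∀ x : sC K Z D,
      Φ (PushoutI.base (incl (sA K A₀ Z) (sB K Z D) (sC K Z D) le) x) = x :=
    fun x => PushoutI.lift_base (φ := incl _ _ _ le) (fun i => (factor _ _ i).subtype)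
      (sC K Z D).subtype (fun _ => rfl) x
  -- the three basic homomorphisms
  let jK : K →* sC K Z D := (MonoidHom.inl K (Coprod A₀ Z)).codRestrict _
    (fun k => ⟨trivial, ⟨1, one_mem _, map_one _⟩⟩)
  let jA : A₀ →* factor (sA K A₀ Z) (sB K Z D) false :=
    ((MonoidHom.inr K (Coprod A₀ Z)).comp Coprod.inl).codRestrict _
    (fun a => ⟨trivial, ⟨a, rfl⟩⟩)
  let jZ : Z →* factor (sA K A₀ Z) (sB K Z D) true :=
    ((MonoidHom.inr K (Coprod A₀ Z)).comp Coprod.inr).codRestrict _
    (fun z => ⟨trivial, (le_sup_right (a := D.map (Coprod.inl : A₀ →* Coprod A₀ Z))) ⟨z, rfl⟩⟩)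
  have hjK : ∀ k, ((jK k : sC K Z D) : K × Coprod A₀ Z) = (k, 1) := fun _ => rfl
  have hjA : ∀ a, ((jA a : factor (sA K A₀ Z) (sB K Z D) false) : K × Coprod A₀ Z) =
    (1, Coprod.inl a) := fun _ => rfl
  have hjZ : ∀ a, ((jZ a : factor (sA K A₀ Z) (sB K Z D) true) : K × Coprod A₀ Z) =
    (1, Coprod.inr a) := fun _ => rfl
  have hincl : ∀ (i : Bool) (c : sC K Z D), ((incl _ _ _ le i c :
    factor (sA K A₀ Z) (sB K Z D) i) : K × Coprod A₀ Z) = c := fun _ _ => rfl
  let fK : K →* P := (PushoutI.base _).comp jK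
  let fL : Coprod A₀ Z →* P :=
    Coprod.lift ((PushoutI.of (φ := incl (sA K A₀ Z) (sB K Z D) (sC K Z D) le) false).comp jA)
      ((PushoutI.of (φ := incl (sA K A₀ Z) (sB K Z D) (sC K Z D) le) true).comp jZ)
  have hfK : ∀ (i : Bool) (k : K), fK k =
      PushoutI.of (φ := incl (sA K A₀ Z) (sB K Z D) (sC K Z D) le) i (incl _ _ _ le i (jK k)) := by
    intro i k
    exact (PushoutI.of_apply_eq_base (incl _ _ _ le) i (jK k)).symm
  have comm : ∀ k l, Commute (fK k) (fL l) := by
    intro k l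
    induction l using Coprod.induction_on with
    | inl a =>
      have : fL (Coprod.inl a) =
        PushoutI.of (φ := incl (sA K A₀ Z) (sB K Z D) (sC K Z D) le) false (jA a) := by
        simp [fL]
      rw [this, hfK false]
      apply Commute.map
      apply Subtype.ext
      rw [Subgroup.coe_mul, Subgroup.coe_mul, hincl, hjK, hjA]
      simp
    | inr z =>
      have : fL (Coprod.inr z) =
        PushoutI.of (φ := incl (sA K A₀ Z) (sB K Z D) (sC K Z D) le) true (jZ z) := by
        simp [fL]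
      rw [this, hfK true]
      apply Commute.map
      apply Subtype.ext
      rw [Subgroup.coe_mul, Subgroup.coe_mul, hincl, hjK, hjZ]
      simp
    | mul x y hx hy =>
      rw [map_mul]
      exact hx.mul_right hy
  let Ψ : K × Coprod A₀ Z →* P := fK.noncommCoprod fL comm
  have hΨ : ∀ k l, Ψ (k, l) = fK k * fL l := fun k l => rfl
  have key : ∀ l (hl : l ∈ D.map (Coprod.inl : A₀ →* Coprod A₀ Z) ⊔
      (Coprod.inr : Z →* Coprod A₀ Z).range), fL l =
      PushoutI.of (φ := incl (sA K A₀ Z) (sB K Z D) (sC K Z D) le) true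
        ⟨(1, l), ⟨trivial, hl⟩⟩ := by
    intro l hl
    have hl' := hl
    rw [Subgroup.sup_eq_closure] at hl'
    induction hl' using Subgroup.closure_induction with
    | mem x hx =>
      rcases hx with ⟨d, hd, rfl⟩ | ⟨z, rfl⟩
      · have h1 : fL (Coprod.inl d) =
          PushoutI.of (φ := incl (sA K A₀ Z) (sB K Z D) (sC K Z D) le) false (jA d) := by
          simp [fL]
        rw [h1]
        have h2 : jA d = incl _ _ _ le false ⟨(1, Coprod.inl d), ⟨trivial, ⟨d, hd, rfl⟩⟩⟩ := by
          apply Subtype.ext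
          rw [hincl, hjA]
        rw [h2, PushoutI.of_apply_eq_base, ← PushoutI.of_apply_eq_base _ true]
        rfl
      · simp [fL]
        rfl
    | one =>
      rw [map_one]
      exact (map_one _).symm
    | mul x y hx hy ihx ihy =>
      have hx' : x ∈ D.map (Coprod.inl : A₀ →* Coprod A₀ Z) ⊔
        (Coprod.inr : Z →* Coprod A₀ Z).range := by
        rw [Subgroup.sup_eq_closure]; exact hx
      have hy' : y ∈ D.map (Coprod.inl : A₀ →* Coprod A₀ Z) ⊔
        (Coprod.inr : Z →* Coprod A₀ Z).range := by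
        rw [Subgroup.sup_eq_closure]; exact hy
      rw [map_mul, ihx hx', ihy hy', ← map_mul]
      refine congrArg (PushoutI.of (φ := incl (sA K A₀ Z) (sB K Z D) (sC K Z D) le) true) ?_
      apply Subtype.ext
      simp
    | inv x hx ihx =>
      have hx' : x ∈ D.map (Coprod.inl : A₀ →* Coprod A₀ Z) ⊔
        (Coprod.inr : Z →* Coprod A₀ Z).range := by
        rw [Subgroup.sup_eq_closure]; exact hx
      rw [map_inv, ihx hx', ← map_inv]
      refine congrArg (PushoutI.of (φ := incl (sA K A₀ Z) (sB K Z D) (sC K Z D) le) true) ?_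
      apply Subtype.ext
      simp
  have left : Ψ.comp Φ = MonoidHom.id P := by
    apply PushoutI.hom_ext_nonempty
    intro i
    ext x
    cases i
    · simp only [MonoidHom.comp_apply]
      rw [hΦ0]
      obtain ⟨⟨k, l⟩, ⟨-, ⟨a, ha⟩⟩⟩ := x
      simp only at ha
      subst ha
      rw [hΨ, hfK false]
      have : fL (Coprod.inl a) =
        PushoutI.of (φ := incl (sA K A₀ Z) (sB K Z D) (sC K Z D) le) false (jA a) := by
        simp [fL]
      rw [this, ← map_mul]
      refine congrArg (PushoutI.of (φ := incl (sA K A₀ Z) (sB K Z D) (sC K Z D) le) false) ?_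
      apply Subtype.ext
      rw [Subgroup.coe_mul, hincl, hjK, hjA]
      simp
    · simp only [MonoidHom.comp_apply]
      rw [hΦ1]
      obtain ⟨⟨k, l⟩, ⟨-, hl⟩⟩ := x
      rw [hΨ, hfK true, key l hl, ← map_mul]
      refine congrArg (PushoutI.of (φ := incl (sA K A₀ Z) (sB K Z D) (sC K Z D) le) true) ?_
      apply Subtype.ext
      rw [Subgroup.coe_mul, hincl, hjK]
      simp
  have right : Φ.comp Ψ = MonoidHom.id _ := by
    have h1 : Φ.comp fL = MonoidHom.inr K (Coprod A₀ Z) := by
      apply Coprod.hom_ext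
      · apply MonoidHom.ext
        intro a
        simp only [MonoidHom.comp_apply, fL, Coprod.lift_apply_inl]
        rw [hΦ0, hjA]
        rfl
      · apply MonoidHom.ext
        intro a
        simp only [MonoidHom.comp_apply, fL, Coprod.lift_apply_inr]
        rw [hΦ1, hjZ]
        rfl
    apply MonoidHom.ext
    rintro ⟨k, l⟩
    have h2 : Φ (fL l) = (1, l) := by
      rw [← MonoidHom.comp_apply, h1]
      rfl
    simp only [MonoidHom.comp_apply, MonoidHom.id_apply]
    rw [hΨ, map_mul, h2]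
    have h3 : Φ (fK k) = (k, 1) := by
      simp only [fK, MonoidHom.comp_apply]
      rw [hΦb, hjK]
    rw [h3]
    simp
  refine ⟨le, ⟨?_, ?_⟩, ?_, ?_⟩
  · intro x y hxy
    have : Ψ (Φ x) = Ψ (Φ y) := congrArg Ψ hxy
    rwa [← MonoidHom.comp_apply, ← MonoidHom.comp_apply, left] at this
  · intro x
    refine ⟨Ψ x, ?_⟩
    change (Φ.comp Ψ) x = x
    rw [right]
    rfl
  · intro h
    obtain ⟨a, ha⟩ : ∃ a, a ∉ D := by
      by_contra hh
      push Not at hh
      exact hD (eq_top_iff.2 fun x _ => hh x)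
    have h1 : ((1, Coprod.inl a) : K × Coprod A₀ Z) ∈ sA K A₀ Z := ⟨trivial, ⟨a, rfl⟩⟩
    rw [← h] at h1
    obtain ⟨-, ⟨d, hd, hda⟩⟩ := h1
    have := Coprod.inl_injective hda
    subst this
    exact ha hd
  · intro h
    obtain ⟨z, hz⟩ := exists_ne (1 : Z)
    have h1 : ((1, Coprod.inr z) : K × Coprod A₀ Z) ∈ sB K Z D :=
      ⟨trivial, (le_sup_right (a := D.map (Coprod.inl : A₀ →* Coprod A₀ Z))) ⟨z, rfl⟩⟩
    rw [← h] at h1
    obtain ⟨-, ⟨d, hd, hda⟩⟩ := h1
    have := congrArg (Coprod.snd : Coprod A₀ Z →* Z) hda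
    simp at this
    exact hz this.symm

end Amalgam

section HNN

variable (K : Type*) {A₀ : Type*} [Group K] [Group A₀]

/-- the generator `t` of `ℤ` in `A₀ * ℤ` -/
def tau (A₀ : Type*) [Group A₀] : Coprod A₀ (Multiplicative ℤ) :=
  Coprod.inr (Multiplicative.ofAdd (1 : ℤ))

/-- `K × ⟨A₀, t D t⁻¹⟩` -/
def sH (D : Subgroup A₀) : Subgroup (K × Coprod A₀ (Multiplicative ℤ)) :=
  (⊤ : Subgroup K).prod ((Coprod.inl : A₀ →* Coprod A₀ (Multiplicative ℤ)).range ⊔
    (D.map (Coprod.inl : A₀ →* Coprod A₀ (Multiplicative ℤ))).map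
      (MulAut.conj (tau A₀)).toMonoidHom)

variable {K}

theorem isHNN_build (D : Subgroup A₀) :
    IsHNN (sH K D) (sC K (Multiplicative ℤ) D) := by
  have hle : sC K (Multiplicative ℤ) D ≤ sH K D :=
    Subgroup.prod_mono le_rfl (le_trans (Subgroup.map_le_range _ _) le_sup_left)
  refine ⟨hle, ?_⟩
  let C' := (sC K (Multiplicative ℤ) D).subgroupOf (sH K D)
  let T : (K × Coprod A₀ (Multiplicative ℤ)) := (1, tau A₀)
  have hconj : ∀ c : C', T * ((c : sH K D) : (K × Coprod A₀ (Multiplicative ℤ))) * T⁻¹ ∈ sH K D := by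
    rintro ⟨⟨⟨k, l⟩, hh⟩, hc⟩
    obtain ⟨-, ⟨d, hd, hdl⟩⟩ := Subgroup.mem_subgroupOf.1 hc
    simp only at hdl
    subst hdl
    refine ⟨trivial, ?_⟩
    refine (le_sup_right (a := (Coprod.inl : A₀ →* Coprod A₀ (Multiplicative ℤ)).range)) ?_
    exact ⟨Coprod.inl d, ⟨d, hd, rfl⟩, rfl⟩
  let ψ : C' →* sH K D :=
    ((MulAut.conj T).toMonoidHom.comp ((sH K D).subtype.comp C'.subtype)).codRestrict (sH K D)
      hconj
  have hψ : ∀ c : C', ((ψ c : sH K D) : (K × Coprod A₀ (Multiplicative ℤ))) = T * ((c : sH K D) : (K × Coprod A₀ (Multiplicative ℤ))) * T⁻¹ := fun _ => rfl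
  have hψinj : Function.Injective ψ := by
    intro c d hcd
    have h1 : T * ((c : sH K D) : (K × Coprod A₀ (Multiplicative ℤ))) * T⁻¹ = T * ((d : sH K D) : (K × Coprod A₀ (Multiplicative ℤ))) * T⁻¹ := by
      rw [← hψ, ← hψ, hcd]
    apply Subtype.ext
    apply Subtype.ext
    simpa using h1
  let φ : C' ≃* ψ.range := MonoidHom.ofInjective hψinj
  have hφ : ∀ c : C', (((φ c : ψ.range) : sH K D) : (K × Coprod A₀ (Multiplicative ℤ))) = T * ((c : sH K D) : (K × Coprod A₀ (Multiplicative ℤ))) * T⁻¹ := fun _ => rfl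
  let E := HNNExtension (sH K D) C' ψ.range φ
  let Φ : E →* (K × Coprod A₀ (Multiplicative ℤ)) := HNNExtension.lift (sH K D).subtype T (by
    intro a
    change T * ((a : sH K D) : (K × Coprod A₀ (Multiplicative ℤ))) = (((φ a : ψ.range) : sH K D) : (K × Coprod A₀ (Multiplicative ℤ))) * T
    rw [hφ, inv_mul_cancel_right])
  have hΦof : ∀ x : sH K D, Φ (HNNExtension.of x) = x := by
    intro x
    exact HNNExtension.lift_of _ _ _ _
  have hΦt : Φ HNNExtension.t = T := HNNExtension.lift_t _ _ _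
  let jK : K →* sH K D := (MonoidHom.inl K (Coprod A₀ (Multiplicative ℤ))).codRestrict _
    (fun k => hle ⟨trivial, ⟨1, one_mem _, map_one _⟩⟩)
  let jA : A₀ →* sH K D :=
    ((MonoidHom.inr K (Coprod A₀ (Multiplicative ℤ))).comp Coprod.inl).codRestrict _
    (fun a => ⟨trivial, (le_sup_left (b := (D.map
      (Coprod.inl : A₀ →* Coprod A₀ (Multiplicative ℤ))).map
      (MulAut.conj (tau A₀)).toMonoidHom)) ⟨a, rfl⟩⟩)
  have hjK : ∀ k, ((jK k : sH K D) : (K × Coprod A₀ (Multiplicative ℤ))) = (k, 1) := fun _ => rfl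
  have hjA : ∀ a, ((jA a : sH K D) : (K × Coprod A₀ (Multiplicative ℤ))) = (1, Coprod.inl a) := fun _ => rfl
  let fK : K →* E := HNNExtension.of.comp jK
  let fL : Coprod A₀ (Multiplicative ℤ) →* E :=
    Coprod.lift (HNNExtension.of.comp jA) (zpowersHom E HNNExtension.t)
  have hfLinl : ∀ a, fL (Coprod.inl a) = HNNExtension.of (jA a) := by
    intro a
    simp [fL]
  have hfLtau : fL (tau A₀) = HNNExtension.t := by
    simp [fL, tau]
  have hjKmem : ∀ k, jK k ∈ C' := by
    intro k
    rw [Subgroup.mem_subgroupOf]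
    exact ⟨trivial, ⟨1, one_mem _, map_one _⟩⟩
  have hKt : ∀ k, Commute (fK k) (HNNExtension.t : E) := by
    intro k
    have h1 := HNNExtension.t_mul_of (φ := φ) (⟨jK k, hjKmem k⟩ : C')
    have h2 : ((φ ⟨jK k, hjKmem k⟩ : ψ.range) : sH K D) = jK k := by
      apply Subtype.ext
      rw [hφ]
      simp only [hjK, T]
      ext <;> simp
    rw [h2] at h1
    exact h1.symm
  have comm : ∀ k l, Commute (fK k) (fL l) := by
    intro k l
    induction l using Coprod.induction_on with
    | inl a =>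
      rw [hfLinl]
      change Commute (HNNExtension.of (jK k)) (HNNExtension.of (jA a))
      apply Commute.map
      apply Subtype.ext
      rw [Subgroup.coe_mul, Subgroup.coe_mul, hjK, hjA]
      simp
    | inr z =>
      have : fL (Coprod.inr z) = (HNNExtension.t : E) ^ (Multiplicative.toAdd z) := by
        simp [fL]
      rw [this]
      exact (hKt k).zpow_right _
    | mul x y hx hy =>
      rw [map_mul]
      exact hx.mul_right hy
  let Ψ : (K × Coprod A₀ (Multiplicative ℤ)) →* E := fK.noncommCoprod fL comm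
  have hΨ : ∀ k l, Ψ (k, l) = fK k * fL l := fun k l => rfl
  have key : ∀ l (hl : l ∈ (Coprod.inl : A₀ →* Coprod A₀ (Multiplicative ℤ)).range ⊔
      (D.map (Coprod.inl : A₀ →* Coprod A₀ (Multiplicative ℤ))).map
      (MulAut.conj (tau A₀)).toMonoidHom), fL l =
      HNNExtension.of ⟨(1, l), ⟨trivial, hl⟩⟩ := by
    intro l hl
    have hl' := hl
    rw [Subgroup.sup_eq_closure] at hl'
    induction hl' using Subgroup.closure_induction with
    | mem x hx =>
      rcases hx with ⟨a, rfl⟩ | ⟨y, ⟨d, hd, rfl⟩, rfl⟩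
      · rw [hfLinl]
        rfl
      · have h0 : (jA d) ∈ C' := by
          rw [Subgroup.mem_subgroupOf]
          exact ⟨trivial, ⟨d, hd, rfl⟩⟩
        have h1 := HNNExtension.equiv_eq_conj (φ := φ) (⟨jA d, h0⟩ : C')
        have h2 : ((φ ⟨jA d, h0⟩ : ψ.range) : sH K D) =
            ⟨(1, (MulAut.conj (tau A₀)).toMonoidHom (Coprod.inl d)), ⟨trivial, hl⟩⟩ := by
          apply Subtype.ext
          rw [hφ]
          simp only [hjA, T]
          ext <;> simp
        rw [h2] at h1
        rw [h1]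
        have h3 : (MulAut.conj (tau A₀)).toMonoidHom (Coprod.inl d) =
          tau A₀ * Coprod.inl d * (tau A₀)⁻¹ := rfl
        rw [h3, map_mul, map_mul, map_inv, hfLinl, hfLtau]
    | one =>
      rw [map_one]
      exact (map_one _).symm
    | mul x y hx hy ihx ihy =>
      rw [← Subgroup.sup_eq_closure] at hx hy
      rw [map_mul, ihx hx, ihy hy, ← map_mul]
      refine congrArg HNNExtension.of ?_
      apply Subtype.ext
      simp
    | inv x hx ihx =>
      rw [← Subgroup.sup_eq_closure] at hx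
      rw [map_inv, ihx hx, ← map_inv]
      refine congrArg HNNExtension.of ?_
      apply Subtype.ext
      simp
  have left : Ψ.comp Φ = MonoidHom.id E := by
    apply HNNExtension.hom_ext
    · apply MonoidHom.ext
      rintro ⟨⟨k, l⟩, ⟨hk, hl⟩⟩
      simp only [MonoidHom.comp_apply]
      rw [hΦof, hΨ, key l hl]
      simp only [fK, MonoidHom.comp_apply]
      rw [← map_mul]
      refine congrArg HNNExtension.of ?_
      apply Subtype.ext
      rw [Subgroup.coe_mul, hjK]
      simp
    · simp only [MonoidHom.comp_apply]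
      rw [hΦt, hΨ, map_one, one_mul, hfLtau]
      rfl
  have right : Φ.comp Ψ = MonoidHom.id (K × Coprod A₀ (Multiplicative ℤ)) := by
    have h1 : Φ.comp fL = MonoidHom.inr K (Coprod A₀ (Multiplicative ℤ)) := by
      apply Coprod.hom_ext
      · apply MonoidHom.ext
        intro a
        simp only [MonoidHom.comp_apply]
        rw [hfLinl, hΦof, hjA]
        rfl
      · apply MonoidHom.ext_mint
        simp only [MonoidHom.comp_apply]
        change Φ (fL (tau A₀)) = _
        rw [hfLtau, hΦt]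
        rfl
    apply MonoidHom.ext
    rintro ⟨k, l⟩
    have h2 : Φ (fL l) = (1, l) := by
      rw [← MonoidHom.comp_apply, h1]
      rfl
    simp only [MonoidHom.comp_apply, MonoidHom.id_apply]
    rw [hΨ, map_mul, h2]
    have h3 : Φ (fK k) = (k, 1) := by
      simp only [fK, MonoidHom.comp_apply]
      rw [hΦof, hjK]
    rw [h3]
    simp
  exact ⟨ψ.range, φ, MonoidHom.toMulEquiv Φ Ψ left right, hΦof⟩

end HNN

end Pool.Agent.helper5.Split
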