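import Pool.Agent.helper5.SplitBuild

set_option autoImplicit false

/-!
A finitely generated group of permutations of `ℤ` containing an involution and a strictly
ascending chain of finite subgroups starting at the trivial group, and slenderness of the
subgroups `K × D`.
-/

namespace Pool.Agent.helper5.Split

open Monoid

/-- the group of permutations of `ℤ` generated by the translation by `1` and the transposition
`(0 1)` -/
def PermGp : Subgroup (Equiv.Perm ℤ) :=
  Subgroup.closure {Equiv.addRight (1 : ℤ), Equiv.swap 0 1}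

instance : Group.FG PermGp := by
  have : Finite ({Equiv.addRight (1 : ℤ), Equiv.swap 0 1} : Set (Equiv.Perm ℤ)) := by
    infer_instance
  exact Group.closure_finite_fg _

/-- the permutations in `PermGp` which fix all integers outside of the interval `[0, n]` -/
def Dn (n : ℕ) : Subgroup PermGp :=
  (fixingSubgroup (Equiv.Perm ℤ) {m : ℤ | ¬ (0 ≤ m ∧ m ≤ n)}).subgroupOf PermGp

lemma mem_Dn {n : ℕ} {σ : PermGp} :
    σ ∈ Dn n ↔ ∀ m : ℤ, ¬ (0 ≤ m ∧ m ≤ n) → (σ : Equiv.Perm ℤ) m = m := by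
  rw [Dn, Subgroup.mem_subgroupOf, mem_fixingSubgroup_iff]
  rfl

lemma swap_mem (n : ℕ) : Equiv.swap (n : ℤ) (n + 1) ∈ PermGp := by
  have h1 : (Equiv.addRight (1 : ℤ)) ^ n ∈ PermGp :=
    pow_mem (Subgroup.subset_closure (by simp)) n
  have h2 : Equiv.swap (0 : ℤ) 1 ∈ PermGp := Subgroup.subset_closure (by simp)
  have h3 : ∀ (n : ℕ) (m : ℤ), ((Equiv.addRight (1 : ℤ)) ^ n) m = m + n := by
    intro n m
    induction n generalizing m with
    | zero => simp
    | succ n ih =>
      rw [pow_succ, Equiv.Perm.mul_apply, ih]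
      simp only [Equiv.coe_addRight]
      push_cast
      ring
  have h4 := Equiv.swap_apply_apply ((Equiv.addRight (1 : ℤ)) ^ n) 0 1
  rw [h3, h3] at h4
  have h5 : Equiv.swap (n : ℤ) (n + 1) = Equiv.swap (0 + (n : ℤ)) (1 + (n : ℤ)) := by
    congr 1 <;> ring
  rw [h5, h4]
  exact mul_mem (mul_mem h1 h2) (inv_mem h1)

lemma Dn_lt (n : ℕ) : Dn n < Dn (n + 1) := by
  rw [SetLike.lt_iff_le_and_exists]
  refine ⟨?_, ⟨Equiv.swap (n : ℤ) (n + 1), swap_mem n⟩, ?_, ?_⟩
  · intro σ hσ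
    rw [mem_Dn] at hσ ⊢
    intro m hm
    apply hσ
    push_cast at hm
    omega
  · rw [mem_Dn]
    intro m hm
    push_cast at hm
    apply Equiv.swap_apply_of_ne_of_ne <;> omega
  · rw [mem_Dn]
    intro h
    have := h (n + 1) (by omega)
    simp at this

lemma Dn_zero : Dn 0 = ⊥ := by
  rw [eq_bot_iff]
  intro σ hσ
  rw [mem_Dn] at hσ
  rw [Subgroup.mem_bot]
  apply Subtype.ext
  have h0 : ∀ m : ℤ, m ≠ 0 → (σ : Equiv.Perm ℤ) m = m := by
    intro m hm
    apply hσ
    push_cast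
    omega
  apply Equiv.ext
  intro m
  by_cases hm : m = 0
  · subst hm
    by_contra hne
    have hne' : (σ : Equiv.Perm ℤ) 0 ≠ 0 := hne
    have := h0 _ hne'
    exact hne' ((σ : Equiv.Perm ℤ).injective this)
  · exact h0 m hm

lemma Dn_ne_top (n : ℕ) : Dn n ≠ ⊤ := by
  intro h
  have := Dn_lt n
  rw [h] at this
  exact not_top_lt this

instance (n : ℕ) : Finite (Dn n) := by
  have hfin : Finite {m : ℤ // 0 ≤ m ∧ m ≤ n} := (Set.finite_Icc (0 : ℤ) n).to_subtype
  have : Finite (Equiv.Perm {m : ℤ // 0 ≤ m ∧ m ≤ n}) := inferInstance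
  have : Finite {f : Equiv.Perm ℤ // ∀ a, ¬ (0 ≤ a ∧ a ≤ (n : ℤ)) → f a = a} :=
    Finite.of_equiv _ (Equiv.Perm.subtypeEquivSubtypePerm (fun m : ℤ => 0 ≤ m ∧ m ≤ n))
  apply Finite.of_injective
    (fun σ : Dn n => (⟨(σ : PermGp), fun a ha => (mem_Dn.1 σ.2) a ha⟩ :
      {f : Equiv.Perm ℤ // ∀ a, ¬ (0 ≤ a ∧ a ≤ (n : ℤ)) → f a = a}))
  intro σ τ h
  simp only [Subtype.mk.injEq] at h
  exact Subtype.ext (Subtype.ext h)

/-- an extension of a slender group by a finite group is slender -/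
lemma slender_of_exact {K S F : Type*} [Group K] [Group S] [Group F] (j : K →* S) (f : S →* F)
    (hjf : f.ker ≤ j.range) (hfin : Finite f.range) (hK : Slender K) : Slender S := by
  intro T
  have h1 : (T ⊓ f.ker).FG := by
    have h2 : T ⊓ f.ker = ((T ⊓ f.ker).comap j).map j := by
      rw [Subgroup.map_comap_eq]
      rw [eq_comm, inf_eq_right]
      exact le_trans inf_le_right hjf
    rw [h2]
    have := hK ((T ⊓ f.ker).comap j)
    rw [Subgroup.fg_iff_submonoid_fg] at this ⊢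
    exact this.map j
  have hfin' : Finite (T.map f) := by
    apply Finite.of_injective (fun x : T.map f => (⟨x.1, Subgroup.map_le_range f T x.2⟩ : f.range))
    intro x y h
    simp only [Subtype.mk.injEq] at h
    exact Subtype.ext h
  choose g hgT hg using fun y : T.map f => (Subgroup.mem_map.1 y.2)
  have h3 : T = (T ⊓ f.ker) ⊔ Subgroup.closure (Set.range g) := by
    apply le_antisymm
    · intro x hx
      have hy : f x ∈ T.map f := ⟨x, hx, rfl⟩
      have h4 : x * (g ⟨f x, hy⟩)⁻¹ ∈ T ⊓ f.ker := by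
        refine Subgroup.mem_inf.2 ⟨mul_mem hx (inv_mem (hgT _)), ?_⟩
        rw [MonoidHom.mem_ker, map_mul, map_inv, hg]
        simp
      have h5 : x = x * (g ⟨f x, hy⟩)⁻¹ * g ⟨f x, hy⟩ := by group
      rw [h5]
      exact Subgroup.mul_mem_sup h4 (Subgroup.subset_closure ⟨_, rfl⟩)
    · rw [sup_le_iff]
      refine ⟨inf_le_left, ?_⟩
      rw [Subgroup.closure_le]
      rintro _ ⟨y, rfl⟩
      exact hgT y
  rw [h3]
  refine Subgroup.FG.sup h1 ?_
  exact ⟨(Set.finite_range g).toFinset, by simp⟩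

lemma slender_sC {K A₀ Z : Type*} [Group K] [Group A₀] [Group Z] (hK : Slender K)
    (D : Subgroup A₀) [Finite D] : Slender (sC K Z D) := by
  let j : K →* sC K Z D := (MonoidHom.inl K (Coprod A₀ Z)).codRestrict _
    (fun k => ⟨trivial, ⟨1, one_mem _, map_one _⟩⟩)
  let f : sC K Z D →* Coprod A₀ Z := (MonoidHom.snd K (Coprod A₀ Z)).comp (sC K Z D).subtype
  refine slender_of_exact j f ?_ ?_ hK
  · rintro ⟨⟨k, l⟩, hh⟩ hx
    rw [MonoidHom.mem_ker] at hx
    have : l = 1 := hx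
    subst this
    exact ⟨k, rfl⟩
  · have h1 : f.range ≤ D.map (Coprod.inl : A₀ →* Coprod A₀ Z) := by
      rintro _ ⟨⟨⟨k, l⟩, ⟨-, hl⟩⟩, rfl⟩
      exact hl
    have h2 : Finite (D.map (Coprod.inl : A₀ →* Coprod A₀ Z)) := by
      have : Finite ((D : Set A₀).image (Coprod.inl : A₀ →* Coprod A₀ Z)) :=
        Set.Finite.to_subtype (Set.Finite.image _ (Set.toFinite _))
      exact this
    exact Finite.of_injective (Subgroup.inclusion h1) (Subgroup.inclusion_injective h1)

lemma sC_lt {K A₀ Z : Type*} [Group K] [Group A₀] [Group Z] {D E : Subgroup A₀} (h : D < E) :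
    sC K Z D < sC K Z E := by
  rw [SetLike.lt_iff_le_and_exists]
  refine ⟨Subgroup.prod_mono le_rfl (Subgroup.map_mono h.le), ?_⟩
  obtain ⟨e, he, heD⟩ := SetLike.exists_of_lt h
  refine ⟨(1, Coprod.inl e), ⟨trivial, ⟨e, he, rfl⟩⟩, ?_⟩
  rintro ⟨-, ⟨d, hd, hde⟩⟩
  have := Coprod.inl_injective hde
  subst this
  exact heD hd

lemma sC_bot {K A₀ Z : Type*} [Group K] [Group A₀] [Group Z] :
    sC K Z (⊥ : Subgroup A₀) = (⊤ : Subgroup K).prod ⊥ := by
  rw [sC, Subgroup.map_bot]

/-- finite generation of `K × (A₀ * Z)` -/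
lemma fg_prod_coprod {K A₀ Z : Type*} [Group K] [Group A₀] [Group Z] (hK : Group.FG K)
    (hA : Group.FG A₀) (hZ : Group.FG Z) : Group.FG (K × Coprod A₀ Z) := by
  have : Group.FG (Coprod A₀ Z) := by
    rw [Group.fg_def, ← Coprod.range_inl_sup_range_inr]
    refine Subgroup.FG.sup ?_ ?_
    · rw [← Group.fg_iff_subgroup_fg]
      infer_instance
    · rw [← Group.fg_iff_subgroup_fg]
      infer_instance
  infer_instance

/-- `K × 1` is isomorphic to `K`. -/
noncomputable def prodBotEquiv (K L : Type*) [Group K] [Group L] :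
    ((⊤ : Subgroup K).prod (⊥ : Subgroup L)) ≃* K :=
  (MonoidHom.toMulEquiv
    ((MonoidHom.inl K L).codRestrict ((⊤ : Subgroup K).prod (⊥ : Subgroup L))
      (fun _ => ⟨trivial, rfl⟩))
    ((MonoidHom.fst K L).comp (Subgroup.subtype _))
    (by ext k; rfl)
    (by
      apply MonoidHom.ext
      rintro ⟨⟨k, l⟩, ⟨-, hl⟩⟩
      have : l = 1 := hl
      subst this
      rfl)).symm

end Pool.Agent.helper5.Split
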