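import Mathlib

set_option autoImplicit false

/-!
Definitions for splittings of groups, following the problem file MP_4681e4_al.
-/

namespace Pool.Agent.helper5.Split

/-- A group is slender if every subgroup of it is finitely generated. -/
def Slender (S : Type*) [Group S] : Prop := ∀ T : Subgroup S, T.FG

variable {G : Type*} [Group G]

/-- The two factors `A`, `B` of a prospective amalgam, as a family indexed by `Bool`. -/
def factor (A B : Subgroup G) : Bool → Subgroup G
  | false => A
  | true => B

/-- The inclusions `C → A` and `C → B` as a family indexed by `Bool`. -/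
def incl (A B C : Subgroup G) (h : ∀ i, C ≤ factor A B i) (i : Bool) : C →* factor A B i :=
  Subgroup.inclusion (h i)

/-- The homomorphism from the amalgamated free product of `A` and `B` over `C`
(Mathlib's `Monoid.PushoutI` of the inclusions) to `G` which is induced by the inclusions of
`A`, `B`, `C` into `G`. -/
def amalgamHom (A B C : Subgroup G) (h : ∀ i, C ≤ factor A B i) :
    Monoid.PushoutI (incl A B C h) →* G :=
  Monoid.PushoutI.lift (fun i => (factor A B i).subtype) C.subtype (fun _ => rfl)

/-- `G = A *_C B`, a nontrivial splitting: `C ≤ A ∩ B`, `C ≠ A`, `C ≠ B` and the homomorphism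
from the amalgamated free product to `G` induced by the inclusions is an isomorphism. -/
structure IsAmalgam (A B C : Subgroup G) : Prop where
  le : ∀ i, C ≤ factor A B i
  bijective : Function.Bijective (amalgamHom A B C le)
  ne_left : C ≠ A
  ne_right : C ≠ B

/-- `G` is an HNN extension `H *_C` with base `H` and edge group `C`: the subgroup `C` of `H` is
isomorphic, by some `φ`, to a second subgroup `D` of `H`, and there is an isomorphism from the HNN
extension of `H` along `φ : C ≃* D` (Mathlib's `HNNExtension`) to `G` which is the inclusion on
the base `H`. -/
def IsHNN (H C : Subgroup G) : Prop :=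
  C ≤ H ∧ ∃ (D : Subgroup H) (φ : C.subgroupOf H ≃* D)
    (e : HNNExtension H (C.subgroupOf H) D φ ≃* G), ∀ h : H, e (HNNExtension.of h) = h

/-- `G` splits nontrivially over the subgroup `C`, as an amalgam or as an HNN extension, with any
vertex groups. -/
def SplitsOver (C : Subgroup G) : Prop :=
  (∃ A B : Subgroup G, IsAmalgam A B C) ∨ ∃ H : Subgroup G, IsHNN H C

end Pool.Agent.helper5.Split
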