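import Pool.Agent.helper5.SplitAmalgam
import Pool.Agent.helper5.SplitHNN
import Pool.Agent.helper5.SplitChain

set_option autoImplicit false

/-!
The group `K × (PermGp * ℤ)` does not split over a proper subgroup of `K × 1`.
-/

namespace Pool.Agent.helper5.Split

open Monoid

lemma not_splitsOver_of_lt {K : Type*} [Group K]
    {C : Subgroup (K × Coprod PermGp (Multiplicative ℤ))}
    (hC : C < sC K (Multiplicative ℤ) (Dn 0)) : ¬ SplitsOver C := by
  rw [Dn_zero, sC_bot] at hC
  let N₁ : Subgroup (K × Coprod PermGp (Multiplicative ℤ)) := (⊤ : Subgroup K).prod ⊥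
  let N₂ : Subgroup (K × Coprod PermGp (Multiplicative ℤ)) := (⊥ : Subgroup K).prod ⊤
  have h1 : N₁.Normal := by
    dsimp only [N₁]
    infer_instance
  have h2 : N₂.Normal := by
    dsimp only [N₂]
    infer_instance
  have h3 : Disjoint N₁ N₂ := by
    rw [Subgroup.disjoint_def]
    rintro ⟨k, l⟩ ⟨-, hl⟩ ⟨hk, -⟩
    have hk' : k = 1 := hk
    have hl' : l = 1 := hl
    rw [hk', hl']
    rfl
  let s : PermGp := ⟨Equiv.swap (0 : ℤ) 1, Subgroup.subset_closure (by simp)⟩
  have hs1 : s ≠ 1 := by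
    intro h
    have h4 : Equiv.swap (0 : ℤ) 1 = 1 := congrArg Subtype.val h
    have h5 := congrArg (fun σ : Equiv.Perm ℤ => σ 0) h4
    simp at h5
  have hs2 : s * s = 1 := by
    apply Subtype.ext
    exact Equiv.swap_mul_self (0 : ℤ) 1
  let x : K × Coprod PermGp (Multiplicative ℤ) := (1, Coprod.inl s)
  have hx : x ∈ N₂ := ⟨rfl, trivial⟩
  have hx1 : x ≠ 1 := by
    intro h
    have h4 : (Coprod.inl s : Coprod PermGp (Multiplicative ℤ)) = 1 := congrArg Prod.snd h
    apply hs1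
    apply Coprod.inl_injective (N := Multiplicative ℤ)
    rw [h4, map_one]
  have hx2 : x * x = 1 := by
    have : x * x = (1 * 1, Coprod.inl s * Coprod.inl s) := rfl
    rw [this, ← map_mul, hs2, map_one, mul_one]
    rfl
  rintro (⟨A, B, hAB⟩ | ⟨H, hH⟩)
  · exact not_isAmalgam_of_lt h1 h2 h3 hx hx1 hx2 hC hAB
  · exact not_isHNN_of_lt h1 h2 h3 hx hx1 hx2 hC hH

lemma nonempty_equiv (K : Type*) [Group K] :
    Nonempty (sC K (Multiplicative ℤ) (Dn 0) ≃* K) := by
  rw [Dn_zero, sC_bot]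
  exact ⟨prodBotEquiv _ _⟩

end Pool.Agent.helper5.Split
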