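import Pool.Agent.helper5.SplitAmalgam

set_option autoImplicit false

/-!
More on amalgams: a criterion, transfer along isomorphisms, a uniform form of the conjugacy
statement, and the group `A *_C (C × ℤ)`.
-/

namespace Pool.Agent.helper5.Split

open Monoid Monoid.PushoutI

section General

variable {G : Type*} [Group G] {A B C : Subgroup G}

/-- A criterion for being an amalgam. -/
lemma isAmalgam_of_section (le : ∀ i, C ≤ factor A B i) (hAB : A ⊔ B = ⊤)
    (Ψ : G →* PushoutI (incl A B C le))
    (hΨ : ∀ i (x : factor A B i), Ψ (x : G) = of (φ := incl A B C le) i x)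
    (h1 : C ≠ A) (h2 : C ≠ B) : IsAmalgam A B C := by
  refine ⟨le, ⟨?_, ?_⟩, h1, h2⟩
  · have left : Ψ.comp (amalgamHom A B C le) = MonoidHom.id _ := by
      apply PushoutI.hom_ext_nonempty
      intro i
      ext x
      simp only [MonoidHom.comp_apply]
      rw [amalgamHom_of, hΨ]
      rfl
    intro x y hxy
    have : Ψ (amalgamHom A B C le x) = Ψ (amalgamHom A B C le y) := congrArg Ψ hxy
    rwa [← MonoidHom.comp_apply, ← MonoidHom.comp_apply, left] at this
  · rw [← MonoidHom.range_eq_top, eq_top_iff, ← hAB, sup_le_iff]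
    constructor
    · intro x hx
      exact ⟨of (φ := incl A B C le) false ⟨x, hx⟩, amalgamHom_of le false ⟨x, hx⟩⟩
    · intro x hx
      exact ⟨of (φ := incl A B C le) true ⟨x, hx⟩, amalgamHom_of le true ⟨x, hx⟩⟩

lemma IsAmalgam.sup_eq_top (hA : IsAmalgam A B C) : A ⊔ B = ⊤ := by
  obtain ⟨le, bij, -, -⟩ := hA
  rw [eq_top_iff]
  intro g _
  obtain ⟨x, rfl⟩ := bij.surjective g
  induction x using PushoutI.induction_on with
  | of i x =>
    rw [amalgamHom_of]
    cases i
    · exact le_sup_left (a := A) x.2
    · exact le_sup_right (a := A) x.2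
  | base c =>
    rw [amalgamHom_base]
    exact le_sup_left (a := A) (le false c.2)
  | mul x y hx hy =>
    rw [map_mul]
    exact mul_mem (hx trivial) (hy trivial)

lemma factor_map {G' : Type*} [Group G'] (e : G ≃* G') (i : Bool) :
    factor (A.map e.toMonoidHom) (B.map e.toMonoidHom) i = (factor A B i).map e.toMonoidHom := by
  cases i <;> rfl

/-- Transfer of an amalgam along an isomorphism. -/
theorem IsAmalgam.map (hA : IsAmalgam A B C) {G' : Type*} [Group G'] (e : G ≃* G') :
    IsAmalgam (A.map e.toMonoidHom) (B.map e.toMonoidHom) (C.map e.toMonoidHom) := by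
  have hsup := hA.sup_eq_top
  obtain ⟨le, bij, h1, h2⟩ := hA
  have le' : ∀ i, C.map e.toMonoidHom ≤
      factor (A.map e.toMonoidHom) (B.map e.toMonoidHom) i := by
    intro i
    rw [factor_map]
    exact Subgroup.map_mono (le i)
  have hinj : Function.Injective (Subgroup.map (e.toMonoidHom : G →* G')) :=
    Subgroup.map_injective e.injective
  let Φ := MulEquiv.ofBijective (amalgamHom A B C le) bij
  have hΦ : ∀ i (x : factor A B i), Φ.symm (x : G) = of (φ := incl A B C le) i x := by
    intro i x
    rw [MulEquiv.symm_apply_eq]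
    exact (amalgamHom_of le i x).symm
  let r : ∀ i, factor A B i →* factor (A.map e.toMonoidHom) (B.map e.toMonoidHom) i := fun i =>
    (e.toMonoidHom.comp (factor A B i).subtype).codRestrict _ (fun x => by
      rw [factor_map]
      exact ⟨x, x.2, rfl⟩)
  let rC : C →* C.map e.toMonoidHom :=
    (e.toMonoidHom.comp C.subtype).codRestrict _ (fun x => ⟨x, x.2, rfl⟩)
  let M : PushoutI (incl A B C le) →* PushoutI (incl _ _ _ le') :=
    PushoutI.lift (fun i => (of (φ := incl _ _ _ le') i).comp (r i))
      ((base (incl _ _ _ le')).comp rC) (by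
        intro i
        rw [← of_comp_eq_base i]
        rfl)
  have hM : ∀ i (x : factor A B i), M (of (φ := incl A B C le) i x) =
      of (φ := incl _ _ _ le') i (r i x) := by
    intro i x
    exact lift_of (φ := incl A B C le) _ _ _ x
  refine isAmalgam_of_section le' ?_ (M.comp (Φ.symm.toMonoidHom.comp e.symm.toMonoidHom))
    ?_ (fun h => h1 (hinj h)) (fun h => h2 (hinj h))
  · rw [← Subgroup.map_sup, hsup]
    exact Subgroup.map_top_of_surjective _ e.surjective
  · intro i x
    obtain ⟨y, hy, hyx⟩ : ∃ y ∈ factor A B i, e y = x := by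
      have h3 : ∀ z, z ∈ factor (A.map e.toMonoidHom) (B.map e.toMonoidHom) i →
          ∃ y ∈ factor A B i, e y = z := by
        intro z hz
        rw [factor_map] at hz
        exact hz
      exact h3 x x.2
    have : x = r i ⟨y, hy⟩ := Subtype.ext hyx.symm
    subst this
    simp only [MonoidHom.comp_apply]
    rw [← hM, ← hΦ]
    congr 1
    change Φ.symm (e.symm (e y)) = _
    rw [MulEquiv.symm_apply_apply]

/-- conjugating the splitting by an element of the factor `A` -/
theorem IsAmalgam.conj (hA : IsAmalgam A B C) {g : G} (hg : g ∈ A) :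
    IsAmalgam A (B.map (MulAut.conj g).toMonoidHom) (C.map (MulAut.conj g).toMonoidHom) := by
  have h := hA.map (MulAut.conj g)
  have : A.map (MulAut.conj g).toMonoidHom = A := by
    apply le_antisymm
    · rintro _ ⟨a, ha, rfl⟩
      exact mul_mem (mul_mem hg ha) (inv_mem hg)
    · intro a ha
      refine ⟨g⁻¹ * a * g, mul_mem (mul_mem (inv_mem hg) ha) hg, ?_⟩
      simp [mul_assoc]
  rwa [this] at h

/-- Uniform version of the conjugacy statement: given `k` outside of a factor there is an element
`g` of the factor such that each `x` of the factor with `k⁻¹ x k` in the factor satisfies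
`g⁻¹ x g ∈ C`. -/
theorem IsAmalgam.exists_conj_mem (hA : IsAmalgam A B C) {i : Bool} {k : G}
    (hk : k ∉ factor A B i) : ∃ g ∈ factor A B i, ∀ x ∈ factor A B i, ∀ y ∈ factor A B i,
      x * k = k * y → g⁻¹ * x * g ∈ C := by
  have main : ∀ (x y k : G) (p : List Bool), x ∈ factor A B i → y ∈ factor A B i →
      Pat A B C k p → p ≠ [] → some i ≠ p.head? → some i ≠ p.getLast? → x * k = k * y → x ∈ C := by
    intro x y k p hx hy hk hp hhead hlast h
    by_contra hxC
    have h1 : Pat A B C (x * k) ([i] ++ p) := by
      refine pat_mul hA (pat_single hx hxC) hk ?_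
      intro a ha b hb
      simp only [List.getLast?_singleton, Option.mem_def, Option.some.injEq] at ha
      subst ha
      rintro rfl
      exact hhead hb.symm
    by_cases hyC : y ∈ C
    · have h2 : Pat A B C (k * y) (p ++ []) := by
        refine pat_mul hA hk (pat_nil.2 hyC) ?_
        simp
      rw [h] at h1
      have := congrArg List.length (pat_unique hA h1 h2)
      simp at this
    · have h2 : Pat A B C (k * y) (p ++ [i]) := by
        refine pat_mul hA hk (pat_single hy hyC) ?_
        intro a ha b hb
        simp only [List.head?_cons, Option.mem_def, Option.some.injEq] at hb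
        subst hb
        rintro rfl
        exact hlast ha.symm
      rw [h] at h1
      have := pat_unique hA h1 h2
      rcases p with _ | ⟨j, p⟩
      · exact hp rfl
      · simp only [List.cons_append, List.nil_append, List.cons.injEq] at this
        apply hhead
        simp [this.1]
  have main2 : ∀ (x y k : G) (p : List Bool), x ∈ factor A B i → y ∈ factor A B i →
      Pat A B C k p → p ≠ [] → some i ≠ p.head? → x * k = k * y → x ∈ C := by
    intro x y k p hx hy hk hp hhead h
    by_cases hlast : some i = p.getLast?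
    · rcases List.eq_nil_or_concat' p with rfl | ⟨q, j, rfl⟩
      · exact absurd rfl hp
      · simp only [List.getLast?_append, List.getLast?_singleton, Option.some_or,
          Option.some.injEq] at hlast
        subst hlast
        obtain ⟨k', b, rfl, hk', hb⟩ := pat_split hk
        have hbi := mem_factor_of_pat_single hA hb
        have hq : q ≠ [] := by
          rintro rfl
          apply hhead
          simp
        refine main x (b * y * b⁻¹) k' q hx (mul_mem (mul_mem hbi hy) (inv_mem hbi)) hk' hq ?_ ?_ ?_
        · intro hh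
          apply hhead
          rw [List.head?_append_of_ne_nil _ hq]
          exact hh
        · intro hh
          have := (List.isChain_append.1 (pat_chain hk)).2.2 i hh.symm i (by simp)
          exact this rfl
        · have : x * (k' * b) * b⁻¹ = k' * b * y * b⁻¹ := by rw [h]
          simpa [mul_assoc] using this
    · exact main x y k p hx hy hk hp hhead hlast h
  obtain ⟨p, hp⟩ := pat_exists hA k
  have hpne : p ≠ [] := by
    rintro rfl
    exact hk (hA.le _ (pat_nil.1 hp))
  by_cases hhead : some i = p.head?
  · rcases p with _ | ⟨j, p⟩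
    · exact absurd rfl hpne
    · simp only [List.head?_cons, Option.some.injEq] at hhead
      subst hhead
      obtain ⟨a, k', rfl, ha, hk'⟩ := pat_split (p := [i]) (q := p) (by simpa using hp)
      have hai := mem_factor_of_pat_single hA ha
      refine ⟨a, hai, ?_⟩
      intro x hx y hy h
      refine main2 (a⁻¹ * x * a) y k' p (mul_mem (mul_mem (inv_mem hai) hx) hai) hy hk' ?_ ?_ ?_
      · rintro rfl
        apply hk
        exact mul_mem hai (hA.le _ (pat_nil.1 hk'))
      · intro hh
        have := (List.isChain_cons.1 (pat_chain hp)).1 i hh.symm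
        exact this rfl
      · have : a⁻¹ * (x * (a * k')) = a⁻¹ * (a * k' * y) := by rw [h]
        simpa [mul_assoc] using this
  · refine ⟨1, one_mem _, ?_⟩
    intro x hx y hy h
    simpa using main2 x y k p hx hy hp hpne hhead h

end General

section CentralHNN

variable {A₀ : Type*} [Group A₀] (C₀ : Subgroup A₀)

/-- `A₀ *_{C₀} (C₀ × ℤ)`, as the HNN extension of `A₀` whose stable letter centralizes `C₀` -/
abbrev CentExt : Type _ := HNNExtension A₀ C₀ C₀ (MulEquiv.refl C₀)

variable {C₀}

lemma centExt_comm (c : A₀) (hc : c ∈ C₀) :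
    (HNNExtension.t * HNNExtension.of c : CentExt C₀) = HNNExtension.of c * HNNExtension.t :=
  HNNExtension.t_mul_of (φ := MulEquiv.refl C₀) ⟨c, hc⟩

lemma t_not_mem : (HNNExtension.t : CentExt C₀) ∉
    (HNNExtension.of : A₀ →* CentExt C₀).range := by
  intro h
  let w : HNNExtension.NormalWord.ReducedWord A₀ C₀ C₀ := ⟨1, [(1, 1)], by simp⟩
  have h1 : w.prod (MulEquiv.refl C₀) = HNNExtension.t := by
    simp [w, HNNExtension.NormalWord.ReducedWord.prod]
  have := HNNExtension.ReducedWord.toList_eq_nil_of_mem_of_range (MulEquiv.refl C₀) w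
    (by rw [h1]; exact h)
  simp [w] at this

lemma centExt_generate : (HNNExtension.of : A₀ →* CentExt C₀).range ⊔
    Subgroup.zpowers (HNNExtension.t : CentExt C₀) = ⊤ := by
  rw [eq_top_iff]
  intro g _
  induction g using HNNExtension.induction_on with
  | of a => exact le_sup_left (a := (HNNExtension.of : A₀ →* CentExt C₀).range) ⟨a, rfl⟩
  | t =>
    exact le_sup_right (a := (HNNExtension.of : A₀ →* CentExt C₀).range)
      (Subgroup.mem_zpowers _)
  | mul x y hx hy => exact mul_mem (hx trivial) (hy trivial)
  | inv x hx => exact inv_mem (hx trivial)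

/-- For every `C₀ ≤ D < A₀`, the group `A₀ *_{C₀} (C₀ × ℤ)` is also an amalgam of `A₀` and
`⟨D, t⟩` over `D`. -/
theorem centExt_isAmalgam (D : Subgroup A₀) (hCD : C₀ ≤ D) (hD : D ≠ ⊤) :
    IsAmalgam (HNNExtension.of : A₀ →* CentExt C₀).range
      (D.map (HNNExtension.of : A₀ →* CentExt C₀) ⊔
        Subgroup.zpowers (HNNExtension.t : CentExt C₀))
      (D.map (HNNExtension.of : A₀ →* CentExt C₀)) := by
  set o : A₀ →* CentExt C₀ := HNNExtension.of with ho
  set τ : CentExt C₀ := HNNExtension.t with hτ
  have hinj : Function.Injective o := HNNExtension.of_injective (MulEquiv.refl C₀)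
  have le : ∀ i, D.map o ≤ factor o.range (D.map o ⊔ Subgroup.zpowers τ) i := by
    intro i
    cases i
    · exact Subgroup.map_le_range _ _
    · exact le_sup_left
  let fA : A₀ →* PushoutI (incl _ _ _ le) :=
    (of (φ := incl _ _ _ le) false).comp o.rangeRestrict
  let tP : PushoutI (incl _ _ _ le) := of (φ := incl _ _ _ le) true
    ⟨τ, le_sup_right (a := D.map o) (Subgroup.mem_zpowers _)⟩
  have hfAD : ∀ (d : A₀) (hd : d ∈ D), fA d = of (φ := incl _ _ _ le) true
      ⟨o d, le_sup_left (a := D.map o) ⟨d, hd, rfl⟩⟩ := by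
    intro d hd
    have h1 := of_apply_eq_base (incl _ _ _ le) false ⟨o d, ⟨d, hd, rfl⟩⟩
    have h2 := of_apply_eq_base (incl _ _ _ le) true ⟨o d, ⟨d, hd, rfl⟩⟩
    exact h1.trans h2.symm
  let Ψ : CentExt C₀ →* PushoutI (incl _ _ _ le) := HNNExtension.lift fA tP (by
    rintro ⟨c, hc⟩
    change tP * fA c = fA c * tP
    rw [hfAD c (hCD hc)]
    simp only [tP]
    rw [← map_mul, ← map_mul]
    refine congrArg (of (φ := incl _ _ _ le) true) ?_
    apply Subtype.ext
    exact centExt_comm c hc)
  have hΨo : ∀ a, Ψ (o a) = fA a := fun a => HNNExtension.lift_of _ _ _ _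
  have hΨt : Ψ τ = tP := HNNExtension.lift_t _ _ _
  refine isAmalgam_of_section le ?_ Ψ ?_ ?_ ?_
  · rw [eq_top_iff, ← centExt_generate]
    apply sup_le_sup le_rfl
    exact le_sup_right
  · intro i x
    cases i
    · obtain ⟨_, ⟨a, rfl⟩⟩ := x
      exact hΨo a
    · obtain ⟨x, hx⟩ := x
      change Ψ x = of (φ := incl _ _ _ le) true ⟨x, hx⟩
      have hx' := hx
      change x ∈ D.map o ⊔ Subgroup.zpowers τ at hx'
      rw [Subgroup.sup_eq_closure] at hx'
      induction hx' using Subgroup.closure_induction with
      | mem x hx0 =>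
        rcases hx0 with ⟨d, hd, rfl⟩ | hx0
        · rw [hΨo, hfAD d hd]
        · obtain ⟨n, rfl⟩ := hx0
          simp only
          rw [map_zpow, hΨt]
          simp only [tP]
          rw [← map_zpow]
          refine congrArg (of (φ := incl _ _ _ le) true) ?_
          apply Subtype.ext
          simp
      | one =>
        rw [map_one]
        exact (map_one _).symm
      | mul x y hx0 hy0 ihx ihy =>
        rw [← Subgroup.sup_eq_closure] at hx0 hy0
        rw [map_mul, ihx hx0, ihy hy0, ← map_mul]
        refine congrArg (of (φ := incl _ _ _ le) true) ?_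
        apply Subtype.ext
        simp
      | inv x hx0 ihx =>
        rw [← Subgroup.sup_eq_closure] at hx0
        rw [map_inv, ihx hx0, ← map_inv]
        refine congrArg (of (φ := incl _ _ _ le) true) ?_
        apply Subtype.ext
        simp
  · intro h
    apply hD
    rw [eq_top_iff]
    intro a _
    have h1 : o a ∈ D.map o := by
      rw [h]
      exact ⟨a, rfl⟩
    obtain ⟨d, hd, hda⟩ := h1
    rwa [← hinj hda]
  · intro h
    have h1 : τ ∈ D.map o := by
      rw [h]
      exact le_sup_right (a := D.map o) (Subgroup.mem_zpowers _)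
    exact t_not_mem (Subgroup.map_le_range _ _ h1)

lemma centExt_fg (h : Group.FG A₀) : Group.FG (CentExt C₀) := by
  rw [Group.fg_def, ← centExt_generate]
  refine Subgroup.FG.sup ?_ ?_
  · rw [← Group.fg_iff_subgroup_fg]
    infer_instance
  · exact ⟨{HNNExtension.t}, by simp [Subgroup.zpowers_eq_closure]⟩

/-- If `CentExt C₀ = A₀ *_{C'} B'` then some conjugate of `C₀` by an element of `A₀` is contained in
`C'`. -/
theorem centExt_conj_le {B' C' : Subgroup (CentExt C₀)}
    (h : IsAmalgam (HNNExtension.of : A₀ →* CentExt C₀).range B' C') :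
    ∃ a : A₀, ∀ c ∈ C₀, (HNNExtension.of (a⁻¹ * c * a) : CentExt C₀) ∈ C' := by
  obtain ⟨g, ⟨a, ha⟩, hg⟩ := h.exists_conj_mem (i := false) (k := HNNExtension.t) t_not_mem
  refine ⟨a, ?_⟩
  intro c hc
  have := hg (HNNExtension.of c) ⟨c, rfl⟩ (HNNExtension.of c) ⟨c, rfl⟩ (centExt_comm c hc).symm
  rw [map_mul, map_mul, map_inv, ha]
  exact this

end CentralHNN

end Pool.Agent.helper5.Split
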